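import Pool.Agent.Lib.MP_634dc6_al.Cm

/-!
Automorphism groups of small sections; doubling.
-/

namespace Pool.Agent.Lib.MP_634dc6_al

variable {G : Type} [Group G] [Finite G]

theorem autl_two_mul {H K : Subgroup G} (h : H < K) : 2 * Nat.card H ≤ Nat.card K := by
  obtain ⟨c, hc⟩ := Subgroup.card_dvd_of_le h.le
  have h0 : 0 < Nat.card K := Nat.card_pos
  have h1 : c ≠ 1 := by
    rintro rfl
    exact h.ne (Subgroup.eq_of_le_of_card_ge h.le (by omega))
  have h2 : c ≠ 0 := by
    rintro rfl
    omega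
  rw [hc, mul_comm]
  exact Nat.mul_le_mul_left _ (by omega)

theorem autl_gen (H : Subgroup G) : ∃ T : Finset G, H ⊔ Subgroup.closure (T : Set G) = ⊤ ∧
    2 ^ T.card * Nat.card H ≤ Nat.card G := by
  classical
  induction H using WellFoundedGT.induction with
  | ind H ih =>
    by_cases hH : H = ⊤
    · subst hH
      exact ⟨∅, by simp, by simp⟩
    · obtain ⟨g, hg⟩ : ∃ g, g ∉ H := by
        by_contra hc
        push Not at hc
        exact hH ((Subgroup.eq_top_iff' H).2 hc)
      have hlt : H < H ⊔ Subgroup.closure {g} := left_lt_sup.2 fun h =>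
        hg (h (Subgroup.subset_closure (Set.mem_singleton g)))
      obtain ⟨T, h1, h2⟩ := ih _ hlt
      refine ⟨insert g T, ?_, ?_⟩
      · rw [Finset.coe_insert, Set.insert_eq, Subgroup.closure_union, ← sup_assoc, h1]
      · have h3 := autl_two_mul hlt
        calc _ ≤ 2 ^ (T.card + 1) * Nat.card H :=
              Nat.mul_le_mul_right _ (Nat.pow_le_pow_right two_pos (Finset.card_insert_le g T))
          _ = 2 ^ T.card * (2 * Nat.card H) := by ring
          _ ≤ _ := (Nat.mul_le_mul_left _ h3).trans h2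

theorem autl_num (l : ℕ) : ((l + 1) * l) ^ 2 ≤ 256 * 2 ^ l := by
  rcases le_or_gt l 5 with h | h
  · interval_cases l <;> norm_num
  · induction l, h using Nat.le_induction with
    | base => norm_num
    | succ l hl ih =>
      have h1 : (l + 2) ^ 2 ≤ 2 * l ^ 2 := by nlinarith
      calc _ = (l + 2) ^ 2 * (l + 1) ^ 2 := by ring
        _ ≤ 2 * l ^ 2 * (l + 1) ^ 2 := Nat.mul_le_mul_right _ h1
        _ = 2 * ((l + 1) * l) ^ 2 := by ring
        _ ≤ 2 * (256 * 2 ^ l) := Nat.mul_le_mul_left _ ih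
        _ = _ := by ring

omit [Finite G] in
theorem autl_jn_insert {ι : Type} (S : ι → Subgroup G) (a : ι) (J : Set ι) :
    jn S (insert a J) = S a ⊔ jn S J := by
  simp only [jn]
  exact iSup_insert

omit [Finite G] in
theorem autl_jn_empty {ι : Type} (S : ι → Subgroup G) : jn S ∅ = ⊥ := by
  simp [jn]

/-- A finite group is generated by at most `log₂ (card G)` elements (each new generator at least
doubles the subgroup), and an automorphism is determined by the images of the generators. -/
theorem card_mulAut_le (G : Type) [Group G] [Finite G] :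
    Nat.card (MulAut G) ≤ Nat.card G ^ Nat.log 2 (Nat.card G) := by
  obtain ⟨T, h1, h2⟩ := autl_gen (⊥ : Subgroup G)
  rw [bot_sup_eq] at h1
  rw [Subgroup.card_bot, mul_one] at h2
  have hinj : Function.Injective fun (f : MulAut G) (t : T) => f t := by
    intro f f' h
    apply MulEquiv.toMonoidHom_injective
    exact MonoidHom.eq_of_eqOn_dense h1 fun t ht => congrFun h ⟨t, ht⟩
  have h3 := Nat.card_le_card_of_injective _ hinj
  rw [Nat.card_fun, Nat.card_eq_finsetCard] at h3
  exact h3.trans (Nat.pow_le_pow_right Nat.card_pos (Nat.le_log_of_pow_le one_lt_two h2))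

theorem card_mulAut_le_of_cyclic (G : Type) [Group G] [Finite G] [IsCyclic G] :
    Nat.card (MulAut G) ≤ Nat.card G := by
  rw [IsCyclic.card_mulAut]
  exact Nat.totient_le _

/-- With `l = log₂ (x ^ 2)` one has `n ^ log₂ n ≤ 2 ^ ((l + 1) * l)` and `(l + 1) * l ≤ 16 * x`. -/
theorem pow_log_le {n x : ℕ} (h : n ≤ x ^ 2) : n ^ Nat.log 2 n ≤ 2 ^ (16 * x) := by
  rcases Nat.eq_zero_or_pos n with rfl | hn
  · simpa using Nat.one_le_two_pow
  have h1 : n ≤ 2 ^ (Nat.log 2 n + 1) := (Nat.lt_pow_succ_log_self one_lt_two n).le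
  have h2 : 2 ^ Nat.log 2 n ≤ n := Nat.pow_log_le_self 2 hn.ne'
  have h3 : (Nat.log 2 n + 1) * Nat.log 2 n ≤ 16 * x := by
    refine (Nat.pow_le_pow_iff_left two_ne_zero).1 ((autl_num _).trans ?_)
    calc _ ≤ 256 * x ^ 2 := Nat.mul_le_mul_left _ (h2.trans h)
      _ = _ := by ring
  calc _ ≤ (2 ^ (Nat.log 2 n + 1)) ^ Nat.log 2 n := Nat.pow_le_pow_left h1 _
    _ = 2 ^ ((Nat.log 2 n + 1) * Nat.log 2 n) := (pow_mul _ _ _).symm
    _ ≤ _ := Nat.pow_le_pow_right two_pos h3

/-- Conjugation by `g` induces an automorphism `θ` of `↥A ⧸ N.subgroupOf A` (`QuotientGroup.congr`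
or `QuotientGroup.map`), `θ ^ k` is induced by `g ^ k`, and `θ ^ card = 1`. -/
theorem pow_card_mulAut_mem_cm {A N : Subgroup G} [(N.subgroupOf A).Normal] {g : G}
    (hA : cj g A = A) (hN : cj g N = N) :
    g ^ Nat.card (MulAut (A ⧸ N.subgroupOf A)) ∈ cm A N := by
  have gA : g ∈ Subgroup.normalizer (A : Set G) := Subgroup.mem_normalizer_iff_map_conj_eq.2 hA
  have gN : g ∈ Subgroup.normalizer (N : Set G) := Subgroup.mem_normalizer_iff_map_conj_eq.2 hN
  let e : MulAut A := A.normalizerMonoidHom ⟨g, gA⟩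
  have he : ∀ a : A, ((e a : A) : G) = g * a * g⁻¹ := fun a => rfl
  have hek : ∀ (k : ℕ) (a : A), (((e ^ k) a : A) : G) = g ^ k * a * (g ^ k)⁻¹ := by
    intro k
    induction k with
    | zero => simp
    | succ k ih =>
      intro a
      rw [pow_succ', MulAut.mul_apply, he, ih]
      group
  have hmap : (N.subgroupOf A).map (e : A →* A) = N.subgroupOf A := by
    ext a
    rw [← MulEquiv.toMonoidHom_eq_coe, Subgroup.mem_map_equiv, Subgroup.mem_subgroupOf,
      Subgroup.mem_subgroupOf, Subgroup.mem_normalizer_iff.1 gN, ← he, MulEquiv.apply_symm_apply]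
  let θ : MulAut (A ⧸ N.subgroupOf A) := QuotientGroup.congr _ _ e hmap
  have hθ : ∀ (k : ℕ) (a : A), (θ ^ k) (a : A ⧸ N.subgroupOf A) = ((e ^ k) a : A) := by
    intro k
    induction k with
    | zero => simp
    | succ k ih =>
      intro a
      rw [pow_succ', MulAut.mul_apply, ih, pow_succ', MulAut.mul_apply]
      rfl
  refine ⟨Subgroup.mem_normalizer_iff.1 (pow_mem gN _), fun b hb => ?_⟩
  have h1 := hθ (Nat.card (MulAut (A ⧸ N.subgroupOf A))) ⟨b, hb⟩
  rw [pow_card_eq_one', MulAut.one_apply, eq_comm, QuotientGroup.eq_iff_div_mem,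
    Subgroup.mem_subgroupOf, div_eq_mul_inv, Subgroup.coe_mul, hek] at h1
  exact h1

/-- Induction on `J`; a proper subgroup has at most half of the elements. -/
theorem doubling {ι : Type} (A : Subgroup G) (S : ι → Subgroup G) (J : Finset ι)
    (h : ∀ j ∈ J, ¬ S j ≤ A ⊔ jn S ((J : Set ι) \ {j})) :
    2 ^ J.card * Nat.card A ≤ Nat.card ↥(A ⊔ jn S (J : Set ι)) := by
  classical
  induction J using Finset.induction_on with
  | empty => simp [autl_jn_empty]
  | insert a J ha ih =>
    have h1 := ih fun j hj hle => h j (Finset.mem_insert_of_mem hj)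
      (hle.trans (sup_le_sup_left (jn_mono (Set.sdiff_subset_sdiff_left
        (Finset.coe_subset.2 (Finset.subset_insert a J))) fun _ _ => le_rfl) A))
    have h2 := h a (Finset.mem_insert_self a J)
    rw [Finset.coe_insert, Set.insert_sdiff_self_of_notMem (by simpa using ha)] at h2
    have h3 : A ⊔ jn S (J : Set ι) < A ⊔ jn S ((insert a J : Finset ι) : Set ι) := by
      rw [Finset.coe_insert, autl_jn_insert, sup_comm (S a), ← sup_assoc]
      exact left_lt_sup.2 h2
    rw [Finset.card_insert_of_notMem ha]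
    calc _ = 2 * (2 ^ J.card * Nat.card A) := by ring
      _ ≤ _ := (Nat.mul_le_mul_left _ h1).trans (autl_two_mul h3)

/-- Induction on `J`; `Subgroup.coe_mul_of_left_le_normalizer_right`, `Set.natCard_mul_le`. -/
theorem card_jn_le {ι : Type} {S : ι → Subgroup G} {M : ℕ} (J : Finset ι)
    (hc : ∀ i ∈ J, ∀ j ∈ J, i ≠ j → ⁅S i, S j⁆ = ⊥) (hM : ∀ i ∈ J, Nat.card (S i) ≤ M) :
    Nat.card (jn S (J : Set ι)) ≤ M ^ J.card := by
  classical
  induction J using Finset.induction_on with
  | empty => simp [autl_jn_empty]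
  | insert a J ha ih =>
    have h1 := ih (fun i hi j hj => hc i (Finset.mem_insert_of_mem hi) j
      (Finset.mem_insert_of_mem hj)) fun i hi => hM i (Finset.mem_insert_of_mem hi)
    have h2 : jn S (J : Set ι) ≤ Subgroup.normalizer (S a : Set G) := by
      refine jn_le fun i hi => le_trans ?_ (Subgroup.centralizer_le_normalizer _)
      exact Subgroup.commutator_eq_bot_iff_le_centralizer.1 (hc i (Finset.mem_insert_of_mem hi) a
        (Finset.mem_insert_self a J) fun h => ha (h ▸ hi))
    have h3 := Subgroup.coe_mul_of_left_le_normalizer_right _ _ h2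
    rw [Finset.coe_insert, autl_jn_insert, sup_comm, Finset.card_insert_of_notMem ha, pow_succ]
    calc _ = Nat.card ((jn S (J : Set ι) ⊔ S a : Subgroup G) : Set G) := rfl
      _ ≤ Nat.card (jn S (J : Set ι)) * Nat.card (S a) := by
          rw [h3]
          exact Set.natCard_mul_le
      _ ≤ _ := Nat.mul_le_mul h1 (hM a (Finset.mem_insert_self a J))

theorem card_mul_le_card_sup {A B : Subgroup G} (h : A ⊓ B = ⊥) :
    Nat.card A * Nat.card B ≤ Nat.card ↥(A ⊔ B) := by
  rw [← Nat.card_prod]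
  refine Nat.card_le_card_of_injective (fun x : A × B => (⟨x.1 * x.2,
    Subgroup.mul_mem_sup x.1.2 x.2.2⟩ : ↥(A ⊔ B))) fun x y hxy => ?_
  exact Subgroup.mul_injective_of_disjoint (disjoint_iff.2 h) (congrArg Subtype.val hxy)

end Pool.Agent.Lib.MP_634dc6_al
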