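import Pool.Agent.Lib.MP_634dc6_al.Perf

/-!
Minimal normal subgroups and chief series.
-/

namespace Pool.Agent.Lib.MP_634dc6_al

variable {G : Type} [Group G] [Finite G]

omit [Finite G] in
theorem minn_one {V L : Subgroup G} (hV : MinNor V) [L.Normal] (h : ⁅V, L⁆ ≠ ⊥)
    {v : G} (hv : v ∈ V) (hc : ∀ l ∈ L, Commute v l) : v = 1 := by
  have := hV.1
  rcases hV.2.2 (V ⊓ Subgroup.centralizer (L : Set G)) inferInstance inf_le_left with h1 | h1
  · refine Subgroup.mem_bot.1 (h1 ▸ Subgroup.mem_inf.2 ⟨hv, ?_⟩)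
    exact Subgroup.mem_centralizer_iff.2 fun l hl => (hc l hl).symm
  · exact absurd (Subgroup.commutator_eq_bot_iff_le_centralizer.2 (inf_eq_left.1 h1)) h

omit [Finite G] in
theorem minn_inva {ι : Type} {Λ : ι → Subgroup G} {W : Subgroup G} (hW : Inva Λ W)
    (hperm : ∀ g : G, ∃ π : Equiv.Perm ι, ∀ i, cj g (Λ i) = Λ (π i)) (g : G) :
    Inva Λ (cj g W) := by
  obtain ⟨π, hπ⟩ := hperm g⁻¹
  intro i l hl w hw
  have h1 := hW (π i) _ (hπ i ▸ conj_mem_cj g⁻¹ hl) _ (mem_cj.1 hw)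
  rw [mem_cj]
  convert h1 using 1
  group

theorem exists_minNor {N : Subgroup G} [N.Normal] (hN : N ≠ ⊥) : ∃ V, V ≤ N ∧ MinNor V := by
  obtain ⟨V, hV, h⟩ := (wellFounded_lt (α := Subgroup G)).has_min
    {V | V ≤ N ∧ V.Normal ∧ V ≠ ⊥} ⟨N, le_rfl, inferInstance, hN⟩
  refine ⟨V, hV.1, hV.2.1, hV.2.2, fun W hW hle => or_iff_not_imp_left.2 fun h0 => ?_⟩
  exact hle.eq_of_not_lt (h W ⟨hle.trans hV.1, hW, h0⟩)

theorem exists_cv {B : Subgroup G} [B.Normal] (hB : B ≠ ⊥) : ∃ A, Cv A B := by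
  obtain ⟨A, hA, h⟩ := (wellFounded_gt (α := Subgroup G)).has_min
    {A | A.Normal ∧ A < B} ⟨⊥, inferInstance, bot_lt_iff_ne_bot.2 hB⟩
  refine ⟨A, hA.1, inferInstance, hA.2, fun W hW h1 h2 => or_iff_not_imp_right.2 fun h0 => ?_⟩
  exact (h1.eq_of_not_lt (h W ⟨hW, lt_of_le_of_ne h2 h0⟩)).symm

theorem Cv.minNor {A B : Subgroup G} [A.Normal] (h : Cv A B) :
    MinNor (B.map (QuotientGroup.mk' A)) := by
  obtain ⟨-, hB, hlt, hm⟩ := h
  have hs := QuotientGroup.mk'_surjective A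
  refine ⟨hB.map _ hs, fun h0 => hlt.not_ge (map_mk_eq_bot.1 h0), fun W hW hle => ?_⟩
  have h1 : W.comap (QuotientGroup.mk' A) ≤ B := by
    refine (Subgroup.comap_mono hle).trans ?_
    rw [Subgroup.comap_map_eq, QuotientGroup.ker_mk']
    exact sup_le le_rfl hlt.le
  have h2 := Subgroup.map_comap_eq_self_of_surjective hs W
  refine (hm _ (hW.comap _) (QuotientGroup.le_comap_mk' A W) h1).imp (fun h3 => ?_) fun h3 => ?_
  · rw [← h2, h3]
    exact map_mk_eq_bot.2 le_rfl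
  · rw [← h2, h3]

/-- A chief series below `P` (strong induction on `Nat.card P` with `exists_cv`). -/
theorem exists_chief (P : Subgroup G) [P.Normal] : ∃ (l : ℕ) (N : ℕ → Subgroup G),
    N 0 = ⊥ ∧ N l = P ∧ (∀ j, (N j).Normal) ∧ Monotone N ∧ ∀ j < l, Cv (N j) (N (j + 1)) := by
  rename_i hP
  revert hP
  induction P using (wellFounded_lt (α := Subgroup G)).induction with
  | _ P ih =>
  intro hP
  by_cases h0 : P = ⊥
  · exact ⟨0, fun _ => ⊥, rfl, h0.symm, fun _ => inferInstance, monotone_const,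
      fun j hj => absurd hj (Nat.not_lt_zero j)⟩
  obtain ⟨A, hA⟩ := exists_cv h0
  obtain ⟨l, N, h1, h2, h3, h4, h5⟩ := @ih A hA.2.2.1 hA.1
  refine ⟨l + 1, fun j => if j ≤ l then N j else P, by simpa using h1, by simp, fun j => ?_,
    fun i j hij => ?_, fun j hj => ?_⟩
  · dsimp only
    split_ifs
    exacts [h3 j, hP]
  · dsimp only
    split_ifs with hi hj hj
    · exact h4 hij
    · exact (h4 hi).trans (h2.le.trans hA.2.2.1.le)
    · exact absurd (hij.trans hj) hi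
    · exact le_rfl
  · dsimp only
    rw [if_pos (Nat.lt_succ_iff.1 hj)]
    split_ifs with hj'
    · exact h5 j hj'
    · rw [show j = l by omega, h2]
      exact hA

/-- The normal `p`-subgroup `Q` acts on the `p`-group `V` with a nontrivial fixed point
(`IsPGroup.exists_fixed_point_of_prime_dvd_card_of_fixed_point`, or the centre of a `p`-group
meets every nontrivial normal subgroup); `V ⊓ centralizer Q` is normal. -/
theorem MinNor.comm_pgroup {p : ℕ} (hp : p.Prime) {V Q : Subgroup G} (hV : MinNor V)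
    (hpV : IsPGroup p V) [Q.Normal] (hQ : IsPGroup p Q) : ⁅V, Q⁆ = ⊥ := by
  by_contra h
  have := hV.1
  have := Fact.mk hp
  let : MulAction Q V := MulAction.compHom V ((MulAut.conjNormal (H := V)).comp Q.subtype)
  have hs : ∀ (q : Q) (v : V), ((q • v : V) : G) = q * v * (q : G)⁻¹ := fun q v => rfl
  have hd : p ∣ Nat.card V := by
    obtain ⟨n, hn0, hn⟩ := hpV.nontrivial_iff_card.1 ((Subgroup.nontrivial_iff_ne_bot V).2 hV.2.1)
    exact hn.symm ▸ dvd_pow_self _ hn0.ne'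
  obtain ⟨b, hb, hb1⟩ := hQ.exists_fixed_point_of_prime_dvd_card_of_fixed_point V hd (a := 1)
    fun q => Subtype.ext (by rw [hs]; simp)
  refine hb1 (Subtype.ext (minn_one hV h b.2 fun l hl => ?_).symm)
  have h1 := congrArg Subtype.val (hb ⟨l, hl⟩)
  rw [hs] at h1
  exact (mul_inv_eq_iff_eq_mul.1 h1).symm

/-- `V ⊓ centralizer L` is normal. -/
theorem MinNor.eq_one_of_comm {V L : Subgroup G} (hV : MinNor V) [L.Normal] (h : ⁅V, L⁆ ≠ ⊥)
    {v : G} (hv : v ∈ V) (hc : ∀ l ∈ L, Commute v l) : v = 1 := by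
  exact minn_one hV h hv hc

/-- The join of the conjugates of `W` is normal. -/
theorem MinNor.le_iSup_cj {V W : Subgroup G} (hV : MinNor V) (hW : W ≤ V) (h : W ≠ ⊥) :
    V = ⨆ g : G, cj g W := by
  have := hV.1
  have h1 : (⨆ g : G, cj g W).Normal := normal_of_cj fun g => by
    rw [cj, Subgroup.map_iSup]
    exact iSup_le fun a => le_iSup_of_le (g * a) (cj_mul g a W).ge
  have h2 : (⨆ g : G, cj g W) ≤ V := iSup_le fun g => (cj_mono g hW).trans (cj_normal g V).le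
  refine ((hV.2.2 _ h1 h2).resolve_left fun h3 => h (le_bot_iff.1 ?_)).symm
  rw [← h3]
  exact le_iSup_of_le 1 (cj_one W).ge

theorem exists_minI {ι : Type} {Λ : ι → Subgroup G} {V : Subgroup G} (hV : Inva Λ V)
    (h : V ≠ ⊥) : ∃ W, W ≤ V ∧ MinI Λ W := by
  obtain ⟨W, hW, h1⟩ := (wellFounded_lt (α := Subgroup G)).has_min
    {W | W ≤ V ∧ Inva Λ W ∧ W ≠ ⊥} ⟨V, le_rfl, hV, h⟩
  refine ⟨W, hW.1, hW.2.1, hW.2.2, fun U hU hle => or_iff_not_imp_left.2 fun h0 => ?_⟩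
  exact hle.eq_of_not_lt (h1 U ⟨hle.trans hW.1, hU, h0⟩)

theorem MinI.cj {ι : Type} {Λ : ι → Subgroup G} {W : Subgroup G} (hW : MinI Λ W)
    (hperm : ∀ g : G, ∃ π : Equiv.Perm ι, ∀ i, cj g (Λ i) = Λ (π i)) (g : G) :
    MinI Λ (cj g W) := by
  refine ⟨minn_inva hW.1 hperm g, fun h => hW.2.1 (cj_eq_bot.1 h), fun U hU hle => ?_⟩
  have h1 := cj_mono g⁻¹ hle
  rw [← cj_mul, inv_mul_cancel, cj_one] at h1
  refine (hW.2.2 _ (minn_inva hU hperm g⁻¹) h1).imp cj_eq_bot.1 fun h2 => ?_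
  rw [← h2, ← cj_mul, mul_inv_cancel, cj_one]

theorem ncard_actv_cj {ι : Type} {Λ : ι → Subgroup G} (W : Subgroup G)
    (hperm : ∀ g : G, ∃ π : Equiv.Perm ι, ∀ i, cj g (Λ i) = Λ (π i)) (g : G) :
    (actv (cj g W) Λ).ncard = (actv W Λ).ncard := by
  obtain ⟨π, hπ⟩ := hperm g
  rw [← Set.ncard_image_of_injective (actv W Λ) π.injective]
  congr 1
  ext j
  obtain ⟨i, rfl⟩ := π.surjective j
  rw [π.injective.mem_set_image, actv, actv, Set.mem_ofPred_eq, Set.mem_ofPred_eq, ← hπ i,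
    ← cj_commutator, Ne, cj_eq_bot]

/-- The classes in `N (j + 1)` outside `N j` map onto the nontrivial classes of the factor
(`om_map_le`, `om_diff_one`); these sets of classes are disjoint and miss the identity
(`sum_om_le`, or induction on `l`). -/
theorem sum_om_chief (N : ℕ → Subgroup G) [hN : ∀ j, (N j).Normal] (hm : Monotone N) (l : ℕ) :
    ∑ j ∈ Finset.range l, (om ((N (j + 1)).map (QuotientGroup.mk' (N j)) : Set (G ⧸ N j)) - 1) <
      om (N l : Set G) := by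
  induction l with
  | zero => simpa using Nat.succ_le_iff.1 (om_pos ⟨1, (N 0).one_mem⟩)
  | succ l ih =>
  rw [Finset.sum_range_succ]
  have h1 := om_diff_one (S := ((N (l + 1)).map (QuotientGroup.mk' (N l)) : Set (G ⧸ N l)))
    (Subgroup.one_mem _)
  have h2 : om (((N (l + 1)).map (QuotientGroup.mk' (N l)) : Set (G ⧸ N l)) \ {1}) ≤
      om ((N (l + 1) : Set G) \ N l) := by
    refine (om_mono ?_).trans (om_map_le (QuotientGroup.mk' (N l)) _)
    rintro _ ⟨⟨x, hx, rfl⟩, h3⟩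
    exact ⟨x, ⟨hx, fun h4 => h3 ((QuotientGroup.eq_one_iff x).2 h4)⟩, rfl⟩
  have h3 : om (N l : Set G) + om ((N (l + 1) : Set G) \ N l) = om (N (l + 1) : Set G) := by
    unfold om
    rw [← Set.ncard_union_eq ?_ (Set.toFinite _) (Set.toFinite _), ← Set.image_union,
      Set.union_sdiff_cancel (hm (Nat.le_succ l))]
    rw [Set.disjoint_left]
    rintro _ ⟨a, ha, rfl⟩ ⟨b, hb, hab⟩
    obtain ⟨c, hc⟩ := isConj_iff.1 (ConjClasses.mk_eq_mk_iff_isConj.1 hab.symm)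
    exact hb.2 (hc ▸ (hN l).conj_mem a ha c)
  omega

theorem two_le_om {V : Subgroup G} (h : V ≠ ⊥) : 2 ≤ om (V : Set G) := by
  have h1 := om_diff_one (S := (V : Set G)) V.one_mem
  obtain ⟨x, hx, hx1⟩ := V.bot_or_exists_ne_one.resolve_left h
  have h2 := om_pos (S := (V : Set G) \ {1}) ⟨x, hx, hx1⟩
  omega

end Pool.Agent.Lib.MP_634dc6_al
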