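import Pool.Agent.Lib.MP_634dc6_al.ModP
import Pool.Agent.Lib.MP_634dc6_al.AutL
import Pool.Agent.Lib.MP_634dc6_al.MinN

/-!
The same inside one group.
-/

namespace Pool.Agent.Lib.MP_634dc6_al

variable {G : Type} [Group G] [Finite G]

open scoped commutatorElement

theorem ambp_conj_mem_centralizer {H W : Subgroup G} (hW : Inva (fun _ : Unit => H) W) {g : G}
    (hg : g ∈ H) {n : G} (hn : n ∈ Subgroup.centralizer (W : Set G)) :
    g * n * g⁻¹ ∈ Subgroup.centralizer (W : Set G) := by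
  rw [Subgroup.mem_centralizer_iff] at hn ⊢
  intro w hw
  have h1 := hn _ (hW () g⁻¹ (H.inv_mem hg) w hw)
  calc w * (g * n * g⁻¹) = g * (g⁻¹ * w * g⁻¹⁻¹ * n) * g⁻¹ := by group
    _ = g * (n * (g⁻¹ * w * g⁻¹⁻¹)) * g⁻¹ := by rw [h1]
    _ = g * n * g⁻¹ * w := by group

theorem ambp_exists_hom {H W : Subgroup G} (hW : Inva (fun _ : Unit => H) W) :
    ∃ φ : H →* MulAut W, ∀ (h : H) (w : W), ((φ h w : W) : G) = h * w * (h : G)⁻¹ := by
  have hle : H ≤ Subgroup.normalizer (W : Set G) := by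
    intro h hh
    rw [Subgroup.mem_normalizer_iff]
    refine fun w => ⟨fun hw => hW () h hh w hw, fun hw => ?_⟩
    have h1 := hW () h⁻¹ (H.inv_mem hh) _ hw
    have e : h⁻¹ * (h * w * h⁻¹) * h⁻¹⁻¹ = w := by group
    rwa [e] at h1
  exact ⟨W.normalizerMonoidHom.comp (Subgroup.inclusion hle), fun h w => rfl⟩

/-- Let `φ : ↥H →* MulAut ↥W` be given by conjugation, with kernel `C.subgroupOf H`, where
`C = centralizer W`. Apply `mod_proj` to `Γ = φ.range`. The image of `B` is central; the quotient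
`↥B ⧸ C.subgroupOf B` embeds in the centre (`QuotientGroup.lift`, `isCyclic_of_injective`). The
subgroup `E ⊓ cm E C` is the preimage of the centraliser of the image of `E`
(`Subgroup.relIndex_comap`). -/
theorem amb_proj {H W : Subgroup G} (hab : ⁅W, W⁆ = ⊥) (hW : MinI (fun _ : Unit => H) W) :
    ∃ x : ℕ, 2 ^ x ≤ Nat.card W ∧
      (∀ B : Subgroup G, B ≤ H → ⁅B, H⁆ ≤ Subgroup.centralizer (W : Set G) →
        (Subgroup.centralizer (W : Set G)).relIndex B ≤ Nat.card W ∧
        (∀ [((Subgroup.centralizer (W : Set G)).subgroupOf B).Normal],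
          IsCyclic (B ⧸ (Subgroup.centralizer (W : Set G)).subgroupOf B)) ∧
        ∀ b ∈ B, b ∉ Subgroup.centralizer (W : Set G) → ∀ w ∈ W, Commute b w → w = 1) ∧
      ∀ E : Subgroup G, E ≤ H → ⁅⁅E, E⁆, H⁆ ≤ Subgroup.centralizer (W : Set G) →
        (cm E (Subgroup.centralizer (W : Set G))).relIndex E ≤ x ^ 2 := by
  obtain ⟨φ, hφ⟩ := ambp_exists_hom hW.1
  have hcomm : ∀ a b : W, a * b = b * a := fun a b => Subtype.ext (by
    have h1 := Subgroup.commutator_mem_commutator (H₁ := W) (H₂ := W) a.2 b.2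
    rw [hab, Subgroup.mem_bot, commutatorElement_eq_one_iff_mul_comm] at h1
    exact h1)
  let : CommGroup W := { (inferInstance : Group W) with mul_comm := hcomm }
  have : Nontrivial W := (Subgroup.nontrivial_iff_ne_bot W).2 hW.2.1
  set C := Subgroup.centralizer (W : Set G) with hC
  let ψ : H →* φ.range := φ.rangeRestrict
  have hψs : Function.Surjective ψ := φ.rangeRestrict_surjective
  have hψ : ∀ (h : H) (w : W), (((ψ h : φ.range) : MulAut W) w : G) = h * w * (h : G)⁻¹ := hφ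
  have hker : ∀ h : H, ψ h = 1 ↔ (h : G) ∈ C := by
    intro h
    rw [hC, Subgroup.mem_centralizer_iff]
    constructor
    · intro h1 w hw
      have h2 := hψ h ⟨w, hw⟩
      rw [h1] at h2
      have h3 : w = h * w * (h : G)⁻¹ := h2
      calc w * h = h * w * (h : G)⁻¹ * h := by rw [← h3]
        _ = h * w := by group
    · intro h1
      refine Subtype.ext (MulEquiv.ext fun w => Subtype.ext ?_)
      rw [hψ, ← h1 w w.2]
      simp
  have hirr : ∀ U : Subgroup W, (∀ γ : φ.range, ∀ u ∈ U, φ.range.subtype γ u ∈ U) →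
      U = ⊥ ∨ U = ⊤ := by
    intro U hU
    have h1 : Inva (fun _ : Unit => H) (U.map W.subtype) := by
      rintro _ l hl _ ⟨u, hu, rfl⟩
      exact ⟨_, hU (ψ ⟨l, hl⟩) u hu, hψ ⟨l, hl⟩ u⟩
    rcases hW.2.2 _ h1 (Subgroup.map_subtype_le U) with h2 | h2
    · exact Or.inl ((Subgroup.map_eq_bot_iff_of_injective U W.subtype_injective).1 h2)
    · refine Or.inr (Subgroup.map_injective W.subtype_injective ?_)
      rw [h2, ← MonoidHom.range_eq_map, Subgroup.range_subtype]
  obtain ⟨x, hx, hcyc, hcard, hfix, hE⟩ :=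
    mod_proj φ.range.subtype φ.range.subtype_injective hirr
  have hcen : ∀ h : H, (∀ k ∈ H, ⁅(h : G), k⁆ ∈ C) → ψ h ∈ Subgroup.center φ.range := by
    intro h hh
    rw [Subgroup.mem_center_iff]
    intro γ
    obtain ⟨k, rfl⟩ := hψs γ
    have h1 : ψ ⁅h, k⁆ = 1 := (hker _).2 (hh k k.2)
    rw [map_commutatorElement, commutatorElement_eq_one_iff_mul_comm] at h1
    exact h1.symm
  refine ⟨x, hx, fun B hB hBH => ?_, fun E hEH hE2 => ?_⟩
  · have hb : ∀ b : B, ψ (Subgroup.inclusion hB b) ∈ Subgroup.center φ.range := fun b =>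
      hcen _ fun k hk => hBH (Subgroup.commutator_mem_commutator b.2 hk)
    let β : B →* Subgroup.center φ.range := (ψ.comp (Subgroup.inclusion hB)).codRestrict _ hb
    have hβ : β.ker = C.subgroupOf B := by
      ext b
      rw [MonoidHom.mem_ker, Subgroup.mem_subgroupOf, Subtype.ext_iff]
      exact hker (Subgroup.inclusion hB b)
    refine ⟨?_, ?_, fun b hbB hbC w hw hc => ?_⟩
    · rw [Subgroup.relIndex, ← hβ, Subgroup.index_ker]
      exact (Nat.card_le_card_of_injective _ β.range.subtype_injective).trans hcard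
    · intro hN
      refine isCyclic_of_injective (QuotientGroup.lift (C.subgroupOf B) β hβ.ge) ?_
      rw [← MonoidHom.ker_eq_bot_iff, QuotientGroup.ker_lift, hβ]
      exact (Subgroup.map_eq_bot_iff _).2 (QuotientGroup.ker_mk' _).ge
    · have h1 := hfix _ (hb ⟨b, hbB⟩) (fun h0 => hbC ((hker _).1 h0)) ⟨w, hw⟩
        (Subtype.ext ((hψ _ _).trans (by
          change b * w * b⁻¹ = w
          rw [hc.eq]
          group)))
      exact congrArg Subtype.val h1
  · have h1 : ⁅(E.subgroupOf H).map ψ, (E.subgroupOf H).map ψ⁆ ≤ Subgroup.center φ.range := by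
      rw [Subgroup.commutator_le]
      rintro _ ⟨a, ha, rfl⟩ _ ⟨b, hb, rfl⟩
      rw [← map_commutatorElement]
      refine hcen _ fun k hk => hE2 (Subgroup.commutator_mem_commutator ?_ hk)
      exact Subgroup.commutator_mem_commutator (H₁ := E) (H₂ := E) ha hb
    have h2 := hE _ h1
    rw [← Subgroup.relIndex_comap] at h2
    rw [← Subgroup.relIndex_subgroupOf hEH]
    refine le_trans (Subgroup.relIndex_le_of_le_left ?_ Subgroup.FiniteIndex.index_ne_zero) h2
    intro g hg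
    rw [Subgroup.mem_comap, Subgroup.mem_centralizer_iff] at hg
    refine ⟨fun n => ⟨fun hn => ambp_conj_mem_centralizer hW.1 g.2 hn, fun hn => ?_⟩,
      fun b hb => ?_⟩
    · have h3 := ambp_conj_mem_centralizer hW.1 (H.inv_mem g.2) hn
      have e : (g : G)⁻¹ * (H.subtype g * n * (H.subtype g)⁻¹) * (g : G)⁻¹⁻¹ = n := by
        rw [Subgroup.subtype_apply]
        group
      rwa [e] at h3
    · have h3 := hg (ψ ⟨b, hEH hb⟩) ⟨⟨b, hEH hb⟩, hb, rfl⟩
      have h4 : ψ ⁅g, (⟨b, hEH hb⟩ : H)⁆ = 1 := by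
        rw [map_commutatorElement, commutatorElement_eq_one_iff_mul_comm]
        exact h3.symm
      exact (hker _).1 h4

/-- First show by induction on a finset `J`: if `i ∉ J` then `W i ⊓ jn W J = ⊥`. Step: let
`J = insert j J'`, take `b ∈ B` that centralises `W j` and has no nontrivial fixed point in `W i`. If
`w = w' * y` with `w ∈ W i`, `w' ∈ W j`, `y ∈ jn W J'` then `b w b⁻¹ w⁻¹ = b y b⁻¹ y⁻¹` (as `V` is
commutative) lies in `W i ⊓ jn W J'`. Then `card_mul_le_card_sup`. -/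
theorem pow_card_le {ι : Type} [Finite ι] {V B : Subgroup G} (hab : ⁅V, V⁆ = ⊥) (W : ι → Subgroup G)
    (hV : ∀ i, W i ≤ V) (hB : ∀ i, ∀ b ∈ B, ∀ w ∈ W i, b * w * b⁻¹ ∈ W i)
    (hsep : ∀ i j, i ≠ j → ∃ b ∈ B, (∀ w ∈ W j, Commute b w) ∧ ∀ w ∈ W i, Commute b w → w = 1)
    {c : ℕ} (hc : ∀ i, c ≤ Nat.card (W i)) : c ^ Nat.card ι ≤ Nat.card V := by
  classical
  have hcm : ∀ a ∈ V, ∀ b ∈ V, a * b = b * a := fun a ha b hb => by
    have h1 := Subgroup.commutator_mem_commutator (H₁ := V) (H₂ := V) ha hb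
    rwa [hab, Subgroup.mem_bot, commutatorElement_eq_one_iff_mul_comm] at h1
  have hJV : ∀ J : Set ι, jn W J ≤ V := fun J => jn_le fun i _ => hV i
  have hins : ∀ (j : ι) (J : Finset ι), jn W ((insert j J : Finset ι) : Set ι) =
      W j ⊔ jn W (J : Set ι) := fun j J => by
    rw [Finset.coe_insert, jn, iSup_insert]
    rfl
  have hBJ : ∀ J : Finset ι, ∀ b ∈ B, ∀ y ∈ jn W (J : Set ι), b * y * b⁻¹ ∈ jn W (J : Set ι) := by
    intro J b hb y hy
    have h1 : jn W (J : Set ι) ≤ (jn W (J : Set ι)).comap (MulAut.conj b).toMonoidHom :=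
      jn_le fun i hi w hw => le_jn hi (hB i b hb w hw)
    exact h1 hy
  have hsup : ∀ (A D : Subgroup G), A ≤ V → D ≤ V → ∀ w ∈ A ⊔ D, ∃ a ∈ A, ∃ d ∈ D, w = a * d := by
    intro A D hA hD w hw
    rw [Subgroup.sup_eq_closure] at hw
    induction hw using Subgroup.closure_induction with
    | mem x hx =>
      rcases hx with hx | hx
      · exact ⟨x, hx, 1, D.one_mem, (mul_one x).symm⟩
      · exact ⟨1, A.one_mem, x, hx, (one_mul x).symm⟩
    | one => exact ⟨1, A.one_mem, 1, D.one_mem, (mul_one 1).symm⟩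
    | mul x y _ _ hx hy =>
      obtain ⟨a, ha, d, hd, rfl⟩ := hx
      obtain ⟨a', ha', d', hd', rfl⟩ := hy
      refine ⟨a * a', A.mul_mem ha ha', d * d', D.mul_mem hd hd', ?_⟩
      calc a * d * (a' * d') = a * (d * a') * d' := by group
        _ = a * (a' * d) * d' := by rw [hcm d (hD hd) a' (hA ha')]
        _ = a * a' * (d * d') := by group
    | inv x _ hx =>
      obtain ⟨a, ha, d, hd, rfl⟩ := hx
      refine ⟨a⁻¹, A.inv_mem ha, d⁻¹, D.inv_mem hd, ?_⟩
      rw [hcm a (hA ha) d (hD hd), mul_inv_rev]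
  have hdis : ∀ J : Finset ι, ∀ i, i ∉ J → W i ⊓ jn W (J : Set ι) = ⊥ := by
    intro J
    induction J using Finset.induction_on with
    | empty =>
      intro i _
      simp [jn]
    | insert j J hj ih =>
      intro i hi
      rw [Finset.mem_insert, not_or] at hi
      rw [eq_bot_iff]
      intro w hw
      obtain ⟨hwi, hwJ⟩ := Subgroup.mem_inf.1 hw
      rw [hins] at hwJ
      obtain ⟨a, ha, y, hy, hay⟩ := hsup _ _ (hV j) (hJV _) w hwJ
      obtain ⟨b, hb, hb1, hb2⟩ := hsep i j hi.1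
      have h1 : b * w * b⁻¹ * w⁻¹ = b * y * b⁻¹ * y⁻¹ := by
        have h2 := hcm a (hV j ha) _ (hJV _ (Subgroup.mul_mem _ (hBJ J b hb y hy)
          (Subgroup.inv_mem _ hy)))
        calc b * w * b⁻¹ * w⁻¹ = (b * a) * y * b⁻¹ * y⁻¹ * a⁻¹ := by rw [hay]; group
          _ = (a * b) * y * b⁻¹ * y⁻¹ * a⁻¹ := by rw [(hb1 a ha).eq]
          _ = (a * (b * y * b⁻¹ * y⁻¹)) * a⁻¹ := by group
          _ = b * y * b⁻¹ * y⁻¹ := by rw [h2]; group
      have h3 : b * w * b⁻¹ * w⁻¹ ∈ W i ⊓ jn W (J : Set ι) := by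
        refine Subgroup.mem_inf.2 ⟨Subgroup.mul_mem _ (hB i b hb w hwi) (Subgroup.inv_mem _ hwi), ?_⟩
        rw [h1]
        exact Subgroup.mul_mem _ (hBJ J b hb y hy) (Subgroup.inv_mem _ hy)
      rw [ih i hi.2, Subgroup.mem_bot] at h3
      refine Subgroup.mem_bot.2 (hb2 w hwi ?_)
      exact commutatorElement_eq_one_iff_mul_comm.1 h3
  have hcard : ∀ J : Finset ι, c ^ J.card ≤ Nat.card (jn W (J : Set ι)) := by
    intro J
    induction J using Finset.induction_on with
    | empty => simpa using Nat.succ_le_iff.2 Nat.card_pos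
    | insert j J hj ih =>
      rw [Finset.card_insert_of_notMem hj, hins, pow_succ']
      exact (Nat.mul_le_mul (hc j) ih).trans (card_mul_le_card_sup (hdis J j hj))
  have := Fintype.ofFinite ι
  rw [Nat.card_eq_fintype_card, ← Finset.card_univ]
  exact (hcard Finset.univ).trans (Subgroup.card_le_of_le (hJV _))

end Pool.Agent.Lib.MP_634dc6_al
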