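import Pool.Agent.Lib.MP_634dc6_al.Perf

/-!
Joins of families of subgroups; the local structure passes to subgroups and quotients.
-/

namespace Pool.Agent.Lib.MP_634dc6_al

variable {G G' : Type} [Group G] [Group G']

theorem jn_comm_iff {X Y N : Subgroup G} [N.Normal] : ⁅X, Y⁆ ≤ N ↔ Y ≤
    (Subgroup.centralizer (X.map (QuotientGroup.mk' N) : Set (G ⧸ N))).comap
      (QuotientGroup.mk' N) := by
  rw [← map_mk_eq_bot, Subgroup.map_commutator, Subgroup.commutator_comm,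
    Subgroup.commutator_eq_bot_iff_le_centralizer, Subgroup.map_le_iff_le_comap]

theorem jn_relIndex_map [Finite G] (f : G →* G') (P L : Subgroup G) :
    (P.map f).relIndex (L.map f) ≤ P.relIndex L := by
  rw [← Subgroup.relIndex_comap]
  exact Subgroup.relIndex_le_of_le_left (Subgroup.le_comap_map f P)
    Subgroup.FiniteIndex.index_ne_zero

section jn

variable {ι : Type} {Λ : ι → Subgroup G} {J : Set ι}

theorem le_jn {i : ι} (hi : i ∈ J) : Λ i ≤ jn Λ J := by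
  exact le_iSup₂ (f := fun i (_ : i ∈ J) => Λ i) i hi

theorem jn_le {H : Subgroup G} (h : ∀ i ∈ J, Λ i ≤ H) : jn Λ J ≤ H := by
  exact iSup₂_le h

theorem jn_mono {Λ' : ι → Subgroup G} {J' : Set ι} (hJ : J ⊆ J') (h : ∀ i ∈ J, Λ i ≤ Λ' i) :
    jn Λ J ≤ jn Λ' J' := by
  exact jn_le fun i hi => (h i hi).trans (le_jn (hJ hi))

theorem jn_perf (h : ∀ i, ⁅Λ i, Λ i⁆ = Λ i) (J : Set ι) : ⁅jn Λ J, jn Λ J⁆ = jn Λ J := by
  refine le_antisymm (Subgroup.commutator_le.2 fun a ha b hb => ?_) (jn_le fun i hi => ?_)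
  · rw [commutatorElement_def]
    exact mul_mem (mul_mem (mul_mem ha hb) (inv_mem ha)) (inv_mem hb)
  · rw [← h i]
    exact Subgroup.commutator_mono (le_jn hi) (le_jn hi)

theorem cj_jn_le {g : G} (h : ∀ i ∈ J, ∃ j ∈ J, cj g (Λ i) = Λ j) :
    cj g (jn Λ J) ≤ jn Λ J := by
  refine Subgroup.map_le_iff_le_comap.2 (jn_le fun i hi => ?_)
  obtain ⟨j, hj, hij⟩ := h i hi
  exact Subgroup.map_le_iff_le_comap.1 (hij.le.trans (le_jn hj))

theorem jn_normal (h : InvS Λ J) : (jn Λ J).Normal := by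
  exact normal_of_cj fun g => cj_jn_le (h g)

theorem jn_map (f : G →* G') (Λ : ι → Subgroup G) (J : Set ι) :
    (jn Λ J).map f = jn (fun i => (Λ i).map f) J := by
  simp only [jn, Subgroup.map_iSup]

theorem jn_subgroupOf {E : Subgroup G} (h : ∀ i, Λ i ≤ E) (J : Set ι) :
    jn (fun i => (Λ i).subgroupOf E) J = (jn Λ J).subgroupOf E := by
  apply Subgroup.map_injective E.subtype_injective
  rw [jn_map, Subgroup.map_subgroupOf_eq_of_le (jn_le fun i _ => h i)]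
  simp only [Subgroup.map_subgroupOf_eq_of_le (h _)]

/-- The elements `g` with `⁅x, g⁆ ∈ N` for all `x ∈ X` form a subgroup. -/
theorem comm_jn_le {X N : Subgroup G} [N.Normal] (h : ∀ i ∈ J, ⁅X, Λ i⁆ ≤ N) :
    ⁅X, jn Λ J⁆ ≤ N := by
  exact jn_comm_iff.2 (jn_le fun i hi => jn_comm_iff.1 (h i hi))

theorem jn_cover {K : ι → Subgroup G} {D : Subgroup G} (h : ∀ i ∈ J, K i ≤ Λ i ⊔ D) :
    jn K J ≤ jn Λ J ⊔ D := by
  exact jn_le fun i hi => (h i hi).trans (sup_le_sup_right (le_jn hi) D)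

/-- Pass to `G ⧸ N` and use `Subgroup.noncommPiCoprod` (its range is the join), or induct on the
finite set `J`. -/
theorem jn_pow_mem [Finite ι] {N : Subgroup G} [N.Normal] {n : ℕ}
    (hc : ∀ i ∈ J, ∀ j ∈ J, i ≠ j → ⁅Λ i, Λ j⁆ ≤ N) (hp : ∀ i ∈ J, ∀ x ∈ Λ i, x ^ n ∈ N)
    {x : G} (hx : x ∈ jn Λ J) : x ^ n ∈ N := by
  have := Fintype.ofFinite J
  let f := QuotientGroup.mk' N
  have hcomm : Pairwise fun i j : J => ∀ x y : G ⧸ N, x ∈ (Λ i).map f → y ∈ (Λ j).map f →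
      Commute x y := by
    intro i j hij x y hx hy
    refine comm_eq_bot_iff.1 ?_ x hx y hy
    rw [← Subgroup.map_commutator, map_mk_eq_bot]
    exact hc i i.2 j j.2 fun h => hij (Subtype.ext h)
  have h1 : f x ∈ (Subgroup.noncommPiCoprod hcomm).range := by
    rw [Subgroup.noncommPiCoprod_range, ← Subgroup.map_iSup]
    refine Subgroup.mem_map_of_mem f ?_
    rwa [jn, iSup_subtype'] at hx
  obtain ⟨u, hu⟩ := h1
  have h2 : u ^ n = 1 := by
    ext i
    obtain ⟨y, hy, hyu⟩ := (u i).2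
    rw [Pi.pow_apply, Subgroup.coe_pow, ← hyu, ← map_pow]
    exact (QuotientGroup.eq_one_iff _).2 (hp i i.2 y hy)
  rw [← QuotientGroup.eq_one_iff]
  change f (x ^ n) = 1
  rw [map_pow, ← hu, ← map_pow, h2, map_one]

theorem invS_univ (h : ∀ g : G, ∃ π : Equiv.Perm ι, ∀ i, cj g (Λ i) = Λ (π i)) :
    InvS Λ Set.univ := by
  intro g i _
  obtain ⟨π, hπ⟩ := h g
  exact ⟨π i, Set.mem_univ _, hπ i⟩

end jn

section LS

variable {ι : Type} {p M : ℕ} {P : Subgroup G} {Λ : ι → Subgroup G}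

theorem LS.sub (h : LS p M P Λ) (E : Subgroup G) (hE : ∀ i, Λ i ≤ E) :
    LS p M (P.subgroupOf E) fun i => (Λ i).subgroupOf E := by
  have := h.nP
  refine ⟨inferInstance, h.pP.comap_subtype, fun i => ?_, fun i => ?_, fun i j hij => ?_,
    fun g => ?_⟩
  · rw [comm_subgroupOf (hE i) (hE i), h.perf]
  · rw [Subgroup.relIndex_subgroupOf (hE i)]
    exact h.idx i
  · rw [comm_subgroupOf (hE i) (hE j)]
    exact Subgroup.comap_mono (h.comm i j hij)
  · obtain ⟨π, hπ⟩ := h.perm g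
    exact ⟨π, fun i => by rw [cj_subgroupOf, hπ]⟩

theorem LS.map [Finite G] (h : LS p M P Λ) (f : G →* G') (hf : Function.Surjective f) :
    LS p M (P.map f) fun i => (Λ i).map f := by
  refine ⟨h.nP.map f hf, h.pP.map f, fun i => map_perf f (h.perf i),
    fun i => (jn_relIndex_map f P (Λ i)).trans (h.idx i), fun i j hij => ?_, fun g => ?_⟩
  · rw [← Subgroup.map_commutator]
    exact Subgroup.map_mono (h.comm i j hij)
  · obtain ⟨g, rfl⟩ := hf g
    obtain ⟨π, hπ⟩ := h.perm g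
    exact ⟨π, fun i => by rw [← cj_map, hπ]⟩

/-- Work modulo `X = ⁅P, jn Λ J⁆`, which is normal. There every `Λ i` (`i ∈ J`) is perfect with the
central subgroup `P ⊓ Λ i` of index at most `M` (`perf_pow`), and `⁅Λ i, Λ j⁆ ≤ X` for `i ≠ j`
(`perf_comm`). Then `jn_pow_mem`. -/
theorem LS.pow_mem [Finite G] [Finite ι] (h : LS p M P Λ) {J : Set ι} (hJ : InvS Λ J) {g : G}
    (hg : g ∈ jn Λ J) : g ^ Nat.factorial M ∈ ⁅P, jn Λ J⁆ := by
  have := h.nP
  have := jn_normal hJ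
  have hX : ∀ i ∈ J, ⁅P, Λ i⁆ ≤ ⁅P, jn Λ J⁆ := fun i hi =>
    Subgroup.commutator_mono le_rfl (le_jn hi)
  refine jn_pow_mem (fun i _ j hj hij => perf_comm (h.perf j)
    ((Subgroup.commutator_mono (h.comm i j hij) le_rfl).trans (hX j hj))) (fun i hi x hx => ?_) hg
  let f := QuotientGroup.mk' ⁅P, jn Λ J⁆
  have h1 : f x ^ Nat.factorial M = 1 := by
    refine perf_pow (Z := P.map f) (map_perf f (h.perf i)) ?_
      ((jn_relIndex_map f P (Λ i)).trans (h.idx i)) (Subgroup.mem_map_of_mem f hx)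
    refine le_bot_iff.1 ((Subgroup.commutator_mono inf_le_left le_rfl).trans (le_of_eq ?_))
    rw [← Subgroup.map_commutator, map_mk_eq_bot]
    exact hX i hi
  rw [← map_pow] at h1
  exact (QuotientGroup.eq_one_iff _).1 h1

/-- `LS.pow_mem`, `PE.mem_of_pow`, `coprime_factorial`. -/
theorem LS.inf_le [Finite G] [Finite ι] (hp : p.Prime) (hM : M < p) (h : LS p M P Λ) {J : Set ι}
    (hJ : InvS Λ J) : P ⊓ jn Λ J ≤ ⁅P, jn Λ J⁆ := by
  intro g hg
  exact (PE.of_mem h.pP hg.1).mem_of_pow (coprime_factorial hp hM) (h.pow_mem hJ hg.2)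

end LS

end Pool.Agent.Lib.MP_634dc6_al
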