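import Pool.Agent.Lib.MP_634dc6_al.ModA
import Pool.Agent.Lib.MP_634dc6_al.Jn

/-!
The module lemma.
-/

namespace Pool.Agent.Lib.MP_634dc6_al

variable {G : Type} [Group G] [Finite G] {ι : Type} [Finite ι] {M : ℕ} {V W : Subgroup G}
  {Λ : ι → Subgroup G}

/-- The indices whose groups do not centralise `v`. -/
def sp (Λ : ι → Subgroup G) (v : G) : Set ι := {i | ∃ l ∈ Λ i, ¬ Commute v l}

omit [Finite G] [Finite ι] in
theorem ncard_sp_conj (hperm : ∀ g : G, ∃ π : Equiv.Perm ι, ∀ i, cj g (Λ i) = Λ (π i))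
    {a b : G} (hab : IsConj a b) : (sp Λ a).ncard = (sp Λ b).ncard := by
  obtain ⟨c, rfl⟩ := isConj_iff.mp hab
  obtain ⟨π, hπ⟩ := hperm c
  have key : ∀ i, π i ∈ sp Λ (c * a * c⁻¹) ↔ i ∈ sp Λ a := by
    intro i
    constructor
    · rintro ⟨l, hl, hn⟩
      rw [← hπ, mem_cj] at hl
      refine ⟨_, hl, fun hc => hn ?_⟩
      have h1 : a * (c⁻¹ * l * c) = (c⁻¹ * l * c) * a := hc
      show c * a * c⁻¹ * l = l * (c * a * c⁻¹)
      calc c * a * c⁻¹ * l = c * (a * (c⁻¹ * l * c)) * c⁻¹ := by group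
        _ = c * ((c⁻¹ * l * c) * a) * c⁻¹ := by rw [h1]
        _ = _ := by group
    · rintro ⟨l, hl, hn⟩
      refine ⟨c * l * c⁻¹, by rw [← hπ]; exact conj_mem_cj c hl, fun hc => hn ?_⟩
      have h1 : c * a * c⁻¹ * (c * l * c⁻¹) = c * l * c⁻¹ * (c * a * c⁻¹) := hc
      show a * l = l * a
      calc a * l = c⁻¹ * (c * a * c⁻¹ * (c * l * c⁻¹)) * c := by group
        _ = c⁻¹ * (c * l * c⁻¹ * (c * a * c⁻¹)) * c := by rw [h1]
        _ = _ := by group
  have e : sp Λ (c * a * c⁻¹) = π '' sp Λ a := by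
    ext j
    constructor
    · intro hj
      refine ⟨π.symm j, ?_, π.apply_symm_apply j⟩
      rw [← key, π.apply_symm_apply]
      exact hj
    · rintro ⟨i, hi, rfl⟩
      exact (key i).mpr hi
  rw [e, Set.ncard_image_of_injective _ π.injective]

/-- `W ⊓ centralizer (Λ i)` is invariant under all `Λ j`: for `j ≠ i` use that the commutators
centralise `V`. -/
theorem MinI.eq_one (h : MS M V Λ) (hWV : W ≤ V) (hW : MinI Λ W) {i : ι} (hi : i ∈ actv W Λ)
    {w : G} (hw : w ∈ W) (hs : i ∉ sp Λ w) : w = 1 := by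
  have hinv : Inva Λ (W ⊓ Subgroup.centralizer (Λ i : Set G)) := by
    intro j l hl u hu
    obtain ⟨huW, huc⟩ := Subgroup.mem_inf.mp hu
    refine Subgroup.mem_inf.mpr ⟨hW.1 j l hl u huW, ?_⟩
    rw [Subgroup.mem_centralizer_iff] at huc ⊢
    by_cases hji : j = i
    · subst hji
      have e : l * u * l⁻¹ = u := by
        rw [huc l hl]
        group
      rw [e]
      exact huc
    · intro m hm
      have hcm : m⁻¹ * l⁻¹ * m⁻¹⁻¹ * l⁻¹⁻¹ ∈ Subgroup.centralizer (V : Set G) :=
        comm_le_iff.mp (h.comm i j (Ne.symm hji)) _ (Subgroup.inv_mem _ hm) _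
          (Subgroup.inv_mem _ hl)
      rw [Subgroup.mem_centralizer_iff] at hcm
      have h1 := hcm u (hWV huW)
      have h2 := huc m hm
      rw [inv_inv, inv_inv] at h1
      calc m * (l * u * l⁻¹) = l * m * (m⁻¹ * l⁻¹ * m * l * u) * l⁻¹ := by group
        _ = l * m * (u * (m⁻¹ * l⁻¹ * m * l)) * l⁻¹ := by rw [h1]
        _ = l * (m * u) * m⁻¹ * l⁻¹ * m := by group
        _ = l * (u * m) * m⁻¹ * l⁻¹ * m := by rw [h2]
        _ = _ := by group
  rcases hW.2.2 _ hinv inf_le_left with h0 | h0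
  · have hm : w ∈ W ⊓ Subgroup.centralizer (Λ i : Set G) := by
      refine Subgroup.mem_inf.mpr ⟨hw, ?_⟩
      rw [Subgroup.mem_centralizer_iff]
      intro m hm
      by_contra hn
      exact hs ⟨m, hm, fun hc => hn hc.symm.eq⟩
    rw [h0] at hm
    exact Subgroup.mem_bot.mp hm
  · exfalso
    apply hi
    rw [Subgroup.commutator_eq_bot_iff_le_centralizer, ← h0]
    exact inf_le_right

/-- For `j ∈ sp Λ v ∩ actv W Λ` at most one `w ∈ W` has `j ∉ sp Λ (v * w)` (`MinI.eq_one`), for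
`j ∈ sp Λ v` outside `actv W Λ` none, and for `j = i` only `w = 1`. So at most `σ` elements `w` are
bad, and `σ < card W` (`ncard_actv_lt`). -/
theorem exists_sp_step (h : MS M V Λ) (hWV : W ≤ V) (hW : MinI Λ W) {v : G} (hv : v ∈ V) {i : ι}
    (hi : i ∈ actv W Λ) (hiv : i ∉ sp Λ v) :
    ∃ w ∈ W, insert i (sp Λ v) ⊆ sp Λ (v * w) ∧ sp Λ (v * w) ⊆ sp Λ v ∪ actv W Λ := by
  have hcomm : ∀ j, j ∉ actv W Λ → ∀ w ∈ W, ∀ l ∈ Λ j, Commute w l := by
    intro j hj
    have : ⁅W, Λ j⁆ = ⊥ := by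
      by_contra hn
      exact hj hn
    exact comm_eq_bot_iff.mp this
  have hnot : ∀ j (x : G), j ∉ sp Λ x ↔ ∀ l ∈ Λ j, Commute x l := by
    intro j x
    constructor
    · intro hj l hl
      by_contra hn
      exact hj ⟨l, hl, hn⟩
    · rintro hj ⟨l, hl, hn⟩
      exact hn (hj l hl)
  have hex : ∃ w ∈ W, insert i (sp Λ v) ⊆ sp Λ (v * w) := by
    by_contra hn
    have hbad : ∀ w : W, ∃ j : actv W Λ, (j : ι) ∉ sp Λ (v * w) := by
      intro w
      have h1 : ¬ insert i (sp Λ v) ⊆ sp Λ (v * w) := fun hc => hn ⟨w, w.2, hc⟩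
      obtain ⟨j, hj, hj'⟩ := Set.not_subset.mp h1
      refine ⟨⟨j, ?_⟩, hj'⟩
      rcases hj with rfl | hj
      · exact hi
      · by_contra hja
        apply (hnot j v).mpr _ hj
        intro l hl
        have h2 := (hnot j _).mp hj' l hl
        have h3 := (hcomm j hja w w.2 l hl).inv_left
        have h4 := h2.mul_left h3
        rwa [mul_inv_cancel_right] at h4
    choose f hf using hbad
    have hinj : Function.Injective f := by
      intro w w' hww
      have h1 := (hnot _ _).mp (hf w)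
      have h2 := (hnot _ _).mp (hf w')
      rw [← hww] at h2
      have h3 : ((w : G)⁻¹ * w') = 1 := by
        apply MinI.eq_one h hWV hW (f w).2 (W.mul_mem (W.inv_mem w.2) w'.2)
        rw [hnot]
        intro l hl
        have h4 := (h1 l hl).inv_left.mul_left (h2 l hl)
        have e : (v * (w : G))⁻¹ * (v * w') = (w : G)⁻¹ * w' := by group
        rwa [e] at h4
      exact Subtype.ext (inv_mul_eq_one.mp h3)
    have h5 := Nat.card_le_card_of_injective f hinj
    have h6 := ncard_actv_lt h hWV hW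
    rw [Nat.card_coe_set_eq] at h5
    omega
  obtain ⟨w, hw, hsub⟩ := hex
  refine ⟨w, hw, hsub, fun j hj => ?_⟩
  by_contra hn
  have h1 : j ∉ sp Λ v := fun hc => hn (Or.inl hc)
  have h2 : j ∉ actv W Λ := fun hc => hn (Or.inr hc)
  apply (hnot j _).mpr _ hj
  intro l hl
  exact ((hnot j v).mp h1 l hl).mul_left (hcomm j h2 w hw l hl)

/-- Every `i ∈ actv V Λ` is active on some conjugate of `W` (`MinNor.le_iSup_cj`). Starting from
`v = 1`, `exists_sp_step` gives elements of `V` whose support sizes increase strictly in steps of at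
most `σ` until they reach `(actv V Λ).ncard`. The support size is a class invariant
(`ncard_le_om`). One way: by induction on `k`, either `(actv V Λ).ncard ≤ σ * om V` or there is
`v ∈ V` with `(sp Λ v).ncard ≤ σ * k` and at least `k + 1` values `≤ (sp Λ v).ncard` of the support
size on `V`. -/
theorem mod_B (h : MS M V Λ) (hV : MinNor V) (hWV : W ≤ V) (hW : MinI Λ W) :
    (actv V Λ).ncard ≤ (actv W Λ).ncard * om (V : Set G) := by
  have := h.nV
  set σ := (actv W Λ).ncard with hσ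
  set ψ : G → ℕ := fun v => (sp Λ v).ncard with hψ
  have hom : (ψ '' (V : Set G)).ncard ≤ om (V : Set G) :=
    ncard_le_om ψ _ fun a _ b _ hab => ncard_sp_conj h.perm hab
  have hfin : (ψ '' (V : Set G)).Finite := (Set.toFinite _).image _
  have hact : ∀ i ∈ actv V Λ, ∃ g : G, i ∈ actv (cj g W) Λ := by
    intro i hi
    by_contra hn
    apply hi
    rw [Subgroup.commutator_eq_bot_iff_le_centralizer, hV.le_iSup_cj hWV hW.2.1]
    refine iSup_le fun g => ?_
    rw [← Subgroup.commutator_eq_bot_iff_le_centralizer]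
    by_contra hc
    exact hn ⟨g, hc⟩
  have hstep : ∀ v ∈ V, ¬ actv V Λ ⊆ sp Λ v → ∃ v' ∈ V, ψ v < ψ v' ∧ ψ v' ≤ ψ v + σ := by
    intro v hv hn
    obtain ⟨i, hi, hiv⟩ := Set.not_subset.mp hn
    obtain ⟨g, hg⟩ := hact i hi
    have hle : cj g W ≤ V := (cj_mono g hWV).trans (cj_normal g V).le
    obtain ⟨w, hw, h1, h2⟩ := exists_sp_step h hle (hW.cj h.perm g) hv hg hiv
    refine ⟨v * w, V.mul_mem hv (hle hw), ?_, ?_⟩
    · have := Set.ncard_le_ncard h1 (Set.toFinite _)
      rw [Set.ncard_insert_of_notMem hiv (Set.toFinite _)] at this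
      exact this
    · have h3 := Set.ncard_le_ncard h2 (Set.toFinite _)
      have h4 := Set.ncard_union_le (sp Λ v) (actv (cj g W) Λ)
      rw [ncard_actv_cj W h.perm g] at h4
      exact h3.trans h4
  have hind : ∀ k : ℕ, (actv V Λ).ncard ≤ σ * om (V : Set G) ∨
      ∃ v ∈ V, ψ v ≤ σ * k ∧ k + 1 ≤ {n | n ∈ ψ '' (V : Set G) ∧ n ≤ ψ v}.ncard := by
    intro k
    induction k with
    | zero =>
      right
      refine ⟨1, V.one_mem, ?_, ?_⟩
      · have : sp Λ (1 : G) = ∅ := by
          ext j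
          constructor
          · rintro ⟨l, -, hn⟩
            exact hn (Commute.one_left l)
          · intro hj
            exact hj.elim
        simp [hψ, this]
      · rw [zero_add, Nat.succ_le_iff, Set.ncard_pos (hfin.subset fun n hn => hn.1)]
        exact ⟨ψ 1, ⟨1, V.one_mem, rfl⟩, le_rfl⟩
    | succ k ih =>
      rcases ih with ih | ⟨v, hv, h1, h2⟩
      · exact Or.inl ih
      · by_cases hs : actv V Λ ⊆ sp Λ v
        · left
          have h3 : (actv V Λ).ncard ≤ ψ v := Set.ncard_le_ncard hs (Set.toFinite _)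
          have h4 : {n | n ∈ ψ '' (V : Set G) ∧ n ≤ ψ v}.ncard ≤ (ψ '' (V : Set G)).ncard :=
            Set.ncard_le_ncard (fun n hn => hn.1) hfin
          have h5 : σ * k ≤ σ * om (V : Set G) := Nat.mul_le_mul_left _ (by omega)
          omega
        · right
          obtain ⟨v', hv', h3, h4⟩ := hstep v hv hs
          refine ⟨v', hv', by rw [Nat.mul_succ]; omega, ?_⟩
          have hsub : insert (ψ v') {n | n ∈ ψ '' (V : Set G) ∧ n ≤ ψ v} ⊆
              {n | n ∈ ψ '' (V : Set G) ∧ n ≤ ψ v'} := by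
            rintro n (rfl | hn)
            · exact ⟨⟨v', hv', rfl⟩, le_rfl⟩
            · exact ⟨hn.1, hn.2.trans h3.le⟩
          have h5 := Set.ncard_le_ncard hsub (hfin.subset fun n hn => hn.1)
          rw [Set.ncard_insert_of_notMem (fun hc => absurd hc.2 (not_le.mpr h3))
            (hfin.subset fun n hn => hn.1)] at h5
          omega
  rcases hind (om (V : Set G)) with h1 | ⟨v, -, -, h2⟩
  · exact h1
  · have h4 : {n | n ∈ ψ '' (V : Set G) ∧ n ≤ ψ v}.ncard ≤ (ψ '' (V : Set G)).ncard :=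
      Set.ncard_le_ncard (fun n hn => hn.1) hfin
    omega

/-- Take `W ≤ V` minimal invariant (`exists_minI`). If `actv V Λ` is nonempty then so is
`actv W Λ` (`mod_B`). Use `mod_A`, `om_mono`. -/
theorem mod_main (M : ℕ) : ∃ C : ℕ, ∀ (G : Type) [Group G] [Finite G] (ι : Type) [Finite ι]
    (p : ℕ) (V : Subgroup G) (Λ : ι → Subgroup G), p.Prime → IsPGroup p V → MS M V Λ → MinNor V →
    (actv V Λ).ncard ≤ C * om (V : Set G) ^ 2 ∧
      ((actv V Λ).Nonempty → p ≤ C * om (V : Set G)) := by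
  obtain ⟨C, hC⟩ := mod_A M
  refine ⟨C, fun G _ _ ι _ p V Λ hp hpV h hV => ?_⟩
  have hinv : Inva Λ V := fun i l _ w hw => h.nV.conj_mem w hw l
  obtain ⟨W, hWV, hW⟩ := exists_minI hinv hV.2.1
  have hB := mod_B h hV hWV hW
  by_cases hne : (actv V Λ).Nonempty
  · have hpos : 0 < (actv V Λ).ncard := (Set.ncard_pos (Set.toFinite _)).mpr hne
    have hσ : 0 < (actv W Λ).ncard := by
      rcases Nat.eq_zero_or_pos (actv W Λ).ncard with h0 | h0
      · rw [h0, zero_mul] at hB
        omega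
      · exact h0
    have hA := hC G ι p V W Λ hp hpV h hWV hW ((Set.ncard_pos (Set.toFinite _)).mp hσ)
    have hom : om (W : Set G) ≤ om (V : Set G) := om_mono hWV
    have h1 : p * (actv W Λ).ncard ≤ C * om (V : Set G) :=
      hA.trans (Nat.mul_le_mul_left _ hom)
    have h2 : (actv W Λ).ncard ≤ p * (actv W Λ).ncard := Nat.le_mul_of_pos_left _ hp.pos
    have h3 : p ≤ p * (actv W Λ).ncard := Nat.le_mul_of_pos_right _ hσ
    refine ⟨?_, fun _ => h3.trans h1⟩
    calc (actv V Λ).ncard ≤ (actv W Λ).ncard * om (V : Set G) := hB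
      _ ≤ C * om (V : Set G) * om (V : Set G) := Nat.mul_le_mul_right _ (h2.trans h1)
      _ = _ := by ring
  · refine ⟨?_, fun hc => absurd hc hne⟩
    rw [Set.not_nonempty_iff_eq_empty.mp hne, Set.ncard_empty]
    exact Nat.zero_le _

/-- `MinNor.comm_pgroup` gives `P ≤ centralizer V`; `Subgroup.relIndex_le_of_le_left`. -/
theorem LS.ms {p : ℕ} {P : Subgroup G} (hp : p.Prime) (h : LS p M P Λ) (hV : MinNor V)
    (hVP : V ≤ P) : MS M V Λ := by
  have := h.nP
  have h1 : ⁅V, P⁆ = ⊥ := hV.comm_pgroup hp (h.pP.to_le hVP) h.pP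
  have h2 : P ≤ Subgroup.centralizer (V : Set G) := by
    rw [← Subgroup.commutator_eq_bot_iff_le_centralizer, Subgroup.commutator_comm]
    exact h1
  refine ⟨hV.1, ?_, h.perf, fun i => ?_, fun i j hij => (h.comm i j hij).trans h2, h.perm⟩
  · exact le_bot_iff.mp ((Subgroup.commutator_mono le_rfl hVP).trans h1.le)
  · refine (Subgroup.relIndex_le_of_le_left h2 ?_).trans (h.idx i)
    exact Subgroup.index_ne_zero_of_finite

end Pool.Agent.Lib.MP_634dc6_al
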