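import Pool.Agent.Lib.MP_634dc6_al.ExpoB
import Pool.Agent.Lib.MP_634dc6_al.ModB

/-!
The local data attached to a chief series of `P`.
-/

namespace Pool.Agent.Lib.MP_634dc6_al

variable {G : Type} [Group G] [Finite G]

/-- `A` covers the section `N' / N`. -/
def Cover (A N N' : Subgroup G) : Prop := N' ≤ (A ⊓ N') ⊔ N

/-- The number of factors of the series that `A` covers and on which `L` acts nontrivially. -/
noncomputable def lbc (N : ℕ → Subgroup G) (l : ℕ) (L A : Subgroup G) : ℕ :=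
  {j | j < l ∧ ¬ ⁅N (j + 1), L⁆ ≤ N j ∧ Cover A (N j) (N (j + 1))}.ncard

omit [Finite G] in
/-- `(A ⊓ N') ⊔ N` is normal and lies between `N` and `N'`. -/
theorem Cv.cover_or_avoid {N N' A : Subgroup G} (h : Cv N N') [A.Normal] :
    Cover A N N' ∨ A ⊓ N' ≤ N := by
  have h1 := h.1
  have h2 := h.2.1
  rcases h.2.2.2 ((A ⊓ N') ⊔ N) inferInstance le_sup_right (sup_le inf_le_right h.2.2.1.le) with
    e | e
  · exact Or.inr (le_sup_left.trans e.le)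
  · exact Or.inl e.ge

omit [Finite G] in
/-- Strictness: suppose that every factor with nontrivial action that `B` covers is covered by `A`.
Put `B_j = (B ⊓ N j) ⊔ A`, so `B_0 = A`, `B_l = B`. Then `⁅B_(j+1), L⁆ ≤ B_j`: if `B` avoids the
factor, or if both cover it, then `B_(j+1) ≤ B_j` and `B_(j+1)` is normal; otherwise
`⁅B ⊓ N (j+1), L⁆ ≤ B ⊓ N j`. Now `chain_comm`. -/
theorem lb_lbc {P L X : Subgroup G} (hL : ⁅L, L⁆ = L) (hX : X ≤ P) {l : ℕ} {N : ℕ → Subgroup G}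
    (h0 : N 0 = ⊥) (hl : N l = P) (hc : ∀ j < l, Cv (N j) (N (j + 1))) : Lb X L (lbc N l L) := by
  have hfin : ∀ A : Subgroup G,
      {j | j < l ∧ ¬ ⁅N (j + 1), L⁆ ≤ N j ∧ Cover A (N j) (N (j + 1))}.Finite := fun A =>
    (Set.finite_lt_nat l).subset fun j hj => hj.1
  have hsub : ∀ A B : Subgroup G, A ≤ B →
      {j | j < l ∧ ¬ ⁅N (j + 1), L⁆ ≤ N j ∧ Cover A (N j) (N (j + 1))} ⊆
        {j | j < l ∧ ¬ ⁅N (j + 1), L⁆ ≤ N j ∧ Cover B (N j) (N (j + 1))} := fun A B hAB j hj =>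
    ⟨hj.1, hj.2.1, le_trans hj.2.2 (sup_le_sup_right (inf_le_inf_right _ hAB) _)⟩
  refine ⟨fun A B hAB => Set.ncard_le_ncard (hsub A B hAB) (hfin B),
    fun A B hA hB hAB hBX hn => ?_⟩
  by_contra hlt
  have he := Set.eq_of_subset_of_ncard_le (hsub A B hAB) (not_lt.mp hlt) (hfin B)
  have e0 : (B ⊓ N 0) ⊔ A = A := by rw [h0, inf_bot_eq, bot_sup_eq]
  have el : (B ⊓ N l) ⊔ A = B := by
    rw [hl, inf_eq_left.mpr (hBX.trans hX), sup_eq_left.mpr hAB]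
  have hN0 : ((fun j => (B ⊓ N j) ⊔ A) 0).Normal := by
    show ((B ⊓ N 0) ⊔ A).Normal
    rw [e0]
    exact hA
  have key := chain_comm hL (fun j => (B ⊓ N j) ⊔ A) l fun j hj => by
    show ⁅(B ⊓ N (j + 1)) ⊔ A, L⁆ ≤ (B ⊓ N j) ⊔ A
    have c := hc j hj
    have h1 := c.1
    have h2 := c.2.1
    by_cases ht : ⁅N (j + 1), L⁆ ≤ N j
    · refine comm_le_iff.mpr fun x hx y hy => ?_
      obtain ⟨b, hb, a, ha, rfl⟩ := exists_mul_of_mem_sup hx
      have e : b * a * y * (b * a)⁻¹ * y⁻¹ =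
          b * (a * (y * a⁻¹ * y⁻¹)) * b⁻¹ * (b * y * b⁻¹ * y⁻¹) := by group
      rw [e]
      refine Subgroup.mul_mem _ (Subgroup.mem_sup_right (hA.conj_mem _
        (A.mul_mem ha (hA.conj_mem _ (A.inv_mem ha) y)) b)) (Subgroup.mem_sup_left ⟨?_,
          comm_le_iff.mp ht b hb.2 y hy⟩)
      have e' : b * y * b⁻¹ * y⁻¹ = b * (y * b⁻¹ * y⁻¹) := by group
      rw [e']
      exact B.mul_mem hb.1 (hB.conj_mem _ (B.inv_mem hb.1) y)
    refine (Subgroup.commutator_le_left _ _).trans (sup_le ?_ le_sup_right)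
    rcases c.cover_or_avoid (A := B) with hcov | hav
    · have hj' : j ∈ {j | j < l ∧ ¬ ⁅N (j + 1), L⁆ ≤ N j ∧ Cover B (N j) (N (j + 1))} :=
        ⟨hj, ht, hcov⟩
      rw [← he] at hj'
      intro b hb
      obtain ⟨a, ha, n, hn', e⟩ := exists_mul_of_mem_sup (hj'.2.2 hb.2)
      have hnB : n ∈ B := by
        have e' : n = a⁻¹ * b := by
          rw [e]
          group
        rw [e']
        exact B.mul_mem (B.inv_mem (hAB ha.1)) hb.1
      rw [e]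
      exact Subgroup.mul_mem _ (Subgroup.mem_sup_right ha.1) (Subgroup.mem_sup_left ⟨hnB, hn'⟩)
    · exact (le_inf inf_le_left hav).trans le_sup_left
  have key' : ⁅(B ⊓ N l) ⊔ A, L⁆ ≤ (B ⊓ N 0) ⊔ A := key
  rw [e0, el] at key'
  exact hn key'

/-- Take a chief series `N` of `P` (`exists_chief`), `w j = om (N (j+1) / N j) - 1`
(`sum_om_chief`, `two_le_om`), `I j = {i | ¬ ⁅N (j+1), Λ i⁆ ≤ N j}`, which is `actv` of the images
in `G ⧸ N j` (`LS.map`, `LS.ms`, `Cv.minNor`, `mod_main`). For the last part let `L = jn Λ J`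
(`jn_normal`, `jn_perf`), `X = ⁅P, L⁆` (`comm_comm_eq`), and apply `expo` with `lb_lbc`; a factor on
which `L` acts nontrivially has `(I j ∩ J).Nonempty` (`comm_jn_le`). -/
theorem loc_data (M : ℕ) : ∃ C : ℕ, ∀ (G : Type) [Group G] [Finite G] (ι : Type) [Finite ι]
    (p : ℕ) (P : Subgroup G) (Λ : ι → Subgroup G), p.Prime → LS p M P Λ →
    ∃ (l : ℕ) (I : ℕ → Set ι) (w : ℕ → ℕ), ∑ j ∈ Finset.range l, w j < om (P : Set G) ∧
      (∀ j < l, 1 ≤ w j ∧ (I j).ncard ≤ C * (w j + 1) ^ 2 ∧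
        ((I j).Nonempty → p ≤ C * (w j + 1))) ∧
      (∀ j, ∀ g : G, ∀ i i', cj g (Λ i) = Λ i' → i ∈ I j → i' ∈ I j) ∧
      ∀ J : Set ι, InvS Λ J → ∀ x ∈ ⁅P, jn Λ J⁆,
        x ^ p ^ (2 * {j | j < l ∧ (I j ∩ J).Nonempty}.ncard) = 1 := by
  obtain ⟨C, hC⟩ := mod_main M
  refine ⟨C, fun G _ _ ι _ p P Λ hp h => ?_⟩
  have hP := h.nP
  obtain ⟨l, N, h0, hl, hN, hm, hc⟩ := exists_chief P
  refine ⟨l, fun j => {i | ¬ ⁅N (j + 1), Λ i⁆ ≤ N j},
    fun j => om ((N (j + 1)).map (QuotientGroup.mk' (N j)) : Set (G ⧸ N j)) - 1, ?_,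
    fun j hj => ?_, fun j g i i' e hi hi' => hi ?_, fun J hJ x hx => ?_⟩
  · have h1 := sum_om_chief N hm l
    rwa [hl] at h1
  · have h1 := h.map (QuotientGroup.mk' (N j)) (QuotientGroup.mk'_surjective _)
    have h2 := (hc j hj).minNor
    have h3 : (N (j + 1)).map (QuotientGroup.mk' (N j)) ≤ P.map (QuotientGroup.mk' (N j)) :=
      Subgroup.map_mono (hl ▸ hm (Nat.succ_le_of_lt hj))
    have h4 := hC _ _ p _ _ hp (h1.pP.to_le h3) (h1.ms hp h2 h3) h2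
    have h5 : actv ((N (j + 1)).map (QuotientGroup.mk' (N j)))
        (fun i => (Λ i).map (QuotientGroup.mk' (N j))) = {i | ¬ ⁅N (j + 1), Λ i⁆ ≤ N j} := by
      ext i
      show ⁅_, _⁆ ≠ ⊥ ↔ ¬ ⁅N (j + 1), Λ i⁆ ≤ N j
      rw [← Subgroup.map_commutator, Ne, map_mk_eq_bot]
    have h6 := two_le_om h2.2.1
    rw [h5] at h4
    have h7 : om ((N (j + 1)).map (QuotientGroup.mk' (N j)) : Set (G ⧸ N j)) - 1 + 1 =
      om ((N (j + 1)).map (QuotientGroup.mk' (N j)) : Set (G ⧸ N j)) := by omega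
    refine ⟨Nat.le_sub_one_of_lt h6, ?_⟩
    rw [← h7] at h4
    exact h4
  · refine comm_le_iff.mpr fun a ha b hb => ?_
    have h1 := comm_le_iff.mp hi' _ ((hN (j + 1)).conj_mem a ha g) _ (e ▸ conj_mem_cj g hb)
    have h2 := (hN j).conj_mem _ h1 g⁻¹
    have e' : g⁻¹ * (g * a * g⁻¹ * (g * b * g⁻¹) * (g * a * g⁻¹)⁻¹ * (g * b * g⁻¹)⁻¹) * g⁻¹⁻¹ =
      a * b * a⁻¹ * b⁻¹ := by group
    rwa [e'] at h2
  · have hL := jn_normal hJ
    have hLp := jn_perf h.perf J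
    have hX : ⁅P, jn Λ J⁆ ≤ P := Subgroup.commutator_le_left _ _
    have h1 := expo hp (h.pP.to_le hX) (comm_comm_eq hLp) (lb_lbc hLp hX h0 hl hc) hx
    have h2 : lbc N l (jn Λ J) ⁅P, jn Λ J⁆ ≤
        {j | j < l ∧ ({i | ¬ ⁅N (j + 1), Λ i⁆ ≤ N j} ∩ J).Nonempty}.ncard := by
      refine Set.ncard_le_ncard (fun j hj => ⟨hj.1, ?_⟩)
        ((Set.finite_lt_nat l).subset fun j hj => hj.1)
      by_contra hne
      exact hj.2.1 (comm_jn_le fun i hi => not_not.mp fun hh => hne ⟨i, hh, hi⟩)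
    obtain ⟨k, hk⟩ := Nat.exists_eq_add_of_le (Nat.mul_le_mul_left 2 h2)
    rw [hk, pow_add, pow_mul, h1, one_pow]

end Pool.Agent.Lib.MP_634dc6_al
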