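import Pool.Agent.Lib.MP_634dc6_al.Jn

/-!
Centralisers modulo a subgroup; elements of large prime power order; permutation exponents.
-/

namespace Pool.Agent.Lib.MP_634dc6_al

variable {G G' : Type} [Group G] [Group G']

/-- The elements that normalise `N` and centralise `E` modulo `N`. -/
def cm (E N : Subgroup G) : Subgroup G where
  carrier := {g | (∀ n, n ∈ N ↔ g * n * g⁻¹ ∈ N) ∧ ∀ b ∈ E, g * b * g⁻¹ * b⁻¹ ∈ N}
  one_mem' := ⟨fun n => by simp, fun b _ => by simp⟩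
  mul_mem' := by
    rintro g h ⟨hg1, hg2⟩ ⟨hh1, hh2⟩
    refine ⟨fun n => ?_, fun b hb => ?_⟩
    · rw [hh1, hg1]
      simp only [mul_assoc, mul_inv_rev]
    · have e : g * h * b * (g * h)⁻¹ * b⁻¹ =
          g * (h * b * h⁻¹ * b⁻¹) * g⁻¹ * (g * b * g⁻¹ * b⁻¹) := by group
      rw [e]
      exact N.mul_mem ((hg1 _).1 (hh2 b hb)) (hg2 b hb)
  inv_mem' := by
    rintro g ⟨hg1, hg2⟩
    refine ⟨fun n => ?_, fun b hb => ?_⟩
    · rw [hg1 (g⁻¹ * n * g⁻¹⁻¹)]
      have e : g * (g⁻¹ * n * g⁻¹⁻¹) * g⁻¹ = n := by group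
      rw [e]
    · rw [hg1]
      have e : g * (g⁻¹ * b * g⁻¹⁻¹ * b⁻¹) * g⁻¹ = (g * b * g⁻¹ * b⁻¹)⁻¹ := by group
      rw [e]
      exact N.inv_mem (hg2 b hb)

/-- `g` is an `s`-element for a prime `s > M`. -/
def Bg (M : ℕ) (g : G) : Prop := ∃ s : ℕ, s.Prime ∧ M < s ∧ PE s g

variable {E N A : Subgroup G} {g : G} {M : ℕ}

theorem mem_cm [N.Normal] : g ∈ cm E N ↔ ∀ b ∈ E, g * b * g⁻¹ * b⁻¹ ∈ N := by
  refine ⟨fun h => h.2, fun h => ⟨fun n => ⟨fun hn => ‹N.Normal›.conj_mem n hn g, fun hn => ?_⟩, h⟩⟩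
  have h1 := ‹N.Normal›.conj_mem _ hn g⁻¹
  have e : g⁻¹ * (g * n * g⁻¹) * g⁻¹⁻¹ = n := by group
  rwa [e] at h1

theorem mem_cm_of_cj (h : cj g N = N) : g ∈ cm E N ↔ ∀ b ∈ E, g * b * g⁻¹ * b⁻¹ ∈ N := by
  refine ⟨fun h => h.2, fun h' => ⟨fun n => ?_, h'⟩⟩
  have e : g⁻¹ * (g * n * g⁻¹) * g = n := by group
  have h1 : g * n * g⁻¹ ∈ cj g N ↔ n ∈ N := by rw [mem_cj, e]
  rw [h] at h1
  exact h1.symm

theorem le_cm [N.Normal] : A ≤ cm E N ↔ ⁅A, E⁆ ≤ N := by
  rw [comm_le_iff]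
  exact ⟨fun h a ha => mem_cm.1 (h ha), fun h a ha => mem_cm.2 (h a ha)⟩

theorem map_cm (e : G ≃* G') (E N : Subgroup G) :
    (cm E N).map e.toMonoidHom = cm (E.map e.toMonoidHom) (N.map e.toMonoidHom) := by
  ext x
  rw [Subgroup.mem_map_equiv]
  constructor
  · rintro ⟨h1, h2⟩
    refine ⟨fun n => ?_, fun b hb => ?_⟩
    · rw [Subgroup.mem_map_equiv, Subgroup.mem_map_equiv, h1]
      simp only [map_mul, map_inv]
    · rw [Subgroup.mem_map_equiv] at hb ⊢
      simpa only [map_mul, map_inv] using h2 _ hb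
  · rintro ⟨h1, h2⟩
    refine ⟨fun n => ?_, fun b hb => ?_⟩
    · have h3 := h1 (e n)
      rw [Subgroup.mem_map_equiv, Subgroup.mem_map_equiv] at h3
      simpa only [map_mul, map_inv, MulEquiv.symm_apply_apply] using h3
    · have h3 := h2 (e b) (by rw [Subgroup.mem_map_equiv]; simpa using hb)
      rw [Subgroup.mem_map_equiv] at h3
      simpa only [map_mul, map_inv, MulEquiv.symm_apply_apply] using h3

theorem cj_cm (g : G) (E N : Subgroup G) : cj g (cm E N) = cm (cj g E) (cj g N) := by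
  exact map_cm (MulAut.conj g) E N

instance cm_normal (E N : Subgroup G) [E.Normal] [N.Normal] : (cm E N).Normal := by
  refine normal_of_cj fun g => ?_
  rw [cj_cm, cj_normal, cj_normal]

theorem mem_cm_jn {ι : Type} {Λ : ι → Subgroup G} {J : Set ι} [N.Normal] :
    g ∈ cm (jn Λ J) N ↔ ∀ i ∈ J, g ∈ cm (Λ i) N := by
  constructor
  · intro h i hi
    exact mem_cm.2 fun b hb => mem_cm.1 h b (le_jn hi hb)
  · intro h
    have h1 : Subgroup.zpowers g ≤ cm (jn Λ J) N :=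
      le_cm.2 (comm_jn_le fun i hi => le_cm.1 (Subgroup.zpowers_le.2 (h i hi)))
    exact h1 (Subgroup.mem_zpowers g)

theorem cj_centralizer_coe (g : G) (W : Subgroup G) :
    cj g (Subgroup.centralizer (W : Set G)) = Subgroup.centralizer (cj g W : Set G) := by
  ext x
  rw [mem_cj, Subgroup.mem_centralizer_iff, Subgroup.mem_centralizer_iff]
  constructor
  · intro h w hw
    have h1 := h _ (mem_cj.1 hw)
    calc w * x = g * (g⁻¹ * w * g * (g⁻¹ * x * g)) * g⁻¹ := by group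
      _ = g * (g⁻¹ * x * g * (g⁻¹ * w * g)) * g⁻¹ := by rw [h1]
      _ = x * w := by group
  · intro h w hw
    have h1 := h _ (conj_mem_cj g hw)
    calc w * (g⁻¹ * x * g) = g⁻¹ * (g * w * g⁻¹ * x) * g := by group
      _ = g⁻¹ * (x * (g * w * g⁻¹)) * g := by rw [h1]
      _ = g⁻¹ * x * g * w := by group

theorem Bg.pow (h : Bg M g) (k : ℕ) : Bg M (g ^ k) := by
  obtain ⟨s, hs, hM, h⟩ := h
  exact ⟨s, hs, hM, h.pow k⟩

theorem Bg.map (f : G →* G') (h : Bg M g) : Bg M (f g) := by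
  obtain ⟨s, hs, hM, h⟩ := h
  exact ⟨s, hs, hM, h.map f⟩

theorem Bg.of_injective {f : G →* G'} (hf : Function.Injective f) (h : Bg M (f g)) : Bg M g := by
  obtain ⟨s, hs, hM, k, h⟩ := h
  refine ⟨s, hs, hM, k, hf ?_⟩
  rw [map_pow, h, map_one]

theorem Bg.mono {M' : ℕ} (h : Bg M g) (hM : M' ≤ M) : Bg M' g := by
  obtain ⟨s, hs, hM', h⟩ := h
  exact ⟨s, hs, lt_of_le_of_lt hM hM', h⟩

/-- An injective self-map that preserves a finite set with at most `n` elements returns to each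
point after some `k` steps, `1 ≤ k ≤ n` (pigeonhole). -/
theorem exists_period {X : Type} {f : X → X} (hf : Function.Injective f) {S : Set X}
    (hS : S.Finite) (hm : ∀ x ∈ S, f x ∈ S) {x : X} (hx : x ∈ S) :
    ∃ k : ℕ, 1 ≤ k ∧ k ≤ S.ncard ∧ f^[k] x = x := by
  classical
  have hin : ∀ i : ℕ, f^[i] x ∈ S := by
    intro i
    induction i with
    | zero => exact hx
    | succ i ih => rw [Function.iterate_succ_apply']; exact hm _ ih
  have key : ∀ i j : ℕ, i < j → j ≤ S.ncard → f^[i] x = f^[j] x →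
      ∃ k : ℕ, 1 ≤ k ∧ k ≤ S.ncard ∧ f^[k] x = x := by
    intro i j hij hj e
    refine ⟨j - i, by omega, by omega, hf.iterate i ?_⟩
    rw [← Function.iterate_add_apply, e]
    congr 1
    omega
  obtain ⟨i, hi, j, hj, hij, e⟩ := Finset.exists_ne_map_eq_of_card_lt_of_maps_to
    (s := Finset.range (S.ncard + 1)) (t := hS.toFinset) (f := fun i => f^[i] x)
    (by rw [Finset.card_range, ← Set.ncard_eq_toFinset_card S hS]; omega)
    (fun i _ => by simpa using hin i)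
  rw [Finset.mem_range] at hi hj
  rcases lt_or_gt_of_ne hij with h | h
  · exact key i j h (by omega) e
  · exact key j i h (by omega) e.symm

theorem cj_pow_of_dvd {H : Subgroup G} {k n : ℕ} (h : cj (g ^ k) H = H) (hk : k ∣ n) :
    cj (g ^ n) H = H := by
  obtain ⟨c, rfl⟩ := hk
  induction c with
  | zero => simp [cj_one]
  | succ c ih => rw [Nat.mul_succ, pow_add, cj_mul, h, ih]

theorem exists_cj_period [Finite G] {𝒮 : Set (Subgroup G)} (hm : ∀ H ∈ 𝒮, cj g H ∈ 𝒮)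
    {H : Subgroup G} (hH : H ∈ 𝒮) : ∃ k : ℕ, 1 ≤ k ∧ k ≤ 𝒮.ncard ∧ cj (g ^ k) H = H := by
  have hit : ∀ k : ℕ, (cj g)^[k] H = cj (g ^ k) H := by
    intro k
    induction k with
    | zero => simp [cj_one]
    | succ k ih => rw [Function.iterate_succ_apply', ih, pow_succ', cj_mul]
  obtain ⟨k, h1, h2, h3⟩ := exists_period (f := cj g) (fun _ _ h => cj_inj g h)
    (Set.toFinite 𝒮) hm hH
  exact ⟨k, h1, h2, by rw [← hit, h3]⟩

theorem cj_pow_lcm [Finite G] {𝒮 : Set (Subgroup G)} (hm : ∀ H ∈ 𝒮, cj g H ∈ 𝒮) {n : ℕ}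
    (hn : 𝒮.ncard ≤ n) {H : Subgroup G} (hH : H ∈ 𝒮) :
    cj (g ^ Nat.lcmUpto n) H = H := by
  obtain ⟨k, h1, h2, h3⟩ := exists_cj_period hm hH
  refine cj_pow_of_dvd h3 ?_
  exact Finset.dvd_lcm (f := id) (Finset.mem_Icc.2 ⟨h1, h2.trans hn⟩)

/-- `Chebyshev.psi_eq_log_lcmUpto`, `Chebyshev.psi_le_const_mul_self`: `log 4 + 4 ≤ 8 log 2`. -/
theorem lcmUpto_le (n : ℕ) : Nat.lcmUpto n ≤ 2 ^ (8 * n) := by
  have h1 := Chebyshev.psi_eq_log_lcmUpto n
  have h2 := Chebyshev.psi_le_const_mul_self (x := (n : ℝ)) (Nat.cast_nonneg n)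
  have h3 : Real.log 4 = 2 * Real.log 2 := by
    rw [show (4 : ℝ) = 2 ^ 2 by norm_num, Real.log_pow]; norm_num
  have h4 := Real.log_two_gt_d9
  have h5 : Real.log (Nat.lcmUpto n : ℝ) ≤ Real.log ((2 : ℝ) ^ (8 * n)) := by
    rw [Real.log_pow, ← h1]
    refine h2.trans ?_
    have hn : (0 : ℝ) ≤ n := Nat.cast_nonneg n
    push_cast
    nlinarith
  have h6 := (Real.log_le_log_iff (by exact_mod_cast Nat.lcmUpto_pos n) (by positivity)).1 h5
  exact_mod_cast h6

/-- Conjugation by `g` permutes the at most `M` elements of the image of `A` in `G ⧸ N`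
(`exists_period`). -/
theorem pow_factorial_mem_cm [Finite G] [N.Normal] (hg : cj g A = A) (hM : N.relIndex A ≤ M) :
    g ^ Nat.factorial M ∈ cm A N := by
  refine mem_cm.2 fun b hb => ?_
  let φ := QuotientGroup.mk' N
  have hcard : (A.map φ : Set (G ⧸ N)).ncard ≤ M := by
    have e := Subgroup.relIndex_ker (K := A) φ
    rw [QuotientGroup.ker_mk'] at e
    rw [← Nat.card_coe_set_eq]
    exact e ▸ hM
  have hit : ∀ k : ℕ, ∀ y : G ⧸ N, (MulAut.conj (φ g))^[k] y = φ g ^ k * y * (φ g ^ k)⁻¹ := by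
    intro k y
    induction k with
    | zero => simp
    | succ k ih =>
      rw [Function.iterate_succ_apply', ih, MulAut.conj_apply, pow_succ']
      group
  obtain ⟨k, h1, h2, h3⟩ := exists_period (f := MulAut.conj (φ g)) (MulAut.conj (φ g)).injective
    (Set.toFinite (A.map φ : Set (G ⧸ N)))
    (by
      rintro _ ⟨a, ha, rfl⟩
      refine ⟨g * a * g⁻¹, ?_, by simp⟩
      have h4 := conj_mem_cj g (H := A) ha
      rwa [hg] at h4)
    (x := φ b) ⟨b, hb, rfl⟩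
  rw [hit] at h3
  have h4 : Commute (φ g ^ k) (φ b) := by
    have e : φ g ^ k * φ b = φ g ^ k * φ b * (φ g ^ k)⁻¹ * φ g ^ k := by group
    rw [Commute, SemiconjBy, e, h3]
  obtain ⟨c, hc⟩ := Nat.dvd_factorial h1 (h2.trans hcard)
  have h5 : Commute (φ g ^ Nat.factorial M) (φ b) := by
    rw [hc, pow_mul]
    exact h4.pow_left c
  rw [← QuotientGroup.ker_mk' N, MonoidHom.mem_ker]
  change φ _ = 1
  rw [map_mul, map_mul, map_mul, map_inv, map_inv, map_pow, h5.eq]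
  group

/-- `pow_factorial_mem_cm`, `PE.mem_of_pow`, `coprime_factorial`. -/
theorem Bg.mem_cm [Finite G] [N.Normal] (h : Bg M g) (hg : cj g A = A) (hM : N.relIndex A ≤ M) :
    g ∈ cm A N := by
  obtain ⟨s, hs, hMs, h⟩ := h
  exact h.mem_of_pow (coprime_factorial hs hMs) (pow_factorial_mem_cm hg hM)

/-- If `⁅g, f⁆ ∈ B` and `B` is centralised by `g` modulo `C` then `⁅g ^ n, f⁆ ≡ ⁅g, f⁆ ^ n`. -/
theorem pow_mem_cm_of_central {F B C : Subgroup G} [C.Normal] (h1 : ∀ f ∈ F, g * f * g⁻¹ * f⁻¹ ∈ B)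
    (h2 : g ∈ cm B C) {n : ℕ} (hn : ∀ b ∈ B, b ^ n ∈ C) : g ^ n ∈ cm F C := by
  refine mem_cm.2 fun f hf => ?_
  let φ := QuotientGroup.mk' C
  have hk : ∀ x : G, x ∈ C ↔ φ x = 1 := fun x => by
    rw [← MonoidHom.mem_ker, QuotientGroup.ker_mk']
  set c := g * f * g⁻¹ * f⁻¹ with hc
  have h3 : Commute (φ g) (φ c) := by
    have h4 := (hk _).1 (mem_cm.1 h2 c (h1 f hf))
    rw [map_mul, map_mul, map_mul, map_inv, map_inv] at h4
    have e : φ g * φ c = φ g * φ c * (φ g)⁻¹ * (φ c)⁻¹ * (φ c * φ g) := by group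
    rw [Commute, SemiconjBy, e, h4, one_mul]
  have h5 : φ g * φ f = φ c * φ f * φ g := by
    rw [hc, map_mul, map_mul, map_mul, map_inv, map_inv]
    group
  have h6 : ∀ m : ℕ, φ g ^ m * φ f = φ c ^ m * φ f * φ g ^ m := by
    intro m
    induction m with
    | zero => simp
    | succ m ih =>
      calc φ g ^ (m + 1) * φ f = φ g * (φ g ^ m * φ f) := by rw [pow_succ', mul_assoc]
        _ = φ g * φ c ^ m * φ f * φ g ^ m := by rw [ih]; simp only [mul_assoc]
        _ = φ c ^ m * (φ g * φ f) * φ g ^ m := by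
          rw [(h3.pow_right m).eq]; simp only [mul_assoc]
        _ = φ c ^ (m + 1) * φ f * φ g ^ (m + 1) := by
          rw [h5, pow_succ (φ c), pow_succ' (φ g)]; simp only [mul_assoc]
  have h7 : φ c ^ n = 1 := by
    rw [← map_pow]
    exact (hk _).1 (hn c (h1 f hf))
  rw [hk, map_mul, map_mul, map_mul, map_inv, map_inv, map_pow, h6, h7]
  group

end Pool.Agent.Lib.MP_634dc6_al
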