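import Pool.Agent.Lib.MP_634dc6_al.Ord

/-!
Cosets of a `p`-subgroup by an element of order prime to `p`.
-/

namespace Pool.Agent.Lib.MP_634dc6_al

variable {G : Type} [Group G] [Finite G] {p : ℕ}

theorem coset_inv {P : Subgroup G} {y : G} (hn : ∀ d ∈ P, y * d * y⁻¹ ∈ P) {d : G} (hd : d ∈ P) :
    y⁻¹ * d * y ∈ P := by
  have h1 : ∀ k : ℕ, y ^ k * d * (y ^ k)⁻¹ ∈ P := by
    intro k
    induction k with
    | zero => simpa using hd
    | succ k ih =>
      have h2 : y ^ (k + 1) * d * (y ^ (k + 1))⁻¹ = y * (y ^ k * d * (y ^ k)⁻¹) * y⁻¹ := by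
        rw [pow_succ']
        group
      rw [h2]
      exact hn _ ih
  have h3 : y ^ (orderOf y - 1) = y⁻¹ := by
    have h4 : 1 ≤ orderOf y := orderOf_pos y
    rw [eq_inv_iff_mul_eq_one, ← pow_succ, Nat.sub_add_cancel h4, pow_orderOf_eq_one]
  have h5 := h1 (orderOf y - 1)
  rwa [h3, inv_inv] at h5

/-- Every element of `y P` is conjugate under `P` into `y C_P(y)`. Counting proof: let
`C = C_P(y)` (as a subgroup of `↥P`). The map `(P ⧸ C) × C → P`,
`(q, x) ↦ y⁻¹ * (e * (y * x) * e⁻¹)` with `e = q.out`, is injective (the part of order prime to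
`p` of `e * (y * x) * e⁻¹` is `e * y * e⁻¹`, `Dec.unique`), and both sides have `card P`
elements. -/
theorem coset_conj {P : Subgroup G} (hP : IsPGroup p P) {y : G} (hy : QE p y)
    (hn : ∀ d ∈ P, y * d * y⁻¹ ∈ P) {d : G} (hd : d ∈ P) :
    ∃ e ∈ P, ∃ x ∈ P, Commute y x ∧ y * d = e * (y * x) * e⁻¹ := by
  let C : Subgroup P := (Subgroup.centralizer {y}).subgroupOf P
  have hC : ∀ x : P, x ∈ C ↔ Commute y (x : G) := by
    intro x
    rw [Subgroup.mem_subgroupOf, Subgroup.mem_centralizer_singleton_iff]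
    exact ⟨fun h => h.symm, fun h => h.symm⟩
  have hm : ∀ e x : P, y⁻¹ * ((e : G) * (y * (x : G)) * (e : G)⁻¹) ∈ P := by
    intro e x
    have h1 : y⁻¹ * ((e : G) * (y * (x : G)) * (e : G)⁻¹) =
        (y⁻¹ * (e : G) * y) * (x : G) * (e : G)⁻¹ := by group
    rw [h1]
    exact P.mul_mem (P.mul_mem (coset_inv hn e.2) x.2) (P.inv_mem e.2)
  let F : (P ⧸ C) × C → P := fun z => ⟨_, hm z.1.out z.2.1⟩
  have hdec : ∀ x : C, Dec p (y * ((x : P) : G)) y ((x : P) : G) := fun x =>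
    ⟨rfl, (hC _).mp x.2, hy, PE.of_mem hP (x : P).2⟩
  have hinj : Function.Injective F := by
    rintro ⟨q, x⟩ ⟨q', x'⟩ h
    have h1 : ((q.out : P) : G) * (y * ((x : P) : G)) * ((q.out : P) : G)⁻¹ =
        ((q'.out : P) : G) * (y * ((x' : P) : G)) * ((q'.out : P) : G)⁻¹ :=
      mul_left_cancel (congrArg Subtype.val h)
    have h2 := (hdec x).conj ((q.out : P) : G)
    have h3 := (hdec x').conj ((q'.out : P) : G)
    rw [h1] at h2
    obtain ⟨h4, h5⟩ := h2.unique h3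
    have h6 : q = q' := by
      rw [← q.out_eq, ← q'.out_eq]
      refine QuotientGroup.eq.mpr ((hC _).mpr ?_)
      show y * (((q.out : P) : G)⁻¹ * ((q'.out : P) : G)) =
        (((q.out : P) : G)⁻¹ * ((q'.out : P) : G)) * y
      calc y * (((q.out : P) : G)⁻¹ * ((q'.out : P) : G))
          = ((q.out : P) : G)⁻¹ * (((q.out : P) : G) * y * ((q.out : P) : G)⁻¹) *
            ((q'.out : P) : G) := by group
        _ = (((q.out : P) : G)⁻¹ * ((q'.out : P) : G)) * y := by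
          rw [h4]
          group
    subst h6
    have h7 : x = x' := Subtype.ext (Subtype.ext (mul_left_cancel (mul_right_cancel h5)))
    rw [h7]
  have hcard : Nat.card ((P ⧸ C) × C) = Nat.card P := by
    rw [Nat.card_prod]
    exact (Subgroup.card_eq_card_quotient_mul_card_subgroup C).symm
  obtain ⟨⟨q, x⟩, h⟩ := ((Nat.bijective_iff_injective_and_card F).mpr ⟨hinj, hcard⟩).2 ⟨d, hd⟩
  refine ⟨_, (q.out : P).2, _, (x : P).2, (hC _).mp x.2, ?_⟩
  have h1 : y⁻¹ * (((q.out : P) : G) * (y * ((x : P) : G)) * ((q.out : P) : G)⁻¹) = d :=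
    congrArg Subtype.val h
  rw [← h1]
  group

/-- Two elements of order prime to `p` in one coset of `P` are conjugate under `P`. -/
theorem conj_of_QE {P : Subgroup G} (hP : IsPGroup p P) {y y' : G} (hy : QE p y) (hy' : QE p y')
    (hn : ∀ d ∈ P, y * d * y⁻¹ ∈ P) (hd : y⁻¹ * y' ∈ P) : ∃ e ∈ P, y' = e * y * e⁻¹ := by
  obtain ⟨e, he, x, hx, h1, h2⟩ := coset_conj hP hy hn hd
  have h3 : Dec p (y * x) y x := ⟨rfl, h1, hy, PE.of_mem hP hx⟩
  have h4 := h3.conj e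
  rw [← h2, mul_inv_cancel_left] at h4
  have h5 : Dec p y' y' 1 := ⟨(mul_one _).symm, Commute.one_right _, hy', 0, one_pow _⟩
  exact ⟨e, he, (h5.unique h4).1⟩

/-- The same inside the centraliser of `g` (apply `conj_of_QE` to `D ⊓ centralizer {g}`). -/
theorem conj_of_QE_cent {D : Subgroup G} [D.Normal] (hD : IsPGroup p D) {y y' g : G}
    (hy : QE p y) (hy' : QE p y') (hd : y⁻¹ * y' ∈ D) (h1 : Commute y g) (h2 : Commute y' g) :
    ∃ e ∈ D, Commute e g ∧ y' = e * y * e⁻¹ := by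
  have hP : IsPGroup p (D ⊓ Subgroup.centralizer {g} : Subgroup G) := hD.to_le inf_le_left
  have hc : ∀ a : G, a ∈ Subgroup.centralizer {g} ↔ Commute a g := fun a =>
    Subgroup.mem_centralizer_singleton_iff
  obtain ⟨e, he, h3⟩ := conj_of_QE hP hy hy'
    (fun d hd => ⟨Subgroup.Normal.conj_mem inferInstance d hd.1 y,
      (hc _).mpr ((h1.mul_left ((hc _).mp hd.2)).mul_left h1.inv_left)⟩)
    ⟨hd, (hc _).mpr (h1.inv_left.mul_left h2)⟩
  exact ⟨e, he.1, (hc _).mp he.2, h3⟩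

/-- For `k ∈ K` the element `k y k⁻¹` lies in `y D`, so it is `e y e⁻¹` and `e⁻¹ k` centralises
`y`. -/
theorem cover_cent {D K : Subgroup G} [D.Normal] (hD : IsPGroup p D) (hDK : D ≤ K) {y : G}
    (hy : QE p y) (hc : ∀ k ∈ K, y * k * y⁻¹ * k⁻¹ ∈ D) :
    K ≤ (K ⊓ Subgroup.centralizer {y}) ⊔ D := by
  intro k hk
  have hN : D.Normal := inferInstance
  have h1 : y⁻¹ * (k * y * k⁻¹) ∈ D := by
    have h2 : y⁻¹ * (k * y * k⁻¹) = y⁻¹ * (y * k * y⁻¹ * k⁻¹)⁻¹ * y⁻¹⁻¹ := by group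
    rw [h2]
    exact hN.conj_mem _ (D.inv_mem (hc k hk)) _
  obtain ⟨e, he, h3⟩ := conj_of_QE hD hy (hy.conj k) (fun d hd => hN.conj_mem d hd y) h1
  have h4 : e⁻¹ * k ∈ K ⊓ Subgroup.centralizer {y} := by
    refine ⟨K.mul_mem (K.inv_mem (hDK he)) hk, Subgroup.mem_centralizer_singleton_iff.mpr ?_⟩
    calc e⁻¹ * k * y = e⁻¹ * (k * y * k⁻¹) * k := by group
      _ = y * (e⁻¹ * k) := by
        rw [h3]
        group
  have h5 : k = e * (e⁻¹ * k) := by group
  rw [h5]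
  exact Subgroup.mul_mem _ (Subgroup.mem_sup_right he) (Subgroup.mem_sup_left h4)

theorem coset_parts {D : Subgroup G} [D.Normal] (hD : IsPGroup p D) {c y x c' y' x' : G}
    (h : Dec p c y x) (h' : Dec p c' y' x') (hc : c⁻¹ * c' ∈ D) :
    (∃ e ∈ D, y' = e * y * e⁻¹) ∧ x⁻¹ * x' ∈ D := by
  have h1 := h.map (QuotientGroup.mk' D)
  have h2 := h'.map (QuotientGroup.mk' D)
  have h3 : QuotientGroup.mk' D c = QuotientGroup.mk' D c' := QuotientGroup.eq.mpr hc
  rw [h3] at h1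
  obtain ⟨h4, h5⟩ := h1.unique h2
  exact ⟨conj_of_QE hD h.2.2.1 h'.2.2.1
    (fun d hd => Subgroup.Normal.conj_mem inferInstance d hd y) (QuotientGroup.eq.mp h4),
    QuotientGroup.eq.mp h5⟩

/-- An element that stabilises the coset `c D` can be corrected by an element of `D` so that it
centralises `y`, when `c = y x` with `x ∈ D`. -/
theorem stab_cent {D : Subgroup G} [D.Normal] (hD : IsPGroup p D) {c y x g : G}
    (h : Dec p c y x) (hx : x ∈ D) (hg : g * c * g⁻¹ * c⁻¹ ∈ D) :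
    ∃ e ∈ D, Commute (e * g) y := by
  have hN : D.Normal := inferInstance
  have h1 : (g * c * g⁻¹)⁻¹ * c ∈ D := by
    have h2 : (g * c * g⁻¹)⁻¹ * c = c⁻¹ * (g * c * g⁻¹ * c⁻¹)⁻¹ * c⁻¹⁻¹ := by group
    rw [h2]
    exact hN.conj_mem _ (D.inv_mem hg) _
  obtain ⟨⟨e, he, h3⟩, -⟩ := coset_parts hD (h.conj g) h h1
  refine ⟨e, he, ?_⟩
  show e * g * y = y * (e * g)
  calc e * g * y = (e * (g * y * g⁻¹) * e⁻¹) * (e * g) := by group
    _ = y * (e * g) := by rw [← h3]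

/-- The parts of order prime to `p` of two elements of one class are conjugate, compatibly. -/
theorem cls_part {D : Subgroup G} [D.Normal] (hD : IsPGroup p D) {c y x c' y' x' : G}
    (h : Dec p c y x) (h' : Dec p c' y' x') (hc : c' ∈ cls D c) :
    ∃ g : G, y' = g * y * g⁻¹ ∧ (x ∈ D → x' ∈ D) := by
  have hN : D.Normal := inferInstance
  obtain ⟨g, d, hd, h1⟩ := hc
  have h2 : (g * c * g⁻¹)⁻¹ * c' ∈ D := by
    rw [h1, inv_mul_cancel_left]
    exact hd
  obtain ⟨⟨e, -, h3⟩, h4⟩ := coset_parts hD (h.conj g) h' h2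
  refine ⟨e * g, ?_, fun hx => ?_⟩
  · rw [h3]
    group
  · have h5 := D.mul_mem (hN.conj_mem x hx g) h4
    rwa [mul_inv_cancel_left] at h5

end Pool.Agent.Lib.MP_634dc6_al
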