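import Mathlib

/-!
Definitions for the orbit-to-order ratio project. All groups live in `Type`.
Automorphisms are always realised as conjugations inside one big finite group.
-/

namespace Pool.Agent.Lib.MP_634dc6_al

variable {G : Type} [Group G]

/-- `x` is a `p`-element. -/
def PE (p : ℕ) (x : G) : Prop := ∃ k : ℕ, x ^ p ^ k = 1

/-- `y` has order prime to `p`. -/
def QE (p : ℕ) (y : G) : Prop := (orderOf y).Coprime p

/-- `g = y * x` with `y` the part of order prime to `p` and `x` the `p`-part. -/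
def Dec (p : ℕ) (g y x : G) : Prop := g = y * x ∧ Commute y x ∧ QE p y ∧ PE p x

/-- The `p`-adic valuation of the order of `g`. -/
noncomputable def vo (p : ℕ) (g : G) : ℕ := (orderOf g).factorization p

/-- The largest perfect subgroup of `H`. -/
def res (H : Subgroup G) : Subgroup G := sSup {U | U ≤ H ∧ ⁅U, U⁆ = U}

/-- The conjugate `g H g⁻¹`. -/
def cj (g : G) (H : Subgroup G) : Subgroup G := H.map (MulAut.conj g).toMonoidHom

/-- The number of conjugacy classes that meet `S`. -/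
noncomputable def om (S : Set G) : ℕ := (ConjClasses.mk '' S).ncard

/-- The union of the conjugates of the coset `ρ D`. -/
def cls (D : Subgroup G) (ρ : G) : Set G := {σ | ∃ g : G, ∃ d ∈ D, σ = g * ρ * g⁻¹ * d}

/-- The coset `x U`. -/
def cos (x : G) (U : Subgroup G) : Set G := {σ | ∃ u ∈ U, σ = x * u}

/-- Global structure: the `K i / D` are commuting nontrivial perfect groups of order at most `M`,
permuted by conjugation and centralised by `R / D`. -/
structure GS {ι : Type} (M : ℕ) (D R : Subgroup G) (K : ι → Subgroup G) : Prop where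
  nD : D.Normal
  nR : R.Normal
  DR : D ≤ R
  DK : ∀ i, D ≤ K i
  perf : ∀ i, K i ≤ ⁅K i, K i⁆ ⊔ D
  ne : ∀ i, ¬ K i ≤ D
  idx : ∀ i, D.relIndex (K i) ≤ M
  comm : ∀ i j, i ≠ j → ⁅K i, K j⁆ ≤ D
  cen : ∀ i, ⁅R, K i⁆ ≤ D
  perm : ∀ g : G, ∃ π : Equiv.Perm ι, ∀ i, cj g (K i) = K (π i)

/-- Local structure: perfect subgroups that commute modulo the normal `p`-subgroup `P`. -/
structure LS {ι : Type} (p M : ℕ) (P : Subgroup G) (Λ : ι → Subgroup G) : Prop where
  nP : P.Normal
  pP : IsPGroup p P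
  perf : ∀ i, ⁅Λ i, Λ i⁆ = Λ i
  idx : ∀ i, P.relIndex (Λ i) ≤ M
  comm : ∀ i j, i ≠ j → ⁅Λ i, Λ j⁆ ≤ P
  perm : ∀ g : G, ∃ π : Equiv.Perm ι, ∀ i, cj g (Λ i) = Λ (π i)

/-- The join of the members of the family indexed by `J`. -/
def jn {ι : Type} (Λ : ι → Subgroup G) (J : Set ι) : Subgroup G := ⨆ i ∈ J, Λ i

/-- `J` is invariant under conjugation. -/
def InvS {ι : Type} (Λ : ι → Subgroup G) (J : Set ι) : Prop :=
  ∀ g : G, ∀ i ∈ J, ∃ j ∈ J, cj g (Λ i) = Λ j

/-- The indices whose groups act nontrivially on `V`. -/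
def actv {ι : Type} (V : Subgroup G) (Λ : ι → Subgroup G) : Set ι := {i | ⁅V, Λ i⁆ ≠ ⊥}

/-- `V` is a minimal normal subgroup. -/
def MinNor (V : Subgroup G) : Prop :=
  V.Normal ∧ V ≠ ⊥ ∧ ∀ W : Subgroup G, W.Normal → W ≤ V → W = ⊥ ∨ W = V

/-- `B / A` is a chief factor. -/
def Cv (A B : Subgroup G) : Prop :=
  A.Normal ∧ B.Normal ∧ A < B ∧ ∀ W : Subgroup G, W.Normal → A ≤ W → W ≤ B → W = A ∨ W = B

/-- `W` is normalised by all members of the family. -/
def Inva {ι : Type} (Λ : ι → Subgroup G) (W : Subgroup G) : Prop :=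
  ∀ i, ∀ l ∈ Λ i, ∀ w ∈ W, l * w * l⁻¹ ∈ W

/-- `W` is minimal among the nontrivial subgroups that the family normalises. -/
def MinI {ι : Type} (Λ : ι → Subgroup G) (W : Subgroup G) : Prop :=
  Inva Λ W ∧ W ≠ ⊥ ∧ ∀ U : Subgroup G, Inva Λ U → U ≤ W → U = ⊥ ∨ U = W

/-- Module structure: perfect subgroups that act on the commutative normal subgroup `V` as
commuting groups of order at most `M`. -/
structure MS {ι : Type} (M : ℕ) (V : Subgroup G) (Λ : ι → Subgroup G) : Prop where
  nV : V.Normal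
  ab : ⁅V, V⁆ = ⊥
  perf : ∀ i, ⁅Λ i, Λ i⁆ = Λ i
  idx : ∀ i, (Subgroup.centralizer (V : Set G)).relIndex (Λ i) ≤ M
  comm : ∀ i j, i ≠ j → ⁅Λ i, Λ j⁆ ≤ Subgroup.centralizer (V : Set G)
  perm : ∀ g : G, ∃ π : Equiv.Perm ι, ∀ i, cj g (Λ i) = Λ (π i)

/-- The perfect part of the centraliser of `y` in `K i`. -/
def lam {ι : Type} (K : ι → Subgroup G) (y : G) (i : ι) : Subgroup G :=
  res (K i ⊓ Subgroup.centralizer {y})

/-- `c` is active at `p`. -/
def Act {ι : Type} (p : ℕ) (D : Subgroup G) (K : ι → Subgroup G) (c : G) : Prop :=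
  ∃ y x : G, Dec p c y x ∧ ∃ i, ⁅D ⊓ Subgroup.centralizer {y}, lam K y i⁆ ≠ ⊥

/-- The class of `c` contains an active element. -/
def ActC {ι : Type} (p : ℕ) (D : Subgroup G) (K : ι → Subgroup G) (c : G) : Prop :=
  ∃ c' ∈ cls D c, Act p D K c'

/-- The indices `i` such that `ρ` does not centralise `K i / D`. -/
def supp {ι : Type} (D : Subgroup G) (K : ι → Subgroup G) (ρ : G) : Set ι :=
  {i | ∃ k ∈ K i, ρ * k * ρ⁻¹ * k⁻¹ ∉ D}

/-- `i` and `j` are conjugate under the stabiliser of the coset `c D`. -/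
def Rel {ι : Type} (D : Subgroup G) (K : ι → Subgroup G) (c : G) (i j : ι) : Prop :=
  ∃ g : G, g * c * g⁻¹ * c⁻¹ ∈ D ∧ cj g (K i) = K j

/-- `J` is closed under the relation `r`. -/
def Cl {ι : Type} (r : ι → ι → Prop) (J : Set ι) : Prop := ∀ i j, r i j → i ∈ J → j ∈ J

/-- The elements of `D` of order prime to `p` (a subgroup when `D` is nilpotent). -/
def qp (p : ℕ) (D : Subgroup G) : Subgroup G := Subgroup.closure {d | d ∈ D ∧ QE p d}

instance qp_normal (p : ℕ) (D : Subgroup G) [hD : D.Normal] : (qp p D).Normal := by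
  refine ⟨fun n hn g => ?_⟩
  induction hn using Subgroup.closure_induction with
  | mem x hx =>
    refine Subgroup.subset_closure ⟨hD.conj_mem x hx.1 g, ?_⟩
    have h : orderOf (g * x * g⁻¹) = orderOf x := by
      simpa using MulEquiv.orderOf_eq (MulAut.conj g) x
    unfold QE
    rw [h]
    exact hx.2
  | one => simp
  | mul x y _ _ hx hy =>
    have h : g * (x * y) * g⁻¹ = (g * x * g⁻¹) * (g * y * g⁻¹) := by group
    rw [h]
    exact Subgroup.mul_mem _ hx hy
  | inv x _ hx =>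
    have h : g * x⁻¹ * g⁻¹ = (g * x * g⁻¹)⁻¹ := by group
    rw [h]
    exact Subgroup.inv_mem _ hx

/-- The projection that kills the part of `D` prime to `p`. -/
def pr (p : ℕ) (D : Subgroup G) [D.Normal] : G →* G ⧸ qp p D := QuotientGroup.mk' (qp p D)

/-- The number of classes over `ρ` after the projection. -/
noncomputable def wp (p : ℕ) (D : Subgroup G) [D.Normal] (ρ : G) : ℕ :=
  om (cls (D.map (pr p D)) (pr p D ρ))

/-- Activity after the projection. -/
def ap {ι : Type} (p : ℕ) (D : Subgroup G) [D.Normal] (K : ι → Subgroup G) (c : G) : Prop :=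
  ActC p (D.map (pr p D)) (fun i => (K i).map (pr p D)) (pr p D c)

/-- The valuation of the order modulo `D`. -/
noncomputable def vq (p : ℕ) (D : Subgroup G) [D.Normal] (g : G) : ℕ :=
  vo p (QuotientGroup.mk' D g)

/-- `b` determines `a` up to a bounded ambiguity. -/
def Half (M b a : ℕ) : Prop := b ≤ (a + 1) / 2 ∧ (a + 1) / 2 ≤ b + 2 * M

open Classical in
/-- The weight function on exponents. -/
noncomputable def fw (ε : ℝ) (ω M b : ℕ) (O : Set ℕ) (a : ℕ) : ℝ :=
  (1 - ε) * (if a ∈ O then 1 else 0) +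
    ε / 2 * (if Half M b a then (ω : ℝ) / (2 * (2 * M + 1)) else 0) +
    ε / 2 * (if a + 1 ≤ 3 * (M + 1) * ω then
      Real.sqrt (3 * (M + 1) * ω / (a + 1)) / (6 * (M + 1)) else 0)

/-- The basic small constant. -/
noncomputable def gam (M : ℕ) : ℝ := 1 / (12 * (M + 1))

open Classical in
/-- The share of the weight that is reserved for the encoded exponents. -/
noncomputable def eps {ι : Type} (p₀ p : ℕ) (D R : Subgroup G) [D.Normal] (K : ι → Subgroup G)
    (ρ : G) : ℝ := if p ≤ p₀ ∨ (ρ ∈ R ∧ ap p D K ρ) then 1 else 1 / (p : ℝ) ^ 2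

/-- The weight of the exponent `a` at the prime `p` for the class of `ρ`. -/
noncomputable def ff {ι : Type} (M p₀ p : ℕ) (D R : Subgroup G) [D.Normal] (K : ι → Subgroup G)
    (ρ : G) (a : ℕ) : ℝ :=
  fw (eps p₀ p D R K ρ) (wp p D ρ) M (vq p D (ρ ^ Nat.factorial M)) (vo p '' cls D ρ) a

/-- Every nonabelian simple section of `G` has order at most `M`. -/
def Sm (M : ℕ) (G : Type) [Group G] : Prop :=
  ∀ (A : Subgroup G) (T : Type) [Group T] (f : A →* T), Function.Surjective f →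
    IsSimpleGroup T → (∃ a b : T, a * b ≠ b * a) → Nat.card T ≤ M

/-- `S` is a minimal normal subgroup of `N`. -/
def MinIn (N S : Subgroup G) : Prop :=
  S ≤ N ∧ S ≠ ⊥ ∧ (∀ n ∈ N, ∀ s ∈ S, n * s * n⁻¹ ∈ S) ∧
    ∀ T : Subgroup G, T ≤ S → (∀ n ∈ N, ∀ t ∈ T, n * t * n⁻¹ ∈ T) → T = ⊥ ∨ T = S

/-- `H` is not commutative. -/
def NA (H : Subgroup G) : Prop := ∃ a ∈ H, ∃ b ∈ H, a * b ≠ b * a

/-- The components: minimal normal subgroups of noncommutative minimal normal subgroups that lie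
in `L`. -/
def Comp (L S : Subgroup G) : Prop := ∃ N : Subgroup G, MinNor N ∧ N ≤ L ∧ NA N ∧ MinIn N S

/-- The number of element orders in `S`. -/
noncomputable def nord (S : Set G) : ℕ := (orderOf '' S).ncard

end Pool.Agent.Lib.MP_634dc6_al
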