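import Pool.Agent.Lib.MP_634dc6_al.SmL
import Pool.Agent.Lib.MP_634dc6_al.AutL

/-!
Primitive groups.
-/

namespace Pool.Agent.Lib.MP_634dc6_al

variable {G : Type} [Group G] [Finite G] {U N : Subgroup G} {M : ℕ}

/-- `U` is a maximal subgroup with trivial core. -/
def Prim (U : Subgroup G) : Prop := IsCoatom U ∧ ∀ N : Subgroup G, N.Normal → N ≤ U → N = ⊥

omit [Finite G] in
theorem Prim.sup_eq_top (h : Prim U) (hN : MinNor N) : U ⊔ N = ⊤ := by
  exact h.1.2 _ (left_lt_sup.2 fun hle => hN.2.1 (h.2 N hN.1 hle))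

omit [Finite G] in
theorem primn_dec (h : Prim U) (hN : MinNor N) (g : G) : ∃ u ∈ U, ∃ n ∈ N, u * n = g := by
  have := hN.1
  exact Subgroup.mem_sup_of_normal_right.1 (h.sup_eq_top hN ▸ Subgroup.mem_top g)

omit [Finite G] in
theorem primn_card (A B : Subgroup G) : Nat.card B = Nat.card ↥(A ⊓ B) * A.relIndex B := by
  rw [← Subgroup.relIndex_bot_left, ← Subgroup.relIndex_bot_left, ← Subgroup.inf_relIndex_right A B,
    Subgroup.relIndex_mul_relIndex ⊥ (A ⊓ B) B bot_le inf_le_right]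

omit [Finite G] in
theorem primn_comm {A B : Subgroup G} (h : ⁅A, B⁆ = ⊥) {a b : G} (ha : a ∈ A) (hb : b ∈ B) :
    a * b = b * a := by
  have h1 := Subgroup.commutator_mem_commutator ha hb
  rw [h, Subgroup.mem_bot, commutatorElement_eq_one_iff_mul_comm] at h1
  exact h1

omit [Finite G] in
theorem primn_inv {J : Set (Subgroup G)} (hJ : ∀ S ∈ J, MinIn N S) {n y : G} (hn : n ∈ N)
    (hy : y ∈ jn id J) : n * y * n⁻¹ ∈ jn id J :=
  cj_jn_le (g := n) (fun i hi => ⟨i, hi, (hJ i hi).cj_eq hn⟩) (conj_mem_cj n hy)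

omit [Finite G] in
theorem primn_cj {I J : Set (Subgroup G)} (hI : ∀ S ∈ I, MinIn N S) (hJ : ∀ S ∈ J, MinIn N S)
    (hd : ∀ S ∈ I, S ∉ J) : ⁅jn id I, jn id J⁆ = ⊥ := by
  refine le_bot_iff.1 (comm_jn_le fun j hj => ?_)
  rw [Subgroup.commutator_comm]
  refine comm_jn_le fun i hi => ?_
  exact ((hJ j hj).comm_of_ne (hI i hi) fun e => hd i hi (e ▸ hj)).le

/-- `Subgroup.relIndex_sup_right`-type identity for the normal subgroup `N`, or count cosets. -/
theorem Prim.relIndex_eq (h : Prim U) (hN : MinNor N) : U.relIndex N = U.index := by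
  have := hN.1
  have h1 : N.relIndex U = N.index := by
    rw [← Subgroup.relIndex_sup_right U N, h.sup_eq_top hN, Subgroup.relIndex_top_right]
  have h2 := Subgroup.relIndex_mul_index (inf_le_right : U ⊓ N ≤ N)
  have h3 := Subgroup.relIndex_mul_index (inf_le_left : U ⊓ N ≤ U)
  rw [Subgroup.inf_relIndex_right] at h2
  rw [Subgroup.inf_relIndex_left, h1, ← h2, mul_comm] at h3
  exact (Nat.eq_of_mul_eq_mul_right (Nat.pos_of_ne_zero Subgroup.index_ne_zero_of_finite) h3).symm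

/-- `U ⊓ centralizer N` is normalised by `U` and centralised by `N`, so it is trivial. -/
theorem Prim.card_cent_le (h : Prim U) (hN : MinNor N) :
    Nat.card (Subgroup.centralizer (N : Set G)) ≤ U.index := by
  have := hN.1
  have h1 : (U ⊓ Subgroup.centralizer (N : Set G)).Normal := by
    refine ⟨fun x hx g => ?_⟩
    obtain ⟨u, hu, n, hn, rfl⟩ := primn_dec h hN g
    have e : u * n * x * (u * n)⁻¹ = u * x * u⁻¹ := by
      have h2 : n * x = x * n := Subgroup.mem_centralizer_iff.1 hx.2 n hn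
      rw [mul_assoc u n x, h2]
      group
    rw [e]
    exact ⟨U.mul_mem (U.mul_mem hu hx.1) (U.inv_mem hu),
      Subgroup.Normal.conj_mem inferInstance x hx.2 u⟩
  have h2 := h.2 _ h1 inf_le_left
  rw [primn_card U, h2, Subgroup.card_bot, one_mul, ← Subgroup.relIndex_top_right]
  refine Subgroup.relIndex_le_of_le_right le_top ?_
  rw [Subgroup.relIndex_top_right]
  exact Subgroup.index_ne_zero_of_finite

theorem Prim.card_le_of_comm (h : Prim U) (hN : MinNor N) (ha : ⁅N, N⁆ = ⊥) :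
    Nat.card N ≤ U.index := by
  exact (Subgroup.card_le_of_le (Subgroup.commutator_eq_bot_iff_le_centralizer.1 ha)).trans
    (h.card_cent_le hN)

/-- Every conjugate of `S` is a conjugate by an element of `U`; `MinNor.le_iSup_cj`. -/
theorem Prim.not_le (h : Prim U) (hN : MinNor N) {S : Subgroup G} (hS : MinIn N S) : ¬ S ≤ U := by
  intro hle
  refine hN.2.1 (h.2 N hN.1 ?_)
  rw [hN.le_iSup_cj hS.1 hS.2.1]
  refine iSup_le fun g => ?_
  obtain ⟨u, hu, n, hn, rfl⟩ := primn_dec h hN g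
  rw [cj_mul, hS.cj_eq hn]
  intro x hx
  have h1 := hle (mem_cj.1 hx)
  have e : x = u * (u⁻¹ * x * u) * u⁻¹ := by group
  rw [e]
  exact U.mul_mem (U.mul_mem hu h1) (U.inv_mem hu)

/-- Let `𝒮` be the finset of all `S` with `MinIn N S`, `A = U ⊓ N`, and `J ⊆ 𝒮` of minimal
cardinality with `N ≤ A ⊔ jn id J`. `doubling` gives `2 ^ card J ≤ U.index`. Let `Y = jn id (𝒮 \ J)`.
The group `A ⊓ Y` is normalised by `A` and centralised by `jn id J`, hence normalised by `N`; for
`S ∈ 𝒮` the group `A ⊓ Y ⊓ S` is trivial (`Prim.not_le`), so `A ⊓ Y` commutes with `N` and lies in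
`N ⊓ centralizer N = ⊥`. Every `y ∈ Y` is `a * t` with `t ∈ jn id J`, and `y ↦ t` is injective. So
`2 ^ (card 𝒮 - card J) ≤ card Y ≤ M ^ card J` (`doubling` with `A = ⊥`, `card_jn_le`), and
`M ≤ 2 ^ M`. -/
theorem Prim.two_pow_le (h : Prim U) (hG : Sm M G) (hN : MinNor N) (ha : NA N) :
    2 ^ {S | MinIn N S}.ncard ≤ U.index ^ (M + 1) := by
  classical
  have hn := hN.1
  set F : Finset (Subgroup G) := (Set.toFinite {S | MinIn N S}).toFinset with hF
  have hFm : ∀ S, S ∈ F ↔ MinIn N S := fun S => by simp [hF]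
  have hFc : (F : Set (Subgroup G)) = {S | MinIn N S} := by simp [hF]
  rw [← hFc, Set.ncard_coe_finset]
  obtain ⟨J, hJ, hmin⟩ := Finset.exists_min_image
    (F.powerset.filter fun J : Finset (Subgroup G) => N ≤ U ⊓ N ⊔ jn id (J : Set (Subgroup G)))
    Finset.card ⟨F, by
      rw [Finset.mem_filter, hFc, ← hN.le_jn_minIn]
      exact ⟨Finset.mem_powerset_self F, le_sup_right⟩⟩
  rw [Finset.mem_filter, Finset.mem_powerset] at hJ
  obtain ⟨hJF, hJ⟩ := hJ
  have hJm : ∀ S ∈ (J : Set (Subgroup G)), MinIn N S := fun S hS => (hFm S).1 (hJF hS)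
  have hYm : ∀ S ∈ ((F \ J : Finset (Subgroup G)) : Set (Subgroup G)), MinIn N S :=
    fun S hS => (hFm S).1 (Finset.mem_sdiff.1 hS).1
  have hTN : jn id (J : Set (Subgroup G)) ≤ N := jn_le fun S hS => (hJm S hS).1
  have hYN : jn id ((F \ J : Finset (Subgroup G)) : Set (Subgroup G)) ≤ N :=
    jn_le fun S hS => (hYm S hS).1
  have hpos : 0 < Nat.card ↥(U ⊓ N) := Nat.card_pos
  have h1 : 2 ^ J.card ≤ U.index := by
    have h2 := doubling (U ⊓ N) id J fun j hj hle => by
      have h3 := hmin (J.erase j) (by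
        rw [Finset.mem_filter, Finset.mem_powerset, Finset.coe_erase]
        refine ⟨(Finset.erase_subset j J).trans hJF, hJ.trans (sup_le le_sup_left ?_)⟩
        refine jn_le fun i hi => ?_
        by_cases e : i = j
        · exact e ▸ hle
        · exact (le_jn (Λ := id) (J := (J : Set (Subgroup G)) \ {j}) ⟨hi, e⟩).trans le_sup_right)
      have h4 := Finset.card_erase_lt_of_mem hj
      omega
    have h3 := h2.trans (Subgroup.card_le_of_le (sup_le inf_le_right hTN))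
    rw [primn_card U N, h.relIndex_eq hN, mul_comm] at h3
    exact Nat.le_of_mul_le_mul_left h3 hpos
  have hnorm : U ⊓ N ≤ Subgroup.normalizer (jn id (J : Set (Subgroup G)) : Set G) := by
    intro a ha'
    refine Subgroup.mem_normalizer_iff.2 fun t => ⟨fun ht => primn_inv hJm ha'.2 ht, fun ht => ?_⟩
    have h2 := primn_inv hJm (N.inv_mem ha'.2) ht
    have e : a⁻¹ * (a * t * a⁻¹) * a⁻¹⁻¹ = t := by group
    rwa [e] at h2
  have hprod := Subgroup.coe_mul_of_left_le_normalizer_right _ _ hnorm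
  have hYT := primn_cj hYm hJm fun S hS => (Finset.mem_sdiff.1 hS).2
  have hB : ∀ n ∈ N, ∀ b ∈ U ⊓ N ⊓ jn id ((F \ J : Finset (Subgroup G)) : Set (Subgroup G)),
      n * b * n⁻¹ ∈ U ⊓ N ⊓ jn id ((F \ J : Finset (Subgroup G)) : Set (Subgroup G)) := by
    intro n hn' b hb
    refine ⟨?_, primn_inv hYm hn' hb.2⟩
    have h2 : n ∈ ((U ⊓ N ⊔ jn id (J : Set (Subgroup G)) : Subgroup G) : Set G) := hJ hn'
    rw [hprod] at h2
    obtain ⟨a, ha', t, ht, rfl⟩ := h2
    have e : a * t * b * (a * t)⁻¹ = a * b * a⁻¹ := by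
      rw [mul_assoc a t b, ← primn_comm hYT hb.2 ht]
      group
    change a * t * b * (a * t)⁻¹ ∈ U ⊓ N
    rw [e]
    exact mul_mem (mul_mem ha' hb.1) (inv_mem ha')
  have hB0 : U ⊓ N ⊓ jn id ((F \ J : Finset (Subgroup G)) : Set (Subgroup G)) = ⊥ := by
    refine le_bot_iff.1 fun b hb => Subgroup.mem_bot.2 ?_
    refine hN.eq_one_of_comm (L := N) (fun e => not_NA_iff.2 e ha) hb.1.2 ?_
    refine comm_of_comp (L := N) (fun S hS x hx => ?_) hN le_rfl ha
    obtain ⟨N', hN', hle, -, hS⟩ := hS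
    have e : N' = N := (hN.2.2 N' hN'.1 hle).resolve_left hN'.2.1
    subst e
    have h2 := hS.2.2.2 (U ⊓ N' ⊓ jn id ((F \ J : Finset (Subgroup G)) : Set (Subgroup G)) ⊓ S)
      inf_le_right fun n hn' t ht => ⟨hB n hn' t ht.1, hS.2.2.1 n hn' t ht.2⟩
    rcases h2 with h2 | h2
    · have h3 : b * x * b⁻¹ * x⁻¹ ∈
          U ⊓ N' ⊓ jn id ((F \ J : Finset (Subgroup G)) : Set (Subgroup G)) ⊓ S := by
        refine ⟨?_, S.mul_mem (hS.2.2.1 b hb.1.2 x hx) (S.inv_mem hx)⟩
        have e : b * x * b⁻¹ * x⁻¹ = b * (x * b⁻¹ * x⁻¹) := by group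
        change b * x * b⁻¹ * x⁻¹ ∈
          U ⊓ N' ⊓ jn id ((F \ J : Finset (Subgroup G)) : Set (Subgroup G))
        rw [e]
        exact mul_mem hb (hB x (hS.1 hx) _ (inv_mem hb))
      rw [h2, Subgroup.mem_bot] at h3
      exact commutatorElement_eq_one_iff_commute.1 h3
    · exact absurd (h2.ge.trans (inf_le_left.trans (inf_le_left.trans inf_le_left)))
        (h.not_le hN hS)
  have h2 : Nat.card ↥(jn id ((F \ J : Finset (Subgroup G)) : Set (Subgroup G))) ≤
      Nat.card ↥(jn id (J : Set (Subgroup G))) := by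
    have h3 := (card_mul_le_card_sup hB0).trans
      (Subgroup.card_le_of_le ((sup_le inf_le_right hYN).trans hJ))
    have h4 : Nat.card ↥(U ⊓ N ⊔ jn id (J : Set (Subgroup G))) ≤
        Nat.card ↥(U ⊓ N) * Nat.card ↥(jn id (J : Set (Subgroup G))) := by
      change Nat.card ((U ⊓ N ⊔ jn id (J : Set (Subgroup G)) : Subgroup G) : Set G) ≤ _
      rw [hprod]
      exact Set.natCard_mul_le
    exact Nat.le_of_mul_le_mul_left (h3.trans h4) hpos
  have h3 := doubling ⊥ id (F \ J) fun j hj hle => by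
    have hj' := hYm j hj
    have h4 : ⁅j, jn id (((F \ J : Finset (Subgroup G)) : Set (Subgroup G)) \ {j})⁆ ≤ ⊥ :=
      comm_jn_le fun i hi => (hj'.comm_of_ne (hYm i hi.1) fun e => hi.2 e.symm).le
    rw [bot_sup_eq] at hle
    refine hj'.2.1 (le_bot_iff.1 ?_)
    rw [← hj'.perf hN ha]
    exact (Subgroup.commutator_mono le_rfl hle).trans h4
  rw [bot_sup_eq, Subgroup.card_bot, mul_one] at h3
  have h4 := card_jn_le (S := id) (M := M) J
    (fun i hi j hj e => (hJm i hi).comm_of_ne (hJm j hj) e)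
    fun i hi => Comp.card_le hG (L := N) ⟨N, hN, le_rfl, ha, hJm i hi⟩
  have h5 : M ^ J.card ≤ (2 ^ J.card) ^ M := by
    rw [← pow_mul, mul_comm, pow_mul]
    exact Nat.pow_le_pow_left Nat.lt_two_pow_self.le _
  calc 2 ^ F.card = 2 ^ (F \ J).card * 2 ^ J.card := by
        rw [← pow_add, Finset.card_sdiff_add_card_eq_card hJF]
    _ ≤ (2 ^ J.card) ^ M * 2 ^ J.card :=
        Nat.mul_le_mul_right _ (h3.trans (h2.trans (h4.trans h5)))
    _ = (2 ^ J.card) ^ (M + 1) := (pow_succ _ _).symm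
    _ ≤ U.index ^ (M + 1) := Nat.pow_le_pow_left h1 _

/-- The components in `N` are the `S` with `MinIn N S`. With `n` their number take
`e = lcmUpto n * card (centralizer N)`; `Bg.comm_comp`, `comm_of_comp`, `lcmUpto_le`. -/
theorem Prim.exp_na (h : Prim U) (hG : Sm M G) (hN : MinNor N) (ha : NA N) :
    ∃ e : ℕ, 0 < e ∧ e ≤ U.index ^ (8 * M + 9) ∧ ∀ g : G, Bg M g → g ^ e = 1 := by
  have hn := hN.1
  have hc : {S | Comp N S} = {S | MinIn N S} := by
    ext S
    refine ⟨fun ⟨N', hN', hle, _, hS⟩ => ?_, fun hS => ⟨N, hN, le_rfl, ha, hS⟩⟩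
    have e : N' = N := (hN.2.2 N' hN'.1 hle).resolve_left hN'.2.1
    exact e ▸ hS
  refine ⟨Nat.lcmUpto {S | MinIn N S}.ncard * Nat.card (Subgroup.centralizer (N : Set G)),
    Nat.mul_pos (Nat.lcmUpto_pos _) Nat.card_pos, ?_, fun g hg => ?_⟩
  · calc _ ≤ 2 ^ (8 * {S | MinIn N S}.ncard) * U.index :=
          Nat.mul_le_mul (lcmUpto_le _) (h.card_cent_le hN)
      _ = (2 ^ {S | MinIn N S}.ncard) ^ 8 * U.index := by rw [← pow_mul, mul_comm 8]
      _ ≤ (U.index ^ (M + 1)) ^ 8 * U.index :=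
          Nat.mul_le_mul_right _ (Nat.pow_le_pow_left (h.two_pow_le hG hN ha) 8)
      _ = U.index ^ (8 * M + 9) := by ring
  · have h1 := comm_of_comp (L := N) (g := g ^ Nat.lcmUpto {S | MinIn N S}.ncard)
      (fun S hS => Bg.comm_comp hG (L := N) (hc ▸ le_rfl) hg hS) hN le_rfl ha
    have h2 : g ^ Nat.lcmUpto {S | MinIn N S}.ncard ∈ Subgroup.centralizer (N : Set G) :=
      Subgroup.mem_centralizer_iff.2 fun x hx => (h1 x hx).symm.eq
    have h3 := pow_card_eq_one' (x := (⟨_, h2⟩ : Subgroup.centralizer (N : Set G)))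
    rw [pow_mul]
    exact congrArg Subtype.val h3

end Pool.Agent.Lib.MP_634dc6_al
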