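import Pool.Agent.Lib.MP_634dc6_al.LinB
import Pool.Agent.Lib.MP_634dc6_al.PrimN

/-!
In a permutation group with small nonabelian simple sections the elements of large prime power
order have polynomially bounded exponent.
-/

namespace Pool.Agent.Lib.MP_634dc6_al

variable {G : Type} [Group G] [Finite G] {U : Subgroup G} {M : ℕ}

/-- `exists_minNor` for `⊤`; `Prim.exp_na`, or `exp_lin` with `Prim.card_cent_le` and
`Prim.card_le_of_comm`. -/
theorem Prim.exp (h : Prim U) (hG : Sm M G) :
    ∃ e : ℕ, 0 < e ∧ e ≤ U.index ^ (8 * M + 44) ∧ ∀ g : G, Bg M g → g ^ e = 1 := by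
  have hi : 0 < U.index := Nat.pos_of_ne_zero U.index_ne_zero_of_finite
  have ht : (⊤ : Subgroup G) ≠ ⊥ := fun h0 => h.1.1 (top_le_iff.1 (h0 ▸ bot_le))
  obtain ⟨V, -, hV⟩ := exists_minNor ht
  by_cases ha : NA V
  · obtain ⟨e, h1, h2, h3⟩ := h.exp_na hG hV ha
    exact ⟨e, h1, h2.trans (Nat.pow_le_pow_right hi (by omega)), h3⟩
  · rw [not_NA_iff] at ha
    obtain ⟨e, h1, h2, h3⟩ := exp_lin hG hV ha
    refine ⟨e * Nat.card (cz V), Nat.mul_pos h1 Nat.card_pos, ?_, fun g hg => ?_⟩
    · calc e * Nat.card (cz V) ≤ U.index ^ 43 * U.index :=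
            Nat.mul_le_mul (h2.trans (Nat.pow_le_pow_left (h.card_le_of_comm hV ha) _))
              (h.card_cent_le hV)
        _ = U.index ^ 44 := (pow_succ _ _).symm
        _ ≤ U.index ^ (8 * M + 44) := Nat.pow_le_pow_right hi (by omega)
    · have h4 : (⟨g ^ e, h3 g hg⟩ : cz V) ^ Nat.card (cz V) = 1 := pow_card_eq_one'
      rw [pow_mul]
      exact congrArg Subtype.val h4

/-- Pass to `G ⧸ U.normalCore`. -/
theorem exp_coatom (h : IsCoatom U) (hG : Sm M G) :
    ∃ e : ℕ, 0 < e ∧ e ≤ U.index ^ (8 * M + 44) ∧ ∀ g : G, Bg M g → g ^ e ∈ U := by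
  set f := QuotientGroup.mk' U.normalCore with hf
  have hs : Function.Surjective f := QuotientGroup.mk'_surjective _
  have hc : (U.map f).comap f = U := by
    rw [Subgroup.comap_map_eq, hf, QuotientGroup.ker_mk', sup_eq_left]
    exact U.normalCore_le
  have hP : Prim (U.map f) := by
    refine ⟨⟨fun h0 => h.1 (by rw [← hc, h0, Subgroup.comap_top]), fun K hK => ?_⟩,
      fun K hK hle => ?_⟩
    · have h1 : U < K.comap f := by
        refine lt_of_le_of_ne (hc.ge.trans (Subgroup.comap_mono hK.le)) fun h2 => hK.ne ?_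
        exact (congrArg (Subgroup.map f) h2).trans (Subgroup.map_comap_eq_self_of_surjective hs K)
      rw [← Subgroup.map_comap_eq_self_of_surjective hs K, h.2 _ h1,
        Subgroup.map_top_of_surjective f hs]
    · have h1 : K.comap f ≤ U.normalCore :=
        Subgroup.normal_le_normalCore.2 ((Subgroup.comap_mono hle).trans hc.le)
      rw [← Subgroup.map_comap_eq_self_of_surjective hs K, Subgroup.map_eq_bot_iff, hf,
        QuotientGroup.ker_mk']
      exact h1
  obtain ⟨e, h1, h2, h3⟩ := hP.exp (hG.of_surjective f hs)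
  refine ⟨e, h1, ?_, fun g hg => U.normalCore_le ?_⟩
  · rwa [← Subgroup.index_comap_of_surjective _ hs, hc] at h2
  · have h4 := h3 _ (hg.map f)
    rwa [← map_pow, hf, QuotientGroup.mk'_apply, QuotientGroup.eq_one_iff] at h4

/-- Strong induction on `Nat.card G`: take a maximal subgroup `U' ≥ U` and apply the induction
hypothesis to `U.subgroupOf U'`; `Subgroup.relIndex_mul_index`. -/
theorem exp_index (hG : Sm M G) (U : Subgroup G) :
    ∃ e : ℕ, 0 < e ∧ e ≤ U.index ^ (8 * M + 44) ∧ ∀ g : G, Bg M g → g ^ e ∈ U := by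
  induction hn : Nat.card G using Nat.strong_induction_on generalizing G with
  | _ n ih =>
    rcases eq_top_or_exists_le_coatom U with rfl | ⟨U', hU', hle⟩
    · exact ⟨1, one_pos, by simp, fun g _ => Subgroup.mem_top _⟩
    · obtain ⟨e, h1, h2, h3⟩ := exp_coatom hU' hG
      have hlt : Nat.card U' < n := by
        rw [← hn]
        exact lt_of_le_of_ne (Subgroup.card_le_card_group U')
          fun h0 => hU'.1 (Subgroup.eq_top_of_card_eq U' h0)
      obtain ⟨e', h4, h5, h6⟩ := ih _ hlt (hG.of_injective U'.subtype U'.subtype_injective)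
        (U.subgroupOf U') rfl
      refine ⟨e * e', Nat.mul_pos h1 h4, ?_, fun g hg => ?_⟩
      · rw [← Subgroup.relIndex_mul_index hle, mul_pow, mul_comm]
        exact Nat.mul_le_mul h5 h2
      · have h7 := h6 ⟨g ^ e, h3 g hg⟩ (Bg.of_injective U'.subtype_injective (hg.pow e))
        rw [Subgroup.mem_subgroupOf] at h7
        rw [pow_mul]
        exact h7

end Pool.Agent.Lib.MP_634dc6_al
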