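import Pool.Agent.Lib.MP_634dc6_al.Perf

/-!
The exponent lemma: if `X = ⁅X, L⁆` is a `p`-group with few layers on which `L` acts nontrivially
then its exponent is small.
-/

namespace Pool.Agent.Lib.MP_634dc6_al

open scoped commutatorElement

variable {G : Type} [Group G] {p : ℕ} {U V W X L : Subgroup G}

/-- The subgroup generated by `V` and the `n`-th powers of the elements of `U`. -/
def pw (n : ℕ) (U V : Subgroup G) : Subgroup G := Subgroup.closure ((fun u => u ^ n) '' U) ⊔ V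

instance pw_normal (n : ℕ) (U V : Subgroup G) [U.Normal] [V.Normal] : (pw n U V).Normal := by
  have h : (Subgroup.closure ((fun u => u ^ n) '' (U : Set G))).Normal := by
    refine ⟨fun x hx g => ?_⟩
    induction hx using Subgroup.closure_induction with
    | mem x hx =>
      obtain ⟨u, hu, rfl⟩ := hx
      exact Subgroup.subset_closure ⟨g * u * g⁻¹, Subgroup.Normal.conj_mem inferInstance u hu g,
        conj_pow⟩
    | one => simp
    | mul x y _ _ hx hy =>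
      have h : g * (x * y) * g⁻¹ = (g * x * g⁻¹) * (g * y * g⁻¹) := by group
      rw [h]
      exact Subgroup.mul_mem _ hx hy
    | inv x _ hx =>
      have h : g * x⁻¹ * g⁻¹ = (g * x * g⁻¹)⁻¹ := by group
      rw [h]
      exact Subgroup.inv_mem _ hx
  unfold pw
  infer_instance

theorem pow_mem_pw (n : ℕ) (V : Subgroup G) {u : G} (hu : u ∈ U) : u ^ n ∈ pw n U V := by
  exact Subgroup.mem_sup_left (Subgroup.subset_closure ⟨u, hu, rfl⟩)

theorem le_pw (n : ℕ) (U V : Subgroup G) : V ≤ pw n U V := by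
  exact le_sup_right

theorem pw_le (n : ℕ) (h : V ≤ U) : pw n U V ≤ U := by
  refine sup_le ((Subgroup.closure_le _).2 ?_) h
  rintro _ ⟨u, hu, rfl⟩
  exact U.pow_mem hu n

theorem pw_one (h : V ≤ U) : pw 1 U V = U := by
  refine le_antisymm (pw_le 1 h) fun u hu => ?_
  simpa using pow_mem_pw 1 V hu

theorem pw_mul_le (n k : ℕ) (U V : Subgroup G) : pw (n * k) U V ≤ pw n U V := by
  refine sup_le ((Subgroup.closure_le _).2 ?_) (le_pw n U V)
  rintro _ ⟨u, hu, rfl⟩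
  have h := pow_mem_pw n V (U.pow_mem hu k)
  rw [← pow_mul, mul_comm] at h
  exact h

theorem expo_comm {A B : Subgroup G} [V.Normal] (h : ⁅A, B⁆ ≤ V) {a b : G} (ha : a ∈ A)
    (hb : b ∈ B) : Commute (QuotientGroup.mk' V a) (QuotientGroup.mk' V b) := by
  rw [← commutatorElement_eq_one_iff_commute, ← map_commutatorElement]
  exact (QuotientGroup.eq_one_iff _).2 (h (Subgroup.commutator_mem_commutator ha hb))

theorem expo_mem {T : Subgroup G} [V.Normal] (h : V ≤ T) {x y : G}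
    (e : QuotientGroup.mk' V x = QuotientGroup.mk' V y) (hy : y ∈ T) : x ∈ T := by
  have h1 : y⁻¹ * x ∈ V := QuotientGroup.eq.1 e.symm
  simpa using T.mul_mem hy (h h1)

theorem expo_pow {Q : Type} [Group Q] {a b : Q} (h : Commute ⁅a, b⁆ a) (n : ℕ) :
    ⁅a ^ n, b⁆ = ⁅a, b⁆ ^ n := by
  induction n with
  | zero => simp
  | succ n ih =>
    have e : ⁅a ^ (n + 1), b⁆ = a * ⁅a ^ n, b⁆ * a⁻¹ * ⁅a, b⁆ := by
      simp only [commutatorElement_def, pow_succ']
      group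
    rw [e, ih, ← (h.pow_left n).eq, mul_inv_cancel_right, pow_succ]

theorem expo_gen {B C T : Subgroup G} [V.Normal] (h : V ≤ T) (hc : ⁅⁅B, C⁆, ⁅B, C⁆⁆ ≤ V) (n : ℕ)
    (hg : ∀ b ∈ B, ∀ c ∈ C, ⁅b, c⁆ ^ n ∈ T) : ∀ a ∈ ⁅B, C⁆, a ^ n ∈ T := by
  let S : Subgroup G :=
    { carrier := {x | x ∈ ⁅B, C⁆ ∧ x ^ n ∈ T}
      one_mem' := ⟨Subgroup.one_mem _, by simp⟩
      mul_mem' := by
        rintro a b ⟨ha, ha'⟩ ⟨hb, hb'⟩
        refine ⟨Subgroup.mul_mem _ ha hb, expo_mem h ?_ (T.mul_mem ha' hb')⟩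
        rw [map_pow, map_mul, map_mul, map_pow, map_pow, (expo_comm hc ha hb).mul_pow]
      inv_mem' := by
        rintro a ⟨ha, ha'⟩
        exact ⟨Subgroup.inv_mem _ ha, by rw [inv_pow]; exact T.inv_mem ha'⟩ }
  have hS : ⁅B, C⁆ ≤ S := Subgroup.commutator_le.2 fun b hb c hc' =>
    ⟨Subgroup.commutator_mem_commutator hb hc', hg b hb c hc'⟩
  exact fun a ha => (hS ha).2

/-- If `U / V` is commutative the `n`-th powers form a subgroup modulo `V`. -/
theorem mem_pw [V.Normal] (h : ⁅U, U⁆ ≤ V) {n : ℕ} {x : G} (hx : x ∈ pw n U V) :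
    ∃ u ∈ U, ∃ v ∈ V, x = u ^ n * v := by
  let S : Subgroup G :=
    { carrier := {x | ∃ u ∈ U, QuotientGroup.mk' V x = QuotientGroup.mk' V u ^ n}
      one_mem' := ⟨1, U.one_mem, by simp⟩
      mul_mem' := by
        rintro a b ⟨u, hu, ha⟩ ⟨w, hw, hb⟩
        refine ⟨u * w, U.mul_mem hu hw, ?_⟩
        rw [map_mul, map_mul, ha, hb, (expo_comm h hu hw).mul_pow]
      inv_mem' := by
        rintro a ⟨u, hu, ha⟩
        exact ⟨u⁻¹, U.inv_mem hu, by rw [map_inv, map_inv, ha, inv_pow]⟩ }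
  have hS : pw n U V ≤ S := by
    refine sup_le ((Subgroup.closure_le _).2 ?_) fun v hv => ⟨1, U.one_mem, ?_⟩
    · rintro _ ⟨u, hu, rfl⟩
      exact ⟨u, hu, map_pow _ _ _⟩
    · rw [map_one, one_pow]
      exact (QuotientGroup.eq_one_iff v).2 hv
  obtain ⟨u, hu, e⟩ := hS hx
  refine ⟨u, hu, (u ^ n)⁻¹ * x, ?_, by group⟩
  rw [← map_pow] at e
  exact QuotientGroup.eq.1 e.symm

/-- If taking `p`-th powers does not shrink the layer then it is trivial. -/
theorem pw_le_of_stat [Finite G] [V.Normal] (hU : IsPGroup p U) (h : ⁅U, U⁆ ≤ V) {i : ℕ}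
    (hs : pw (p ^ i) U V ≤ pw (p ^ (i + 1)) U V) : pw (p ^ i) U V ≤ V := by
  have key : ∀ k : ℕ, ∀ u ∈ U, ∃ w ∈ U,
      QuotientGroup.mk' V u ^ p ^ i = QuotientGroup.mk' V w ^ p ^ (i + k) := by
    intro k
    induction k with
    | zero => exact fun u hu => ⟨u, hu, rfl⟩
    | succ k ih =>
      intro u hu
      obtain ⟨w, hw, v, hv, e⟩ := mem_pw h (hs (pow_mem_pw (p ^ i) V hu))
      obtain ⟨z, hz, e'⟩ := ih w hw
      refine ⟨z, hz, ?_⟩
      have hv1 : QuotientGroup.mk' V v = 1 := (QuotientGroup.eq_one_iff v).2 hv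
      rw [← map_pow, e, map_mul, hv1, mul_one, map_pow, pow_succ, pow_mul, e', ← pow_mul,
        ← pow_succ, add_assoc]
  choose f hf using hU
  obtain ⟨k, hk⟩ := (Set.finite_range f).bddAbove
  refine sup_le ((Subgroup.closure_le _).2 ?_) le_rfl
  rintro _ ⟨u, hu, rfl⟩
  obtain ⟨w, hw, e⟩ := key k u hu
  have h1 : w ^ p ^ f ⟨w, hw⟩ = 1 := by simpa using congrArg Subtype.val (hf ⟨w, hw⟩)
  obtain ⟨t, ht⟩ := Nat.exists_eq_add_of_le (hk ⟨⟨w, hw⟩, rfl⟩)
  have h2 : w ^ p ^ (i + k) = 1 := by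
    rw [ht, show i + (f ⟨w, hw⟩ + t) = f ⟨w, hw⟩ + (i + t) by ring, pow_add, pow_mul, h1, one_pow]
  rw [← map_pow, ← map_pow, h2, map_one] at e
  exact (QuotientGroup.eq_one_iff _).1 e

/-- Modulo `W` the commutator map is multiplicative in the first variable: `⁅u, x⁆` lies in
`V = ⁅U, X⁆`, which commutes with `U ≤ X` modulo `W`; so `⁅u ^ n, x⁆ ≡ ⁅u, x⁆ ^ n`. -/
theorem comm_pw_le [U.Normal] [X.Normal] [W.Normal] (hU : U ≤ X) (hW : ⁅⁅U, X⁆, X⁆ ≤ W) (n : ℕ) :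
    ⁅pw n U ⁅U, X⁆, X⁆ ≤ pw n ⁅U, X⁆ W := by
  refine Subgroup.commutator_le.2 fun y hy x hx => ?_
  obtain ⟨u, hu, v, hv, rfl⟩ := mem_pw (Subgroup.commutator_mono le_rfl hU) hy
  have hc : ⁅u, x⁆ ∈ ⁅U, X⁆ := Subgroup.commutator_mem_commutator hu hx
  refine expo_mem (le_pw n _ W) ?_ (pow_mem_pw n W hc)
  have h1 := expo_comm hW hv hx
  have h2 := expo_comm hW hc (hU hu)
  rw [map_commutatorElement] at h2
  rw [map_commutatorElement, map_pow, map_commutatorElement, ← expo_pow h2, map_mul, map_pow,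
    commutatorElement_def, commutatorElement_def, mul_assoc (_ ^ n), h1.eq]
  group

/-- The elements `v` of `⁅U, X⁆` whose `n`-th power lies in the right side form a subgroup
(`⁅U, X⁆` is commutative modulo `W`) that contains all commutators. -/
theorem pw_le_comm [U.Normal] [X.Normal] [W.Normal] (hU : U ≤ X) (hW : ⁅⁅U, X⁆, X⁆ ≤ W) (n : ℕ) :
    pw n ⁅U, X⁆ W ≤ ⁅pw n U ⁅U, X⁆, X⁆ ⊔ W := by
  have hV : ⁅U, X⁆ ≤ X := Subgroup.commutator_le_right U X
  refine sup_le ((Subgroup.closure_le _).2 ?_) le_sup_right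
  rintro _ ⟨v, hv, rfl⟩
  refine expo_gen (V := W) le_sup_right ((Subgroup.commutator_mono le_rfl hV).trans hW) n
    (fun u hu x hx => ?_) v hv
  have hc : ⁅u, x⁆ ∈ ⁅U, X⁆ := Subgroup.commutator_mem_commutator hu hx
  have h2 := expo_comm hW hc (hU hu)
  rw [map_commutatorElement] at h2
  refine expo_mem (V := W) le_sup_right (y := ⁅u ^ n, x⁆) ?_
    (Subgroup.mem_sup_left (Subgroup.commutator_mem_commutator (pow_mem_pw n _ hu) hx))
  rw [map_pow, map_commutatorElement, map_commutatorElement, map_pow, expo_pow h2]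

/-- The top layers: modulo `⁅X, X⁆` one has `⁅x ^ n, l⁆ ≡ ⁅x, l⁆ ^ n`, and the commutators `⁅x, l⁆`
generate `X`. -/
theorem pw_top_le [X.Normal] (hX : ⁅X, L⁆ = X) (n : ℕ) :
    pw n X ⁅X, X⁆ ≤ ⁅pw n X ⁅X, X⁆, L⁆ ⊔ ⁅X, X⁆ := by
  refine sup_le ((Subgroup.closure_le _).2 ?_) le_sup_right
  rintro _ ⟨v, hv, rfl⟩
  refine expo_gen (V := ⁅X, X⁆) (B := X) (C := L) le_sup_right (by rw [hX]) n
    (fun u hu x hx => ?_) v (hX.symm ▸ hv)
  have hc : ⁅u, x⁆ ∈ X := hX ▸ Subgroup.commutator_mem_commutator hu hx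
  have h2 := expo_comm (le_refl ⁅X, X⁆) hc hu
  rw [map_commutatorElement] at h2
  refine expo_mem (V := ⁅X, X⁆) le_sup_right (y := ⁅u ^ n, x⁆) ?_
    (Subgroup.mem_sup_left (Subgroup.commutator_mem_commutator (pow_mem_pw n _ hu) hx))
  rw [map_pow, map_commutatorElement, map_commutatorElement, map_pow, expo_pow h2]

end Pool.Agent.Lib.MP_634dc6_al
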