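import Pool.Agent.Lib.MP_634dc6_al.Expo

/-!
The exponent lemma, conclusion.
-/

namespace Pool.Agent.Lib.MP_634dc6_al

variable {G : Type} [Group G] [Finite G] {p : ℕ} {U X L : Subgroup G}

/-- `lb` increases along normal subgroups of `X`, strictly along sections on which `L` acts
nontrivially. -/
structure Lb (X L : Subgroup G) (lb : Subgroup G → ℕ) : Prop where
  mono : ∀ A B : Subgroup G, A ≤ B → lb A ≤ lb B
  strict : ∀ A B : Subgroup G, A.Normal → B.Normal → A ≤ B → B ≤ X → ¬ ⁅B, L⁆ ≤ A → lb A < lb B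

/-- Put `X_i = pw (p ^ i) X ⁅X, X⁆`. If `⁅X_i, L⁆ ≤ X_(i+1)` then `X_i ≤ X_(i+1)` (`pw_top_le`), so
`X_i ≤ ⁅X, X⁆` (`pw_le_of_stat`). Hence by induction on `i`: `X_i ≤ ⁅X, X⁆` or
`lb X_i + i ≤ lb X`. -/
theorem expo_top [X.Normal] (hX : IsPGroup p X) (hL : ⁅X, L⁆ = X) {lb : Subgroup G → ℕ}
    (hl : Lb X L lb) {x : G} (hx : x ∈ X) : x ^ p ^ (lb X - lb ⁅X, X⁆) ∈ ⁅X, X⁆ := by
  have hXX : ⁅X, X⁆ ≤ X := Subgroup.commutator_le_left _ _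
  have hdec : ∀ i : ℕ, pw (p ^ (i + 1)) X ⁅X, X⁆ ≤ pw (p ^ i) X ⁅X, X⁆ := fun i => by
    rw [pow_succ]
    exact pw_mul_le _ _ _ _
  have key : ∀ i : ℕ, pw (p ^ i) X ⁅X, X⁆ ≤ ⁅X, X⁆ ∨
      lb (pw (p ^ (i + 1)) X ⁅X, X⁆) < lb (pw (p ^ i) X ⁅X, X⁆) := fun i => by
    by_cases h : ⁅pw (p ^ i) X ⁅X, X⁆, L⁆ ≤ pw (p ^ (i + 1)) X ⁅X, X⁆
    · left
      refine pw_le_of_stat hX le_rfl ?_
      exact (pw_top_le hL _).trans (sup_le h (le_pw _ _ _))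
    · right
      exact hl.strict _ _ inferInstance inferInstance (hdec i) (pw_le _ hXX) h
  have ind : ∀ i : ℕ, pw (p ^ i) X ⁅X, X⁆ ≤ ⁅X, X⁆ ∨
      lb (pw (p ^ i) X ⁅X, X⁆) + i ≤ lb X := fun i => by
    induction i with
    | zero =>
      right
      rw [pow_zero, pw_one hXX]
      exact le_rfl
    | succ i ih =>
      rcases ih with ih | ih
      · exact Or.inl ((hdec i).trans ih)
      · rcases key i with k | k
        · exact Or.inl ((hdec i).trans k)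
        · right
          omega
  have h1 := hl.mono _ _ hXX
  have h2 := hl.mono _ _ (le_pw (p ^ (lb X - lb ⁅X, X⁆ + 1)) X ⁅X, X⁆)
  have fin : pw (p ^ (lb X - lb ⁅X, X⁆)) X ⁅X, X⁆ ≤ ⁅X, X⁆ := by
    rcases ind (lb X - lb ⁅X, X⁆) with h | h
    · exact h
    · rcases key (lb X - lb ⁅X, X⁆) with k | k
      · exact k
      · omega
  exact fin (pow_mem_pw _ _ hx)

/-- Put `V = ⁅U, X⁆`, `W = ⁅V, X⁆`, `U_i = pw (p ^ i) U V`, `V_i = pw (p ^ i) V W`. If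
`⁅U_i, L⁆ ≤ U_(i+1)` and `⁅V_i, L⁆ ≤ V_(i+1)` then `three_mod` modulo `V_(i+1)` (with `comm_pw_le`)
gives `⁅⁅L, X⁆, U_i⁆ ≤ V_(i+1)`, so `V_i ≤ V_(i+1)` (`pw_le_comm`) and `V_i ≤ W`. Hence by induction
on `i`: `V_i ≤ W` or `lb U_i + lb V_i + i ≤ lb U + lb V`. -/
theorem expo_step [X.Normal] [U.Normal] (hX : IsPGroup p X) (hL : ⁅X, L⁆ = X) (hU : U ≤ X)
    {lb : Subgroup G → ℕ} (hl : Lb X L lb) {x : G} (hx : x ∈ ⁅U, X⁆) :
    x ^ p ^ (lb U - lb ⁅⁅U, X⁆, X⁆) ∈ ⁅⁅U, X⁆, X⁆ := by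
  have hVU : ⁅U, X⁆ ≤ U := Subgroup.commutator_le_left _ _
  have hVX : ⁅U, X⁆ ≤ X := Subgroup.commutator_le_right _ _
  have hWV : ⁅⁅U, X⁆, X⁆ ≤ ⁅U, X⁆ := Subgroup.commutator_le_left _ _
  have hVp : IsPGroup p (⁅U, X⁆ : Subgroup G) := hX.to_le hVX
  have hVV : ⁅⁅U, X⁆, ⁅U, X⁆⁆ ≤ ⁅⁅U, X⁆, X⁆ := Subgroup.commutator_mono le_rfl hVX
  have hdec : ∀ (A B : Subgroup G) (i : ℕ), pw (p ^ (i + 1)) A B ≤ pw (p ^ i) A B :=
    fun A B i => by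
      rw [pow_succ]
      exact pw_mul_le _ _ _ _
  have key : ∀ i : ℕ, pw (p ^ i) ⁅U, X⁆ ⁅⁅U, X⁆, X⁆ ≤ ⁅⁅U, X⁆, X⁆ ∨
      lb (pw (p ^ (i + 1)) U ⁅U, X⁆) + lb (pw (p ^ (i + 1)) ⁅U, X⁆ ⁅⁅U, X⁆, X⁆) <
        lb (pw (p ^ i) U ⁅U, X⁆) + lb (pw (p ^ i) ⁅U, X⁆ ⁅⁅U, X⁆, X⁆) := fun i => by
    have m1 := hl.mono _ _ (hdec U ⁅U, X⁆ i)
    have m2 := hl.mono _ _ (hdec ⁅U, X⁆ ⁅⁅U, X⁆, X⁆ i)
    by_cases h : ⁅pw (p ^ i) U ⁅U, X⁆, L⁆ ≤ pw (p ^ (i + 1)) U ⁅U, X⁆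
    · by_cases h' : ⁅pw (p ^ i) ⁅U, X⁆ ⁅⁅U, X⁆, X⁆, L⁆ ≤ pw (p ^ (i + 1)) ⁅U, X⁆ ⁅⁅U, X⁆, X⁆
      · left
        refine pw_le_of_stat hVp hVV ?_
        have t1 : ⁅⁅X, pw (p ^ i) U ⁅U, X⁆⁆, L⁆ ≤ pw (p ^ (i + 1)) ⁅U, X⁆ ⁅⁅U, X⁆, X⁆ := by
          refine le_trans (Subgroup.commutator_mono ?_ le_rfl) h'
          rw [Subgroup.commutator_comm]
          exact comm_pw_le hU le_rfl _
        have t2 : ⁅⁅pw (p ^ i) U ⁅U, X⁆, L⁆, X⁆ ≤ pw (p ^ (i + 1)) ⁅U, X⁆ ⁅⁅U, X⁆, X⁆ :=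
          (Subgroup.commutator_mono h le_rfl).trans (comm_pw_le hU le_rfl _)
        have t3 := three_mod t1 t2
        rw [Subgroup.commutator_comm L X, hL, Subgroup.commutator_comm X] at t3
        exact (pw_le_comm hU le_rfl _).trans (sup_le t3 (le_pw _ _ _))
      · right
        have := hl.strict _ _ inferInstance inferInstance (hdec ⁅U, X⁆ ⁅⁅U, X⁆, X⁆ i)
          ((pw_le _ hWV).trans hVX) h'
        omega
    · right
      have := hl.strict _ _ inferInstance inferInstance (hdec U ⁅U, X⁆ i)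
        ((pw_le _ hVU).trans hU) h
      omega
  have ind : ∀ i : ℕ, pw (p ^ i) ⁅U, X⁆ ⁅⁅U, X⁆, X⁆ ≤ ⁅⁅U, X⁆, X⁆ ∨
      lb (pw (p ^ i) U ⁅U, X⁆) + lb (pw (p ^ i) ⁅U, X⁆ ⁅⁅U, X⁆, X⁆) + i ≤
        lb U + lb ⁅U, X⁆ := fun i => by
    induction i with
    | zero =>
      right
      rw [pow_zero, pw_one hVU, pw_one hWV]
      exact le_rfl
    | succ i ih =>
      rcases ih with ih | ih
      · exact Or.inl ((hdec _ _ i).trans ih)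
      · rcases key i with k | k
        · exact Or.inl ((hdec _ _ i).trans k)
        · right
          omega
  have h1 := hl.mono _ _ hVU
  have h1' := hl.mono _ _ hWV
  have h2 := hl.mono _ _ (le_pw (p ^ (lb U - lb ⁅⁅U, X⁆, X⁆ + 1)) U ⁅U, X⁆)
  have h3 := hl.mono _ _ (le_pw (p ^ (lb U - lb ⁅⁅U, X⁆, X⁆ + 1)) ⁅U, X⁆ ⁅⁅U, X⁆, X⁆)
  have fin : pw (p ^ (lb U - lb ⁅⁅U, X⁆, X⁆)) ⁅U, X⁆ ⁅⁅U, X⁆, X⁆ ≤ ⁅⁅U, X⁆, X⁆ := by
    rcases ind (lb U - lb ⁅⁅U, X⁆, X⁆) with h | h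
    · exact h
    · rcases key (lb U - lb ⁅⁅U, X⁆, X⁆) with k | k
      · exact k
      · omega
  exact fin (pow_mem_pw _ _ hx)

/-- Let `γ 0 = X`, `γ (k + 1) = ⁅γ k, X⁆`; it reaches `⊥` since the finite `p`-group `X` is
nilpotent (`IsPGroup.isNilpotent`, compare with the lower central series of `↥X`). By induction
on `k` there is `t` with `t + lb (γ k) + lb (γ (k + 1)) ≤ 2 * lb X` and `x ^ p ^ t ∈ γ (k + 1)`. -/
theorem expo (hp : p.Prime) [X.Normal] (hX : IsPGroup p X) (hL : ⁅X, L⁆ = X)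
    {lb : Subgroup G → ℕ} (hl : Lb X L lb) {x : G} (hx : x ∈ X) : x ^ p ^ (2 * lb X) = 1 := by
  have : Fact p.Prime := ⟨hp⟩
  have hN : ∀ k : ℕ, (X.lowerCentralSeries k).Normal := fun k => by
    induction k with
    | zero => exact (inferInstance : X.Normal)
    | succ k ih =>
      rw [Subgroup.lowerCentralSeries_succ]
      infer_instance
  have ind : ∀ k : ℕ, ∃ t : ℕ,
      t + lb (X.lowerCentralSeries k) + lb (X.lowerCentralSeries (k + 1)) ≤ 2 * lb X ∧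
        x ^ p ^ t ∈ X.lowerCentralSeries (k + 1) := fun k => by
    induction k with
    | zero =>
      refine ⟨lb X - lb ⁅X, X⁆, ?_, expo_top hX hL hl hx⟩
      have h1 := hl.mono _ _ (Subgroup.commutator_le_left X X)
      change lb X - lb ⁅X, X⁆ + lb X + lb ⁅X, X⁆ ≤ 2 * lb X
      omega
    | succ k ih =>
      obtain ⟨t, ht, hm⟩ := ih
      have := hN k
      have h1 := expo_step hX hL (X.lowerCentralSeries_le_self k) hl hm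
      have h2 : lb (X.lowerCentralSeries (k + 1 + 1)) ≤ lb (X.lowerCentralSeries k) :=
        hl.mono _ _ (X.lowerCentralSeries_antitone (by omega))
      refine ⟨t + (lb (X.lowerCentralSeries k) - lb (X.lowerCentralSeries (k + 1 + 1))), ?_, ?_⟩
      · omega
      · rw [pow_add, pow_mul]
        exact h1
  obtain ⟨n, hn⟩ := (Subgroup.isNilpotent_iff_lowerCentralSeries X).1 hX.isNilpotent
  obtain ⟨t, ht, hm⟩ := ind n
  have h1 : x ^ p ^ t = 1 := by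
    have h2 := X.lowerCentralSeries_antitone (Nat.le_succ n) hm
    rw [hn] at h2
    exact Subgroup.mem_bot.1 h2
  obtain ⟨c, hc⟩ : ∃ c, 2 * lb X = t + c := ⟨2 * lb X - t, by omega⟩
  rw [hc, pow_add, pow_mul, h1, one_pow]

end Pool.Agent.Lib.MP_634dc6_al
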