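import Pool.Agent.Lib.MP_634dc6_al.Perf

/-!
A power formula in nilpotent groups, through polynomial sequences.
-/

open scoped commutatorElement

namespace Pool.Agent.Lib.MP_634dc6_al

variable {G : Type} [Group G]

instance lcs_normal (X : Subgroup G) [X.Normal] (k : ℕ) : (X.lowerCentralSeries k).Normal := by
  induction k with
  | zero => exact (inferInstance : X.Normal)
  | succ k ih =>
    rw [Subgroup.lowerCentralSeries_succ]
    infer_instance

theorem lcs_comm (X : Subgroup G) [X.Normal] (i j : ℕ) :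
    ⁅X.lowerCentralSeries i, X.lowerCentralSeries j⁆ ≤ X.lowerCentralSeries (i + j + 1) := by
  induction j generalizing i with
  | zero => exact le_rfl
  | succ j ih =>
    rw [Subgroup.commutator_comm, Subgroup.lowerCentralSeries_succ X j]
    refine three_mod ?_ ?_
    · rw [Subgroup.commutator_comm X, ← Subgroup.lowerCentralSeries_succ]
      exact (ih (i + 1)).trans (le_of_eq (by congr 1; omega))
    · exact Subgroup.commutator_mono (ih i) le_rfl

/-- A filtration. -/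
structure Fil (F : ℕ → Subgroup G) : Prop where
  anti : ∀ i, F (i + 1) ≤ F i
  com : ∀ i j, ⁅F i, F j⁆ ≤ F (i + j)

theorem Fil.le {F : ℕ → Subgroup G} (h : Fil F) {i j : ℕ} (hij : i ≤ j) : F j ≤ F i :=
  antitone_nat_of_succ_le h.anti hij

theorem Fil.mem {F : ℕ → Subgroup G} (h : Fil F) {i j : ℕ} {a b : G} (ha : a ∈ F i)
    (hb : b ∈ F j) : ⁅a, b⁆ ∈ F (i + j) :=
  h.com i j (Subgroup.commutator_mem_commutator ha hb)

theorem Fil.conj {F : ℕ → Subgroup G} (h : Fil F) {i j : ℕ} {a g : G} (ha : a ∈ F j)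
    (hg : g ∈ F i) : g * a * g⁻¹ ∈ F j := by
  have h1 : ⁅g, a⁆ ∈ F j := h.le (Nat.le_add_left j i) (h.mem hg ha)
  have e : g * a * g⁻¹ = ⁅g, a⁆ * a := by
    rw [commutatorElement_def]
    group
  rw [e]
  exact (F j).mul_mem h1 ha

/-- The elements whose difference with their image lies one step deeper form a filtration. -/
theorem Fil.der {F : ℕ → Subgroup G} (h : Fil F) (σ : G →* G) : ∃ T : ℕ → Subgroup G, Fil T ∧
    ∀ i f, f ∈ T i ↔ f ∈ F i ∧ f⁻¹ * σ f ∈ F (i + 1) := by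
  refine ⟨fun i =>
    { carrier := {f | f ∈ F i ∧ f⁻¹ * σ f ∈ F (i + 1)}
      one_mem' := ⟨(F i).one_mem, by simp⟩
      mul_mem' := ?_
      inv_mem' := ?_ }, ⟨fun i f hf => ⟨h.anti i hf.1, h.anti _ hf.2⟩, fun i j => ?_⟩,
    fun i f => Iff.rfl⟩
  · rintro f g ⟨f1, f2⟩ ⟨g1, g2⟩
    refine ⟨(F i).mul_mem f1 g1, ?_⟩
    have e : (f * g)⁻¹ * σ (f * g) = (g⁻¹ * (f⁻¹ * σ f) * g⁻¹⁻¹) * (g⁻¹ * σ g) := by
      rw [map_mul]
      group
    rw [e]
    exact (F (i + 1)).mul_mem (h.conj f2 ((F i).inv_mem g1)) g2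
  · rintro f ⟨f1, f2⟩
    refine ⟨(F i).inv_mem f1, ?_⟩
    have e : f⁻¹⁻¹ * σ f⁻¹ = f * (f⁻¹ * σ f)⁻¹ * f⁻¹ := by
      rw [map_inv]
      group
    rw [e]
    exact h.conj ((F (i + 1)).inv_mem f2) f1
  · rw [Subgroup.commutator_le]
    rintro f ⟨f1, f2⟩ g ⟨g1, g2⟩
    refine ⟨h.mem f1 g1, ?_⟩
    have e : ⁅f, g⁆⁻¹ * σ ⁅f, g⁆ =
        (⁅f, g⁆⁻¹ * (f * ⁅f⁻¹ * σ f, g * (g⁻¹ * σ g)⁆ * f⁻¹) * ⁅f, g⁆⁻¹⁻¹) *
          (g * ⁅f, g⁻¹ * σ g⁆ * g⁻¹) := by
      simp only [commutatorElement_def, map_mul, map_inv]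
      group
    rw [e]
    have h1 : ⁅f⁻¹ * σ f, g * (g⁻¹ * σ g)⁆ ∈ F (i + j + 1) := by
      have := h.mem f2 ((F j).mul_mem g1 (h.anti j g2))
      rwa [show i + 1 + j = i + j + 1 by omega] at this
    exact (F (i + j + 1)).mul_mem
      (h.conj (h.conj h1 f1) ((F (i + j)).inv_mem (h.mem f1 g1)))
      (h.conj (h.mem (j := j + 1) f1 g2) g1)

/-- The difference operator. -/
def dif (f : ℕ → G) : ℕ → G := fun n => (f n)⁻¹ * f (n + 1)

/-- Polynomial sequences for the filtration `F`, starting at step `i`. -/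
def Pol (F : ℕ → Subgroup G) (i : ℕ) (f : ℕ → G) : Prop := ∀ k n, dif^[k] f n ∈ F (i + k)

theorem Fil.pol {F : ℕ → Subgroup G} (h : Fil F) (d : ℕ) : ∃ T : ℕ → Subgroup (ℕ → G), Fil T ∧
    ∀ i f, f ∈ T i ↔ ∀ k ≤ d, ∀ n, dif^[k] f n ∈ F (i + k) := by
  induction d with
  | zero =>
    refine ⟨fun i => Subgroup.pi Set.univ fun _ => F i, ⟨fun i f hf n _ => h.anti i (hf n trivial),
      fun i j => ?_⟩, fun i f => ?_⟩
    · rw [Subgroup.commutator_le]
      exact fun f hf g hg n _ => h.mem (hf n trivial) (hg n trivial)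
    · simp [Subgroup.mem_pi]
  | succ d ih =>
    obtain ⟨T, hT, e⟩ := ih
    let σ : (ℕ → G) →* (ℕ → G) :=
      { toFun := fun f n => f (n + 1), map_one' := rfl, map_mul' := fun _ _ => rfl }
    obtain ⟨T', hT', e'⟩ := hT.der σ
    refine ⟨T', hT', fun i f => ?_⟩
    have e0 : f⁻¹ * σ f = dif f := rfl
    rw [e', e0, e, e]
    constructor
    · rintro ⟨h1, h2⟩ k hk n
      cases k with
      | zero => exact h1 0 (Nat.zero_le _) n
      | succ k =>
        have := h2 k (by omega) n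
        rwa [show i + 1 + k = i + (k + 1) by omega] at this
    · intro h1
      refine ⟨fun k hk => h1 k (by omega), fun k hk n => ?_⟩
      have := h1 (k + 1) (by omega) n
      rwa [show i + (k + 1) = i + 1 + k by omega] at this

theorem Pol.mul {F : ℕ → Subgroup G} (h : Fil F) {i : ℕ} {f g : ℕ → G} (hf : Pol F i f)
    (hg : Pol F i g) : Pol F i (f * g) := fun k => by
  obtain ⟨T, -, e⟩ := h.pol k
  exact (e i _).1 ((T i).mul_mem ((e i f).2 fun j _ => hf j) ((e i g).2 fun j _ => hg j)) k le_rfl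

theorem Pol.inv {F : ℕ → Subgroup G} (h : Fil F) {i : ℕ} {f : ℕ → G} (hf : Pol F i f) :
    Pol F i f⁻¹ := fun k => by
  obtain ⟨T, -, e⟩ := h.pol k
  exact (e i _).1 ((T i).inv_mem ((e i f).2 fun j _ => hf j)) k le_rfl

theorem Pol.of_dif {F : ℕ → Subgroup G} {i : ℕ} {f : ℕ → G} (h0 : ∀ n, f n ∈ F i)
    (h1 : Pol F (i + 1) (dif f)) : Pol F i f := fun k n => by
  cases k with
  | zero => exact h0 n
  | succ k =>
    have := h1 k n
    rwa [show i + 1 + k = i + (k + 1) by omega] at this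

theorem Pol.dif {F : ℕ → Subgroup G} {i : ℕ} {f : ℕ → G} (h : Pol F i f) :
    Pol F (i + 1) (dif f) := fun k n => by
  have := h (k + 1) n
  rwa [show i + (k + 1) = i + 1 + k by omega] at this

theorem pol_one (F : ℕ → Subgroup G) (i : ℕ) : Pol F i fun _ => 1 := fun k n => by
  have e : dif (fun _ : ℕ => (1 : G)) = fun _ => 1 := by
    funext m
    simp [dif]
  rw [Function.iterate_fixed e]
  exact (F _).one_mem

theorem pol_choose {F : ℕ → Subgroup G} (h : Fil F) {g : G} (j : ℕ) :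
    ∀ i, g ∈ F (i + j) → Pol F i fun n => g ^ n.choose j := by
  induction j with
  | zero =>
    intro i hg
    refine Pol.of_dif (fun n => by simpa using hg) ?_
    have e : dif (fun n : ℕ => g ^ n.choose 0) = fun _ => 1 := by
      funext m
      simp [dif]
    rw [e]
    exact pol_one F _
  | succ j ih =>
    intro i hg
    refine Pol.of_dif (fun n => (F i).pow_mem (h.le (Nat.le_add_right _ _) hg) _) ?_
    have e : dif (fun n : ℕ => g ^ n.choose (j + 1)) = fun n => g ^ n.choose j := by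
      funext m
      simp only [dif, Nat.choose_succ_succ' m j]
      group
    rw [e]
    exact ih (i + 1) (by rwa [show i + 1 + j = i + (j + 1) by omega])

theorem Pol.first {F : ℕ → Subgroup G} (j : ℕ) : ∀ (i : ℕ) (f : ℕ → G), Pol F i f →
    (∀ n < j, f n = 1) → f j ∈ F (i + j) := by
  induction j with
  | zero => exact fun i f h _ => h 0 0
  | succ j ih =>
    intro i f h h0
    have := ih (i + 1) _ h.dif fun n hn => by
      simp [MP_634dc6_al.dif, h0 n (by omega), h0 (n + 1) (by omega)]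
    rw [show i + (j + 1) = i + 1 + j by omega]
    simpa [MP_634dc6_al.dif, h0 j (by omega)] using this

theorem Pol.vanish {F : ℕ → Subgroup G} (h : Fil F) {Y : Subgroup G} {m : ℕ}
    (hm : ∀ j, 1 ≤ j → ∀ y ∈ Y, y ∈ F j → y ^ m.choose j = 1) (s : ℕ) :
    ∀ (j : ℕ) (f : ℕ → G), 1 ≤ j → j + s = m + 1 → Pol F 0 f → (∀ n, f n ∈ Y) →
      (∀ n < j, f n = 1) → f m = 1 := by
  induction s with
  | zero => exact fun j f _ e _ _ h0 => h0 m (by omega)
  | succ s ih =>
    intro j f hj e hf hY h0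
    have h1 : f j ∈ F j := by simpa using Pol.first j 0 f hf h0
    have h2 := ih (j + 1) (f * (fun n => f j ^ n.choose j)⁻¹) (by omega) (by omega)
      (hf.mul h ((pol_choose h j 0 (by simpa using h1)).inv h))
      (fun n => Y.mul_mem (hY n) (Y.inv_mem (Y.pow_mem (hY j) _))) fun n hn => by
        rcases Nat.lt_succ_iff_lt_or_eq.1 hn with k | k
        · simp [h0 n k, Nat.choose_eq_zero_of_lt k]
        · simp [k]
    simpa [hm j hj _ (hY j) h1] using h2

theorem hp_choose {r a t j : ℕ} (hr : r.Prime) (hj : 1 ≤ j) (hjt : j ≤ r ^ t) :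
    r ^ a ∣ (r ^ (a + t)).choose j := by
  obtain ⟨j, rfl⟩ : ∃ i, j = i + 1 := ⟨j - 1, by omega⟩
  obtain ⟨m, hm⟩ : ∃ m, r ^ (a + t) = m + 1 := ⟨r ^ (a + t) - 1, by
    have := Nat.pos_of_ne_zero (pow_ne_zero (a + t) hr.ne_zero)
    omega⟩
  have h1 : r ^ (a + t) ∣ (r ^ (a + t)).choose (j + 1) * (j + 1) := by
    rw [hm, ← Nat.add_one_mul_choose_eq]
    exact Dvd.intro _ rfl
  obtain ⟨v, w, hw, e⟩ := Nat.exists_eq_pow_mul_and_not_dvd (Nat.succ_ne_zero j) r hr.ne_one
  have hv : v ≤ t := by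
    have h2 : r ^ v ≤ r ^ t := (Nat.le_of_dvd (Nat.succ_pos j) ⟨w, e⟩).trans hjt
    exact (Nat.pow_le_pow_iff_right hr.one_lt).1 h2
  rw [Nat.succ_eq_add_one] at e
  rw [e, mul_comm (r ^ v), ← mul_assoc] at h1
  have h3 : r ^ a * r ^ v ∣ (r ^ (a + t)).choose (r ^ v * w) * w * r ^ v := by
    rw [mul_comm (r ^ v) w]
    refine dvd_trans ?_ h1
    rw [← pow_add]
    exact pow_dvd_pow r (by omega)
  rw [e]
  exact (Nat.Coprime.pow_left a ((Nat.Prime.coprime_iff_not_dvd hr).2 hw)).dvd_of_dvd_mul_right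
    (Nat.dvd_of_mul_dvd_mul_right (pow_pos hr.pos v) h3)

theorem hp_top {Y : Subgroup G} [Y.Normal] {r a t c : ℕ} (hr : r.Prime)
    (hc : (⊤ : Subgroup G).lowerCentralSeries c = ⊥) (hct : c ≤ r ^ t)
    (he : ∀ y ∈ Y, y ^ r ^ a = 1) (x : G) {y : G} (hy : y ∈ Y) :
    (x * y) ^ r ^ (a + t) = x ^ r ^ (a + t) := by
  have hF : Fil fun i => (⊤ : Subgroup G).lowerCentralSeries (i - 1) := by
    refine ⟨fun i => Subgroup.lowerCentralSeries_antitone _ (by omega), fun i j => ?_⟩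
    cases i with
    | zero => simpa using Subgroup.commutator_le_right _ _
    | succ i =>
      cases j with
      | zero => simpa using Subgroup.commutator_le_left _ _
      | succ j => exact (lcs_comm ⊤ i j).trans (le_of_eq (by congr 1; omega))
  have hp : ∀ g : G, Pol (fun i => (⊤ : Subgroup G).lowerCentralSeries (i - 1)) 0 fun n => g ^ n :=
    fun g => by simpa using pol_choose hF 1 0 (g := g) (Subgroup.mem_top g)
  have key := Pol.vanish hF (Y := Y) (m := r ^ (a + t)) (fun j hj z hz hz' => by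
      by_cases k : j ≤ c
      · obtain ⟨w, e⟩ := hp_choose (a := a) hr hj (k.trans hct)
        rw [e, pow_mul, he z hz, one_pow]
      · have : z ∈ (⊥ : Subgroup G) :=
          hc ▸ Subgroup.lowerCentralSeries_antitone _ (show c ≤ j - 1 by omega) hz'
        rw [Subgroup.mem_bot.1 this, one_pow])
    (r ^ (a + t)) 1 ((fun n => x ^ n)⁻¹ * fun n => (x * y) ^ n) le_rfl (by omega)
    (((hp x).inv hF).mul hF (hp (x * y))) (fun n => by
      have h1 : (QuotientGroup.mk' Y) y = 1 := (QuotientGroup.eq_one_iff y).2 hy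
      rw [← QuotientGroup.eq_one_iff]
      show (QuotientGroup.mk' Y) ((x ^ n)⁻¹ * (x * y) ^ n) = 1
      simp only [map_mul, map_inv, map_pow, h1, mul_one, inv_mul_cancel])
    (fun n hn => by simp [show n = 0 by omega])
  exact (inv_mul_eq_one.1 key).symm

/-- In a nilpotent group `H` of class at most `r ^ t` with a normal subgroup `Y` of exponent dividing
`r ^ a`, the `r ^ (a + t)`-th power map is constant on the cosets of `Y`. -/
theorem hp_pow {H Y : Subgroup G} {r a t c : ℕ} (hr : r.Prime) (hc : H.lowerCentralSeries c = ⊥)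
    (hct : c ≤ r ^ t) (hY : Y ≤ H) (hn : ∀ h ∈ H, ∀ y ∈ Y, h * y * h⁻¹ ∈ Y)
    (he : ∀ y ∈ Y, y ^ r ^ a = 1) {x y : G} (hx : x ∈ H) (hy : y ∈ Y) :
    (x * y) ^ r ^ (a + t) = x ^ r ^ (a + t) := by
  have hN : (Y.subgroupOf H).Normal := ⟨fun n hn' g => hn g g.2 n hn'⟩
  have hc' : (⊤ : Subgroup H).lowerCentralSeries c = ⊥ := by
    rw [← Subgroup.top_subtype_lowerCentralSeries] at hc
    exact (Subgroup.map_eq_bot_iff_of_injective _ H.subtype_injective).1 hc
  have := hp_top (Y := Y.subgroupOf H) hr hc' hct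
    (fun z hz => Subtype.ext (he z hz)) ⟨x, hx⟩ (y := ⟨y, hY hy⟩) hy
  exact congrArg Subtype.val this

end Pool.Agent.Lib.MP_634dc6_al
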