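import Pool.Agent.Lib.MP_634dc6_al.Opr
import Pool.Agent.Lib.MP_634dc6_al.HP
import Pool.Agent.Lib.MP_634dc6_al.ExpoB

/-!
High powers of `r`-elements centralise `L`.
-/

namespace Pool.Agent.Lib.MP_634dc6_al

variable {G : Type} [Group G] [Finite G] {r : ℕ} {D S L T X : Subgroup G}

/-- If `S` is generated by `r`-elements and centralises all layers on which `L` acts nontrivially,
then `⁅S, L⁆` is an `r`-group. -/
theorem free_two (hr : r.Prime) (hD : Group.IsSolvable D) [S.Normal] [L.Normal] (hL : ⁅L, L⁆ = L)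
    (hSL : ⁅S, L⁆ ≤ D) (hS : S ≤ Subgroup.closure {z | z ∈ S ∧ PE r z})
    (h : ∀ q : ℕ, q.Prime → ∀ A B : Subgroup G, Lyr q D A B → ¬ ⁅B, L⁆ ≤ A → ⁅B, S⁆ ≤ A) :
    ⁅S, L⁆ ≤ ⁅opr r D, L⁆ := by
  have h1 : Group.IsNilpotent (⁅S, L⁆ : Subgroup G) := nilp_of_lyr hD hSL fun q hq A B hl => by
    by_cases h2 : ⁅B, L⁆ ≤ A
    · exact (Subgroup.commutator_mono le_rfl (Subgroup.commutator_le_right _ _)).trans h2
    · exact (Subgroup.commutator_mono le_rfl (Subgroup.commutator_le_left _ _)).trans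
        (h q hq A B hl h2)
  have h2 : ⁅S, L⁆ ≤ opr r ⁅S, L⁆ := by
    by_contra h3
    obtain ⟨A, hA, hc⟩ := exists_cv_above
      (lt_of_le_of_ne (opr_le r ⁅S, L⁆) fun e => h3 e.ge)
    have := hc.1
    obtain ⟨q, hq, h4⟩ : ∃ q : ℕ, q.Prime ∧ ¬ opr q ⁅S, L⁆ ≤ A := by
      by_contra h5
      exact hc.2.2.1.not_ge (nilp_le h1 fun q hq => not_not.1 fun h6 => h5 ⟨q, hq, h6⟩)
    have hqr : q ≠ r := fun e => h4 (e ▸ hA)
    have h5 := hc.sup_eq (opr_le q _) h4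
    have h6 : ¬ ⁅opr q ⁅S, L⁆, L⁆ ≤ opr q ⁅S, L⁆ ⊓ A := fun h7 => hc.2.2.1.not_ge (by
      rw [← comm_comm_eq hL]
      exact (Subgroup.commutator_mono h5.ge le_rfl).trans
        (comm_sup_le (h7.trans inf_le_right) (Subgroup.commutator_le_left _ _)))
    have h7 := h q hq _ _ ⟨hc.inf (opr_le q _) h4, opr_mono hSL⟩ h6
    have h8 : S ≤ cm ⁅S, L⁆ A := by
      rw [le_cm, Subgroup.commutator_comm]
      exact (Subgroup.commutator_mono h5.ge le_rfl).trans
        (comm_sup_le (h7.trans inf_le_right) (Subgroup.commutator_le_left _ _))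
    have := Fact.mk hq
    obtain ⟨k, hk⟩ := IsPGroup.iff_card.1 (opr_pgroup q ⁅S, L⁆)
    have h9 : ∀ b ∈ ⁅S, L⁆, b ^ q ^ k ∈ A := by
      intro b hb
      rw [← h5] at hb
      obtain ⟨c, hc', a, ha, rfl⟩ := exists_mul_of_mem_sup hb
      have e : c ^ q ^ k = 1 := by
        have e' : (⟨c, hc'⟩ : opr q ⁅S, L⁆) ^ q ^ k = 1 := hk ▸ pow_card_eq_one'
        exact congrArg Subtype.val e'
      rw [← QuotientGroup.eq_one_iff, QuotientGroup.mk_pow, QuotientGroup.mk_mul,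
        (QuotientGroup.eq_one_iff a).2 ha, mul_one, ← QuotientGroup.mk_pow, e, QuotientGroup.mk_one]
    refine hc.2.2.1.not_ge (le_cm.1 (hS.trans ((Subgroup.closure_le _).2 fun z hz => ?_)))
    exact hz.2.mem_of_pow (Nat.Coprime.pow_left k ((Nat.coprime_primes hq hr).2 hqr))
      (pow_mem_cm_of_central (fun f hf => comm_le_iff.1 le_rfl z hz.1 f hf) (h8 hz.1) h9)
  rw [← comm_comm_eq hL]
  exact Subgroup.commutator_mono (h2.trans (opr_mono hSL)) le_rfl

/-- The action of `T` on `X / ⁅X, X⁆` has length at most `lb X`. -/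
theorem free_top [X.Normal] [L.Normal] [T.Normal] (hT : ⁅L, T⁆ ≤ X) {lb : Subgroup G → ℕ}
    (hl : Lb X L lb) (h : ∀ A B : Subgroup G, Cv A B → B ≤ X → ¬ ⁅B, L⁆ ≤ A → ⁅B, T⁆ ≤ A)
    (n : ℕ) : ∀ U : Subgroup G, U.Normal → ⁅X, X⁆ ≤ U → U ≤ X → U ≤ ⁅U, L⁆ ⊔ ⁅X, X⁆ → lb U ≤ n →
      U ≤ up T ⁅X, X⁆ n := by
  induction n using Nat.strong_induction_on with
  | _ n ih =>
  intro U hU h1 h2 h3 h4
  by_cases h0 : U ≤ ⁅X, X⁆
  · exact h0.trans (up_mono (T := T) (Nat.zero_le n))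
  obtain ⟨A, hA, hc⟩ := exists_cv_above (lt_of_le_of_ne h1 fun e => h0 e.ge)
  have := hc.1
  have h5 : ¬ ⁅U, L⁆ ≤ A := fun h6 => hc.2.2.1.not_ge (h3.trans (sup_le h6 hA))
  have h6 := hl.strict A U inferInstance hU hc.2.2.1.le h2 h5
  have h7 : ⁅U, T⁆ ⊔ ⁅X, X⁆ ≤ A := sup_le (h A U hc h2 h5) hA
  have h8 := hl.mono _ _ h7
  obtain ⟨m, rfl⟩ : ∃ m, n = m + 1 := ⟨n - 1, by omega⟩
  refine le_up_succ.2 (le_sup_left.trans (ih m (Nat.lt_succ_self m) (⁅U, T⁆ ⊔ ⁅X, X⁆)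
    inferInstance le_sup_right (h7.trans (hc.2.2.1.le.trans h2)) (sup_le ?_ le_sup_right)
    (by omega)))
  refine (Subgroup.commutator_mono h3 le_rfl).trans (comm_sup_le (three_mod ?_ ?_) ?_)
  · exact (Subgroup.commutator_mono hT h2).trans le_sup_right
  · rw [Subgroup.commutator_comm T]
    exact (Subgroup.commutator_mono le_sup_left le_rfl).trans le_sup_left
  · exact (Subgroup.commutator_le_left _ _).trans le_sup_right

/-- The class of `X` is at most `2 * lb X + 1`. -/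
theorem free_class (hr : r.Prime) [X.Normal] (hX : IsPGroup r X) (hL : ⁅X, L⁆ = X)
    {lb : Subgroup G → ℕ} (hl : Lb X L lb) : X.lowerCentralSeries (2 * lb X + 1) = ⊥ := by
  have := Fact.mk hr
  obtain ⟨n, hn⟩ := (Subgroup.isNilpotent_iff_lowerCentralSeries X).1 hX.isNilpotent
  have stat : ∀ k : ℕ, X.lowerCentralSeries k ≤ X.lowerCentralSeries (k + 1) →
      X.lowerCentralSeries k = ⊥ := fun k hk => by
    have h1 : ∀ j : ℕ, X.lowerCentralSeries k ≤ X.lowerCentralSeries (k + j) := fun j => by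
      induction j with
      | zero => exact le_rfl
      | succ j ih => exact hk.trans (Subgroup.commutator_mono ih le_rfl)
    exact le_bot_iff.1 ((h1 n).trans ((X.lowerCentralSeries_antitone (by omega)).trans hn.le))
  have step : ∀ k : ℕ, X.lowerCentralSeries (k + 1) = ⊥ ∨
      lb (X.lowerCentralSeries (k + 1 + 1)) < lb (X.lowerCentralSeries k) := fun k => by
    by_cases h : lb (X.lowerCentralSeries (k + 1 + 1)) < lb (X.lowerCentralSeries k)
    · exact Or.inr h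
    · refine Or.inl (stat _ fun x hx => ?_)
      have h1 := expo_step hX hL (X.lowerCentralSeries_le_self k) hl hx
      have h2 : lb (X.lowerCentralSeries k) - lb ⁅⁅X.lowerCentralSeries k, X⁆, X⁆ = 0 :=
        Nat.sub_eq_zero_of_le (not_lt.1 h)
      rwa [h2, pow_zero, pow_one] at h1
  have ind : ∀ i : ℕ, X.lowerCentralSeries (2 * i + 1) = ⊥ ∨
      lb (X.lowerCentralSeries (2 * i + 1 + 1)) + i + 1 ≤ lb X := fun i => by
    induction i with
    | zero =>
      refine (step 0).imp id fun h => ?_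
      exact h
    | succ i ih =>
      rcases ih with ih | ih
      · exact Or.inl (le_bot_iff.1 ((X.lowerCentralSeries_antitone (by omega)).trans ih.le))
      · refine (step (2 * i + 1 + 1)).imp id fun h => ?_
        show lb (X.lowerCentralSeries (2 * i + 1 + 1 + 1 + 1)) + (i + 1) + 1 ≤ lb X
        omega
  exact (ind (lb X)).resolve_right (by omega)

omit [Finite G] in
theorem free_up [X.Normal] [T.Normal] {s c : ℕ} (h : X ≤ up T ⁅X, X⁆ s)
    (hc : X.lowerCentralSeries c = ⊥) : X ≤ up T ⊥ (c * (c * s)) := by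
  have h1 : ∀ j : ℕ, X.lowerCentralSeries j ≤ up T (X.lowerCentralSeries (j + 1)) ((j + 1) * s) :=
    fun j => by
      induction j with
      | zero => simpa using h
      | succ j ih =>
        exact up_comm _ _ _ _ _ inferInstance inferInstance (by ring) ih h le_rfl
          (lcs_comm X j 1)
  have h2 : ∀ j ≤ c, X ≤ up T (X.lowerCentralSeries j) (j * (c * s)) := fun j => by
    induction j with
    | zero => exact fun _ => by simp [up]
    | succ j ih =>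
      intro hj
      refine (up_trans (ih (by omega)) (h1 j)).trans (up_mono ?_)
      have := Nat.mul_le_mul_right s hj
      rw [add_mul j 1 (c * s)]
      omega
  have h3 := h2 c le_rfl
  simp only [hc] at h3
  exact h3

omit [Finite G] in
theorem free_exp (hr : r.Prime) {a t c : ℕ} (hc : X.lowerCentralSeries c = ⊥) (ht : c ≤ r ^ t)
    (ha : X ≤ sSup {W : Subgroup G | W.Normal ∧ W ≤ X ∧ ∀ w ∈ W, w ^ r ^ a = 1}) {y : G}
    (hy : y ∈ X) : y ^ r ^ (a + t) = 1 := by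
  let K : Subgroup G :=
    { carrier := {y | y ∈ X ∧ ∀ x ∈ X, (x * y) ^ r ^ (a + t) = x ^ r ^ (a + t)}
      one_mem' := ⟨X.one_mem, fun x _ => by rw [mul_one]⟩
      mul_mem' := by
        rintro y z ⟨h1, h2⟩ ⟨h3, h4⟩
        exact ⟨X.mul_mem h1 h3, fun x hx => by rw [← mul_assoc, h4 _ (X.mul_mem hx h1), h2 x hx]⟩
      inv_mem' := by
        rintro y ⟨h1, h2⟩
        refine ⟨X.inv_mem h1, fun x hx => ?_⟩
        rw [← h2 _ (X.mul_mem hx (X.inv_mem h1)), inv_mul_cancel_right] }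
  have hK : X ≤ K := ha.trans (sSup_le fun W hW w hw => ⟨hW.2.1 hw, fun x hx =>
    hp_pow hr hc ht hW.2.1 (fun h _ z hz => hW.1.conj_mem z hz h) hW.2.2 hx hw⟩)
  have h1 := (hK hy).2 1 X.one_mem
  rwa [one_mul, one_pow] at h1

theorem free {R : Subgroup G} [R.Normal] [L.Normal] {a t u : ℕ} (hr : r.Prime)
    (hD : Group.IsSolvable D) (hL : ⁅L, L⁆ = L) (hRL : ⁅R, L⁆ ≤ D) {lb : Subgroup G → ℕ}
    (hl : Lb ⁅opr r D, L⁆ L lb)
    (hu : ∀ g ∈ R, PE r g → ∀ q : ℕ, q.Prime → ∀ A B : Subgroup G, Lyr q D A B → ¬ ⁅B, L⁆ ≤ A →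
      g ^ r ^ u ∈ cm B A)
    (ha : ⁅opr r D, L⁆ ≤
      sSup {W : Subgroup G | W.Normal ∧ W ≤ ⁅opr r D, L⁆ ∧ ∀ w ∈ W, w ^ r ^ a = 1})
    (ht : (2 * lb ⁅opr r D, L⁆ + 1) ^ 2 * lb ⁅opr r D, L⁆ + 1 ≤ r ^ t) :
    (∀ y ∈ ⁅opr r D, L⁆, y ^ r ^ (a + t) = 1) ∧
      ∀ g ∈ R, PE r g → g ^ r ^ (u + a + 2 * t) ∈ Subgroup.centralizer (L : Set G) := by
  set X : Subgroup G := ⁅opr r D, L⁆ with hXd
  have hXP : X ≤ opr r D := Subgroup.commutator_le_left _ _
  have hXp : IsPGroup r X := (opr_pgroup r D).to_le hXP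
  have hXL : ⁅X, L⁆ = X := comm_comm_eq hL
  have hcl := free_class hr hXp hXL hl
  have hexp : ∀ y ∈ X, y ^ r ^ (a + t) = 1 := by
    by_cases hs : lb X = 0
    · have h1 : X ≤ up ⊤ ⁅X, X⁆ 0 := by
        by_contra h2
        have h3 := hl.strict ⁅X, X⁆ X inferInstance inferInstance (perf_self X) le_rfl
          (by rw [hXL]; exact h2)
        omega
      have h2 := free_up h1 hcl
      rw [mul_zero, mul_zero] at h2
      intro y hy
      rw [Subgroup.mem_bot.1 (h2 hy), one_pow]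
    · refine fun y hy => free_exp hr hcl (le_trans ?_ ht) ha hy
      have h1 : 2 * lb X + 1 ≤ (2 * lb X + 1) ^ 2 := Nat.le_self_pow two_ne_zero _
      have h2 := Nat.le_mul_of_pos_right ((2 * lb X + 1) ^ 2) (Nat.pos_of_ne_zero hs)
      omega
  refine ⟨hexp, fun g hg hpe => ?_⟩
  let Zs : Set G := {z | z ∈ R ∧ PE r z ∧ ∀ q : ℕ, q.Prime → ∀ A B : Subgroup G, Lyr q D A B →
    ¬ ⁅B, L⁆ ≤ A → z ∈ cm B A}
  let S : Subgroup G := Subgroup.closure Zs
  have hSN : S.Normal := by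
    refine normal_of_cj fun x => Subgroup.map_le_iff_le_comap.2 ((Subgroup.closure_le _).2 ?_)
    intro z hz
    refine Subgroup.subset_closure (show x * z * x⁻¹ ∈ Zs from ⟨?_, hz.2.1.conj x, ?_⟩)
    · exact Subgroup.Normal.conj_mem inferInstance z hz.1 x
    · intro q hq A B h1 h2
      have := h1.1.1
      have := h1.1.2.1
      exact Subgroup.Normal.conj_mem inferInstance z (hz.2.2 q hq A B h1 h2) x
  have hSR : S ≤ R := (Subgroup.closure_le _).2 fun z hz => hz.1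
  have hSc : ∀ q : ℕ, q.Prime → ∀ A B : Subgroup G, Lyr q D A B → ¬ ⁅B, L⁆ ≤ A → ⁅B, S⁆ ≤ A := by
    intro q hq A B h1 h2
    have := h1.1.1
    rw [Subgroup.commutator_comm, ← le_cm]
    exact (Subgroup.closure_le _).2 fun z hz => hz.2.2 q hq A B h1 h2
  have hSL : ⁅S, L⁆ ≤ X := free_two hr hD hL ((Subgroup.commutator_mono hSR le_rfl).trans hRL)
    (Subgroup.closure_mono fun z hz => ⟨Subgroup.subset_closure hz, hz.2.1⟩) hSc
  have h1 : X ≤ up (S ⊔ X) ⁅X, X⁆ (lb X) := by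
    refine free_top ?_ hl (fun A B h2 h3 h4 => ?_) _ X inferInstance (perf_self X) le_rfl
      (hXL.ge.trans le_sup_left) le_rfl
    · rw [Subgroup.commutator_comm]
      exact comm_sup_le hSL hXL.le
    · have := h2.1
      rw [Subgroup.commutator_comm]
      refine comm_sup_le ?_ ?_ <;> rw [Subgroup.commutator_comm]
      · exact hSc r hr A B ⟨h2, h3.trans hXP⟩ h4
      · exact h2.comm_pgroup hr (hXp.to_le h3) hXp
  have h2 := free_up h1 hcl
  have hz : g ^ r ^ u ∈ S := Subgroup.subset_closure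
    (show g ^ r ^ u ∈ Zs from ⟨R.pow_mem hg _, hpe.pow _, hu g hg hpe⟩)
  set z := g ^ r ^ u with hzd
  have h3 : (Subgroup.zpowers z ⊔ X).lowerCentralSeries 1 ≤ X := by
    show ⁅Subgroup.zpowers z ⊔ X, Subgroup.zpowers z ⊔ X⁆ ≤ X
    refine comm_sup_le ?_ (Subgroup.commutator_le_left _ _)
    rw [Subgroup.commutator_comm]
    refine comm_sup_le (comm_le_iff.2 ?_) (Subgroup.commutator_le_left _ _)
    rintro _ ⟨i, rfl⟩ _ ⟨j, rfl⟩
    have e : z ^ i * z ^ j * (z ^ i)⁻¹ * (z ^ j)⁻¹ = 1 := by group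
    exact e ▸ X.one_mem
  have h4 := le_bot_iff.1 (lcs_le_of_up
    (sup_le_sup_right (Subgroup.zpowers_le.2 hz) X) (h3.trans h2))
  rw [Subgroup.mem_centralizer_iff]
  intro l hl'
  have h5 : z⁻¹ * l * z⁻¹⁻¹ * l⁻¹ ∈ X := comm_le_iff.1 hSL _ (S.inv_mem hz) l hl'
  have h6 := hp_pow hr h4 (t := t) (le_trans (le_of_eq (by ring)) ht) le_sup_right
    (fun h _ y hy => Subgroup.Normal.conj_mem inferInstance y hy h) hexp
    (Subgroup.mem_sup_left (Subgroup.mem_zpowers z)) h5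
  have e : z * (z⁻¹ * l * z⁻¹⁻¹ * l⁻¹) = l * z * l⁻¹ := by group
  have e2 : g ^ r ^ (u + a + 2 * t) = z ^ r ^ (a + t + t) := by
    rw [hzd, ← pow_mul, ← pow_add]
    congr 2
    ring
  rw [e, conj_pow] at h6
  rw [e2, ← mul_inv_eq_iff_eq_mul, h6]

end Pool.Agent.Lib.MP_634dc6_al
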