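import Mathlib

/-!
Numerical lemmas for the main argument.
-/

namespace Pool.Agent.Lib.MP_634dc6_al

open Classical in
/-- Double counting. -/
theorem dc {ι : Type} [Finite ι] (J : Finset ℕ) (a : ℕ → Set ι) (w : ℕ → ℝ)
    (hw : ∀ j ∈ J, 0 ≤ w j) {B c : ℕ} (hc : 7 ≤ c)
    (h : ∀ j ∈ J, ((a j).ncard : ℝ) ^ 7 ≤ B * w j ^ c) (I : Set ι) (b : ℕ)
    (hb : ∀ i ∈ I, b ≤ (J.filter fun j => i ∈ a j).card) :
    (I.ncard : ℝ) * b ^ c ≤ B * (∑ j ∈ J, w j) ^ c := by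
  have hW : 0 ≤ ∑ j ∈ J, w j := Finset.sum_nonneg hw
  rcases Nat.eq_zero_or_pos I.ncard with h0 | h0
  · rw [h0, Nat.cast_zero, zero_mul]
    positivity
  have hN : (1 : ℝ) ≤ I.ncard := by exact_mod_cast h0
  obtain ⟨d, rfl⟩ := Nat.exists_eq_add_of_le hc
  obtain ⟨X, hX0, hX⟩ : ∃ X : ℝ, 0 ≤ X ∧ X ^ (7 + d) = B * (I.ncard : ℝ) ^ d :=
    ⟨_, by positivity, Real.rpow_inv_natCast_pow (by positivity) (by omega)⟩
  let T := (Set.toFinite I).toFinset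
  have hT : T.card = I.ncard := (Set.ncard_eq_toFinset_card I _).symm
  have h1 : ∀ j ∈ J, ((T.filter fun i => i ∈ a j).card : ℝ) ≤ X * w j := by
    intro j hj
    have h2 : ((T.filter fun i => i ∈ a j).card : ℝ) ≤ (a j).ncard := by
      rw [← Set.ncard_coe_finset]
      exact_mod_cast Set.ncard_le_ncard (fun i hi => (Finset.mem_filter.1 hi).2)
    have h3 : ((T.filter fun i => i ∈ a j).card : ℝ) ≤ I.ncard := by
      rw [← hT]
      exact_mod_cast Finset.card_filter_le _ _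
    refine le_of_pow_le_pow_left₀ (n := 7 + d) (by omega) (mul_nonneg hX0 (hw j hj)) ?_
    rw [mul_pow, hX, pow_add, mul_right_comm]
    exact mul_le_mul ((pow_le_pow_left₀ (Nat.cast_nonneg _) h2 7).trans (h j hj))
      (pow_le_pow_left₀ (Nat.cast_nonneg _) h3 d) (by positivity)
      (mul_nonneg (Nat.cast_nonneg _) (pow_nonneg (hw j hj) _))
  have h2 : I.ncard * b ≤ ∑ j ∈ J, (T.filter fun i => i ∈ a j).card := by
    calc I.ncard * b = ∑ _i ∈ T, b := by rw [Finset.sum_const, hT, smul_eq_mul]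
      _ ≤ ∑ i ∈ T, (J.filter fun j => i ∈ a j).card :=
        Finset.sum_le_sum fun i hi => hb i ((Set.toFinite I).mem_toFinset.1 hi)
      _ = _ := by
        simp only [Finset.card_filter]
        exact Finset.sum_comm
  have h3 : (I.ncard : ℝ) * b ≤ X * ∑ j ∈ J, w j := by
    rw [Finset.mul_sum]
    exact le_trans (by exact_mod_cast h2) (Finset.sum_le_sum h1)
  have h4 := pow_le_pow_left₀ (by positivity) h3 (7 + d)
  rw [mul_pow, mul_pow, hX, pow_add, mul_right_comm, mul_right_comm (B : ℝ)] at h4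
  refine le_trans (mul_le_mul_of_nonneg_right (le_self_pow₀ hN (by norm_num : 7 ≠ 0))
    (by positivity)) (le_of_mul_le_mul_right h4 (by positivity))

theorem num_w {κ d C : ℕ} (h2 : 2 ≤ κ) (hd : 0 < d) (h : d ^ 8 ≤ C * κ) :
    (κ : ℝ) ^ 7 ≤ 256 * C * (((κ : ℝ) - 1) / d) ^ 8 := by
  have h1 : (2 : ℝ) ≤ κ := by exact_mod_cast h2
  have h3 : (0 : ℝ) < d := by exact_mod_cast hd
  have h4 : (d : ℝ) ^ 8 ≤ C * κ := by exact_mod_cast h
  have h5 : (κ : ℝ) ^ 8 ≤ (2 * (κ - 1)) ^ 8 := pow_le_pow_left₀ (by positivity) (by linarith) 8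
  rw [div_pow, ← mul_div_assoc, le_div_iff₀ (by positivity)]
  calc (κ : ℝ) ^ 7 * d ^ 8 ≤ κ ^ 7 * (C * κ) := mul_le_mul_of_nonneg_left h4 (by positivity)
    _ = C * κ ^ 8 := by ring
    _ ≤ C * (2 * (κ - 1)) ^ 8 := mul_le_mul_of_nonneg_left h5 (by positivity)
    _ = _ := by ring

theorem num_z {κ z C : ℕ} {w : ℝ} (h : (κ : ℝ) ^ 7 ≤ 256 * C * w ^ 8) (hz : z ≤ C * κ ^ C) :
    (z : ℝ) ^ 7 ≤ (C ^ 7 * (256 * C) ^ C : ℕ) * w ^ (8 * C) := by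
  have h1 : (z : ℝ) ≤ C * κ ^ C := by exact_mod_cast hz
  calc (z : ℝ) ^ 7 ≤ (C * κ ^ C) ^ 7 := pow_le_pow_left₀ (by positivity) h1 7
    _ = C ^ 7 * ((κ : ℝ) ^ 7) ^ C := by rw [mul_pow, ← pow_mul, ← pow_mul, mul_comm C 7]
    _ ≤ C ^ 7 * (256 * C * w ^ 8) ^ C :=
      mul_le_mul_of_nonneg_left (pow_le_pow_left₀ (by positivity) h C) (by positivity)
    _ = _ := by
      rw [mul_pow _ (w ^ 8), ← pow_mul]
      push_cast
      ring

theorem num_one {κ C : ℕ} {w : ℝ} (h0 : 0 ≤ w) (h2 : 1 ≤ κ) (hC : 1 ≤ C)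
    (h : (κ : ℝ) ^ 7 ≤ 256 * C * w ^ 8) : 1 ≤ 2 * C * w := by
  have h1 : (1 : ℝ) ≤ κ := by exact_mod_cast h2
  have h3 : (1 : ℝ) ≤ C := by exact_mod_cast hC
  refine le_of_pow_le_pow_left₀ (n := 8) (by norm_num) (by positivity) ?_
  calc (1 : ℝ) ^ 8 ≤ κ ^ 7 := by
        rw [one_pow]
        exact one_le_pow₀ h1
    _ ≤ 256 * C * w ^ 8 := h
    _ ≤ 256 * C ^ 8 * w ^ 8 := by
        gcongr
        exact le_self_pow₀ h3 (by norm_num)
    _ = _ := by ring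

theorem num_u {κ d C k m : ℕ} {w : ℝ} (h0 : 0 ≤ w) (h : (κ : ℝ) ^ 7 ≤ 256 * C * w ^ 8)
    (hw : w ≤ 26 * k * (m + 1)) (hm : 104 * C * k ≤ m) (hm1 : 1 ≤ m) (hd : d ^ 8 ≤ C * κ) :
    d ≤ m := by
  have h1 : (1 : ℝ) ≤ m := by exact_mod_cast hm1
  have h2 : (104 * C * k : ℝ) ≤ m := by exact_mod_cast hm
  have h3 : (d : ℝ) ^ 8 ≤ C * κ := by exact_mod_cast hd
  have h4 : w ≤ 52 * k * m := hw.trans (by nlinarith [Nat.cast_nonneg (α := ℝ) k])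
  have h5 : (d : ℝ) ^ 56 ≤ (m : ℝ) ^ 56 :=
    calc (d : ℝ) ^ 56 = ((d : ℝ) ^ 8) ^ 7 := by ring
      _ ≤ ((C : ℝ) * κ) ^ 7 := pow_le_pow_left₀ (by positivity) h3 7
      _ = (C : ℝ) ^ 7 * (κ : ℝ) ^ 7 := by ring
      _ ≤ (C : ℝ) ^ 7 * (256 * C * (52 * k * m : ℝ) ^ 8) :=
        mul_le_mul_of_nonneg_left (h.trans (by gcongr)) (by positivity)
      _ = (104 * C * k : ℝ) ^ 8 * (m : ℝ) ^ 8 := by ring
      _ ≤ (m : ℝ) ^ 8 * (m : ℝ) ^ 8 := by gcongr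
      _ = (m : ℝ) ^ 16 := by ring
      _ ≤ (m : ℝ) ^ 56 := pow_le_pow_right₀ h1 (by norm_num)
  exact_mod_cast le_of_pow_le_pow_left₀ (by norm_num) (by positivity) h5

theorem num_two {m : ℕ} (hm : 30 ≤ m) : (m + 1) ^ 6 ≤ 2 ^ m := by
  induction hm with
  | refl => norm_num
  | step h ih =>
    rename_i n
    have h1 : 31 * (n + 1 + 1) ≤ 32 * (n + 1) := by
      have : 30 ≤ n := h
      omega
    have h2 := Nat.pow_le_pow_left h1 6
    rw [mul_pow, mul_pow] at h2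
    show (n + 1 + 1) ^ 6 ≤ 2 ^ (n + 1)
    rw [pow_succ 2]
    omega

theorem num_t {s C k m : ℕ} (hs : (s : ℝ) ≤ 2 * C * (26 * k * (m + 1))) (hm : 104 * C * k ≤ m)
    (hm1 : 30 ≤ m) : (2 * s + 1) ^ 2 * s + 1 ≤ 2 ^ m := by
  have h1 : s ≤ 2 * C * (26 * k * (m + 1)) := by exact_mod_cast hs
  have h2 : 2 * s + 1 ≤ (m + 1) ^ 2 := by
    have h3 := Nat.mul_le_mul_right (m + 1) hm
    nlinarith
  calc (2 * s + 1) ^ 2 * s + 1 ≤ (2 * s + 1) ^ 3 := by nlinarith [Nat.zero_le (s ^ 2), Nat.zero_le (s ^ 3)]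
    _ ≤ ((m + 1) ^ 2) ^ 3 := Nat.pow_le_pow_left h2 3
    _ = (m + 1) ^ 6 := by ring
    _ ≤ 2 ^ m := num_two hm1

theorem fact_le_divisors {e p : ℕ} (hp : p.Prime) (he : 0 < e) :
    e.factorization p ≤ e.divisors.card := by
  rw [← Finset.card_range (e.factorization p)]
  refine Finset.card_le_card_of_injOn (fun i => p ^ i) (fun i hi => ?_)
    fun i _ j _ h => Nat.pow_right_injective hp.two_le h
  exact Finset.mem_coe.2 (Nat.mem_divisors.2 ⟨(hp.pow_dvd_iff_le_factorization he.ne').2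
    (Finset.mem_range.1 (Finset.mem_coe.1 hi)).le, he.ne'⟩)

theorem num_le {B c : ℕ} {y w : ℝ} (hB : 0 < B) (hc : c ≠ 0) (hw : 0 ≤ w)
    (h : B * y ^ c ≤ B * w ^ c) : y ≤ w :=
  le_of_pow_le_pow_left₀ hc hw (le_of_mul_le_mul_left h (by exact_mod_cast hB))

end Pool.Agent.Lib.MP_634dc6_al
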