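import Pool.Agent.Lib.MP_634dc6_al.SemiB

/-!
Supports and the relation `Rel`.
-/

namespace Pool.Agent.Lib.MP_634dc6_al

variable {G : Type} [Group G] [Finite G] {ι : Type} [Finite ι] {M : ℕ} {D R : Subgroup G}
  {K : ι → Subgroup G}

omit [Finite G] in
theorem wt_mem [D.Normal] {a b : G} : a * b * a⁻¹ * b⁻¹ ∈ D ↔
    Commute (QuotientGroup.mk' D a) (QuotientGroup.mk' D b) := by
  rw [← commutatorElement_eq_one_iff_commute, ← map_commutatorElement, QuotientGroup.mk'_apply,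
    QuotientGroup.eq_one_iff, commutatorElement_def]

omit [Finite G] [Finite ι] in
theorem wt_supp [D.Normal] {ρ : G} {i : ι} : i ∈ supp D K ρ ↔
    ¬ ∀ k ∈ K i, Commute (QuotientGroup.mk' D ρ) (QuotientGroup.mk' D k) := by
  simp only [supp, Set.mem_ofPred_eq, wt_mem, not_forall, exists_prop]

omit [Finite G] [Finite ι] in
theorem GS.supp_eq_empty (h : GS M D R K) {u : G} (hu : u ∈ R) : supp D K u = ∅ := by
  exact Set.eq_empty_of_forall_notMem fun i ⟨k, hk, e⟩ => e (comm_le_iff.1 (h.cen i) u hu k hk)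

omit [Finite G] [Finite ι] in
/-- Induction on `J`: multiply by an element `k ∈ K i` that does not centralise `K i / D` (it exists
by `perf` and `ne`); it centralises `K j / D` for `j ≠ i`. -/
theorem GS.exists_supp (h : GS M D R K) {u : G} (hu : u ∈ R) (J : Finset ι) :
    ∃ k ∈ jn K (J : Set ι), supp D K (u * k) = J := by
  classical
  have := h.nD
  induction J using Finset.induction_on with
  | empty => exact ⟨1, one_mem _, by rw [mul_one, h.supp_eq_empty hu, Finset.coe_empty]⟩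
  | insert i J hi ih =>
    obtain ⟨k, hk, e⟩ := ih
    obtain ⟨k', hk', e'⟩ : ∃ k' ∈ K i, i ∈ supp D K k' := by
      by_contra hc
      refine h.ne i ((h.perf i).trans (sup_le (comm_le_iff.2 fun a ha b hb => ?_) le_rfl))
      exact by_contra fun e => hc ⟨a, ha, b, hb, e⟩
    refine ⟨k * k', mul_mem (jn_mono (by simp) (fun _ _ => le_rfl) hk) (le_jn (by simp) hk'), ?_⟩
    ext j
    rw [Finset.coe_insert, Set.mem_insert_iff, ← e, ← mul_assoc]
    rcases eq_or_ne j i with rfl | hj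
    · have h1 : j ∉ supp D K (u * k) := by
        rw [e]
        exact hi
      rw [wt_supp, not_not] at h1
      refine iff_of_true (wt_supp.2 fun h2 => wt_supp.1 e' fun x hx => ?_) (Or.inl rfl)
      have h3 := (h1 x hx).inv_left.mul_left (h2 x hx)
      rwa [map_mul _ (u * k), inv_mul_cancel_left] at h3
    · have h1 : ∀ x ∈ K j, Commute (QuotientGroup.mk' D k') (QuotientGroup.mk' D x) :=
        fun x hx => wt_mem.1 (comm_le_iff.1 (h.comm i j hj.symm) k' hk' x hx)
      rw [or_iff_right hj, wt_supp, wt_supp, map_mul _ (u * k)]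
      refine not_congr (forall₂_congr fun x hx => ⟨fun h2 => ?_, fun h2 => h2.mul_left (h1 x hx)⟩)
      have h3 := h2.mul_left (h1 x hx).inv_left
      rwa [mul_inv_cancel_right] at h3

omit [Finite G] [Finite ι] in
theorem GS.ncard_supp (h : GS M D R K) {ρ σ : G} (hσ : σ ∈ cls D ρ) :
    (supp D K σ).ncard = (supp D K ρ).ncard := by
  have := h.nD
  obtain ⟨g, d, hd, rfl⟩ := hσ
  obtain ⟨π, hπ⟩ := h.perm g
  rw [← Set.ncard_image_of_injective (supp D K ρ) π.injective]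
  congr 1
  ext j
  obtain ⟨i, rfl⟩ := π.surjective j
  have e : QuotientGroup.mk' D d = 1 := (QuotientGroup.eq_one_iff d).2 hd
  rw [π.injective.mem_set_image, wt_supp, wt_supp, ← hπ, map_mul, e, mul_one]
  refine not_congr ⟨fun h1 x hx => ?_, fun h1 x hx => ?_⟩
  · have h2 := h1 _ (conj_mem_cj g hx)
    simp only [map_mul, map_inv] at h2
    exact (Commute.conj_iff _).1 h2
  · have h2 := (h1 _ (mem_cj.1 hx)).conj (QuotientGroup.mk' D g)
    simpa only [map_mul, map_inv, mul_assoc, mul_inv_cancel, mul_one, mul_inv_cancel_left] using h2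

/-- Modulo `D` the elements `u` and `k` commute (`comm_jn_le`) and `k ^ M ! = 1`. -/
theorem GS.mk_pow [D.Normal] (h : GS M D R K) {u k : G} (hu : u ∈ R) (hk : k ∈ jn K Set.univ) :
    QuotientGroup.mk' D ((u * k) ^ Nat.factorial M) = QuotientGroup.mk' D (u ^ Nat.factorial M) := by
  have h1 := wt_mem.1 (comm_le_iff.1 (comm_jn_le fun i _ => h.cen i) u hu k hk)
  have e : QuotientGroup.mk' D (k ^ Nat.factorial M) = 1 :=
    (QuotientGroup.eq_one_iff _).2 (h.pow_mem hk)
  rw [map_pow, map_mul, h1.mul_pow, ← map_pow, ← map_pow, e, mul_one]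

omit [Finite G] [Finite ι] in
theorem rel_equiv (D : Subgroup G) [D.Normal] (K : ι → Subgroup G) (c : G) :
    Equivalence (Rel D K c) := by
  refine ⟨fun i => ⟨1, by simp, cj_one _⟩, ?_, ?_⟩
  · rintro i j ⟨g, h1, h2⟩
    refine ⟨g⁻¹, wt_mem.2 ?_, by rw [← h2, ← cj_mul, inv_mul_cancel, cj_one]⟩
    rw [map_inv]
    exact (wt_mem.1 h1).inv_left
  · rintro i j l ⟨g, h1, h2⟩ ⟨g', h3, h4⟩
    refine ⟨g' * g, wt_mem.2 ?_, by rw [cj_mul, h2, h4]⟩
    rw [map_mul]
    exact (wt_mem.1 h3).mul_left (wt_mem.1 h1)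

omit [Finite ι] in
theorem cl_closure {r : ι → ι → Prop} (hr : Equivalence r) (J₀ : Set ι) :
    ∃ J : Set ι, J₀ ⊆ J ∧ Cl r J ∧ ∀ I : Set ι, Cl r I → (I ∩ J).Nonempty → (I ∩ J₀).Nonempty := by
  exact ⟨{j | ∃ i ∈ J₀, r i j}, fun i hi => ⟨i, hi, hr.refl i⟩,
    fun _ _ h ⟨i, hi, e⟩ => ⟨i, hi, hr.trans e h⟩,
    fun _ hI ⟨j, hj, i, hi, e⟩ => ⟨i, hI j i (hr.symm e) hj, hi⟩⟩

/-- For `1 ≤ w ≤ card J₀` take a subset of `J₀` with `w` elements and `GS.exists_supp`; the image
of `w ↦ u * k w` has `card J₀` elements. -/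
theorem GS.exists_family (h : GS M D R K) {u : G} (hu : u ∈ R) (J₀ : Finset ι) :
    ∃ T : Finset G, T.card = J₀.card ∧
      (∀ ρ ∈ T, ρ ∉ R ∧ ∃ k ∈ jn K (J₀ : Set ι), ρ = u * k) ∧
      ∀ ρ ∈ T, ∀ σ ∈ T, σ ∈ cls D ρ → σ = ρ := by
  classical
  have h1 : ∀ w : Fin J₀.card, ∃ k ∈ jn K (J₀ : Set ι), (supp D K (u * k)).ncard = w + 1 := by
    intro w
    obtain ⟨S, hS, e⟩ := Finset.exists_subset_card_eq (s := J₀) (n := w + 1) w.2
    obtain ⟨k, hk, e'⟩ := h.exists_supp hu S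
    exact ⟨k, jn_mono (Finset.coe_subset.2 hS) (fun _ _ => le_rfl) hk, by
      rw [e', Set.ncard_coe_finset, e]⟩
  choose k hk e using h1
  refine ⟨Finset.univ.image fun w => u * k w, ?_, fun ρ hρ => ?_, fun ρ hρ σ hσ hc => ?_⟩
  · rw [Finset.card_image_of_injective, Finset.card_univ, Fintype.card_fin]
    intro a b hab
    have h2 := e a
    rw [show u * k a = u * k b from hab, e b] at h2
    exact Fin.ext (by omega)
  · obtain ⟨w, -, rfl⟩ := Finset.mem_image.1 hρ
    refine ⟨fun hR => ?_, k w, hk w, rfl⟩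
    have h2 := e w
    rw [h.supp_eq_empty hR, Set.ncard_empty] at h2
    omega
  · obtain ⟨a, -, rfl⟩ := Finset.mem_image.1 hρ
    obtain ⟨b, -, rfl⟩ := Finset.mem_image.1 hσ
    have h2 := h.ncard_supp hc
    rw [e, e] at h2
    rw [show b = a from Fin.ext (by omega)]

end Pool.Agent.Lib.MP_634dc6_al
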