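import Pool.Agent.Lib.MP_634dc6_al.Lay
import Pool.Agent.Lib.MP_634dc6_al.Wt

/-!
The components that act trivially on all layers.
-/

namespace Pool.Agent.Lib.MP_634dc6_al

variable {G : Type} [Group G] [Finite G] {ι : Type} {M : ℕ} {D R L : Subgroup G}
  {K : ι → Subgroup G}

theorem comm_bot_of_opr (hD : Group.IsSolvable D) [R.Normal] [L.Normal] (hL : ⁅L, L⁆ = L)
    (hRL : ⁅R, L⁆ ≤ D) (h : ∀ q : ℕ, q.Prime → ⁅opr q D, L⁆ = ⊥) : ⁅R, L⁆ = ⊥ := by
  have h1 : Group.IsNilpotent (⁅R, L⁆ : Subgroup G) := nilp_of_lyr hD hRL fun q hq A B hl =>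
    ((Subgroup.commutator_mono hl.2 (Subgroup.commutator_le_right _ _)).trans
      (h q hq).le).trans bot_le
  have h2 : ⁅R, L⁆ ≤ cm L ⊥ := nilp_le h1 fun q hq =>
    le_cm.2 ((Subgroup.commutator_mono (opr_mono hRL) le_rfl).trans (h q hq).le)
  exact le_bot_iff.1 (perf_comm hL (le_cm.1 h2))

omit [Finite G] in
theorem GS.res_perm (h : GS M D R K) (g : G) :
    ∃ π : Equiv.Perm ι, ∀ i, cj g (res (K i)) = res (K (π i)) := by
  obtain ⟨π, hπ⟩ := h.perm g
  exact ⟨π, fun i => by rw [cj_res, hπ]⟩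

theorem GS.res_cov (h : GS M D R K) (i : ι) : K i ≤ res (K i) ⊔ D := by
  have := h.nD
  exact res_cover (h.perf i) le_sup_left

omit [Finite G] in
theorem GS.cen_jn (h : GS M D R K) (J : Set ι) : ⁅R, jn (fun i => res (K i)) J⁆ ≤ D := by
  have := h.nD
  exact comm_jn_le fun i _ => (Subgroup.commutator_mono le_rfl (res_le _)).trans (h.cen i)

theorem ncard_pow_ord (S : Set G) {e : ℕ} (he : 0 < e) :
    nord S ≤ e * ((fun g => orderOf (g ^ e)) '' S).ncard := by
  have h1 : (fun g => orderOf (g ^ e)) '' S = (fun c : ℕ => c / c.gcd e) '' (orderOf '' S) := by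
    rw [Set.image_image]
    exact Set.image_congr fun q _ => orderOf_pow' _ he.ne'
  rw [h1]
  refine ncard_le_mul_image ((Set.toFinite S).image _) _ _ fun b => ?_
  have h2 : (Set.Icc 1 e).ncard = e := by simp
  refine le_trans (Set.ncard_le_ncard_of_injOn (t := Set.Icc 1 e) (fun c => c.gcd e)
    (fun c _ => ⟨Nat.gcd_pos_of_pos_right _ he, Nat.gcd_le_right _ he⟩) ?_) h2.le
  rintro c ⟨-, hc⟩ c' ⟨-, hc'⟩ h
  have h3 := hc.trans hc'.symm
  simp only at h3 h
  rw [← Nat.div_mul_cancel (Nat.gcd_dvd_left c e), h3, h, Nat.div_mul_cancel (Nat.gcd_dvd_left c' e)]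

/-- The weights. -/
theorem s0 [Finite ι] (h : GS M D R K) (hD : Group.IsSolvable D) {E : Subgroup G} (hR : R ≤ E)
    (hK : ∀ i, K i ≤ E) :
    {i | ∀ q : ℕ, q.Prime → ⁅opr q D, res (K i)⁆ = ⊥}.ncard * nord (R : Set G) ≤
      M.factorial * om (E : Set G) := by
  classical
  have := h.nD
  have := h.nR
  set I : Set ι := {i | ∀ q : ℕ, q.Prime → ⁅opr q D, res (K i)⁆ = ⊥} with hI
  have hinv : InvS (fun i => res (K i)) I := by
    intro g i hi
    obtain ⟨π, hπ⟩ := h.res_perm g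
    refine ⟨π i, fun q hq => ?_, hπ i⟩
    rw [← hπ i, ← cj_normal g (opr q D), ← cj_commutator, cj_eq_bot]
    exact hi q hq
  have := jn_normal hinv
  have h1 : ⁅R, jn (fun i => res (K i)) I⁆ = ⊥ :=
    comm_bot_of_opr hD (jn_perf (fun i => res_perf _) I) (h.cen_jn I) fun q hq =>
      le_bot_iff.1 (comm_jn_le fun i hi => (hi q hq).le)
  have h2 : ∀ i ∈ I, ⁅D, res (K i)⁆ ≤ ⊥ := fun i hi =>
    (Subgroup.commutator_mono h.DR (le_jn (Λ := fun i => res (K i)) hi)).trans h1.le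
  have h3 : ∀ x ∈ jn (fun i => res (K i)) I, x ^ M.factorial = 1 := fun x hx =>
    Subgroup.mem_bot.1 (jn_pow_mem (fun i _ j hj hij => perf_comm (res_perf _)
      ((Subgroup.commutator_mono ((Subgroup.commutator_mono (res_le _) (res_le _)).trans
        (h.comm i j hij)) le_rfl).trans (h2 j hj)))
      (fun i hi y hy => Subgroup.mem_bot.2 (perf_pow (Z := D) (res_perf _)
        (le_bot_iff.1 ((Subgroup.commutator_mono inf_le_left le_rfl).trans (h2 i hi)))
        ((Subgroup.relIndex_le_of_le_right (res_le _) Subgroup.index_ne_zero_of_finite).trans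
          (h.idx i)) hy)) hx)
  have h4 := ncard_le_om (fun x => ((supp D K x).ncard, orderOf (x ^ M.factorial))) (E : Set G)
    fun a _ b _ hab => by
      obtain ⟨c, rfl⟩ := isConj_iff.1 hab
      refine Prod.ext (h.ncard_supp (conj_mem_cls D c a)).symm ?_
      show orderOf (a ^ _) = orderOf ((c * a * c⁻¹) ^ _)
      rw [conj_pow]
      exact (MulEquiv.orderOf_eq (MulAut.conj c) _).symm
  have h5 : I.ncard * ((fun g => orderOf (g ^ M.factorial)) '' (R : Set G)).ncard ≤
      om (E : Set G) := by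
    have h6 : (Set.Iio I.ncard).ncard = I.ncard := by simp
    rw [← h6, ← Set.ncard_prod]
    refine le_trans (Set.ncard_le_ncard ?_ ((Set.toFinite _).image _)) h4
    rintro ⟨w, _⟩ ⟨hw, g, hg, rfl⟩
    obtain ⟨J, hJ, e⟩ := Finset.exists_subset_card_eq (s := (Set.toFinite I).toFinset) (n := w)
      (by rw [← Set.ncard_eq_toFinset_card]; exact le_of_lt hw)
    obtain ⟨k, hk, hs⟩ := h.exists_supp hg J
    obtain ⟨x, hx, d, hd, rfl⟩ := exists_mul_of_mem_sup (jn_cover (fun i _ => h.res_cov i) hk)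
    have hx' : x ∈ jn (fun i => res (K i)) I :=
      jn_mono (fun i hi => (Set.toFinite I).mem_toFinset.1 (hJ hi)) (fun _ _ => le_rfl) hx
    refine ⟨g * x, E.mul_mem (hR hg) (jn_le (fun i _ => (res_le _).trans (hK i)) hx),
      Prod.ext ?_ ?_⟩
    · show (supp D K (g * x)).ncard = w
      rw [← h.ncard_supp (mul_mem_cls hd (g * x)), mul_assoc, hs, Set.ncard_coe_finset, e]
    · show orderOf ((g * x) ^ _) = orderOf (g ^ _)
      rw [(comm_eq_bot_iff.1 h1 g hg x hx').mul_pow, h3 x hx', mul_one]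
  calc I.ncard * nord (R : Set G)
      ≤ I.ncard * (M.factorial * ((fun g => orderOf (g ^ M.factorial)) '' (R : Set G)).ncard) :=
        Nat.mul_le_mul_left _ (ncard_pow_ord _ M.factorial_pos)
    _ ≤ M.factorial * om (E : Set G) := by
        rw [mul_left_comm]
        exact Nat.mul_le_mul_left _ h5

end Pool.Agent.Lib.MP_634dc6_al
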