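import Pool.Agent.Lib.MP_634dc6_al.Free
import Pool.Agent.Lib.MP_634dc6_al.Wz
import Pool.Agent.Lib.MP_634dc6_al.Chief
import Pool.Agent.Lib.MP_634dc6_al.NumG

/-!
Good layers and the local data at one prime.
-/

namespace Pool.Agent.Lib.MP_634dc6_al

variable {G : Type} [Group G] {ι : Type}

/-- Every layer with nontrivial action is good. -/
def Good (C : ℕ) (D R : Subgroup G) (K : ι → Subgroup G) : Prop :=
  ∀ r : ℕ, r.Prime → ∀ (A B : Subgroup G) [A.Normal], Lyr r D A B →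
    (∃ i, ¬ ⁅B, res (K i)⁆ ≤ A) →
      {i | ¬ ⁅B, res (K i)⁆ ≤ A}.ncard ≤ C * kap A B ^ C ∧
      (∃ e : ℕ, 0 < e ∧ (∀ g ∈ R, g ^ e ∈ cm B A) ∧ e.divisors.card ^ 8 ≤ C * kap A B) ∧
      r ≤ C * kap A B ^ C

/-- The indices that act nontrivially on `B / A`. -/
def act (K : ι → Subgroup G) (A B : Subgroup G) : Set ι := {i | ¬ ⁅B, res (K i)⁆ ≤ A}

/-- The indices for which a largest layer with nontrivial action belongs to the prime `r`. -/
def tp (r : ℕ) (D : Subgroup G) (K : ι → Subgroup G) : Set ι :=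
  {i | ∃ (A B : Subgroup G) (_ : A.Normal), Lyr r D A B ∧ i ∈ act K A B ∧
    ∀ q : ℕ, q.Prime → ∀ (A' B' : Subgroup G) [A'.Normal], Lyr q D A' B' → i ∈ act K A' B' →
      kap A' B' ≤ kap A B}

open Classical in
/-- The factors of the series on which some member of `I` acts nontrivially. -/
noncomputable def jj (K : ι → Subgroup G) (N : ℕ → Subgroup G) (l : ℕ) (I : Set ι) : Finset ℕ :=
  (Finset.range l).filter fun j => (act K (N j) (N (j + 1)) ∩ I).Nonempty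

/-- A chief series of `opr r D` with the data of its good factors. -/
structure Ser (C r : ℕ) (D R : Subgroup G) (K : ι → Subgroup G) (l : ℕ) (N : ℕ → Subgroup G)
    [∀ j, (N j).Normal] (e : ℕ → ℕ) : Prop where
  h0 : N 0 = ⊥
  hl : N l = opr r D
  hm : Monotone N
  hc : ∀ j < l, Cv (N j) (N (j + 1))
  he : ∀ j < l, (act K (N j) (N (j + 1))).Nonempty →
    (act K (N j) (N (j + 1))).ncard ≤ C * kap (N j) (N (j + 1)) ^ C ∧ 0 < e j ∧
      (∀ g ∈ R, g ^ e j ∈ cm (N (j + 1)) (N j)) ∧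
      (e j).divisors.card ^ 8 ≤ C * kap (N j) (N (j + 1)) ∧ r ≤ C * kap (N j) (N (j + 1)) ^ C

variable {C M r l : ℕ} {D R A B : Subgroup G} {K : ι → Subgroup G} {N : ℕ → Subgroup G}
  {e : ℕ → ℕ} {I : Set ι}

theorem mem_jj {j : ℕ} : j ∈ jj K N l I ↔ j < l ∧ (act K (N j) (N (j + 1)) ∩ I).Nonempty := by
  classical
  rw [jj, Finset.mem_filter, Finset.mem_range]

theorem jj_mono {I' : Set ι} (h : I ⊆ I') : jj K N l I ⊆ jj K N l I' := fun _ hj =>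
  mem_jj.2 ⟨(mem_jj.1 hj).1, (mem_jj.1 hj).2.mono (Set.inter_subset_inter_right _ h)⟩

theorem act_cj [A.Normal] [B.Normal] {g : G} {i j : ι} (h : cj g (res (K i)) = res (K j))
    (hi : i ∈ act K A B) : j ∈ act K A B := fun hj => hi (by
  have h1 := cj_mono g⁻¹ hj
  rwa [cj_commutator, ← h, ← cj_mul, inv_mul_cancel, cj_one, cj_normal, cj_normal] at h1)

theorem act_iff [A.Normal] {i : ι} : i ∈ act K A B ↔ ¬ res (K i) ≤ cm B A := by
  rw [le_cm, Subgroup.commutator_comm]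
  rfl

theorem act_jn [A.Normal] : ¬ ⁅B, jn (fun i => res (K i)) I⁆ ≤ A ↔ (act K A B ∩ I).Nonempty := by
  refine ⟨fun h => ?_, fun ⟨i, h1, h2⟩ h => h1 ((Subgroup.commutator_mono le_rfl
    (le_jn (Λ := fun i => res (K i)) h2)).trans h)⟩
  by_contra h1
  exact h (comm_jn_le fun i hi => not_not.1 fun h2 => h1 ⟨i, h2, hi⟩)

theorem tp_inv (h : GS M D R K) : InvS (fun i => res (K i)) (tp r D K) := by
  rintro g i ⟨A, B, hA, h1, h2, h3⟩
  obtain ⟨π, hπ⟩ := h.res_perm g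
  have := h1.1.2.1
  refine ⟨π i, ⟨A, B, hA, h1, act_cj (hπ i) h2, fun q hq A' B' _ h4 h5 => h3 q hq A' B' h4 ?_⟩,
    hπ i⟩
  have := h4.1.2.1
  refine act_cj (g := g⁻¹) ?_ h5
  rw [← hπ i, ← cj_mul, inv_mul_cancel, cj_one]

variable [Finite G]

theorem Good.mono (h : Good C D R K) {C' : ℕ} (hC : C ≤ C') : Good C' D R K := by
  intro r hr A B _ h1 h2
  obtain ⟨h3, ⟨e, h4, h5, h6⟩, h7⟩ := h r hr A B h1 h2
  have h8 : C * kap A B ^ C ≤ C' * kap A B ^ C' :=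
    Nat.mul_le_mul hC (Nat.pow_le_pow_right (om_pos ⟨1, Subgroup.one_mem _⟩) hC)
  exact ⟨h3.trans h8, ⟨e, h4, h5, h6.trans (Nat.mul_le_mul_right _ hC)⟩, h7.trans h8⟩

theorem exists_tp {i : ι} {q : ℕ} (hq : q.Prime) (h : ⁅opr q D, res (K i)⁆ ≠ ⊥) :
    ∃ r : ℕ, r.Prime ∧ i ∈ tp r D K := by
  classical
  obtain ⟨l, N, h0, hl, hN, hm, hc⟩ := exists_chief (opr q D)
  have hne : {p : Subgroup G × Subgroup G |
      ∃ r : ℕ, r.Prime ∧ Lyr r D p.1 p.2 ∧ i ∈ act K p.1 p.2}.Nonempty := by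
    by_contra h1
    have h2 := chain_comm (res_perf (K i)) N l fun j hj => not_not.1 fun h3 =>
      h1 ⟨(N j, N (j + 1)), q, hq, ⟨hc j hj, hl ▸ hm hj⟩, h3⟩
    rw [h0, hl] at h2
    exact h (le_bot_iff.1 h2)
  obtain ⟨p, ⟨r, hr, h1, h2⟩, h3⟩ := Set.exists_max_image _
    (fun p : Subgroup G × Subgroup G => if h : p.1.Normal then kap p.1 p.2 else 0)
    (Set.toFinite _) hne
  refine ⟨r, hr, p.1, p.2, h1.1.1, h1, h2, fun q' hq' A' B' hA' h4 h5 => ?_⟩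
  have h6 := h3 (A', B') ⟨q', hq', h4, h5⟩
  simpa only [dif_pos hA', dif_pos h1.1.1] using h6

theorem exists_ser (hG : Good C D R K) (hr : r.Prime) :
    ∃ (l : ℕ) (N : ℕ → Subgroup G) (_ : ∀ j, (N j).Normal) (e : ℕ → ℕ), Ser C r D R K l N e := by
  obtain ⟨l, N, h0, hl, hN, hm, hc⟩ := exists_chief (opr r D)
  have h1 := fun j (hj : j < l) (ha : (act K (N j) (N (j + 1))).Nonempty) =>
    hG r hr (N j) (N (j + 1)) ⟨hc j hj, hl ▸ hm hj⟩ ha
  choose! e he using fun j hj ha => (h1 j hj ha).2.1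
  exact ⟨l, N, hN, e, h0, hl, hm, hc, fun j hj ha => ⟨(h1 j hj ha).1, (he j hj ha).1,
    (he j hj ha).2.1, (he j hj ha).2.2, (h1 j hj ha).2.2⟩⟩

variable [hN : ∀ j, (N j).Normal]

theorem Ser.w (h : Ser C r D R K l N e) {j : ℕ} (hj : j ∈ jj K N l I) :
    0 ≤ ((kap (N j) (N (j + 1)) : ℝ) - 1) / (e j).divisors.card ∧
      (kap (N j) (N (j + 1)) : ℝ) ^ 7 ≤
        256 * C * (((kap (N j) (N (j + 1)) : ℝ) - 1) / (e j).divisors.card) ^ 8 := by
  obtain ⟨h1, h2⟩ := mem_jj.1 hj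
  obtain ⟨-, h3, -, h4, -⟩ := h.he j h1 (h2.mono Set.inter_subset_left)
  have h5 : 2 ≤ kap (N j) (N (j + 1)) := two_le_om (h.hc j h1).minNor.2.1
  refine ⟨div_nonneg (sub_nonneg.2 ?_) (Nat.cast_nonneg _),
    num_w h5 (Finset.card_pos.2 ⟨1, Nat.one_mem_divisors.2 h3.ne'⟩) h4⟩
  exact_mod_cast le_trans one_le_two h5

theorem Ser.top (h : Ser C r D R K l N e) {i : ι} (hi : i ∈ tp r D K) :
    ∃ j < l, i ∈ act K (N j) (N (j + 1)) ∧ ∀ q : ℕ, q.Prime → ∀ (A' B' : Subgroup G) [A'.Normal],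
      Lyr q D A' B' → i ∈ act K A' B' → kap A' B' ≤ kap (N j) (N (j + 1)) := by
  obtain ⟨A, B, hA, h1, h2, h3⟩ := hi
  obtain ⟨j, hj, h4, h5⟩ := jh h.h0 h.hl h.hc h1.1 h1.2
  refine ⟨j, hj, ?_, fun q hq A' B' _ h6 h7 => h4 ▸ h3 q hq A' B' h6 h7⟩
  rw [act_iff, ← h5]
  exact act_iff.1 h2

omit [Finite G] in
theorem lbc_le (X : Subgroup G) :
    lbc N l (jn (fun i => res (K i)) I) X ≤ (jj K N l I).card := by
  rw [← Set.ncard_coe_finset]
  exact Set.ncard_le_ncard (fun j hj => mem_jj.2 ⟨hj.1, act_jn.1 hj.2.1⟩)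

theorem Ser.expo (h : Ser C r D R K l N e) (hr : r.Prime) (hI : InvS (fun i => res (K i)) I)
    {m : ℕ} (hm : 2 * (jj K N l I).card ≤ m) {y : G}
    (hy : y ∈ ⁅opr r D, jn (fun i => res (K i)) I⁆) : y ^ r ^ m = 1 := by
  have := jn_normal hI
  have hL := jn_perf (fun i => res_perf (K i)) I
  have hX : ⁅opr r D, jn (fun i => res (K i)) I⁆ ≤ opr r D := Subgroup.commutator_le_left _ _
  have h1 := Pool.Agent.Lib.MP_634dc6_al.expo hr ((opr_pgroup r D).to_le hX) (comm_comm_eq hL)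
    (lb_lbc hL hX h.h0 h.hl h.hc) hy
  obtain ⟨c, hc⟩ := Nat.exists_eq_add_of_le ((Nat.mul_le_mul_left 2 (lbc_le _)).trans hm)
  rw [hc, pow_add, pow_mul, h1, one_pow]

theorem Ser.one (h : Ser C r D R K l N e) (hS : GS M D R K) (hr : r.Prime)
    (hI : InvS (fun i => res (K i)) I) (v : ℕ) :
    wgt N (jj K N l I) e * nord {g | g ∈ R ∧ vo r g ≤ v} ≤ (v + 1) * om (R : Set G) := by
  have := jn_normal hI
  exact lay1 hr (L := jn (fun i => res (K i)) I) (opr_pgroup r D) ((opr_le r D).trans hS.DR) h.hl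
    h.hm h.hc _ (fun j hj => ⟨(mem_jj.1 hj).1, act_jn.2 (mem_jj.1 hj).2⟩) e
    (fun j hj => (h.he j (mem_jj.1 hj).1 ((mem_jj.1 hj).2.mono Set.inter_subset_left)).2.1)
    (fun j hj => (h.he j (mem_jj.1 hj).1 ((mem_jj.1 hj).2.mono Set.inter_subset_left)).2.2.1) v

theorem Ser.two (h : Ser C r D R K l N e) (hS : GS M D R K) (hD : Group.IsSolvable D)
    (hG : Good C D R K) (hr : r.Prime) (hI : InvS (fun i => res (K i)) I) (hT : I ⊆ tp r D K)
    {m : ℕ} (hu : ∀ j ∈ jj K N l I, ∀ d : ℕ, d ^ 8 ≤ C * kap (N j) (N (j + 1)) → d ≤ m)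
    (ha : ⁅opr r D, jn (fun i => res (K i)) I⁆ ≤ sSup {W : Subgroup G | W.Normal ∧
      W ≤ ⁅opr r D, jn (fun i => res (K i)) I⁆ ∧ ∀ w ∈ W, w ^ r ^ m = 1})
    (ht : (2 * (jj K N l I).card + 1) ^ 2 * (jj K N l I).card + 1 ≤ 2 ^ m) :
    wgt N (jj K N l I) e * nord {g | g ∈ R ∧ 12 * m < vo r g} ≤ 2 * om (R : Set G) := by
  have := jn_normal hI
  have := hS.nR
  have hL := jn_perf (fun i => res_perf (K i)) I
  have hX : ⁅opr r D, jn (fun i => res (K i)) I⁆ ≤ opr r D := Subgroup.commutator_le_left _ _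
  have h1 := lbc_le (N := N) (l := l) (K := K) (I := I) ⁅opr r D, jn (fun i => res (K i)) I⁆
  obtain ⟨h2, h3⟩ := free (u := m) (t := m) hr hD hL (hS.cen_jn I) (lb_lbc hL hX h.h0 h.hl h.hc)
    (fun g hg hp q hq A B h4 h5 => by
      have := h4.1.1
      obtain ⟨i, h6, h7⟩ := act_jn.1 h5
      obtain ⟨-, ⟨f, h8, h9, h10⟩, -⟩ := hG q hq A B h4 ⟨i, h6⟩
      obtain ⟨j, hj, h11, h12⟩ := h.top (hT h7)
      have h13 := (fact_le_divisors hr h8).trans (hu j (mem_jj.2 ⟨hj, i, h11, h7⟩) _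
        (h10.trans (Nat.mul_le_mul_left _ (h12 q hq A B h4 h6))))
      obtain ⟨c, hc⟩ := Nat.exists_eq_add_of_le h13
      rw [hc, pow_add, pow_mul]
      refine Subgroup.pow_mem _ ((hp.pow _).mem_of_pow (Nat.coprime_ordCompl hr h8.ne').symm ?_) _
      rw [← pow_mul, Nat.ordProj_mul_ordCompl_eq_self]
      exact h9 g hg) ha
    (le_trans (Nat.add_le_add_right (Nat.mul_le_mul (Nat.pow_le_pow_left (by omega) 2) h1) 1)
      (ht.trans (Nat.pow_le_pow_left hr.two_le m)))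
  exact lay2 hr (L := jn (fun i => res (K i)) I) (opr_pgroup r D) ((opr_le r D).trans hS.DR) h.hl
    h.hm h.hc _ (fun j hj => ⟨(mem_jj.1 hj).1, act_jn.2 (mem_jj.1 hj).2⟩) e
    (fun j hj => (h.he j (mem_jj.1 hj).1 ((mem_jj.1 hj).2.mono Set.inter_subset_left)).2.1)
    (fun j hj => (h.he j (mem_jj.1 hj).1 ((mem_jj.1 hj).2.mono Set.inter_subset_left)).2.2.1)
    h3 h2 (by omega)

end Pool.Agent.Lib.MP_634dc6_al
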