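import Pool.Agent.Lib.MP_634dc6_al.MainG

/-!
Passage to the holomorph: automorphism orbits are conjugacy classes.
-/

namespace Pool.Agent.Lib.MP_634dc6_al

variable {G : Type} [Group G]

/-- The holomorph. -/
abbrev Hol (G : Type) [Group G] : Type := G ⋊[MonoidHom.id (MulAut G)] MulAut G

instance hol_finite [Finite G] : Finite (Hol G) := by
  have : Finite (MulAut G) := Finite.of_injective _ (DFunLike.coe_injective (F := MulAut G))
  exact Finite.of_equiv _ SemidirectProduct.equivProd.symm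

/-- `SemidirectProduct.inl_aut`: conjugation by `⟨a, φ⟩` induces `MulAut.conj a * φ` on `G`. -/
theorem hol_conj (h : Hol G) : ∃ φ : MulAut G, ∀ g : G,
    h * SemidirectProduct.inl g * h⁻¹ = SemidirectProduct.inl (φ g) := by
  refine ⟨MulAut.conj h.left * h.right, fun g => ?_⟩
  ext
  · simp
  · simp

theorem hol_cj (h : Hol G) : ∃ φ : MulAut G, ∀ H : Subgroup G,
    cj h (H.map (SemidirectProduct.inl : G →* Hol G)) =
      (H.map φ.toMonoidHom).map (SemidirectProduct.inl : G →* Hol G) := by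
  obtain ⟨φ, hφ⟩ := hol_conj h
  refine ⟨φ, fun H => ?_⟩
  rw [cj, Subgroup.map_map, Subgroup.map_map]
  congr 1
  exact MonoidHom.ext fun g => hφ g

theorem hol_isConj (a b : G) :
    IsConj (SemidirectProduct.inl a : Hol G) (SemidirectProduct.inl b) ↔
      MulAction.orbitRel (MulAut G) G a b := by
  rw [MulAction.orbitRel_apply, isConj_comm, isConj_iff]
  constructor
  · rintro ⟨h, e⟩
    obtain ⟨φ, hφ⟩ := hol_conj h
    rw [hφ] at e
    exact ⟨φ, SemidirectProduct.inl_injective e⟩
  · rintro ⟨φ, rfl⟩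
    exact ⟨SemidirectProduct.inr φ, by
      rw [← map_inv]
      exact (SemidirectProduct.inl_aut (φ := MonoidHom.id (MulAut G)) φ b).symm⟩

theorem om_hol : om ((⊤ : Subgroup G).map (SemidirectProduct.inl : G →* Hol G) : Set (Hol G)) =
    Nat.card (MulAction.orbitRel.Quotient (MulAut G) G) := by
  let F : MulAction.orbitRel.Quotient (MulAut G) G → ConjClasses (Hol G) :=
    Quotient.lift (fun g => ConjClasses.mk (SemidirectProduct.inl g))
      fun a b h => ConjClasses.mk_eq_mk_iff_isConj.2 ((hol_isConj a b).2 h)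
  have hF : Function.Injective F := fun a b => Quotient.inductionOn₂ a b fun a b h =>
    Quotient.sound ((hol_isConj a b).1 (ConjClasses.mk_eq_mk_iff_isConj.1 h))
  rw [om, ← Set.ncard_univ, ← Set.ncard_image_of_injective _ hF]
  congr 1
  ext c
  constructor
  · rintro ⟨_, ⟨g, -, rfl⟩, rfl⟩
    exact ⟨Quotient.mk _ g, trivial, rfl⟩
  · rintro ⟨q, -, rfl⟩
    exact Quotient.inductionOn q fun g => ⟨_, ⟨g, trivial, rfl⟩, rfl⟩

theorem nord_map {G' : Type} [Group G'] (f : G →* G') (hf : Function.Injective f)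
    (H : Subgroup G) : nord (H.map f : Set G') = nord (H : Set G) := by
  rw [nord, nord, Subgroup.coe_map, Set.image_image]
  congr 2
  exact funext fun g => orderOf_injective f hf g

theorem hol_normal {H : Subgroup G} (hH : ∀ φ : MulAut G, H.map φ.toMonoidHom = H) :
    (H.map (SemidirectProduct.inl : G →* Hol G)).Normal := by
  refine ⟨fun n hn g => ?_⟩
  obtain ⟨a, ha, rfl⟩ := hn
  obtain ⟨φ, hφ⟩ := hol_conj g
  rw [hφ]
  exact ⟨φ a, hH φ ▸ ⟨a, ha, rfl⟩, rfl⟩

theorem GS.hol {ι : Type} {M : ℕ} {D R : Subgroup G} {K : ι → Subgroup G} (h : GS M D R K)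
    (hD : ∀ φ : MulAut G, D.map φ.toMonoidHom = D) (hR : ∀ φ : MulAut G, R.map φ.toMonoidHom = R)
    (hK : ∀ φ : MulAut G, ∃ π : Equiv.Perm ι, ∀ i, (K i).map φ.toMonoidHom = K (π i)) :
    GS M (D.map (SemidirectProduct.inl : G →* Hol G)) (R.map SemidirectProduct.inl)
      fun i => (K i).map SemidirectProduct.inl := by
  have inj : Function.Injective (SemidirectProduct.inl : G →* Hol G) :=
    SemidirectProduct.inl_injective
  refine ⟨hol_normal hD, hol_normal hR, Subgroup.map_mono h.DR, fun i => Subgroup.map_mono (h.DK i),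
    fun i => ?_, fun i hi => h.ne i ((Subgroup.map_le_map_iff_of_injective inj).1 hi), fun i => ?_,
    fun i j hij => ?_, fun i => ?_, fun g => ?_⟩
  · rw [← Subgroup.map_commutator, ← Subgroup.map_sup]
    exact Subgroup.map_mono (h.perf i)
  · rw [Subgroup.relIndex_map_map_of_injective _ _ inj]
    exact h.idx i
  · rw [← Subgroup.map_commutator]
    exact Subgroup.map_mono (h.comm i j hij)
  · rw [← Subgroup.map_commutator]
    exact Subgroup.map_mono (h.cen i)
  · obtain ⟨φ, hφ⟩ := hol_cj g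
    obtain ⟨π, hπ⟩ := hK φ
    exact ⟨π, fun i => by rw [hφ, hπ]⟩

/-- `main_good` in the holomorph. -/
theorem main_aut (M c : ℕ) : ∃ C : ℕ, ∀ (G : Type) [Group G] [Finite G] (ι : Type) [Finite ι]
    (D R : Subgroup G) (K : ι → Subgroup G) (k : ℕ), GS M D R K → Group.IsSolvable D →
    Good c (D.map (SemidirectProduct.inl : G →* Hol G)) (R.map SemidirectProduct.inl)
      (fun i => (K i).map SemidirectProduct.inl) →
    (∀ φ : MulAut G, D.map φ.toMonoidHom = D) → (∀ φ : MulAut G, R.map φ.toMonoidHom = R) →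
    (∀ φ : MulAut G, ∃ π : Equiv.Perm ι, ∀ i, (K i).map φ.toMonoidHom = K (π i)) →
    C * k ^ C ≤ Nat.card ι →
    k * nord (R : Set G) ≤ Nat.card (MulAction.orbitRel.Quotient (MulAut G) G) := by
  obtain ⟨C, hC⟩ := main_good M c
  refine ⟨C, fun G _ _ ι _ D R K k h hn hG hD hR hK hk => ?_⟩
  have inj : Function.Injective (SemidirectProduct.inl : G →* Hol G) :=
    SemidirectProduct.inl_injective
  rw [← om_hol, ← nord_map _ inj R]
  exact hC (Hol G) ι _ _ _ _ k (h.hol hD hR hK)
    (Group.isSolvable_of_surjective (MonoidHom.subgroupMap_surjective _ D)) hG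
    (Subgroup.map_mono le_top) (fun i => Subgroup.map_mono le_top) hk

end Pool.Agent.Lib.MP_634dc6_al
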