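import Pool.Agent.Lib.MP_634dc6_al.Opr
import Pool.Agent.Lib.MP_634dc6_al.Coset

/-!
Comparison of chief factors, and counting classes over the factors of a chief series.
-/

namespace Pool.Agent.Lib.MP_634dc6_al

variable {G : Type} [Group G] [Finite G] {r : ℕ} {A B T P R L : Subgroup G}

theorem kap_sup (T A : Subgroup G) [T.Normal] [A.Normal] : kap A (T ⊔ A) = kap (T ⊓ A) T := by
  let f : G ⧸ (T ⊓ A) →* G ⧸ A := QuotientGroup.map _ _ (MonoidHom.id G) inf_le_right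
  have hf : ∀ g : G, f (QuotientGroup.mk' _ g) = QuotientGroup.mk' A g := fun g => rfl
  refine le_antisymm (le_trans (om_mono ?_) (om_map_le f _)) (om_le_om f _ _ ?_ ?_)
  · rintro _ ⟨x, hx, rfl⟩
    obtain ⟨t, ht, a, ha, rfl⟩ := exists_mul_of_mem_sup hx
    refine ⟨_, ⟨t, ht, rfl⟩, ?_⟩
    rw [hf, map_mul, show QuotientGroup.mk' A a = 1 from (QuotientGroup.eq_one_iff a).2 ha, mul_one]
  · rintro _ ⟨t, ht, rfl⟩
    exact ⟨t, Subgroup.mem_sup_left ht, rfl⟩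
  · rintro _ ⟨t, ht, rfl⟩ _ ⟨t', ht', rfl⟩ h
    obtain ⟨c, hc⟩ := isConj_iff.1 h
    obtain ⟨g, rfl⟩ := QuotientGroup.mk'_surjective A c
    rw [hf, hf, ← map_inv, ← map_mul, ← map_mul] at hc
    refine isConj_iff.2 ⟨QuotientGroup.mk' _ g, ?_⟩
    rw [← map_inv, ← map_mul, ← map_mul]
    exact QuotientGroup.eq.2 ⟨T.mul_mem (T.inv_mem (Subgroup.Normal.conj_mem inferInstance t ht g))
      ht', QuotientGroup.eq.1 hc⟩

omit [Finite G] in
theorem cm_sup (T A : Subgroup G) [T.Normal] [A.Normal] : cm (T ⊔ A) A = cm T (T ⊓ A) := by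
  refine le_antisymm (le_cm.2 (le_inf (Subgroup.commutator_le_right _ _) ?_)) (le_cm.2 ?_)
  · exact (Subgroup.commutator_mono le_rfl le_sup_left).trans (le_cm.1 le_rfl)
  · rw [Subgroup.commutator_comm]
    refine comm_sup_le ?_ (Subgroup.commutator_le_left _ _)
    rw [Subgroup.commutator_comm]
    exact (le_cm.1 le_rfl).trans inf_le_right

omit [Finite G] in
theorem kap_congr {A' B' : Subgroup G} [A.Normal] [A'.Normal] (h : A = A') (h' : B = B') :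
    kap A B = kap A' B' := by
  subst h h'
  rfl

/-- Every chief factor inside `P` is equivalent to a factor of a given chief series of `P`. -/
theorem jh {l : ℕ} {N : ℕ → Subgroup G} [hN : ∀ j, (N j).Normal] (h0 : N 0 = ⊥) (hl : N l = P)
    (hc : ∀ j < l, Cv (N j) (N (j + 1))) [A.Normal] (h : Cv A B) (hB : B ≤ P) :
    ∃ j < l, kap A B = kap (N j) (N (j + 1)) ∧ cm B A = cm (N (j + 1)) (N j) := by
  classical
  have := h.2.1
  have hex : ∃ j, j ≤ l ∧ ¬ B ⊓ N j ≤ A :=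
    ⟨l, le_rfl, by rw [hl, inf_eq_left.2 hB]; exact h.2.2.1.not_ge⟩
  obtain ⟨j, hj⟩ : ∃ j, Nat.find hex = j + 1 := by
    refine Nat.exists_eq_add_one_of_ne_zero fun e => ?_
    have h1 := (Nat.find_spec hex).2
    rw [e, h0, inf_bot_eq] at h1
    exact h1 bot_le
  have h1 := Nat.find_spec hex
  rw [hj] at h1
  have h2 : B ⊓ N j ≤ A := not_not.1 fun h3 =>
    Nat.find_min hex (show j < Nat.find hex by omega) ⟨by omega, h3⟩
  have c := hc j h1.1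
  have h3 : ¬ B ⊓ N (j + 1) ≤ N j := fun h4 => h1.2 ((le_inf inf_le_left h4).trans h2)
  have h4 : B ⊓ N (j + 1) ⊓ A = B ⊓ N (j + 1) ⊓ N j :=
    ((c.inf inf_le_right h3).2.2.2 _ inferInstance
      (le_inf inf_le_left ((inf_le_inf_right _ inf_le_left).trans h2)) inf_le_left).resolve_right
      fun e => h1.2 (inf_eq_left.1 e)
  have e1 := h.sup_eq inf_le_left h1.2
  have e2 := c.sup_eq inf_le_right h3
  refine ⟨j, h1.1, ?_, ?_⟩
  · exact ((kap_congr rfl e1.symm).trans (kap_sup _ _)).trans ((kap_congr h4 rfl).trans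
      ((kap_sup _ _).symm.trans (kap_congr rfl e2)))
  · calc cm B A = cm (B ⊓ N (j + 1) ⊔ A) A := by rw [e1]
      _ = cm (B ⊓ N (j + 1) ⊔ N j) (N j) := by rw [cm_sup, cm_sup, h4]
      _ = cm (N (j + 1)) (N j) := by rw [e2]

omit [Finite G] in
theorem Cv.avoid (h : Cv A B) (ha : ¬ ⁅B, L⁆ ≤ A) [L.Normal] {z : G} (hz : z ∈ B)
    (hc : z ∈ Subgroup.centralizer (L : Set G)) : z ∈ A := by
  have := h.1
  have := h.2.1
  by_contra h1
  have h2 := h.sup_eq (T := B ⊓ Subgroup.centralizer (L : Set G)) inf_le_left fun h3 => h1 (h3 ⟨hz, hc⟩)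
  refine ha ((Subgroup.commutator_mono h2.ge le_rfl).trans
    (comm_sup_le (le_trans (le_of_eq ?_) bot_le) (Subgroup.commutator_le_left _ _)))
  exact Subgroup.commutator_eq_bot_iff_le_centralizer.2 inf_le_right

/-- Every coset of an active factor has a representative in `⁅P, L⁆` that commutes with `u`. -/
theorem lay_rep [P.Normal] [L.Normal] (hP : IsPGroup r P) (h : Cv A B) (hB : B ≤ P)
    (ha : ¬ ⁅B, L⁆ ≤ A) {u : G} (hu : QE r u) (hc : u ∈ cm B A) {b : G} (hb : b ∈ B) :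
    ∃ y ∈ B, y ∈ ⁅P, L⁆ ∧ Commute y u ∧ b⁻¹ * y ∈ A := by
  have hA := h.1
  have := h.2.1
  have h1 := h.sup_eq (T := B ⊓ ⁅P, L⁆) inf_le_left fun h2 =>
    ha ((le_inf (Subgroup.commutator_le_left _ _) (Subgroup.commutator_mono hB le_rfl)).trans h2)
  obtain ⟨y, hy, a, ha', rfl⟩ := exists_mul_of_mem_sup (h1.ge hb)
  have hY : (⁅P, L⁆ : Subgroup G).Normal := inferInstance
  have h2 : u⁻¹ * (y⁻¹ * u * y⁻¹⁻¹) ∈ A ⊓ ⁅P, L⁆ := by
    have e : u⁻¹ * (y⁻¹ * u * y⁻¹⁻¹) = u⁻¹ * y⁻¹ * u⁻¹⁻¹ * y⁻¹⁻¹ := by group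
    rw [e]
    exact ⟨mem_cm.1 ((cm B A).inv_mem hc) _ (B.inv_mem hy.1),
      Subgroup.mul_mem _ (hY.conj_mem _ (Subgroup.inv_mem _ hy.2) _)
        (Subgroup.inv_mem _ (Subgroup.inv_mem _ hy.2))⟩
  obtain ⟨e, he, h3⟩ := conj_of_QE
    (hP.to_le (inf_le_right.trans (Subgroup.commutator_le_left P L))) hu (hu.conj y⁻¹)
    (fun d hd => Subgroup.Normal.conj_mem inferInstance d hd u) h2
  refine ⟨y * e, B.mul_mem hy.1 (h.2.2.1.le he.1), Subgroup.mul_mem _ hy.2 he.2, ?_, ?_⟩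
  · show y * e * u = u * (y * e)
    calc y * e * u = y * (e * u * e⁻¹) * e := by group
      _ = u * (y * e) := by rw [← h3]; group
  · have e' : (y * a)⁻¹ * (y * e) = a⁻¹ * e := by group
    rw [e']
    exact A.mul_mem (A.inv_mem ha') he.1

/-- Conjugate products have conjugate parts. -/
theorem lay_conj [P.Normal] [L.Normal] (hP : IsPGroup r P) {z y u z' y' u' : G}
    (hz : z ∈ Subgroup.centralizer (L : Set G)) (hz' : z' ∈ Subgroup.centralizer (L : Set G))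
    (hy : y ∈ ⁅P, L⁆) (hy' : y' ∈ ⁅P, L⁆) (pz : PE r z) (pz' : PE r z') (qu : QE r u)
    (qu' : QE r u') (c1 : Commute z u) (c1' : Commute z' u') (c2 : Commute y u)
    (c2' : Commute y' u') (h : IsConj (z * y * u) (z' * y' * u')) :
    ∃ g : G, u' = g * u * g⁻¹ ∧
      (g * z * g⁻¹)⁻¹ * z' ∈ Subgroup.centralizer (L : Set G) ⊓ ⁅P, L⁆ ∧
      g * y * g⁻¹ = (g * z * g⁻¹)⁻¹ * z' * y' := by
  have hd : ∀ {z y u : G}, y ∈ ⁅P, L⁆ → PE r z → QE r u → Commute z u → Commute y u →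
      Dec r (z * y * u) u (z * y) := fun hy pz qu c1 c2 =>
    ⟨(c1.mul_left c2).eq, (c1.mul_left c2).symm, qu,
      pz.mul_mem hP (Subgroup.commutator_le_left P L hy)⟩
  obtain ⟨g, hg⟩ := isConj_iff.1 h
  have h1 := (hd hy pz qu c1 c2).conj g
  rw [hg] at h1
  obtain ⟨h2, h3⟩ := h1.unique (hd hy' pz' qu' c1' c2')
  have h4 : g * y * g⁻¹ = (g * z * g⁻¹)⁻¹ * z' * y' := by
    rw [mul_assoc _ z', ← h3]
    group
  refine ⟨g, h2.symm, ⟨Subgroup.mul_mem _ (Subgroup.inv_mem _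
    (Subgroup.Normal.conj_mem inferInstance z hz g)) hz', ?_⟩, h4⟩
  have e : (g * z * g⁻¹)⁻¹ * z' = g * y * g⁻¹ * y'⁻¹ := by rw [h4, mul_inv_cancel_right]
  rw [e]
  exact Subgroup.mul_mem _ (Subgroup.Normal.conj_mem inferInstance y hy g) (Subgroup.inv_mem _ hy')

theorem ncard_le_mul_image {α β : Type} {S : Set α} (hS : S.Finite) (f : α → β) (d : ℕ)
    (h : ∀ b, {a | a ∈ S ∧ f a = b}.ncard ≤ d) : S.ncard ≤ d * (f '' S).ncard := by
  classical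
  have h1 := Finset.card_le_mul_card_image (f := f) hS.toFinset d fun b _ => by
    refine le_trans (le_of_eq ?_) (h b)
    rw [← Set.ncard_coe_finset]
    congr 1
    ext a
    simp
  have h2 : (f '' S).ncard = (hS.toFinset.image f).card := by
    rw [← Set.ncard_coe_finset, Finset.coe_image, hS.coe_toFinset]
  rw [Set.ncard_eq_toFinset_card S hS, h2]
  exact h1

/-- The code of a pair. -/
noncomputable def code (P L : Subgroup G) [P.Normal] [L.Normal] (e : ℕ) (q : G × G) : ℕ × ℕ :=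
  (orderOf (QuotientGroup.mk' (Subgroup.centralizer (L : Set G) ⊓ ⁅P, L⁆) q.1), orderOf (q.2 ^ e))

theorem ncard_code [P.Normal] [L.Normal] (S : Set (G × G)) {e : ℕ} (he : 0 < e) :
    (code P L 1 '' S).ncard ≤ e.divisors.card * (code P L e '' S).ncard := by
  have h1 : code P L e '' S = (fun c : ℕ × ℕ => (c.1, c.2 / c.2.gcd e)) '' (code P L 1 '' S) := by
    rw [Set.image_image]
    refine Set.image_congr fun q _ => ?_
    simp only [code, pow_one, orderOf_pow' _ he.ne']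
  rw [h1]
  refine ncard_le_mul_image ((Set.toFinite S).image _) _ _ fun b => ?_
  rw [← Set.ncard_coe_finset]
  refine Set.ncard_le_ncard_of_injOn (fun c => c.2.gcd e)
    (fun c _ => Finset.mem_coe.2 (Nat.mem_divisors.2 ⟨Nat.gcd_dvd_right _ _, he.ne'⟩)) ?_
  rintro c ⟨-, hc⟩ c' ⟨-, hc'⟩ h
  have h2 := hc.trans hc'.symm
  simp only [Prod.mk.injEq] at h2 h
  refine Prod.ext h2.1 ?_
  rw [← Nat.div_mul_cancel (Nat.gcd_dvd_left c.2 e), h2.2, h,
    Nat.div_mul_cancel (Nat.gcd_dvd_left c'.2 e)]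

/-- The layer count. -/
theorem lay [P.Normal] [L.Normal] (hP : IsPGroup r P) (hPR : P ≤ R) {l : ℕ} {N : ℕ → Subgroup G}
    [hN : ∀ j, (N j).Normal] (hl : N l = P) (hm : Monotone N)
    (hc : ∀ j < l, Cv (N j) (N (j + 1))) (J : Finset ℕ)
    (hJ : ∀ j ∈ J, j < l ∧ ¬ ⁅N (j + 1), L⁆ ≤ N j) (e : ℕ → ℕ) (he : ∀ j ∈ J, 0 < e j)
    (hcm : ∀ j ∈ J, ∀ g ∈ R, g ^ e j ∈ cm (N (j + 1)) (N j)) (S : Set (G × G))
    (hS : ∀ q ∈ S, q.1 ∈ R ∧ q.2 ∈ R ∧ q.1 ∈ Subgroup.centralizer (L : Set G) ∧ PE r q.1 ∧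
      QE r q.2 ∧ Commute q.1 q.2) :
    (∑ j ∈ J, ((kap (N j) (N (j + 1)) : ℝ) - 1) / (e j).divisors.card) *
      (code P L 1 '' S).ncard ≤ om (R : Set G) := by
  let D : ℕ → Set ((G × G) × G) := fun j =>
    {w | w.1 ∈ S ∧ w.2 ∈ N (j + 1) ∧ w.2 ∉ N j ∧ w.2 ∈ ⁅P, L⁆ ∧ Commute w.2 (w.1.2 ^ e j)}
  let x : ℕ → (G × G) × G → G := fun j w => w.1.1 * w.2 * w.1.2 ^ e j
  have hle : ∀ j ∈ J, N (j + 1) ≤ P := fun j hj => hl ▸ hm (hJ j hj).1
  have key : ∀ i, ∀ j, ∀ w ∈ D i, ∀ w' ∈ D j, IsConj (x i w) (x j w') → _ :=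
    fun i j w hw w' hw' h =>
      lay_conj hP (hS _ hw.1).2.2.1 (hS _ hw'.1).2.2.1 hw.2.2.2.1 hw'.2.2.2.1
        (hS _ hw.1).2.2.2.1 (hS _ hw'.1).2.2.2.1 ((hS _ hw.1).2.2.2.2.1.pow (e i))
        ((hS _ hw'.1).2.2.2.2.1.pow (e j)) ((hS _ hw.1).2.2.2.2.2.pow_right (e i))
        ((hS _ hw'.1).2.2.2.2.2.pow_right (e j)) hw.2.2.2.2 hw'.2.2.2.2 h
  have key2 : ∀ i, ∀ j ∈ J, i ≤ j → ∀ w ∈ D i, ∀ w' ∈ D j, ∀ g c : G,
      c ∈ Subgroup.centralizer (L : Set G) → g * w.2 * g⁻¹ = c * w'.2 → c ∈ N j := by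
    intro i j hj hij w hw w' hw' g c h1 h2
    refine (hc j (hJ j hj).1).avoid (hJ j hj).2 ?_ h1
    rw [← mul_inv_eq_iff_eq_mul] at h2
    rw [← h2]
    exact Subgroup.mul_mem _ ((hN _).conj_mem _ (hm (Nat.succ_le_succ hij) hw.2.1) g)
      (Subgroup.inv_mem _ hw'.2.1)
  have key3 : ∀ i, ∀ j ∈ J, ∀ w ∈ D i, ∀ w' ∈ D j, IsConj (x i w) (x j w') → ¬ i < j := by
    intro i j hj w hw w' hw' h hij
    obtain ⟨g, -, h1, h2⟩ := key i j w hw w' hw' h
    have h3 := key2 i j hj hij.le w hw w' hw' g _ h1.1 h2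
    refine hw'.2.2.1 ((Subgroup.mul_mem_cancel_left _ h3).1 ?_)
    rw [← h2]
    exact (hN _).conj_mem _ (hm hij hw.2.1) g
  have h1 : ∑ j ∈ J, om (x j '' D j) ≤ om (R : Set G) := by
    refine sum_om_le J _ _ (fun j hj => ?_) fun i hi j hj => ?_
    · rintro _ ⟨w, hw, rfl⟩
      exact R.mul_mem (R.mul_mem (hS _ hw.1).1 (hPR (hle j hj hw.2.1)))
        (R.pow_mem (hS _ hw.1).2.1 _)
    · rintro _ ⟨w, hw, rfl⟩ _ ⟨w', hw', rfl⟩ h
      exact le_antisymm (not_lt.1 (key3 j i hi w' hw' w hw h.symm))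
        (not_lt.1 (key3 i j hj w hw w' hw' h))
  have h2 : ∀ j ∈ J, (code P L (e j) '' S).ncard * (kap (N j) (N (j + 1)) - 1) ≤
      om (x j '' D j) := by
    intro j hj
    have h3 := om_diff_one (S := ((N (j + 1)).map (QuotientGroup.mk' (N j)) : Set (G ⧸ N j)))
      (Subgroup.one_mem _)
    have h4 := om_aux (D j)
      (fun w => (code P L (e j) w.1, ConjClasses.mk (QuotientGroup.mk' (N j) w.2)))
      (fun w => ConjClasses.mk (x j w)) fun w hw w' hw' h => by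
        obtain ⟨g, h5, h6, h7⟩ := key j j w hw w' hw' (ConjClasses.mk_eq_mk_iff_isConj.1 h)
        have h8 := key2 j j hj le_rfl w hw w' hw' g _ h6.1 h7
        refine Prod.ext (Prod.ext ?_ ?_) (ConjClasses.mk_eq_mk_iff_isConj.2
          (isConj_iff.2 ⟨QuotientGroup.mk' _ g, ?_⟩))
        · show orderOf (QuotientGroup.mk' _ w.1.1) = orderOf (QuotientGroup.mk' _ w'.1.1)
          rw [← show QuotientGroup.mk' _ (g * w.1.1 * g⁻¹) = QuotientGroup.mk' _ w'.1.1 from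
            QuotientGroup.eq.2 h6, map_mul, map_mul, map_inv]
          exact (MulEquiv.orderOf_eq (MulAut.conj (QuotientGroup.mk'
            (Subgroup.centralizer (L : Set G) ⊓ ⁅P, L⁆) g)) _).symm
        · show orderOf (w.1.2 ^ e j) = orderOf (w'.1.2 ^ e j)
          rw [h5]
          exact (MulEquiv.orderOf_eq (MulAut.conj g) _).symm
        · show _ * QuotientGroup.mk' _ w.2 * _ = QuotientGroup.mk' _ w'.2
          rw [← map_inv, ← map_mul, ← map_mul, h7, map_mul,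
            show QuotientGroup.mk' (N j) _ = 1 from (QuotientGroup.eq_one_iff _).2 h8, one_mul]
    unfold kap
    rw [← h3, Nat.add_sub_cancel, om, om, Set.image_image, ← Set.ncard_prod]
    refine le_trans (Set.ncard_le_ncard ?_ ((Set.toFinite _).image _)) h4
    rintro ⟨_, _⟩ ⟨⟨q, hq, rfl⟩, _, ⟨⟨b, hb, rfl⟩, hb1⟩, rfl⟩
    obtain ⟨y, h5, h6, h7, h8⟩ := lay_rep hP (hc j (hJ j hj).1) (hle j hj) (hJ j hj).2
      ((hS q hq).2.2.2.2.1.pow (e j)) (hcm j hj _ (hS q hq).2.1) hb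
    have h9 : QuotientGroup.mk' (N j) b = QuotientGroup.mk' (N j) y := QuotientGroup.eq.2 h8
    refine ⟨(q, y), ⟨hq, h5, fun h10 => hb1 ?_, h6, h7⟩, ?_⟩
    · exact h9.trans ((QuotientGroup.eq_one_iff y).2 h10)
    · simp only [h9]
  rw [Finset.sum_mul]
  refine le_trans (Finset.sum_le_sum (g := fun j => (om (x j '' D j) : ℝ)) fun j hj => ?_)
    (by exact_mod_cast h1)
  have h3 : 1 ≤ kap (N j) (N (j + 1)) := om_pos ⟨1, Subgroup.one_mem _⟩
  have h4 : (0 : ℝ) < (e j).divisors.card := by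
    exact_mod_cast Finset.card_pos.2 ⟨1, Nat.one_mem_divisors.2 (he j hj).ne'⟩
  have h5 := (Nat.mul_le_mul_right (kap (N j) (N (j + 1)) - 1)
    (ncard_code (P := P) (L := L) S (he j hj))).trans
    ((mul_assoc _ _ _).le.trans (Nat.mul_le_mul_left _ (h2 j hj)))
  rw [div_mul_eq_mul_div, div_le_iff₀ h4, mul_comm, mul_comm (_ : ℝ) ((e j).divisors.card : ℝ),
    ← Nat.cast_one (R := ℝ), ← Nat.cast_sub h3]
  exact_mod_cast h5

theorem dec_order (hr : r.Prime) {g y x : G} (h : Dec r g y x) :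
    orderOf g = orderOf y * r ^ vo r g := by
  rw [← h.orderOf_eq hr]
  refine h.1 ▸ h.2.1.orderOf_mul_eq_mul_orderOf_of_coprime ?_
  rw [h.orderOf_eq hr]
  exact Nat.Coprime.pow_right _ h.2.2.1

/-- The weight of a set of factors. -/
noncomputable def wgt (N : ℕ → Subgroup G) [∀ j, (N j).Normal] (J : Finset ℕ) (e : ℕ → ℕ) : ℝ :=
  ∑ j ∈ J, ((kap (N j) (N (j + 1)) : ℝ) - 1) / (e j).divisors.card

theorem wgt_nonneg (N : ℕ → Subgroup G) [∀ j, (N j).Normal] (J : Finset ℕ) (e : ℕ → ℕ) :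
    0 ≤ wgt N J e := by
  refine Finset.sum_nonneg fun j _ => div_nonneg (sub_nonneg.2 ?_) (Nat.cast_nonneg _)
  exact_mod_cast (om_pos ⟨1, Subgroup.one_mem _⟩ : 1 ≤ kap (N j) (N (j + 1)))

/-- Orders with a small `r`-part. -/
theorem lay1 (hr : r.Prime) [P.Normal] [L.Normal] (hP : IsPGroup r P) (hPR : P ≤ R) {l : ℕ}
    {N : ℕ → Subgroup G} [hN : ∀ j, (N j).Normal] (hl : N l = P) (hm : Monotone N)
    (hc : ∀ j < l, Cv (N j) (N (j + 1))) (J : Finset ℕ)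
    (hJ : ∀ j ∈ J, j < l ∧ ¬ ⁅N (j + 1), L⁆ ≤ N j) (e : ℕ → ℕ) (he : ∀ j ∈ J, 0 < e j)
    (hcm : ∀ j ∈ J, ∀ g ∈ R, g ^ e j ∈ cm (N (j + 1)) (N j)) (v : ℕ) :
    wgt N J e * nord {g | g ∈ R ∧ vo r g ≤ v} ≤ (v + 1) * om (R : Set G) := by
  let S : Set (G × G) := {q | q.1 = 1 ∧ q.2 ∈ R ∧ QE r q.2}
  have h1 : wgt N J e * _ ≤ _ := lay hP hPR hl hm hc J hJ e he hcm S fun q hq => by
    rw [hq.1]
    exact ⟨R.one_mem, hq.2.1, Subgroup.one_mem _, ⟨0, one_pow _⟩, hq.2.2, Commute.one_left _⟩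
  have h2 : nord {g | g ∈ R ∧ vo r g ≤ v} ≤ (v + 1) * (code P L 1 '' S).ncard := by
    have h3 : (Set.Iio (v + 1)).ncard = v + 1 := by simp
    rw [← h3, ← Set.ncard_prod]
    refine le_trans (Set.ncard_le_ncard ?_ (((Set.finite_Iio _).prod
      ((Set.toFinite S).image _)).image fun c : ℕ × ℕ × ℕ => c.2.2 * r ^ c.1))
      (Set.ncard_image_le ((Set.finite_Iio _).prod ((Set.toFinite S).image _)))
    rintro _ ⟨g, hg, rfl⟩
    obtain ⟨y, x, h⟩ := dec_exists hr g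
    obtain ⟨i, hi⟩ := h.mem_pow.1
    refine ⟨(vo r g, code P L 1 (1, y)), ⟨Nat.lt_succ_of_le hg.2, (1, y),
      ⟨rfl, hi ▸ R.pow_mem hg.1 i, h.2.2.1⟩, rfl⟩, ?_⟩
    simp only [code, pow_one, dec_order hr h]
  have h3 : (nord {g | g ∈ R ∧ vo r g ≤ v} : ℝ) ≤ (v + 1) * (code P L 1 '' S).ncard := by
    exact_mod_cast h2
  refine (mul_le_mul_of_nonneg_left h3 (wgt_nonneg N J e)).trans ?_
  rw [mul_left_comm]
  exact mul_le_mul_of_nonneg_left h1 (by positivity)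

/-- Orders with a large `r`-part. -/
theorem lay2 (hr : r.Prime) [P.Normal] [L.Normal] (hP : IsPGroup r P) (hPR : P ≤ R) {l : ℕ}
    {N : ℕ → Subgroup G} [hN : ∀ j, (N j).Normal] (hl : N l = P) (hm : Monotone N)
    (hc : ∀ j < l, Cv (N j) (N (j + 1))) (J : Finset ℕ)
    (hJ : ∀ j ∈ J, j < l ∧ ¬ ⁅N (j + 1), L⁆ ≤ N j) (e : ℕ → ℕ) (he : ∀ j ∈ J, 0 < e j)
    (hcm : ∀ j ∈ J, ∀ g ∈ R, g ^ e j ∈ cm (N (j + 1)) (N j)) {v w b : ℕ}
    (hw : ∀ g ∈ R, PE r g → g ^ r ^ w ∈ Subgroup.centralizer (L : Set G))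
    (hb : ∀ y ∈ ⁅P, L⁆, y ^ r ^ b = 1) (hv : 2 * (w + b) ≤ v + 1) :
    wgt N J e * nord {g | g ∈ R ∧ v < vo r g} ≤ 2 * om (R : Set G) := by
  let S : Set (G × G) := {q | q.1 ∈ R ∧ q.2 ∈ R ∧ q.1 ∈ Subgroup.centralizer (L : Set G) ∧
    PE r q.1 ∧ QE r q.2 ∧ Commute q.1 q.2}
  have h1 : wgt N J e * _ ≤ _ := lay hP hPR hl hm hc J hJ e he hcm S fun q hq => hq
  have h2 : nord {g | g ∈ R ∧ v < vo r g} ≤ 2 * (code P L 1 '' S).ncard := by
    have h3 : (Set.Iio 2).ncard = 2 := by simp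
    rw [← h3, ← Set.ncard_prod]
    refine le_trans (Set.ncard_le_ncard ?_ (((Set.finite_Iio _).prod
      ((Set.toFinite S).image _)).image
        fun c : ℕ × ℕ × ℕ => c.2.2 * r ^ (2 * c.2.1.factorization r - c.1)))
      (Set.ncard_image_le ((Set.finite_Iio _).prod ((Set.toFinite S).image _)))
    rintro _ ⟨g, hg, rfl⟩
    obtain ⟨y, x, h⟩ := dec_exists hr g
    obtain ⟨⟨i, hi⟩, j, hj⟩ := h.mem_pow
    have hx : x ∈ R := hj ▸ R.pow_mem hg.1 j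
    let φ := QuotientGroup.mk' (Subgroup.centralizer (L : Set G) ⊓ ⁅P, L⁆)
    have hne : ∀ k : ℕ, r ^ k ≠ 0 := fun k => pow_ne_zero k hr.ne_zero
    have hf : ∀ k : ℕ, (r ^ k).factorization r = k := fun k => by simp [hr.factorization_pow]
    have hd : Dec r (φ (x ^ r ^ w)) 1 (φ (x ^ r ^ w)) :=
      ⟨(one_mul _).symm, Commute.one_left _, by simp [QE], (h.2.2.2.pow _).map φ⟩
    set a := vo r (φ (x ^ r ^ w)) with ha
    have h4 : vo r g ≤ w + a + b := by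
      have h5 : (x ^ r ^ w) ^ r ^ a ∈ Subgroup.centralizer (L : Set G) ⊓ ⁅P, L⁆ := by
        rw [← QuotientGroup.eq_one_iff, QuotientGroup.mk_pow, ← hd.orderOf_eq hr]
        exact pow_orderOf_eq_one _
      have h6 := hb _ h5.2
      rw [← pow_mul, ← pow_mul, ← pow_add, ← pow_add, ← orderOf_dvd_iff_pow_eq_one,
        h.orderOf_eq hr, Nat.pow_dvd_pow_iff_le_right hr.one_lt] at h6
      omega
    have h5 : vo r (φ ((x ^ r ^ w) ^ r ^ (a - (vo r g + 1) / 2))) = (vo r g + 1) / 2 := by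
      have h6 := hg.2
      rw [map_pow, vo_pow _ (hne _), hf, ← ha]
      omega
    refine ⟨(vo r g % 2, code P L 1 ((x ^ r ^ w) ^ r ^ (a - (vo r g + 1) / 2), y)),
      ⟨Nat.mod_lt _ two_pos, _, ⟨R.pow_mem (R.pow_mem hx _) _, hi ▸ R.pow_mem hg.1 i,
        Subgroup.pow_mem _ (hw x hx h.2.2.2) _, (h.2.2.2.pow _).pow _, h.2.2.1,
        (h.2.1.symm.pow_left _).pow_left _⟩, rfl⟩, ?_⟩
    show orderOf (y ^ 1) * r ^ (2 * vo r (φ _) - vo r g % 2) = orderOf g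
    rw [h5, pow_one, dec_order hr h]
    congr 2
    omega
  have h3 : (nord {g | g ∈ R ∧ v < vo r g} : ℝ) ≤ 2 * (code P L 1 '' S).ncard := by
    exact_mod_cast h2
  refine (mul_le_mul_of_nonneg_left h3 (wgt_nonneg N J e)).trans ?_
  rw [mul_left_comm]
  exact mul_le_mul_of_nonneg_left h1 (by positivity)

end Pool.Agent.Lib.MP_634dc6_al
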