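import Pool.Agent.Lib.MP_634dc6_al.AmbP

/-!
Irreducible action on a commutative minimal normal subgroup: the maximal commutative normal
subgroup of the acting group.
-/

namespace Pool.Agent.Lib.MP_634dc6_al

variable {G : Type} [Group G] [Finite G] {V B : Subgroup G}

/-- The centraliser of a subgroup. -/
abbrev cz (V : Subgroup G) : Subgroup G := Subgroup.centralizer (V : Set G)

/-- `B / cz V` is a maximal commutative normal subgroup of `G / cz V`. -/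
structure LinS (V B : Subgroup G) : Prop where
  min : MinNor V
  ab : ⁅V, V⁆ = ⊥
  nB : B.Normal
  le : cz V ≤ B
  comm : ⁅B, B⁆ ≤ cz V
  max : ∀ A : Subgroup G, A.Normal → B ≤ A → ⁅A, A⁆ ≤ cz V → A = B

theorem exists_linS (hV : MinNor V) (hab : ⁅V, V⁆ = ⊥) : ∃ B, LinS V B := by
  have := hV.1
  obtain ⟨B, hB, h1⟩ := (wellFounded_gt (α := Subgroup G)).has_min
    {A | A.Normal ∧ cz V ≤ A ∧ ⁅A, A⁆ ≤ cz V}
    ⟨cz V, inferInstance, le_rfl, Subgroup.commutator_le_left _ _⟩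
  exact ⟨B, hV, hab, hB.1, hB.2.1, hB.2.2, fun A hA hle hc =>
    (hle.eq_of_not_lt (h1 A ⟨hA, hB.2.1.trans hle, hc⟩)).symm⟩

omit [Finite G] in
theorem LinS.le_cm (h : LinS V B) : B ≤ cm B (cz V) := by
  have := h.min.1
  exact Pool.Agent.Lib.MP_634dc6_al.le_cm.2 h.comm

/-- A minimal invariant subgroup for the normal subgroup `H`, with all its conjugates
(`exists_minI`, `MinI.cj` with the identity permutation, `MinNor.le_iSup_cj`). -/
theorem exists_minI_cj (hV : MinNor V) (H : Subgroup G) [H.Normal] : ∃ W, W ≤ V ∧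
    (∀ g : G, MinI (fun _ : Unit => H) (cj g W)) ∧ ∀ x : G, (∀ g : G, x ∈ cz (cj g W)) → x ∈ cz V := by
  have := hV.1
  obtain ⟨W, hWV, hW⟩ := exists_minI (Λ := fun _ : Unit => H) (V := V)
    (fun _ l _ w hw => this.conj_mem w hw l) hV.2.1
  refine ⟨W, hWV, fun g => hW.cj (fun a => ⟨1, fun _ => cj_normal a H⟩) g, fun x hx => ?_⟩
  have h1 : V ≤ Subgroup.centralizer {x} := by
    rw [hV.le_iSup_cj hWV hW.2.1]
    refine iSup_le fun g w hw => Subgroup.mem_centralizer_singleton_iff.2 ?_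
    exact Subgroup.mem_centralizer_iff.1 (hx g) w hw
  exact Subgroup.mem_centralizer_iff.2 fun v hv =>
    Subgroup.mem_centralizer_singleton_iff.1 (h1 hv)

omit [Finite G] in
theorem lina_card_cj (g : G) (H : Subgroup G) : Nat.card (cj g H) = Nat.card H :=
  (Nat.card_congr (Subgroup.equivMapOfInjective H _ (MulAut.conj g).injective).toEquiv).symm

omit [Finite G] in
theorem lina_cj_inf [B.Normal] (g : G) (W : Subgroup G) :
    cj g (B ⊓ cz W) = B ⊓ cz (cj g W) := by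
  rw [cj_inf, cj_normal, cj_centralizer_coe]

theorem lina_proj (h : LinS V B) {W : Subgroup G} (hW : W ≤ V)
    (hm : MinI (fun _ : Unit => cm B (cz V)) W) :
    (cz W).relIndex B ≤ Nat.card W ∧
      (∀ [((cz W).subgroupOf B).Normal], IsCyclic (B ⧸ (cz W).subgroupOf B)) ∧
      ∀ b ∈ B, b ∉ cz W → ∀ w ∈ W, Commute b w → w = 1 := by
  have := h.min.1
  have hab : ⁅W, W⁆ = ⊥ := le_bot_iff.1 (h.ab ▸ Subgroup.commutator_mono hW hW)
  obtain ⟨x, -, h1, -⟩ := amb_proj hab hm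
  refine h1 B h.le_cm ?_
  rw [Subgroup.commutator_comm]
  exact (le_cm.1 le_rfl).trans (Subgroup.centralizer_le hW)

/-- Let `H = cm B (cz V)`, `W` as in `exists_minI_cj` and let `𝒦` be the set of all
`B ⊓ cz (cj g W) = cj g (B ⊓ cz W)`. Distinct members have the same order, so neither contains the
other; `amb_proj` and `pow_card_le` (choose one `g` for every member) give
`card W ^ r ≤ card V` with `r = 𝒦.ncard`. The intersection of `𝒦` is `cz V`, so
`Subgroup.relIndex_iInf_le` bounds the index. -/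
theorem LinS.kernels (h : LinS V B) {W : Subgroup G} (hW : W ≤ V)
    (hm : ∀ g : G, MinI (fun _ : Unit => cm B (cz V)) (cj g W))
    (hf : ∀ x : G, (∀ g : G, x ∈ cz (cj g W)) → x ∈ cz V) :
    Nat.card W ^ {Y | ∃ g : G, Y = cj g (B ⊓ cz W)}.ncard ≤ Nat.card V ∧
      (cz V).relIndex B ≤ Nat.card V := by
  have := h.min.1
  have := h.nB
  set 𝒦 : Set (Subgroup G) := {Y | ∃ g : G, Y = cj g (B ⊓ cz W)} with h𝒦
  have hc : ∀ Y : 𝒦, ∃ g : G, (Y : Subgroup G) = cj g (B ⊓ cz W) := fun Y => Y.2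
  choose t ht using hc
  have hWV : ∀ g : G, cj g W ≤ V := fun g => (cj_mono g hW).trans (cj_normal g V).le
  have h1 : Nat.card W ^ 𝒦.ncard ≤ Nat.card V := by
    rw [← Nat.card_coe_set_eq]
    refine pow_card_le (B := B) h.ab (fun Y : 𝒦 => cj (t Y) W) (fun Y => hWV _)
      (fun Y b hb w hw => (hm (t Y)).1 () b (h.le_cm hb) w hw) (fun i j hij => ?_)
      fun Y => (lina_card_cj _ _).ge
    have h2 : ¬ (j : Subgroup G) ≤ i := by
      intro hle
      refine hij (Subtype.ext (Subgroup.eq_of_le_of_card_ge hle ?_).symm)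
      rw [ht i, ht j, lina_card_cj, lina_card_cj]
    obtain ⟨b, hbj, hbi⟩ := SetLike.not_le_iff_exists.1 h2
    rw [ht, lina_cj_inf] at hbj hbi
    refine ⟨b, hbj.1, fun w hw => (Subgroup.mem_centralizer_iff.1 hbj.2 w hw).symm, ?_⟩
    exact (lina_proj h (hWV _) (hm (t i))).2.2 b hbj.1 fun hb => hbi ⟨hbj.1, hb⟩
  refine ⟨h1, le_trans ?_ h1⟩
  have := Fintype.ofFinite 𝒦
  have h3 : (⨅ Y : 𝒦, cz (cj (t Y) W)) ⊓ B ≤ cz V := by
    intro x hx
    refine hf x fun g => ?_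
    have h4 := ht ⟨cj g (B ⊓ cz W), g, rfl⟩
    have h5 : x ∈ cj (t ⟨cj g (B ⊓ cz W), g, rfl⟩) (B ⊓ cz W) := by
      rw [lina_cj_inf]
      exact ⟨hx.2, Subgroup.mem_iInf.1 hx.1 _⟩
    rw [← h4] at h5
    change x ∈ cj g (B ⊓ cz W) at h5
    rw [lina_cj_inf] at h5
    exact h5.2
  calc (cz V).relIndex B ≤ ((⨅ Y : 𝒦, cz (cj (t Y) W)) ⊓ B).relIndex B :=
        Subgroup.relIndex_le_of_le_left h3 Subgroup.FiniteIndex.index_ne_zero
    _ = (⨅ Y : 𝒦, cz (cj (t Y) W)).relIndex B := Subgroup.inf_relIndex_right _ _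
    _ ≤ ∏ Y : 𝒦, (cz (cj (t Y) W)).relIndex B := Subgroup.relIndex_iInf_le _
    _ ≤ ∏ _Y : 𝒦, Nat.card W := Finset.prod_le_prod' fun Y _ =>
        (lina_proj h (hWV _) (hm (t Y))).1.trans (lina_card_cj _ _).le
    _ = _ := by
        rw [Finset.prod_const, Finset.card_univ, ← Nat.card_eq_fintype_card, Nat.card_coe_set_eq]

/-- Take `e = lcmUpto r * card (MulAut (B ⧸ (B ⊓ cz W)))`: `g ^ lcmUpto r` normalises all members
of `𝒦` (`cj_pow_lcm`); apply `pow_card_mulAut_mem_cm` to its conjugates (`cj_cm`);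
`card_mulAut_le_of_cyclic`, `lcmUpto_le`, `2 ^ r ≤ card V`. -/
theorem LinS.exp_B (h : LinS V B) : (cz V).relIndex B ≤ Nat.card V ∧
    ∃ e : ℕ, 0 < e ∧ e ≤ Nat.card V ^ 9 ∧ ∀ g : G, g ^ e ∈ cm B (cz V) := by
  have := h.min.1
  have := h.nB
  obtain ⟨W, hW, hm, hf⟩ := exists_minI_cj h.min (cm B (cz V))
  obtain ⟨h1, h2⟩ := h.kernels hW hm hf
  refine ⟨h2, ?_⟩
  set 𝒦 : Set (Subgroup G) := {Y | ∃ g : G, Y = cj g (B ⊓ cz W)} with h𝒦
  have hm1 : MinI (fun _ : Unit => cm B (cz V)) W := by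
    have := hm 1
    rwa [cj_one] at this
  obtain ⟨h3, h4, -⟩ := lina_proj h hW hm1
  have hN : ((cz W).subgroupOf B).Normal := by
    refine ⟨fun n hn b => ?_⟩
    rw [Subgroup.mem_subgroupOf] at hn ⊢
    have h5 : (b : G) * n * (b : G)⁻¹ * (n : G)⁻¹ ∈ cz W :=
      Subgroup.centralizer_le hW (h.comm (Subgroup.commutator_mem_commutator b.2 n.2))
    have h6 := (cz W).mul_mem h5 hn
    rwa [inv_mul_cancel_right] at h6
  have hE : (B ⊓ cz W).subgroupOf B = (cz W).subgroupOf B := Subgroup.inf_subgroupOf_left _ _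
  have hN' : ((B ⊓ cz W).subgroupOf B).Normal := hE ▸ hN
  have key : ∀ (N' : Subgroup B) [N'.Normal], N' = (cz W).subgroupOf B →
      Nat.card (MulAut (B ⧸ N')) ≤ Nat.card W := by
    intro N' _ e
    subst e
    have := h4
    exact (card_mulAut_le_of_cyclic _).trans h3
  have hW2 : 2 ≤ Nat.card W := (Subgroup.one_lt_card_iff_ne_bot W).2 hm1.2.1
  have hWV : Nat.card W ≤ Nat.card V := Subgroup.card_le_of_le hW
  have h7 : Nat.lcmUpto 𝒦.ncard ≤ Nat.card V ^ 8 := by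
    refine (lcmUpto_le _).trans ?_
    rw [mul_comm, pow_mul]
    exact Nat.pow_le_pow_left ((Nat.pow_le_pow_left hW2 _).trans h1) 8
  refine ⟨Nat.lcmUpto 𝒦.ncard * Nat.card (MulAut (B ⧸ (B ⊓ cz W).subgroupOf B)),
    Nat.mul_pos (Nat.lcmUpto_pos _) Nat.card_pos, ?_, fun g => ?_⟩
  · rw [show 9 = 8 + 1 by rfl, pow_succ]
    exact Nat.mul_le_mul h7 ((key _ hE).trans hWV)
  · refine mem_cm.2 fun b hb => hf _ fun t => ?_
    have h8 : cj (g ^ Nat.lcmUpto 𝒦.ncard) (cj t (B ⊓ cz W)) = cj t (B ⊓ cz W) := by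
      refine cj_pow_lcm (𝒮 := 𝒦) ?_ le_rfl ⟨t, rfl⟩
      rintro _ ⟨a, rfl⟩
      exact ⟨g * a, (cj_mul _ _ _).symm⟩
    have h9 : cj (t⁻¹ * g ^ Nat.lcmUpto 𝒦.ncard * t) (B ⊓ cz W) = B ⊓ cz W := by
      rw [cj_mul, cj_mul, h8, ← cj_mul, inv_mul_cancel, cj_one]
    have h10 := (pow_card_mulAut_mem_cm (cj_normal _ B) h9).2 (t⁻¹ * b * t)
      (by simpa using h.nB.conj_mem b hb t⁻¹)
    rw [cz, ← cj_centralizer_coe, mem_cj]
    convert (Subgroup.mem_inf.1 h10).2 using 1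
    have h11 : ∀ k : ℕ, (t⁻¹ * g ^ Nat.lcmUpto 𝒦.ncard * t) ^ k =
        t⁻¹ * (g ^ Nat.lcmUpto 𝒦.ncard) ^ k * t := by
      intro k
      simpa using conj_pow (a := t⁻¹) (b := g ^ Nat.lcmUpto 𝒦.ncard) (i := k)
    rw [h11, pow_mul]
    group

end Pool.Agent.Lib.MP_634dc6_al
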