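import Pool.Agent.Lib.MP_634dc6_al.ModA
import Pool.Agent.Lib.MP_634dc6_al.Jn

/-!
Few commuting perfect groups can act nontrivially on a commutative group.
-/

namespace Pool.Agent.Lib.MP_634dc6_al

variable {G : Type} [Group G] [Finite G] {ι : Type} [Finite ι] {V W : Subgroup G}
  {Λ : ι → Subgroup G}

/-- `mod_field` for `Additive ↥W`, the index type `↥(actv W Λ)` and the endomorphisms induced by
conjugation (as in `mod_lin`, file `ModA`); `x ^ 2 ≤ 4 ^ x`. -/
theorem mod_dim (hab : ⁅W, W⁆ = ⊥) (hW : MinI Λ W) (hp : ∀ i, ⁅Λ i, Λ i⁆ = Λ i)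
    (hc : ∀ i j, i ≠ j → ⁅Λ i, Λ j⁆ ≤ Subgroup.centralizer (W : Set G)) :
    2 ^ (actv W Λ).ncard ≤ Nat.card W ^ 2 := by
  obtain ⟨A, _, e, E, hinj, hrange, hadd, hE⟩ :=
    moda_exists W fun a ha b hb => (comm_eq_bot_iff.1 hab a ha b hb).eq
  have heW : ∀ {w}, w ∈ W ↔ ∃ a, e a = w := fun {w} => by
    rw [← SetLike.mem_coe, ← hrange]
    rfl
  have he0 : e 0 = 1 := mul_eq_left.1 (show e 0 * e 0 = e 0 by rw [← hadd, add_zero])
  have heneg : ∀ a, e (-a) = (e a)⁻¹ := fun a =>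
    eq_inv_of_mul_eq_one_right (by rw [← hadd, add_neg_cancel, he0])
  have : Finite A := Finite.of_injective e hinj
  have hcard : Nat.card A = Nat.card W := by
    rw [← Nat.card_range_of_injective hinj, hrange]
    rfl
  have : Nontrivial A := by
    obtain ⟨w, hw, hw1⟩ := W.bot_or_exists_ne_one.resolve_left hW.2.1
    obtain ⟨a, rfl⟩ := heW.1 hw
    exact ⟨a, 0, fun h0 => hw1 (by rw [h0, he0])⟩
  have key : ∀ {i j a b}, a ∈ Λ i → b ∈ Λ j → (E a * E b = E b * E a ↔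
      a * b * a⁻¹ * b⁻¹ ∈ Subgroup.centralizer (W : Set G)) := by
    intro i j a b ha hb
    have hna := hW.1 i a ha
    have hnb := hW.1 j b hb
    rw [Subgroup.mem_centralizer_iff]
    constructor
    · intro h w hw
      obtain ⟨u, hu⟩ := heW.1 (hW.1 i _ ((Λ i).inv_mem ha) _ (hW.1 j _ ((Λ j).inv_mem hb) _ hw))
      have := congrArg (fun f : Module.End ℤ A => e (f u)) h
      simp only [Module.End.mul_apply, hE a hna, hE b hnb, hu] at this
      calc w * (a * b * a⁻¹ * b⁻¹) = b * (a * (a⁻¹ * (b⁻¹ * w * b⁻¹⁻¹) * a⁻¹⁻¹) * a⁻¹) * b⁻¹ *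
            (a * b * a⁻¹ * b⁻¹) := by group
        _ = _ := by rw [← this]; group
    · intro h
      refine LinearMap.ext fun u => hinj ?_
      simp only [Module.End.mul_apply, hE a hna, hE b hnb]
      have := h _ (hnb _ (hna _ (heW.2 ⟨u, rfl⟩)))
      calc _ = a * b * a⁻¹ * b⁻¹ * (b * (a * e u * a⁻¹) * b⁻¹) * (a * b * a⁻¹ * b⁻¹)⁻¹ := by group
        _ = _ := by rw [← this]; group
  obtain ⟨q, x, hq, hx, hx', -⟩ := mod_field (fun i : actv W Λ => E '' (Λ i))
    (by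
      rintro i j hij _ ⟨a, ha, rfl⟩ _ ⟨b, hb, rfl⟩
      exact (key ha hb).2 (comm_le_iff.1 (hc i j fun h => hij (Subtype.ext h)) a ha b hb))
    (fun i => by
      by_contra hcon
      push Not at hcon
      have hle : ⁅Λ i, Λ i⁆ ≤ Subgroup.centralizer (W : Set G) :=
        comm_le_iff.2 fun a ha b hb => (key ha hb).1 (hcon _ ⟨a, ha, rfl⟩ _ ⟨b, hb, rfl⟩)
      rw [hp] at hle
      exact i.2 (comm_eq_bot_iff.2 fun w hw l hl => Subgroup.mem_centralizer_iff.1 (hle hl) w hw))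
    (fun U hU => by
      let U' : Subgroup G :=
        { carrier := e '' U
          mul_mem' := by
            rintro _ _ ⟨a, ha, rfl⟩ ⟨b, hb, rfl⟩
            exact ⟨a + b, U.add_mem ha hb, hadd a b⟩
          one_mem' := ⟨0, U.zero_mem, he0⟩
          inv_mem' := by
            rintro _ ⟨a, ha, rfl⟩
            exact ⟨-a, U.neg_mem ha, heneg a⟩ }
      have hinv : Inva Λ U' := by
        rintro i l hl _ ⟨u, hu, rfl⟩
        by_cases hi : i ∈ actv W Λ
        · exact ⟨E l u, hU ⟨i, hi⟩ _ ⟨l, hl, rfl⟩ u hu, hE l (hW.1 i l hl) u⟩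
        · refine ⟨u, hu, ?_⟩
          rw [← (comm_eq_bot_iff.1 (not_not.1 hi) (e u) (heW.2 ⟨u, rfl⟩) l hl).eq]
          group
      refine (hW.2.2 U' hinv (by rintro _ ⟨u, _, rfl⟩; exact heW.2 ⟨u, rfl⟩)).imp
        (fun h0 => (Submodule.eq_bot_iff _).2 fun u hu => hinj ?_)
        fun h0 => Submodule.eq_top_iff'.2 fun u => ?_
      · rw [he0, ← Subgroup.mem_bot, ← h0]
        exact ⟨u, hu, rfl⟩
      · obtain ⟨u', hu', hee⟩ : e u ∈ U' := h0 ▸ heW.2 ⟨u, rfl⟩
        exact hinj hee ▸ hu')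
  rw [← hcard, hx, ← Nat.card_coe_set_eq]
  exact hx'.trans (Nat.pow_le_pow_left
    ((Nat.lt_two_pow_self (n := x)).le.trans (Nat.pow_le_pow_left hq x)) 2)

/-- Strong induction on `Nat.card V`, for all groups `G`. A minimal invariant `W ≤ V` is normal. If
`i` is active neither on `W` nor on the image of `V` in `G ⧸ W` then `⁅⁅V, Λ i⁆, Λ i⁆ = ⊥`, so `i` is
not active on `V` (`perf_comm`). -/
theorem mod_C_top [V.Normal] (hab : ⁅V, V⁆ = ⊥) (hgen : V ⊔ jn Λ Set.univ = ⊤)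
    (hp : ∀ i, ⁅Λ i, Λ i⁆ = Λ i)
    (hc : ∀ i j, i ≠ j → ⁅Λ i, Λ j⁆ ≤ Subgroup.centralizer (V : Set G)) :
    2 ^ (actv V Λ).ncard ≤ Nat.card V ^ 2 := by
  rename_i hN
  induction hn : Nat.card V using Nat.strong_induction_on generalizing G with
  | _ n ih =>
  subst hn
  by_cases h0 : V = ⊥
  · subst h0
    simp [actv]
  obtain ⟨W, hWV, hW⟩ := exists_minI (Λ := Λ) (fun i l _ w hw => hN.conj_mem w hw l) h0
  have hWn : W.Normal := by
    rw [← Subgroup.normalizer_eq_top_iff, eq_top_iff, ← hgen]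
    refine sup_le (fun v hv => ?_) (jn_le fun i _ l hl => ?_)
    · refine Subgroup.centralizer_le_normalizer _ (Subgroup.mem_centralizer_iff.2 fun w hw => ?_)
      exact (comm_eq_bot_iff.1 hab w (hWV hw) v hv).eq
    · refine Subgroup.mem_normalizer_iff.2 fun w => ⟨hW.1 i l hl w, fun h => ?_⟩
      have := hW.1 i _ ((Λ i).inv_mem hl) _ h
      convert this using 1
      group
  have h1 := mod_dim (le_bot_iff.1 ((Subgroup.commutator_mono hWV hWV).trans hab.le)) hW hp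
    fun i j hij => (hc i j hij).trans (Subgroup.centralizer_le hWV)
  have hcard : Nat.card V = Nat.card W * Nat.card (V.map (QuotientGroup.mk' W)) := by
    rw [← Subgroup.relIndex_ker, QuotientGroup.ker_mk', Subgroup.relIndex,
      ← (W.subgroupOf V).card_mul_index,
      Nat.card_congr (Subgroup.subgroupOfEquivOfLe hWV).toEquiv]
  have hW1 : 1 < Nat.card W := (Subgroup.one_lt_card_iff_ne_bot W).2 hW.2.1
  have hs := QuotientGroup.mk'_surjective W
  have h2 := ih (Nat.card (V.map (QuotientGroup.mk' W)))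
    (by rw [hcard]; exact lt_mul_left Nat.card_pos hW1) (V := V.map (QuotientGroup.mk' W))
    (Λ := fun i => (Λ i).map (QuotientGroup.mk' W)) (hN := hN.map _ hs)
    (by rw [← Subgroup.map_commutator, hab, Subgroup.map_bot])
    (by rw [← jn_map, ← Subgroup.map_sup, hgen, Subgroup.map_top_of_surjective _ hs])
    (fun i => map_perf _ (hp i))
    (fun i j hij => by
      rw [← Subgroup.map_commutator]
      rintro _ ⟨g, hg, rfl⟩
      refine Subgroup.mem_centralizer_iff.2 ?_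
      rintro _ ⟨v, hv, rfl⟩
      rw [← map_mul, ← map_mul, Subgroup.mem_centralizer_iff.1 (hc i j hij hg) v hv]) rfl
  have h3 : actv V Λ ⊆ actv W Λ ∪
      actv (V.map (QuotientGroup.mk' W)) fun i => (Λ i).map (QuotientGroup.mk' W) := by
    intro i hi
    by_contra h
    simp only [actv, Set.mem_union, Set.mem_ofPred_eq, not_or, not_not] at h
    rw [← Subgroup.map_commutator, map_mk_eq_bot] at h
    exact hi (le_bot_iff.1 (perf_comm (hp i)
      ((Subgroup.commutator_mono h.2 le_rfl).trans h.1.le)))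
  refine (Nat.pow_le_pow_right two_pos ((Set.ncard_le_ncard h3 (Set.toFinite _)).trans
    (Set.ncard_union_le _ _))).trans ?_
  rw [pow_add, hcard, mul_pow]
  exact Nat.mul_le_mul h1 h2

/-- `mod_C_top` in the subgroup `V ⊔ jn Λ univ`. -/
theorem mod_C [V.Normal] (hab : ⁅V, V⁆ = ⊥) (hp : ∀ i, ⁅Λ i, Λ i⁆ = Λ i)
    (hc : ∀ i j, i ≠ j → ⁅Λ i, Λ j⁆ ≤ Subgroup.centralizer (V : Set G)) :
    2 ^ (actv V Λ).ncard ≤ Nat.card V ^ 2 := by
  have hV : V ≤ V ⊔ jn Λ Set.univ := le_sup_left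
  have hJ : jn Λ Set.univ ≤ V ⊔ jn Λ Set.univ := le_sup_right
  have hΛ : ∀ i, Λ i ≤ V ⊔ jn Λ Set.univ := fun i => (le_jn (Set.mem_univ i)).trans hJ
  have h := mod_C_top (V := V.subgroupOf (V ⊔ jn Λ Set.univ))
    (Λ := fun i => (Λ i).subgroupOf (V ⊔ jn Λ Set.univ))
    (by rw [comm_subgroupOf hV hV, hab, Subgroup.bot_subgroupOf])
    (by rw [jn_subgroupOf hΛ, ← Subgroup.subgroupOf_sup hV hJ, Subgroup.subgroupOf_self])
    (fun i => by rw [comm_subgroupOf (hΛ i) (hΛ i), hp])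
    (fun i j hij => by
      rw [comm_subgroupOf (hΛ i) (hΛ j)]
      exact fun g hg => Subgroup.mem_centralizer_iff.2 fun v hv =>
        Subtype.ext (Subgroup.mem_centralizer_iff.1 (hc i j hij hg) v hv))
  rw [Nat.card_congr (Subgroup.subgroupOfEquivOfLe hV).toEquiv] at h
  refine le_trans (Nat.pow_le_pow_right two_pos (Set.ncard_le_ncard ?_ (Set.toFinite _))) h
  exact fun i hi h0 => hi (comm_eq_bot_iff.2 fun v hv l hl => congrArg Subtype.val
    (comm_eq_bot_iff.1 h0 ⟨v, hV hv⟩ hv ⟨l, hΛ i hl⟩ hl).eq)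

end Pool.Agent.Lib.MP_634dc6_al
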