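import Pool.Agent.Lib.MP_634dc6_al.MinN
import Pool.Agent.Lib.MP_634dc6_al.Cm

/-!
Groups with small nonabelian simple sections; components.
-/

namespace Pool.Agent.Lib.MP_634dc6_al

variable {G G' : Type} [Group G] [Group G'] {M : ℕ}

theorem Sm.of_injective (h : Sm M G) (f : G' →* G) (hf : Function.Injective f) : Sm M G' := by
  intro A T _ φ hφ hs hn
  exact h (A.map f) T (φ.comp (Subgroup.equivMapOfInjective A f hf).symm.toMonoidHom)
    (hφ.comp (Subgroup.equivMapOfInjective A f hf).symm.surjective) hs hn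

theorem Sm.of_surjective (h : Sm M G) (f : G →* G') (hf : Function.Surjective f) : Sm M G' := by
  intro A T _ φ hφ hs hn
  exact h (A.comap f) T (φ.comp (f.subgroupComap A))
    (hφ.comp (f.subgroupComap_surjective_of_surjective A hf)) hs hn

theorem sml_step (P : ℕ → Prop) (k : ℕ) (h0 : ¬ P 0) (hk : P k) : ∃ j < k, ¬ P j ∧ P (j + 1) := by
  induction k with
  | zero => exact absurd hk h0
  | succ k ih =>
    by_cases h : P k
    · obtain ⟨j, hj, h1⟩ := ih h
      exact ⟨j, by omega, h1⟩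
    · exact ⟨k, by omega, h, hk⟩

/-- Given `f : A →* T` onto a nonabelian simple group let `T j` be the image of `A ⊓ s j`. Take the
least `j` with `T (j + 1) = ⊤`; then `T j` is normal and proper, hence trivial. -/
theorem sm_of_series [Finite G] (k : ℕ) (s : ℕ → Subgroup G) (h0 : s 0 = ⊥) (hk : s k = ⊤)
    (h : ∀ j < k, s j ≤ s (j + 1) ∧ ((s j).subgroupOf (s (j + 1))).Normal ∧
      (⁅s (j + 1), s (j + 1)⁆ ≤ s j ∨ (s j).relIndex (s (j + 1)) ≤ M)) : Sm M G := by
  intro A T _ φ hφ hs hn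
  obtain ⟨j, hj, h1, h2⟩ := sml_step (fun j => ((s j).subgroupOf A).map φ = ⊤) k
    (by simp [h0]) (by
      simp only [hk, Subgroup.top_subgroupOf]
      exact Subgroup.map_top_of_surjective φ hφ)
  obtain ⟨hle, hnor, hc⟩ := h j hj
  have lift : ∀ t : T, ∃ a : A, (a : G) ∈ s (j + 1) ∧ φ a = t := fun t => by
    have : t ∈ ((s (j + 1)).subgroupOf A).map φ := h2 ▸ Subgroup.mem_top t
    obtain ⟨a, ha, rfl⟩ := this
    exact ⟨a, ha, rfl⟩
  have hN : (((s j).subgroupOf A).map φ).Normal := by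
    refine ⟨?_⟩
    rintro _ ⟨b, hb, rfl⟩ t
    obtain ⟨a, ha, rfl⟩ := lift t
    refine ⟨a * b * a⁻¹, ?_, by simp⟩
    have hb' : (b : G) ∈ s j := hb
    exact hnor.conj_mem ⟨b, hle hb'⟩ hb' ⟨a, ha⟩
  have hb := (hs.eq_bot_or_eq_top_of_normal _ hN).resolve_right h1
  rcases hc with hc | hc
  · obtain ⟨x, y, hxy⟩ := hn
    obtain ⟨a, ha, rfl⟩ := lift x
    obtain ⟨b, hb', rfl⟩ := lift y
    refine absurd ?_ hxy
    have h3 : φ (a * b * a⁻¹ * b⁻¹) ∈ ((s j).subgroupOf A).map φ :=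
      ⟨_, comm_le_iff.1 hc a ha b hb', rfl⟩
    rw [hb, Subgroup.mem_bot] at h3
    simp only [map_mul, map_inv] at h3
    rw [mul_inv_eq_one, mul_inv_eq_iff_eq_mul] at h3
    exact h3
  · have h3 := jn_relIndex_map φ ((s j).subgroupOf A) ((s (j + 1)).subgroupOf A)
    rw [hb, h2, Subgroup.relIndex_top_right, Subgroup.index_bot] at h3
    refine h3.trans (le_trans ?_ hc)
    rw [Subgroup.subgroupOf, Subgroup.relIndex_comap]
    refine Subgroup.relIndex_le_of_le_right ?_ Subgroup.index_ne_zero_of_finite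
    exact Subgroup.map_comap_le _ _

variable {N N' S S' L : Subgroup G}

theorem not_NA_iff : ¬ NA N ↔ ⁅N, N⁆ = ⊥ := by
  rw [comm_eq_bot_iff, NA]
  push Not
  rfl

theorem MinNor.comm_of_ne (h : MinNor N) (h' : MinNor N') (hne : N ≠ N') : ⁅N, N'⁆ = ⊥ := by
  have := h.1
  have := h'.1
  rcases h.2.2 (N ⊓ N') inferInstance inf_le_left with h1 | h1
  · exact le_bot_iff.1 (h1 ▸ Subgroup.commutator_le_inf N N')
  · exact absurd ((h'.2.2 N h.1 (inf_eq_left.1 h1)).resolve_left h.2.1) hne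

theorem exists_minIn [Finite G] (h : N ≠ ⊥) : ∃ S, MinIn N S := by
  obtain ⟨S, hS, h1⟩ := (wellFounded_lt (α := Subgroup G)).has_min
    {S | S ≤ N ∧ S ≠ ⊥ ∧ ∀ n ∈ N, ∀ s ∈ S, n * s * n⁻¹ ∈ S}
    ⟨N, le_rfl, h, fun n hn s hs => N.mul_mem (N.mul_mem hn hs) (N.inv_mem hn)⟩
  refine ⟨S, hS.1, hS.2.1, hS.2.2, fun T hle hT => or_iff_not_imp_left.2 fun h0 => ?_⟩
  exact hle.eq_of_not_lt (h1 T ⟨hle.trans hS.1, h0, hT⟩)

theorem MinIn.map_equiv (h : MinIn N S) (e : G ≃* G') :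
    MinIn (N.map e.toMonoidHom) (S.map e.toMonoidHom) := by
  obtain ⟨h1, h2, h3, h4⟩ := h
  refine ⟨Subgroup.map_mono h1, fun h0 => h2 ?_, ?_, fun T hT hi => ?_⟩
  · exact (Subgroup.map_eq_bot_iff_of_injective _ e.injective).1 h0
  · rintro _ ⟨n, hn, rfl⟩ _ ⟨s, hs, rfl⟩
    exact ⟨n * s * n⁻¹, h3 n hn s hs, by simp⟩
  · have h5 : T.comap e.toMonoidHom ≤ S := by
      refine (Subgroup.comap_mono hT).trans ?_
      rw [Subgroup.comap_map_eq_self_of_injective e.injective]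
    have h6 : (T.comap e.toMonoidHom).map e.toMonoidHom = T :=
      Subgroup.map_comap_eq_self_of_surjective e.surjective T
    rcases h4 _ h5 (fun n hn t ht => by
      have := hi _ ⟨n, hn, rfl⟩ _ ht
      simpa using this) with h7 | h7
    · left
      rw [← h6, h7, Subgroup.map_bot]
    · right
      rw [← h6, h7]

theorem MinIn.cj [N.Normal] (h : MinIn N S) (g : G) : MinIn N (cj g S) := by
  have h1 := h.map_equiv (MulAut.conj g)
  have h2 : N.map (MulAut.conj g).toMonoidHom = N := cj_normal g N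
  rw [h2] at h1
  exact h1

theorem MinIn.cj_eq (h : MinIn N S) {n : G} (hn : n ∈ N) :
    Pool.Agent.Lib.MP_634dc6_al.cj n S = S := by
  ext x
  rw [mem_cj]
  constructor
  · intro hx
    have := h.2.2.1 n hn _ hx
    simpa [mul_assoc] using this
  · intro hx
    have := h.2.2.1 n⁻¹ (N.inv_mem hn) _ hx
    simpa using this

theorem MinIn.comm_of_ne (h : MinIn N S) (h' : MinIn N S') (hne : S ≠ S') : ⁅S, S'⁆ = ⊥ := by
  rcases h.2.2.2 (S ⊓ S') inf_le_left
    (fun n hn t ht => ⟨h.2.2.1 n hn t ht.1, h'.2.2.1 n hn t ht.2⟩) with h1 | h1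
  · refine le_bot_iff.1 (h1 ▸ comm_le_iff.2 fun a ha b hb => ⟨?_, ?_⟩)
    · have := S.mul_mem ha (h.2.2.1 b (h'.1 hb) _ (S.inv_mem ha))
      simpa [mul_assoc] using this
    · exact S'.mul_mem (h'.2.2.1 a (h.1 ha) b hb) (S'.inv_mem hb)
  · exact absurd ((h'.2.2.2 S (inf_eq_left.1 h1) h.2.2.1).resolve_left h.2.1) hne

/-- `MinNor.le_iSup_cj`. -/
theorem MinNor.le_jn_minIn [Finite G] (h : MinNor N) : N = jn id {S | MinIn N S} := by
  have := h.1
  obtain ⟨S, hS⟩ := exists_minIn h.2.1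
  refine le_antisymm ?_ (jn_le fun T hT => hT.1)
  refine (h.le_iSup_cj hS.1 hS.2.1).le.trans (iSup_le fun g => ?_)
  exact le_jn (Λ := id) (J := {S | MinIn N S}) (hS.cj g)

theorem sml_comm_iSup {ι : Type} {X : Subgroup G} {Λ : ι → Subgroup G}
    (h : ∀ i, ⁅Λ i, X⁆ = ⊥) : ⁅⨆ i, Λ i, X⁆ = ⊥ := by
  rw [Subgroup.commutator_eq_bot_iff_le_centralizer]
  exact iSup_le fun i => Subgroup.commutator_eq_bot_iff_le_centralizer.1 (h i)

/-- Otherwise all conjugates of `S` commute with each other, and they generate `N`. -/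
theorem MinIn.na [Finite G] (hN : MinNor N) (ha : NA N) (h : MinIn N S) : NA S := by
  have := hN.1
  by_contra h0
  rw [not_NA_iff] at h0
  refine not_NA_iff.2 ?_ ha
  rw [hN.le_iSup_cj h.1 h.2.1]
  refine sml_comm_iSup fun a => ?_
  rw [Subgroup.commutator_comm]
  refine sml_comm_iSup fun b => ?_
  by_cases hab : Pool.Agent.Lib.MP_634dc6_al.cj b S = Pool.Agent.Lib.MP_634dc6_al.cj a S
  · rw [hab, ← cj_commutator, h0, cj_eq_bot]
  · exact (h.cj b).comm_of_ne (h.cj a) hab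

theorem MinIn.perf [Finite G] (hN : MinNor N) (ha : NA N) (h : MinIn N S) : ⁅S, S⁆ = S := by
  refine (h.2.2.2 _ (perf_self S) fun n hn t ht => ?_).resolve_left
    fun h0 => not_NA_iff.2 h0 (h.na hN ha)
  have h1 := conj_mem_cj n ht
  rwa [cj_commutator, h.cj_eq hn] at h1

/-- A normal subgroup of `S` is normalised by all conjugates of `S`, hence by `N`. -/
theorem MinIn.isSimpleGroup [Finite G] (hN : MinNor N) (h : MinIn N S) : IsSimpleGroup S := by
  have := hN.1
  have : Nontrivial S := (Subgroup.nontrivial_iff_ne_bot S).2 h.2.1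
  refine ⟨fun H hH => ?_⟩
  have hle : H.map S.subtype ≤ S := Subgroup.map_subtype_le H
  have h1 : N ≤ cm ⊥ (H.map S.subtype) := by
    rw [hN.le_iSup_cj h.1 h.2.1]
    refine iSup_le fun g x hx => ?_
    refine ⟨?_, fun b hb => by simp [Subgroup.mem_bot.1 hb]⟩
    by_cases hg : Pool.Agent.Lib.MP_634dc6_al.cj g S = S
    · rw [hg] at hx
      have key : ∀ y ∈ S, ∀ n ∈ H.map S.subtype, y * n * y⁻¹ ∈ H.map S.subtype := by
        rintro y hy _ ⟨n, hn, rfl⟩
        exact ⟨_, hH.conj_mem n hn ⟨y, hy⟩, rfl⟩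
      refine fun n => ⟨key x hx n, fun hn => ?_⟩
      have := key x⁻¹ (S.inv_mem hx) _ hn
      simpa [mul_assoc] using this
    · have hc := comm_eq_bot_iff.1 ((h.cj g).comm_of_ne h hg)
      refine fun n => ⟨fun hn => ?_, fun hn => ?_⟩
      · rwa [(hc x hx n (hle hn)).eq, mul_inv_cancel_right]
      · have h2 := (hc x hx _ (hle hn)).eq
        have h3 : x * n * x⁻¹ = n := by
          have h4 : x * (x * n * x⁻¹) = x * n := by rw [h2]; simp
          exact mul_left_cancel h4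
        rwa [h3] at hn
  rcases h.2.2.2 _ hle (fun n hn t ht => ((h1 hn).1 t).1 ht) with h2 | h2
  · exact Or.inl ((Subgroup.map_eq_bot_iff_of_injective _ S.subtype_injective).1 h2)
  · right
    refine Subgroup.map_injective S.subtype_injective ?_
    rw [h2, ← MonoidHom.range_eq_map, Subgroup.range_subtype]

theorem Comp.card_le [Finite G] (hG : Sm M G) (h : Comp L S) : Nat.card S ≤ M := by
  obtain ⟨N, hN, -, ha, hS⟩ := h
  obtain ⟨a, ha', b, hb, hab⟩ := hS.na hN ha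
  exact hG S S (MonoidHom.id S) Function.surjective_id (hS.isSimpleGroup hN)
    ⟨⟨a, ha'⟩, ⟨b, hb⟩, fun h0 => hab (congrArg Subtype.val h0)⟩

theorem Comp.perf [Finite G] (h : Comp L S) : ⁅S, S⁆ = S ∧ S ≠ ⊥ ∧ S ≤ L := by
  obtain ⟨N, hN, hL, ha, hS⟩ := h
  exact ⟨hS.perf hN ha, hS.2.1, hS.1.trans hL⟩

theorem Comp.comm_of_ne (h : Comp L S) (h' : Comp L S') (hne : S ≠ S') : ⁅S, S'⁆ = ⊥ := by
  obtain ⟨N, hN, -, -, hS⟩ := h
  obtain ⟨N', hN', -, -, hS'⟩ := h'
  by_cases hh : N = N'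
  · subst hh
    exact hS.comm_of_ne hS' hne
  · exact le_bot_iff.1 ((Subgroup.commutator_mono hS.1 hS'.1).trans (hN.comm_of_ne hN' hh).le)

theorem sml_minNor_map (h : MinNor N) (e : G ≃* G') : MinNor (N.map e.toMonoidHom) := by
  obtain ⟨h1, h2, h4⟩ := h
  refine ⟨h1.map _ e.surjective, fun h0 => h2 ?_, fun T hi hT => ?_⟩
  · exact (Subgroup.map_eq_bot_iff_of_injective _ e.injective).1 h0
  · have h5 : T.comap e.toMonoidHom ≤ N := by
      refine (Subgroup.comap_mono hT).trans ?_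
      rw [Subgroup.comap_map_eq_self_of_injective e.injective]
    have h6 : (T.comap e.toMonoidHom).map e.toMonoidHom = T :=
      Subgroup.map_comap_eq_self_of_surjective e.surjective T
    rcases h4 _ (hi.comap _) h5 with h7 | h7
    · left
      rw [← h6, h7, Subgroup.map_bot]
    · right
      rw [← h6, h7]

theorem Comp.map_equiv (h : Comp L S) (e : G ≃* G') :
    Comp (L.map e.toMonoidHom) (S.map e.toMonoidHom) := by
  obtain ⟨N, hN, hL, ⟨a, ha, b, hb, hab⟩, hS⟩ := h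
  refine ⟨_, sml_minNor_map hN e, Subgroup.map_mono hL,
    ⟨_, ⟨a, ha, rfl⟩, _, ⟨b, hb, rfl⟩, fun h0 => hab (e.injective ?_)⟩, hS.map_equiv e⟩
  simpa using h0

theorem Comp.cj [L.Normal] (h : Comp L S) (g : G) : Comp L (cj g S) := by
  have h1 := h.map_equiv (MulAut.conj g)
  have h2 : L.map (MulAut.conj g).toMonoidHom = L := cj_normal g L
  rw [h2] at h1
  exact h1

/-- An element that centralises all components centralises every noncommutative minimal normal
subgroup in `L`. -/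
theorem comm_of_comp [Finite G] {g : G} (h : ∀ S, Comp L S → ∀ x ∈ S, Commute g x) (hN : MinNor N)
    (hL : N ≤ L) (ha : NA N) : ∀ x ∈ N, Commute g x := by
  have h1 : N ≤ Subgroup.centralizer {g} := by
    refine hN.le_jn_minIn.le.trans (jn_le fun S hS x hx => ?_)
    exact Subgroup.mem_centralizer_singleton_iff.2 (h S ⟨N, hN, hL, ha, hS⟩ x hx).symm
  exact fun x hx => (Subgroup.mem_centralizer_singleton_iff.1 (h1 hx)).symm

/-- `cj_pow_lcm` for the set of components, then `Bg.mem_cm` with `N = ⊥`. -/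
theorem Bg.comm_comp [Finite G] (hG : Sm M G) [L.Normal] {n : ℕ} (hn : {S | Comp L S}.ncard ≤ n)
    {g : G} (hg : Bg M g) (h : Comp L S) : ∀ x ∈ S, Commute (g ^ Nat.lcmUpto n) x := by
  have h1 := cj_pow_lcm (𝒮 := {S | Comp L S}) (g := g) (fun H hH => Comp.cj hH g) hn h
  have h2 := (hg.pow (Nat.lcmUpto n)).mem_cm (N := ⊥) h1 (by
    rw [Subgroup.relIndex_bot_left]
    exact h.card_le hG)
  intro x hx
  have h3 := Subgroup.mem_bot.1 (Pool.Agent.Lib.MP_634dc6_al.mem_cm.1 h2 x hx)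
  rw [mul_inv_eq_one, mul_inv_eq_iff_eq_mul] at h3
  exact h3

end Pool.Agent.Lib.MP_634dc6_al
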