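import Pool.Agent.Lib.MP_634dc6_al.LinA
import Pool.Agent.Lib.MP_634dc6_al.ModC
import Pool.Agent.Lib.MP_634dc6_al.SmL

/-!
The socle of the centraliser of `B`.
-/

namespace Pool.Agent.Lib.MP_634dc6_al

variable {G : Type} [Group G] [Finite G] {V B : Subgroup G}

omit [Finite G] in
theorem linb_le_cm {A E N : Subgroup G} [N.Normal] : A ≤ cm E N ↔ ⁅A, E⁆ ≤ N := le_cm

omit [Finite G] in
theorem linb_comm (h : LinS V B) : ⁅B, cm B (cz V)⁆ ≤ cz V := by
  have := h.min.1
  rw [Subgroup.commutator_comm]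
  exact linb_le_cm.1 le_rfl

omit [Finite G] in
theorem linb_comap [B.Normal] {Y : Subgroup G} (hB : B ≤ Y) {S : Subgroup (G ⧸ B)}
    (hS : S ≤ Y.map (QuotientGroup.mk' B)) : S.comap (QuotientGroup.mk' B) ≤ Y := by
  refine (Subgroup.comap_mono hS).trans ?_
  rw [Subgroup.comap_map_eq, QuotientGroup.ker_mk']
  exact sup_le le_rfl hB

omit [Finite G] in
theorem linb_le_comap [B.Normal] (S : Subgroup (G ⧸ B)) : B ≤ S.comap (QuotientGroup.mk' B) := by
  intro b hb
  have h1 : QuotientGroup.mk' B b = 1 := (QuotientGroup.eq_one_iff b).2 hb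
  rw [Subgroup.mem_comap, h1]
  exact S.one_mem

omit [Finite G] in
theorem linb_map_comap [B.Normal] (S : Subgroup (G ⧸ B)) :
    (S.comap (QuotientGroup.mk' B)).map (QuotientGroup.mk' B) = S :=
  Subgroup.map_comap_eq_self_of_surjective (QuotientGroup.mk'_surjective B) S

omit [Finite G] in
theorem linb_commute [B.Normal] {a b : G} :
    Commute (QuotientGroup.mk' B a) (QuotientGroup.mk' B b) ↔ a * b * a⁻¹ * b⁻¹ ∈ B := by
  rw [← commutatorElement_eq_one_iff_commute, commutatorElement_def, ← map_inv, ← map_inv,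
    ← map_mul, ← map_mul, ← map_mul, ← MonoidHom.mem_ker, QuotientGroup.ker_mk']

omit [Finite G] in
theorem linb_jn_normal {J : Set (Subgroup G)} (hJ : ∀ N ∈ J, MinNor N) : (jn id J).Normal := by
  refine jn_normal fun g N hN => ⟨N, hN, ?_⟩
  have := (hJ N hN).1
  exact cj_normal g N

/-- Let `H = cm B (cz V)`, `W` as in `exists_minI_cj`, `N = E ⊓ cm E (cz W)`. Elements of `H`
normalise `W`, `cz W`, `E` and `N`; `N.relIndex E ≤ x ^ 2` (`amb_proj`). Take
`e = card (MulAut (E ⧸ N))` (`card_mulAut_le`, `pow_log_le`, `pow_card_mulAut_mem_cm` for all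
conjugates of `g`, `cj_cm`). The intersection of the conjugates of `N` lies in `E ⊓ cm E (cz V)`,
which is normal, contains `B` and is commutative modulo `cz V`, so it equals `B`. -/
theorem LinS.exp_E (h : LinS V B) {E : Subgroup G} [E.Normal] (hBE : B ≤ E)
    (hE : E ≤ cm B (cz V)) (hc : ⁅E, E⁆ ≤ B) :
    ∃ e : ℕ, 0 < e ∧ e ≤ Nat.card V ^ 16 ∧ ∀ g ∈ cm B (cz V), g ^ e ∈ cm E B := by
  have := h.min.1
  have := h.nB
  obtain ⟨W, hWV, hm, hf⟩ := exists_minI_cj h.min (cm B (cz V))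
  have hW : MinI (fun _ : Unit => cm B (cz V)) W := by simpa only [cj_one] using hm 1
  have habW : ⁅W, W⁆ = ⊥ :=
    le_bot_iff.1 ((Subgroup.commutator_mono hWV hWV).trans h.ab.le)
  obtain ⟨x, hx, -, hE2⟩ := amb_proj habW hW
  have hcz : cz V ≤ cz W := Subgroup.centralizer_le hWV
  have hidx : (cm E (cz W)).relIndex E ≤ x ^ 2 :=
    hE2 E hE (((Subgroup.commutator_mono hc le_rfl).trans (linb_comm h)).trans hcz)
  have hcW : ∀ g ∈ cm B (cz V), cj g W = W := by
    intro g hg
    ext w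
    rw [mem_cj]
    constructor
    · intro hw
      have h1 := hW.1 () g hg _ hw
      have e : g * (g⁻¹ * w * g) * g⁻¹ = w := by group
      rwa [e] at h1
    · intro hw
      have h1 := hW.1 () g⁻¹ (Subgroup.inv_mem _ hg) _ hw
      rwa [inv_inv] at h1
  have hcN : ∀ a : G, cj a (cm E (cz W)) = cm E (cz (cj a W)) := by
    intro a
    rw [cj_cm, cj_normal, cj_centralizer_coe]
  have hN : ∀ g ∈ cm B (cz V), cj g (cm E (cz W)) = cm E (cz W) := by
    intro g hg
    rw [hcN, hcW g hg]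
  have : ((cm E (cz W)).subgroupOf E).Normal := by
    refine ⟨fun n hn e => ?_⟩
    rw [Subgroup.mem_subgroupOf] at hn ⊢
    have h1 := conj_mem_cj (e : G) hn
    rw [hN _ (hE e.2)] at h1
    simpa using h1
  have hA : E ⊓ cm E (cz V) = B := by
    refine h.max _ inferInstance (le_inf hBE (linb_le_cm.2 ?_)) ?_
    · exact (Subgroup.commutator_mono le_rfl hE).trans (linb_comm h)
    · exact (Subgroup.commutator_mono inf_le_right inf_le_left).trans (linb_le_cm.1 le_rfl)
  refine ⟨Nat.card (MulAut (E ⧸ (cm E (cz W)).subgroupOf E)), Nat.card_pos, ?_, fun g hg => ?_⟩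
  · refine (card_mulAut_le _).trans ((pow_log_le (x := x) hidx).trans ?_)
    rw [mul_comm, pow_mul]
    exact Nat.pow_le_pow_left (hx.trans (Subgroup.card_le_of_le hWV)) 16
  · set e := Nat.card (MulAut (E ⧸ (cm E (cz W)).subgroupOf E)) with he
    have h1 : ∀ a : G, g ^ e ∈ cm E (cm E (cz (cj a W))) := by
      intro a
      have h2 : a⁻¹ * g * a ∈ cm B (cz V) := by
        have h3 := (cm_normal B (cz V)).conj_mem g hg a⁻¹
        rwa [inv_inv] at h3
      have h3 := pow_card_mulAut_mem_cm (A := E) (N := cm E (cz W)) (cj_normal _ E) (hN _ h2)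
      have h4 : g ^ e ∈ cj a (cm E (cm E (cz W))) := by
        rw [mem_cj]
        have e1 : a⁻¹ * g ^ e * a = (a⁻¹ * g * a) ^ e := by
          have h5 := conj_pow (a := a⁻¹) (b := g) (i := e)
          rw [inv_inv] at h5
          exact h5.symm
        rw [e1]
        exact h3
      rwa [cj_cm, cj_normal, hcN] at h4
    refine mem_cm.2 fun b hb => ?_
    rw [← hA]
    refine ⟨E.mul_mem (‹E.Normal›.conj_mem b hb _) (E.inv_mem hb), mem_cm.2 fun c hc' => ?_⟩
    exact hf _ fun a => ((h1 a).2 b hb).2 c hc'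

/-- `mod_C` for the groups `Λ S = res (S.comap (mk' B))`, indexed by the components. They lie in
`cm B (cz V)`, `⁅Λ S, Λ S'⁆ ≤ B`, hence `≤ cz V` by `perf_comm`; `Λ S` maps onto `S` (`res_cover`),
so it does not lie in `cz V ≤ B`. -/
theorem LinS.two_pow_comp_le [B.Normal] (h : LinS V B) :
    2 ^ {S | Comp ((cm B (cz V)).map (QuotientGroup.mk' B)) S}.ncard ≤ Nat.card V ^ 2 := by
  have := h.min.1
  let Λ : {S | Comp ((cm B (cz V)).map (QuotientGroup.mk' B)) S} → Subgroup G :=
    fun S => res (S.1.comap (QuotientGroup.mk' B))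
  have hH : ∀ S, Λ S ≤ cm B (cz V) := fun S =>
    (res_le _).trans (linb_comap h.le_cm (Comp.perf S.2).2.2)
  have hmap : ∀ S, (Λ S).map (QuotientGroup.mk' B) ≤ S.1 := fun S =>
    (Subgroup.map_mono (res_le _)).trans (linb_map_comap S.1).le
  have h1 := mod_C (Λ := Λ) h.ab (fun S => res_perf _) (fun S S' hne => by
    refine perf_comm (res_perf _) ?_
    have h2 : ⁅Λ S, Λ S'⁆ ≤ B := by
      rw [← map_mk_eq_bot, Subgroup.map_commutator, ← le_bot_iff]
      exact (Subgroup.commutator_mono (hmap S) (hmap S')).trans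
        (Comp.comm_of_ne S.2 S'.2 fun e => hne (Subtype.ext e)).le
    exact (Subgroup.commutator_mono h2 (hH S')).trans (linb_comm h))
  have h2 : actv V Λ = Set.univ := by
    refine Set.eq_univ_of_forall fun S hS => ?_
    have h3 : Λ S ≤ B := by
      rw [Subgroup.commutator_comm, Subgroup.commutator_eq_bot_iff_le_centralizer] at hS
      exact hS.trans h.le
    have h4 : S.1.comap (QuotientGroup.mk' B) ≤ Λ S ⊔ B := by
      refine res_cover ?_ le_sup_left
      rw [perf_le_sup, Subgroup.map_commutator, linb_map_comap, (Comp.perf S.2).1]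
    refine (Comp.perf S.2).2.1 ?_
    rw [← linb_map_comap S.1, map_mk_eq_bot]
    exact h4.trans (sup_le h3 le_rfl)
  rwa [h2, Set.ncard_univ, Nat.card_coe_set_eq] at h1

/-- Let `F` be the preimage of the join of all minimal normal subgroups of `G ⧸ B` inside the image
of `H = cm B (cz V)`; it is normal. Then `g ^ n ∈ cm F (cz V)` with `n = (cz V).relIndex B`
(`pow_mem_cm_of_central`). The normal subgroup `Y = H ⊓ cm F (cz V)` contains `B`; if its image were
nontrivial it would contain a minimal normal subgroup whose preimage `N ≤ Y ⊓ F` has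
`⁅N, N⁆ ≤ cz V`, so `N = B`. Hence `g ^ n ∈ B`. -/
theorem LinS.pow_mem [B.Normal] (h : LinS V B) {g : G} (hg : g ∈ cm B (cz V))
    (hc : ∀ N : Subgroup (G ⧸ B), MinNor N → N ≤ (cm B (cz V)).map (QuotientGroup.mk' B) →
      ∀ x ∈ N, Commute (QuotientGroup.mk' B g) x) :
    g ^ (cz V).relIndex B ^ 2 ∈ cz V := by
  have := h.min.1
  let J : Set (Subgroup (G ⧸ B)) :=
    {N | MinNor N ∧ N ≤ (cm B (cz V)).map (QuotientGroup.mk' B)}
  have : (jn id J).Normal := linb_jn_normal fun N hN => hN.1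
  let F := (jn id J).comap (QuotientGroup.mk' B)
  have hFH : F ≤ cm B (cz V) := linb_comap h.le_cm (jn_le fun N hN => hN.2)
  have hn : ∀ b ∈ B, b ^ (cz V).relIndex B ∈ cz V := fun b hb =>
    Subgroup.pow_relIndex_mem (cz V) hb
  have h0 : QuotientGroup.mk' B g ∈ cm (jn id J) ⊥ := by
    refine mem_cm_jn.2 fun N hN => mem_cm.2 fun x hx => ?_
    rw [Subgroup.mem_bot, (hc N hN.1 hN.2 x hx).eq]
    group
  have h1 : g ^ (cz V).relIndex B ∈ cm F (cz V) := by
    refine pow_mem_cm_of_central (B := B) (fun f hf => linb_commute.1 ?_) hg hn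
    rw [← commutatorElement_eq_one_iff_commute, commutatorElement_def]
    exact Subgroup.mem_bot.1 (mem_cm.1 h0 _ hf)
  have hBY : B ≤ cm B (cz V) ⊓ cm F (cz V) :=
    le_inf h.le_cm (linb_le_cm.2 ((Subgroup.commutator_mono le_rfl hFH).trans (linb_comm h)))
  have hY : cm B (cz V) ⊓ cm F (cz V) ≤ B := by
    by_contra hne
    rw [← map_mk_eq_bot] at hne
    have : ((cm B (cz V) ⊓ cm F (cz V)).map (QuotientGroup.mk' B)).Normal :=
      Subgroup.Normal.map inferInstance _ (QuotientGroup.mk'_surjective B)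
    obtain ⟨N, hN1, hN2⟩ := exists_minNor hne
    have := hN2.1
    have h2 := linb_comap hBY hN1
    have h3 : N.comap (QuotientGroup.mk' B) ≤ F :=
      Subgroup.comap_mono (le_jn (Λ := id) (J := J)
        ⟨hN2, hN1.trans (Subgroup.map_mono inf_le_left)⟩)
    have h4 := h.max _ inferInstance (linb_le_comap N)
      ((Subgroup.commutator_mono (h2.trans inf_le_right) h3).trans (linb_le_cm.1 le_rfl))
    refine hN2.2.1 ?_
    rw [← linb_map_comap N, map_mk_eq_bot, h4]
  rw [sq, pow_mul]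
  exact hn _ (hY ⟨Subgroup.pow_mem _ hg _, h1⟩)

/-- Let `E` be the preimage of the join of the commutative minimal normal subgroups of `G ⧸ B`
inside the image of `cm B (cz V)` (`MinNor.comm_of_ne`). Multiply the exponents of `LinS.exp_B`,
`LinS.exp_E`, `Bg.comm_comp` (`comm_of_comp`, `lcmUpto_le`) and `LinS.pow_mem`. -/
theorem exp_lin {M : ℕ} (hG : Sm M G) (hV : MinNor V) (hab : ⁅V, V⁆ = ⊥) :
    ∃ e : ℕ, 0 < e ∧ e ≤ Nat.card V ^ 43 ∧ ∀ g : G, Bg M g → g ^ e ∈ cz V := by
  obtain ⟨B, h⟩ := exists_linS hV hab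
  have := h.nB
  have := hV.1
  have : ((cm B (cz V)).map (QuotientGroup.mk' B)).Normal :=
    Subgroup.Normal.map inferInstance _ (QuotientGroup.mk'_surjective B)
  let J : Set (Subgroup (G ⧸ B)) :=
    {N | MinNor N ∧ N ≤ (cm B (cz V)).map (QuotientGroup.mk' B) ∧ ¬ NA N}
  have : (jn id J).Normal := linb_jn_normal fun N hN => hN.1
  let E := (jn id J).comap (QuotientGroup.mk' B)
  have hEH : E ≤ cm B (cz V) := linb_comap h.le_cm (jn_le fun N hN => hN.2.1)
  have hEE : ⁅E, E⁆ ≤ B := by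
    rw [← map_mk_eq_bot, Subgroup.map_commutator, linb_map_comap, ← le_bot_iff]
    refine comm_jn_le fun N hN => ?_
    rw [Subgroup.commutator_comm]
    refine comm_jn_le fun N' hN' => ?_
    by_cases e : N = N'
    · subst e
      exact (not_NA_iff.1 hN.2.2).le
    · exact (hN.1.comm_of_ne hN'.1 e).le
  obtain ⟨hn, e1, p1, b1, h1⟩ := h.exp_B
  obtain ⟨e2, p2, b2, h2⟩ := h.exp_E (linb_le_comap _) hEH hEE
  have h3 := h.two_pow_comp_le
  set r := {S | Comp ((cm B (cz V)).map (QuotientGroup.mk' B)) S}.ncard with hr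
  have b3 : Nat.lcmUpto r ≤ Nat.card V ^ 16 := by
    refine (lcmUpto_le r).trans ?_
    rw [mul_comm, pow_mul, show 16 = 2 * 8 from rfl, pow_mul]
    exact Nat.pow_le_pow_left h3 8
  have p4 : 0 < (cz V).relIndex B := Nat.pos_of_ne_zero Subgroup.FiniteIndex.index_ne_zero
  refine ⟨e1 * e2 * Nat.lcmUpto r * (cz V).relIndex B ^ 2, ?_, ?_, fun g hg => ?_⟩
  · have := Nat.lcmUpto_pos r
    positivity
  · calc e1 * e2 * Nat.lcmUpto r * (cz V).relIndex B ^ 2
        ≤ Nat.card V ^ 9 * Nat.card V ^ 16 * Nat.card V ^ 16 * Nat.card V ^ 2 := by gcongr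
      _ = Nat.card V ^ 43 := by ring
  · rw [pow_mul, pow_mul, pow_mul]
    have hH : (g ^ e1) ^ e2 ∈ cm B (cz V) := Subgroup.pow_mem _ (h1 g) _
    refine h.pow_mem (Subgroup.pow_mem _ hH _) fun N hN hL x hx => ?_
    by_cases ha : NA N
    · rw [map_pow]
      exact comm_of_comp (fun S hS => Bg.comm_comp
        (hG.of_surjective _ (QuotientGroup.mk'_surjective B)) le_rfl
        (((hg.pow e1).pow e2).map _) hS) hN hL ha x hx
    · obtain ⟨y, rfl⟩ := QuotientGroup.mk'_surjective B x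
      have hy : y ∈ E := le_jn (Λ := id) (J := J) ⟨hN, hL, ha⟩ hx
      exact linb_commute.2 (mem_cm.1 (Subgroup.pow_mem _ (h2 _ (h1 g)) _) y hy)

end Pool.Agent.Lib.MP_634dc6_al
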