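import Pool.Agent.Lib.MP_634dc6_al.Good

/-!
The main inequality when all layers with nontrivial action are good.
-/

namespace Pool.Agent.Lib.MP_634dc6_al

variable {G : Type} [Group G] [Finite G] {ι : Type} {C M r l k : ℕ} {D R : Subgroup G}
  {K : ι → Subgroup G} {N : ℕ → Subgroup G} {e : ℕ → ℕ} {I : Set ι}

/-- The conjugates of `i`. -/
def orbL (K : ι → Subgroup G) (i : ι) : Set ι := {j | ∃ g : G, cj g (res (K i)) = res (K j)}

omit [Finite G] in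
theorem orbL_inv (h : GS M D R K) (i : ι) : InvS (fun i => res (K i)) (orbL K i) := by
  rintro g j ⟨a, ha⟩
  obtain ⟨π, hπ⟩ := h.res_perm g
  exact ⟨π j, ⟨g * a, by rw [cj_mul, ha, hπ]⟩, hπ j⟩

omit [Finite G] in
theorem orbL_eq {i j : ι} (h : j ∈ orbL K i) : orbL K j = orbL K i := by
  obtain ⟨a, ha⟩ := h
  ext t
  exact ⟨fun ⟨g, hg⟩ => ⟨g * a, by rw [cj_mul, ha, hg]⟩,
    fun ⟨g, hg⟩ => ⟨g * a⁻¹, by rw [← ha, ← cj_mul, inv_mul_cancel_right, hg]⟩⟩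

omit [Finite G] in
theorem tp_orbL {i j : ι} (h : j ∈ orbL K i) (hi : i ∈ tp r D K) : j ∈ tp r D K := by
  obtain ⟨g, hg⟩ := h
  obtain ⟨A, B, hA, h1, h2, h3⟩ := hi
  have := h1.1.2.1
  refine ⟨A, B, hA, h1, act_cj hg h2, fun q hq A' B' _ h4 h5 => h3 q hq A' B' h4 ?_⟩
  have := h4.1.2.1
  refine act_cj (g := g⁻¹) ?_ h5
  rw [← hg, ← cj_mul, inv_mul_cancel, cj_one]

variable [hN : ∀ j, (N j).Normal]

/-- The last step. -/
theorem Ser.fin (h : Ser C r D R K l N e) (hS : GS M D R K) (hD : Group.IsSolvable D)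
    (hG : Good C D R K) (hr : r.Prime) (hC : 1 ≤ C) (hk : 1 ≤ k) {m : ℕ}
    (h1 : (26 * k * m : ℝ) ≤ wgt N (jj K N l (tp r D K)) e)
    (h2 : wgt N (jj K N l (tp r D K)) e ≤ 26 * k * (m + 1)) (hm : 104 * C * k ≤ m)
    (hI : InvS (fun i => res (K i)) I) (hT : I ⊆ tp r D K)
    (ha : ⁅opr r D, jn (fun i => res (K i)) I⁆ ≤ sSup {W : Subgroup G | W.Normal ∧
      W ≤ ⁅opr r D, jn (fun i => res (K i)) I⁆ ∧ ∀ w ∈ W, w ^ r ^ m = 1})
    (hW : (4 * k : ℝ) ≤ wgt N (jj K N l I) e) : k * nord (R : Set G) ≤ om (R : Set G) := by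
  have hm1 : 104 ≤ m := le_trans (by nlinarith) hm
  have h3 : wgt N (jj K N l I) e ≤ 26 * k * (m + 1) :=
    (Finset.sum_le_sum_of_subset_of_nonneg (jj_mono hT) fun j hj _ => (h.w hj).1).trans h2
  have h4 := h.one hS hr (tp_inv (r := r) hS) (12 * m)
  have h5 := h.two hS hD hG hr hI hT (m := m)
    (fun j hj d hd => num_u (h.w hj).1 (h.w hj).2
      ((Finset.single_le_sum (fun j hj => (h.w hj).1) hj).trans h3) hm (by omega) hd) ha
    (num_t (C := C) (k := k) (le_trans (by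
      rw [wgt, Finset.mul_sum, Finset.card_eq_sum_ones, Nat.cast_sum]
      exact Finset.sum_le_sum fun j hj => by
        exact_mod_cast num_one (h.w hj).1 (om_pos ⟨1, Subgroup.one_mem _⟩) hC (h.w hj).2)
      (mul_le_mul_of_nonneg_left h3 (by positivity))) hm (by omega))
  have h6 : nord (R : Set G) ≤
      nord {g | g ∈ R ∧ vo r g ≤ 12 * m} + nord {g | g ∈ R ∧ 12 * m < vo r g} := by
    refine le_trans (Set.ncard_le_ncard ?_ (((Set.toFinite _).image _).union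
      ((Set.toFinite _).image _))) (Set.ncard_union_le _ _)
    rintro _ ⟨g, hg, rfl⟩
    exact (le_or_gt (vo r g) (12 * m)).imp (fun h7 => ⟨g, ⟨hg, h7⟩, rfl⟩)
      fun h7 => ⟨g, ⟨hg, h7⟩, rfl⟩
  have h7 : (nord (R : Set G) : ℝ) ≤ (nord {g | g ∈ R ∧ vo r g ≤ 12 * m} : ℝ) +
      (nord {g | g ∈ R ∧ 12 * m < vo r g} : ℝ) := by exact_mod_cast h6
  generalize nord {g | g ∈ R ∧ vo r g ≤ 12 * m} = n₁ at h4 h7
  generalize nord {g | g ∈ R ∧ 12 * m < vo r g} = n₂ at h5 h7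
  have h8 := (mul_le_mul_of_nonneg_right h1 (Nat.cast_nonneg n₁)).trans h4
  have h9 := (mul_le_mul_of_nonneg_right hW (Nat.cast_nonneg n₂)).trans h5
  have hm2 : (104 : ℝ) ≤ m := by exact_mod_cast hm1
  have ho : (0 : ℝ) ≤ om (R : Set G) := Nat.cast_nonneg _
  have h10 : (m : ℝ) * (2 * k * n₁) ≤ m * om (R : Set G) := by
    push_cast at h8
    nlinarith
  have h11 := le_of_mul_le_mul_left h10 (by linarith)
  have h12 := mul_le_mul_of_nonneg_left h7 (Nat.cast_nonneg (α := ℝ) k)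
  have h13 : (k : ℝ) * nord (R : Set G) ≤ om (R : Set G) := by linarith
  exact_mod_cast h13

theorem floor_data {W : ℝ} (hk : 1 ≤ k) (hW : 0 ≤ W) : ∃ m : ℕ, (26 * k * m : ℝ) ≤ W ∧
    W ≤ 26 * k * (m + 1) ∧ ∀ s : ℕ, (26 * k * s : ℝ) ≤ W → s ≤ m := by
  have h0 : (0 : ℝ) < 26 * k := by positivity
  refine ⟨⌊W / (26 * k)⌋₊, ?_, ?_, fun s hs => Nat.le_floor ?_⟩
  · rw [mul_comm, ← le_div_iff₀ h0]
    exact Nat.floor_le (by positivity)
  · rw [mul_comm, ← div_le_iff₀ h0]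
    exact (Nat.lt_floor_add_one _).le
  · rw [le_div_iff₀ h0, mul_comm]
    exact hs

/-- The case of a large prime. -/
theorem Ser.caseA (h : Ser C r D R K l N e) (hS : GS M D R K) (hD : Group.IsSolvable D)
    (hG : Good C D R K) (hr : r.Prime) (hC : 1 ≤ C) (hk : 1 ≤ k) (hne : (tp r D K).Nonempty)
    (hbig : C ^ 7 * (256 * C) ^ C * (2704 * C * k ^ 2) ^ (8 * C) ≤ r) :
    k * nord (R : Set G) ≤ om (R : Set G) := by
  have h1 : ∀ j ∈ jj K N l (tp r D K), (2704 * C * k ^ 2 : ℝ) ≤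
      ((kap (N j) (N (j + 1)) : ℝ) - 1) / (e j).divisors.card := by
    intro j hj
    refine num_le (B := C ^ 7 * (256 * C) ^ C) (c := 8 * C) (by positivity) (by omega) (h.w hj).1
      (le_trans ?_ (num_z (h.w hj).2
        (h.he j (mem_jj.1 hj).1 ((mem_jj.1 hj).2.mono Set.inter_subset_left)).2.2.2.2))
    exact_mod_cast hbig.trans (Nat.le_self_pow (by norm_num) r)
  have h2 : ((jj K N l (tp r D K)).card : ℝ) * (2704 * C * k ^ 2) ≤
      wgt N (jj K N l (tp r D K)) e := by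
    rw [← nsmul_eq_mul]
    exact Finset.card_nsmul_le_sum _ _ _ h1
  have h3 : (1 : ℝ) ≤ (jj K N l (tp r D K)).card := by
    obtain ⟨i, hi⟩ := hne
    obtain ⟨j, hj, h4, -⟩ := h.top hi
    exact_mod_cast Finset.card_pos.2 ⟨j, mem_jj.2 ⟨hj, i, h4, hi⟩⟩
  obtain ⟨m, h4, h5, h6⟩ := floor_data hk (wgt_nonneg N (jj K N l (tp r D K)) e)
  have hC' : (1 : ℝ) ≤ C := by exact_mod_cast hC
  have hk' : (1 : ℝ) ≤ k := by exact_mod_cast hk
  have h7 : (k : ℝ) ≤ C * k ^ 2 := by nlinarith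
  have := jn_normal (tp_inv (r := r) hS)
  refine h.fin hS hD hG hr hC hk h4 h5 (h6 _ (le_trans ?_ h2)) (tp_inv hS) le_rfl
    (le_sSup ⟨inferInstance, le_rfl, fun w hw =>
      h.expo hr (tp_inv hS) (h6 _ (le_trans ?_ h2)) hw⟩) (le_trans ?_ h2)
  · push_cast
    nlinarith
  · push_cast
    nlinarith
  · nlinarith

/-- The case of a prime with many indices. -/
theorem Ser.caseB [Finite ι] (h : Ser C r D R K l N e) (hS : GS M D R K) (hD : Group.IsSolvable D)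
    (hG : Good C D R K) (hr : r.Prime) (hC : 1 ≤ C) (hk : 1 ≤ k)
    (hbig : 2 * (C ^ 7 * (256 * C) ^ C * (2704 * C * k ^ 2) ^ (8 * C)) ≤ (tp r D K).ncard) :
    k * nord (R : Set G) ≤ om (R : Set G) := by
  classical
  have hB : 0 < C ^ 7 * (256 * C) ^ C := by positivity
  have hC' : (1 : ℝ) ≤ C := by exact_mod_cast hC
  have hk' : (1 : ℝ) ≤ k := by exact_mod_cast hk
  have h7 : (k : ℝ) ≤ C * k ^ 2 := by nlinarith
  have hdc : ∀ (I I' : Set ι) (b : ℕ),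
      (∀ i ∈ I', b ≤ ((jj K N l I).filter fun j => i ∈ act K (N j) (N (j + 1))).card) →
      (I'.ncard : ℝ) * b ^ (8 * C) ≤
        (C ^ 7 * (256 * C) ^ C : ℕ) * wgt N (jj K N l I) e ^ (8 * C) := fun I I' b hb =>
    dc _ (fun j => act K (N j) (N (j + 1))) _ (fun j hj => (h.w hj).1) (by omega)
      (fun j hj => num_z (h.w hj).2
        (h.he j (mem_jj.1 hj).1 ((mem_jj.1 hj).2.mono Set.inter_subset_left)).1) I' b
      fun i hi => (hb i hi).trans (le_of_eq (by congr))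
  have h1 : ∀ I : Set ι, I ⊆ tp r D K →
      C ^ 7 * (256 * C) ^ C * (2704 * C * k ^ 2) ^ (8 * C) ≤ I.ncard →
      (2704 * C * k ^ 2 : ℝ) ≤ wgt N (jj K N l I) e := by
    intro I hI hc
    refine num_le (c := 8 * C) hB (by omega) (wgt_nonneg _ _ _) (le_trans ?_ (hdc I I 1 ?_))
    · rw [Nat.cast_one, one_pow, mul_one]
      exact_mod_cast hc
    · intro i hi
      obtain ⟨j, hj, h4, -⟩ := h.top (hI hi)
      exact Finset.card_pos.2 ⟨j, Finset.mem_filter.2 ⟨mem_jj.2 ⟨hj, i, h4, hi⟩, h4⟩⟩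
  obtain ⟨m, h4, h5, h6⟩ := floor_data hk (wgt_nonneg N (jj K N l (tp r D K)) e)
  let I : Set ι := {i | i ∈ tp r D K ∧
    ∀ y ∈ ⁅opr r D, jn (fun i => res (K i)) (orbL K i)⁆, y ^ r ^ m = 1}
  have hI : ∀ i ∈ I, orbL K i ⊆ I := fun i hi j hj =>
    ⟨tp_orbL hj hi.1, by rw [orbL_eq hj]; exact hi.2⟩
  have h8 := hdc (tp r D K) (tp r D K \ I) (m / 2 + 1) fun i hi => by
    by_contra h9
    refine hi.2 ⟨hi.1, fun y hy => h.expo hr (orbL_inv hS i) ?_ hy⟩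
    have h10 : (jj K N l (orbL K i)).card ≤
        ((jj K N l (tp r D K)).filter fun j => i ∈ act K (N j) (N (j + 1))).card := by
      refine Finset.card_le_card fun j hj => ?_
      obtain ⟨h11, t, h12, g, hg⟩ := mem_jj.1 hj
      have h13 : i ∈ act K (N j) (N (j + 1)) :=
        act_cj (g := g⁻¹) (by rw [← hg, ← cj_mul, inv_mul_cancel, cj_one]) h12
      exact Finset.mem_filter.2 ⟨mem_jj.2 ⟨h11, i, h13, hi.1⟩, h13⟩
    omega
  have h9 : (tp r D K \ I).ncard ≤ C ^ 7 * (256 * C) ^ C * (2704 * C * k ^ 2) ^ (8 * C) := by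
    have h10 : (m : ℝ) + 1 ≤ 2 * (m / 2 + 1 : ℕ) := by
      exact_mod_cast (by omega : m + 1 ≤ 2 * (m / 2 + 1))
    have h11 : (0 : ℝ) < (m / 2 + 1 : ℕ) := by positivity
    have h12 : wgt N (jj K N l (tp r D K)) e ≤ (2704 * C * k ^ 2) * (m / 2 + 1 : ℕ) :=
      h5.trans (by nlinarith)
    have h13 := h8.trans (mul_le_mul_of_nonneg_left
      (pow_le_pow_left₀ (wgt_nonneg _ _ _) h12 _) (Nat.cast_nonneg _))
    rw [mul_pow (2704 * C * k ^ 2 : ℝ), ← mul_assoc] at h13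
    exact_mod_cast le_of_mul_le_mul_right h13 (by positivity)
  have h10 := Set.ncard_sdiff_add_ncard_of_subset (fun i (hi : i ∈ I) => hi.1) (Set.toFinite _)
  refine h.fin (I := I) hS hD hG hr hC hk h4 h5
    (h6 _ (le_trans ?_ (h1 _ le_rfl (by omega)))) (fun g i hi => ?_) (fun i hi => hi.1) ?_
    (le_trans ?_ (h1 I (fun i hi => hi.1) (by omega)))
  · push_cast
    nlinarith
  · obtain ⟨π, hπ⟩ := hS.res_perm g
    exact ⟨π i, hI i hi ⟨g, hπ i⟩, hπ i⟩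
  · have := Subgroup.sSup_normal {W : Subgroup G | W.Normal ∧
      W ≤ ⁅opr r D, jn (fun i => res (K i)) I⁆ ∧ ∀ w ∈ W, w ^ r ^ m = 1} fun _ hW => hW.1
    refine comm_jn_le fun i hi => ?_
    have := jn_normal (orbL_inv hS i)
    exact (Subgroup.commutator_mono le_rfl
      (le_jn (Λ := fun i => res (K i)) (J := orbL K i) ⟨1, cj_one _⟩)).trans
      (le_sSup ⟨inferInstance, Subgroup.commutator_mono le_rfl
        (jn_mono (hI i hi) fun _ _ => le_rfl), hi.2⟩)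
  · nlinarith

theorem main_good (M C : ℕ) : ∃ C' : ℕ, ∀ (G : Type) [Group G] [Finite G] (ι : Type) [Finite ι]
    (D R E : Subgroup G) (K : ι → Subgroup G) (k : ℕ), GS M D R K → Group.IsSolvable D →
    Good C D R K → R ≤ E → (∀ i, K i ≤ E) → C' * k ^ C' ≤ Nat.card ι →
    k * nord (R : Set G) ≤ om (E : Set G) := by
  obtain ⟨c, hc⟩ : ∃ c, c = C + 1 := ⟨_, rfl⟩
  obtain ⟨B, hB⟩ : ∃ B, B = c ^ 7 * (256 * c) ^ c * (2704 * c) ^ (8 * c) := ⟨_, rfl⟩
  refine ⟨M.factorial + 2 * B ^ 2 + 32 * c, fun G _ _ ι _ D R E K k hS hD hG hR hK hn => ?_⟩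
  rcases Nat.eq_zero_or_pos k with rfl | hk
  · simp
  have hG' : Good c D R K := hG.mono (by omega)
  have e1 : c ^ 7 * (256 * c) ^ c * (2704 * c * k ^ 2) ^ (8 * c) = B * k ^ (16 * c) := by
    rw [hB, mul_pow (2704 * c), ← pow_mul, show 2 * (8 * c) = 16 * c by ring, ← mul_assoc]
  by_contra hcon
  have h0 : ¬ k * nord (R : Set G) ≤ om (R : Set G) := fun h => hcon (h.trans (om_mono hR))
  have h1 : {i | ∀ q : ℕ, q.Prime → ⁅opr q D, res (K i)⁆ = ⊥}.ncard ≤ M.factorial * k := by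
    by_contra h2
    have h3 := (Nat.mul_le_mul_right _ (not_le.1 h2).le).trans (s0 hS hD hR hK)
    rw [mul_assoc] at h3
    exact hcon (Nat.le_of_mul_le_mul_left h3 M.factorial_pos)
  have h2 : ∀ r : ℕ, r.Prime → (tp r D K).Nonempty → r < B * k ^ (16 * c) := fun r hr hne => by
    obtain ⟨l, N, hN, e, h⟩ := exists_ser hG' hr
    exact not_le.1 fun h3 => h0 (h.caseA hS hD hG' hr (by omega) hk hne (e1 ▸ h3))
  have h3 : ∀ r : ℕ, r.Prime → (tp r D K).ncard < 2 * (B * k ^ (16 * c)) := fun r hr => by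
    obtain ⟨l, N, hN, e, h⟩ := exists_ser hG' hr
    exact not_le.1 fun h3 => h0 (h.caseB hS hD hG' hr (by omega) hk (e1 ▸ h3))
  have h4 : ∀ t : ℕ, {i | ∃ r < t, r.Prime ∧ i ∈ tp r D K}.ncard + t ≤
      t * (2 * (B * k ^ (16 * c))) := fun t => by
    have hpos := h3 2 Nat.prime_two
    induction t with
    | zero => simp
    | succ t ih =>
      have h5 : {i | ∃ r < t + 1, r.Prime ∧ i ∈ tp r D K} ⊆
          {i | ∃ r < t, r.Prime ∧ i ∈ tp r D K} ∪ {i | t.Prime ∧ i ∈ tp t D K} := by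
        rintro i ⟨r, h6, h7⟩
        rcases Nat.lt_succ_iff_lt_or_eq.1 h6 with h8 | rfl
        exacts [Or.inl ⟨r, h8, h7⟩, Or.inr h7]
      have h6 : {i | t.Prime ∧ i ∈ tp t D K}.ncard < 2 * (B * k ^ (16 * c)) := by
        by_cases ht : t.Prime
        · exact lt_of_le_of_lt (Set.ncard_le_ncard fun i hi => hi.2) (h3 t ht)
        · simp only [ht, false_and, Set.ofPred_false, Set.ncard_empty]
          omega
      have h7 := (Set.ncard_le_ncard h5).trans (Set.ncard_union_le _ _)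
      rw [add_mul t 1]
      omega
  have h5 : (Set.univ : Set ι) ⊆ {i | ∀ q : ℕ, q.Prime → ⁅opr q D, res (K i)⁆ = ⊥} ∪
      {i | ∃ r < B * k ^ (16 * c), r.Prime ∧ i ∈ tp r D K} := by
    intro i _
    refine or_iff_not_imp_left.2 fun h6 => ?_
    obtain ⟨q, hq, h7⟩ : ∃ q : ℕ, q.Prime ∧ ⁅opr q D, res (K i)⁆ ≠ ⊥ := by
      by_contra h8
      exact h6 fun q hq => not_not.1 fun h9 => h8 ⟨q, hq, h9⟩
    obtain ⟨r, hr, h8⟩ := exists_tp hq h7
    exact ⟨r, h2 r hr ⟨i, h8⟩, hr, h8⟩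
  have h6 := (Set.ncard_le_ncard h5).trans (Set.ncard_union_le _ _)
  rw [Set.ncard_univ] at h6
  have h7 := h4 (B * k ^ (16 * c))
  have h8 := h3 2 Nat.prime_two
  have h9 : B * k ^ (16 * c) * (2 * (B * k ^ (16 * c))) = 2 * B ^ 2 * k ^ (32 * c) := by ring
  have h10 : k ^ (32 * c) ≤ k ^ (M.factorial + 2 * B ^ 2 + 32 * c) :=
    Nat.pow_le_pow_right hk (by omega)
  have h11 : k ≤ k ^ (M.factorial + 2 * B ^ 2 + 32 * c) := Nat.le_self_pow (by omega) k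
  have h12 := Nat.mul_le_mul_left M.factorial h11
  have h13 := Nat.mul_le_mul_left (2 * B ^ 2) h10
  rw [add_mul, add_mul] at hn
  omega

end Pool.Agent.Lib.MP_634dc6_al
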