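import Pool.Agent.Lib.MP_634dc6_al.ModF
import Pool.Agent.Lib.MP_634dc6_al.MinN

/-!
A minimal invariant subgroup on which perfect groups act has many conjugacy classes.
-/

namespace Pool.Agent.Lib.MP_634dc6_al

variable {G : Type} [Group G] [Finite G] {ι : Type} [Finite ι] {M : ℕ} {V W : Subgroup G}
  {Λ : ι → Subgroup G}

theorem moda_iUnion {R I : Type} [Finite I] (S : I → Set R) (B : ℕ)
    (h : ∀ i, (S i).ncard ≤ B) : (⋃ i, S i).ncard ≤ Nat.card I * B := by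
  have := Fintype.ofFinite I
  refine (Set.ncard_iUnion_le_of_fintype S).trans ?_
  calc ∑ i, (S i).ncard ≤ ∑ _i : I, B := Finset.sum_le_sum fun i _ => h i
    _ = Nat.card I * B := by simp [Nat.card_eq_fintype_card]

theorem moda_count {R : Type} [Monoid R] [Finite R] (T Γ : Set R) (q : ℕ)
    (hq : {f : R | ∀ t ∈ T, f * t = t * f}.ncard ≤ q) (hu : ∀ γ ∈ Γ, IsUnit γ)
    (hT : ∀ γ ∈ Γ, ∀ t ∈ T, ∃ t' ∈ T, γ * t = t' * γ) :
    Γ.ncard ≤ T.ncard ^ T.ncard * q := by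
  let F : (T → T) → Set R := fun φ => {γ | γ ∈ Γ ∧ ∀ t : T, γ * t = φ t * γ}
  have h1 : Γ ⊆ ⋃ φ, F φ := by
    intro γ hγ
    choose φ hφ hφ' using hT γ hγ
    exact Set.mem_iUnion.2 ⟨fun t => ⟨φ t t.2, hφ t t.2⟩, hγ, fun t => hφ' t t.2⟩
  have h2 : ∀ φ, (F φ).ncard ≤ q := by
    intro φ
    rcases (F φ).eq_empty_or_nonempty with he | ⟨γ0, h0⟩
    · rw [he]
      simp
    · obtain ⟨u, rfl⟩ := hu γ0 h0.1
      refine le_trans (Set.ncard_le_ncard_of_injOn (fun γ => (↑u⁻¹ : R) * γ) ?_ ?_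
        (Set.toFinite _)) hq
      · intro γ hγ t ht
        have e1 : γ * t = φ ⟨t, ht⟩ * γ := hγ.2 ⟨t, ht⟩
        have e2 : (u : R) * t = φ ⟨t, ht⟩ * u := h0.2 ⟨t, ht⟩
        have e3 : (↑u⁻¹ : R) * φ ⟨t, ht⟩ = t * ↑u⁻¹ := by
          calc (↑u⁻¹ : R) * φ ⟨t, ht⟩ = ↑u⁻¹ * (φ ⟨t, ht⟩ * u) * ↑u⁻¹ := by
                simp [mul_assoc]
            _ = ↑u⁻¹ * ((u : R) * t) * ↑u⁻¹ := by rw [e2]
            _ = t * ↑u⁻¹ := by simp [← mul_assoc]
        calc (↑u⁻¹ : R) * γ * t = ↑u⁻¹ * (γ * t) := by rw [mul_assoc]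
          _ = ↑u⁻¹ * φ ⟨t, ht⟩ * γ := by rw [e1, mul_assoc]
          _ = t * (↑u⁻¹ * γ) := by rw [e3, mul_assoc]
      · intro a _ b _ hab
        exact (Units.mul_right_inj u⁻¹).1 hab
  calc Γ.ncard ≤ (⋃ φ, F φ).ncard := Set.ncard_le_ncard h1 (Set.toFinite _)
    _ ≤ Nat.card (T → T) * q := moda_iUnion F q h2
    _ = T.ncard ^ T.ncard * q := by rw [Nat.card_fun, Nat.card_coe_set_eq]

omit [Finite G] in
theorem moda_exists (W : Subgroup G) (hc : ∀ a ∈ W, ∀ b ∈ W, a * b = b * a) :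
    ∃ (A : Type) (_ : AddCommGroup A) (e : A → G) (E : G → Module.End ℤ A),
      Function.Injective e ∧ Set.range e = W ∧ (∀ a b, e (a + b) = e a * e b) ∧
      ∀ g, (∀ w ∈ W, g * w * g⁻¹ ∈ W) → ∀ a, e (E g a) = g * e a * g⁻¹ := by
  classical
  let _ : CommGroup W :=
    { (inferInstance : Group W) with
      mul_comm := fun a b => Subtype.ext (hc a a.2 b b.2) }
  let f : ∀ g : G, (∀ w ∈ W, g * w * g⁻¹ ∈ W) → (Additive W →+ Additive W) := fun g hg =>
    AddMonoidHom.mk' (fun a => Additive.ofMul ⟨g * (a.toMul : G) * g⁻¹, hg _ a.toMul.2⟩) (by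
      intro a b
      apply Additive.toMul.injective
      apply Subtype.ext
      change g * ((a.toMul : G) * (b.toMul : G)) * g⁻¹ =
        g * (a.toMul : G) * g⁻¹ * (g * (b.toMul : G) * g⁻¹)
      group)
  refine ⟨Additive W, inferInstance, fun a => (a.toMul : G),
    fun g => if hg : ∀ w ∈ W, g * w * g⁻¹ ∈ W then (f g hg).toIntLinearMap else 0,
    ?_, ?_, ?_, ?_⟩
  · intro a b hab
    exact Additive.toMul.injective (Subtype.ext hab)
  · ext x
    constructor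
    · rintro ⟨a, rfl⟩
      exact a.toMul.2
    · intro hx
      exact ⟨Additive.ofMul ⟨x, hx⟩, rfl⟩
  · intro a b
    rfl
  · intro g hg a
    simp only [dif_pos hg]
    rfl

omit [Finite ι] in
theorem moda_norm (hW : MinI Λ W)
    (hperm : ∀ g : G, ∃ π : Equiv.Perm ι, ∀ i, cj g (Λ i) = Λ (π i)) {w g : G} (hw : w ∈ W)
    (h1 : w ≠ 1) (hg : g * w * g⁻¹ ∈ W) : cj g W = W := by
  have hW' := hW.cj hperm g
  have hU : Inva Λ (W ⊓ cj g W) := fun i l hl u hu =>
    ⟨hW.1 i l hl u hu.1, hW'.1 i l hl u hu.2⟩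
  have hne : W ⊓ cj g W ≠ ⊥ := by
    intro hb
    have hm : g * w * g⁻¹ ∈ W ⊓ cj g W := ⟨hg, conj_mem_cj g hw⟩
    rw [hb, Subgroup.mem_bot] at hm
    apply h1
    calc w = g⁻¹ * (g * w * g⁻¹) * g := by group
      _ = 1 := by rw [hm]; group
  have e1 := (hW.2.2 _ hU inf_le_left).resolve_left hne
  have e2 := (hW'.2.2 _ hU inf_le_right).resolve_left hne
  exact e2.symm.trans e1

theorem moda_image {β : Type} (C L : Subgroup G) (E : G → β)
    (hE : ∀ a ∈ L, ∀ b ∈ L, a⁻¹ * b ∈ C → E a = E b) : (E '' L).ncard ≤ C.relIndex L := by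
  have h1 : E '' L ⊆ Set.range (fun x : L ⧸ C.subgroupOf L => E (x.out : L)) := by
    rintro _ ⟨a, ha, rfl⟩
    refine ⟨QuotientGroup.mk (⟨a, ha⟩ : L), ?_⟩
    have h2 : (QuotientGroup.mk (QuotientGroup.mk (⟨a, ha⟩ : L) : L ⧸ C.subgroupOf L).out :
        L ⧸ C.subgroupOf L) = QuotientGroup.mk (⟨a, ha⟩ : L) := QuotientGroup.out_eq' _
    rw [QuotientGroup.eq, Subgroup.mem_subgroupOf] at h2
    exact hE _ (Subtype.property _) _ ha h2
  refine (Set.ncard_le_ncard h1 (Set.finite_range _)).trans ?_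
  rw [← Set.image_univ]
  refine (Set.ncard_image_le (Set.toFinite _)).trans ?_
  rw [Set.ncard_univ]
  exact le_of_eq rfl

/-- Apply `mod_field` to `Additive ↥W` (a commutative group since `W ≤ V`), the index type
`↥(actv W Λ)` and the sets `S i` of endomorphisms induced by conjugation with elements of `Λ i`
(`Subgroup.normalizerMonoidHom`, or by hand). `S i` has at most `M` elements, since elements in one
coset of the centraliser of `V` induce the same map. If `S i` were commutative then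
`⁅⁅Λ i, Λ i⁆, W⁆ = ⊥`. Orbits: if `w ≠ 1` and `g w g⁻¹ ∈ W` then `W ⊓ cj g W` is invariant and
nontrivial, so `g` normalises `W` (`MinI.cj`). Conjugation by the induced automorphism `γ` maps
`T = ⋃ i, S i` (at most `σ M` elements) to itself; two such `γ` that induce the same map `T → T`
differ by an element of the centraliser of `T`. -/
theorem mod_lin (h : MS M V Λ) (hWV : W ≤ V) (hW : MinI Λ W) :
    ∃ q x : ℕ, 2 ≤ q ∧ Nat.card W = q ^ x ∧ 2 ^ (actv W Λ).ncard ≤ x ^ 2 ∧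
      ∀ w ∈ W, {b | b ∈ (W : Set G) ∧ IsConj w b}.ncard ≤
        ((actv W Λ).ncard * M) ^ ((actv W Λ).ncard * M) * q := by
  have hcomm : ∀ a ∈ W, ∀ b ∈ W, a * b = b * a := fun a ha b hb =>
    (comm_eq_bot_iff.1 h.ab a (hWV ha) b (hWV hb)).eq
  obtain ⟨A, _, e, E, hinj, hrange, hadd, hE⟩ := moda_exists W hcomm
  have heW : ∀ a, e a ∈ W := fun a => by
    have : e a ∈ Set.range e := ⟨a, rfl⟩
    rw [hrange] at this
    exact this
  have hsurj : ∀ w ∈ W, ∃ a, e a = w := fun w hw => by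
    have : w ∈ Set.range e := by
      rw [hrange]
      exact hw
    exact this
  have he0 : e 0 = 1 := by
    have := hadd 0 0
    rw [add_zero] at this
    exact (mul_eq_left.1 this.symm)
  have heneg : ∀ a, e (-a) = (e a)⁻¹ := fun a => by
    have := hadd a (-a)
    rw [add_neg_cancel, he0] at this
    exact (eq_inv_of_mul_eq_one_right this.symm)
  have : Finite A := Finite.of_injective e hinj
  have hcardA : Nat.card A = Nat.card W := by
    rw [← Nat.card_range_of_injective hinj, hrange]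
    rfl
  have : Nontrivial A := by
    obtain ⟨⟨w, hw⟩, hw1⟩ := (Subgroup.ne_bot_iff_exists_ne_one).1 hW.2.1
    obtain ⟨a, rfl⟩ := hsurj w hw
    refine ⟨⟨a, 0, fun h0 => hw1 (Subtype.ext ?_)⟩⟩
    change e a = 1
    rw [h0, he0]
  -- normalising elements
  let Nm : G → Prop := fun g => ∀ w ∈ W, g * w * g⁻¹ ∈ W
  have hNmul : ∀ a b, Nm a → Nm b → Nm (a * b) := fun a b ha hb w hw => by
    have := ha _ (hb w hw)
    convert this using 1
    group
  have hNΛ : ∀ i, ∀ l ∈ Λ i, Nm l := fun i l hl => hW.1 i l hl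
  have hEmul : ∀ a b, Nm a → Nm b → E (a * b) = E a * E b := fun a b ha hb => by
    refine LinearMap.ext fun u => hinj ?_
    rw [Module.End.mul_apply, hE _ (hNmul a b ha hb), hE _ ha, hE _ hb]
    group
  have hEone : E 1 = 1 := by
    refine LinearMap.ext fun u => hinj ?_
    rw [hE 1 (fun w hw => by simpa using hw), Module.End.one_apply]
    group
  have hEeq : ∀ a b, Nm a → Nm b → (E a = E b ↔ ∀ w ∈ W, a * w * a⁻¹ = b * w * b⁻¹) := by
    intro a b ha hb
    constructor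
    · intro hab w hw
      obtain ⟨u, rfl⟩ := hsurj w hw
      rw [← hE a ha, ← hE b hb, hab]
    · intro hab
      refine LinearMap.ext fun u => hinj ?_
      rw [hE a ha, hE b hb, hab _ (heW u)]
  let S : actv W Λ → Set (Module.End ℤ A) := fun i => E '' (Λ i)
  have hc : ∀ i j, i ≠ j → ∀ s ∈ S i, ∀ t ∈ S j, s * t = t * s := by
    rintro i j hij _ ⟨a, ha, rfl⟩ _ ⟨b, hb, rfl⟩
    have hna := hNΛ _ a ha
    have hnb := hNΛ _ b hb
    rw [← hEmul a b hna hnb, ← hEmul b a hnb hna,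
      hEeq _ _ (hNmul a b hna hnb) (hNmul b a hnb hna)]
    intro w hw
    have hcen := comm_le_iff.1 (h.comm i j (fun hh => hij (Subtype.ext hh))) a ha b hb
    have hv : b * a * w * (b * a)⁻¹ ∈ V := hWV (hNmul b a hnb hna w hw)
    have := Subgroup.mem_centralizer_iff.1 hcen _ hv
    calc a * b * w * (a * b)⁻¹
        = (a * b * a⁻¹ * b⁻¹) * (b * a * w * (b * a)⁻¹) * (a * b * a⁻¹ * b⁻¹)⁻¹ := by group
      _ = b * a * w * (b * a)⁻¹ := by rw [← this]; group
  have hn : ∀ i, ∃ a ∈ S i, ∃ b ∈ S i, a * b ≠ b * a := by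
    intro i
    by_contra hcon
    push Not at hcon
    apply i.2
    have hle : ⁅Λ i, Λ i⁆ ≤ Subgroup.centralizer (W : Set G) := by
      refine comm_le_iff.2 fun a ha b hb => Subgroup.mem_centralizer_iff.2 fun w hw => ?_
      have hna := hNΛ _ a ha
      have hnb := hNΛ _ b hb
      have h1 := hcon _ ⟨a, ha, rfl⟩ _ ⟨b, hb, rfl⟩
      rw [← hEmul a b hna hnb, ← hEmul b a hnb hna,
        hEeq _ _ (hNmul a b hna hnb) (hNmul b a hnb hna)] at h1
      have hw' : a⁻¹ * (b⁻¹ * w * b⁻¹⁻¹) * a⁻¹⁻¹ ∈ W :=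
        hNΛ _ _ ((Λ i).inv_mem ha) _ (hNΛ _ _ ((Λ i).inv_mem hb) _ hw)
      have h2 := h1 _ hw'
      calc w * (a * b * a⁻¹ * b⁻¹)
          = b * a * (a⁻¹ * (b⁻¹ * w * b⁻¹⁻¹) * a⁻¹⁻¹) * (b * a)⁻¹ * (a * b * a⁻¹ * b⁻¹) := by
            group
        _ = a * b * a⁻¹ * b⁻¹ * w := by rw [← h2]; group
    rw [h.perf] at hle
    exact comm_eq_bot_iff.2 fun w hw l hl => Subgroup.mem_centralizer_iff.1 (hle hl) w hw
  have hirr : ∀ U : Submodule ℤ A, (∀ i, ∀ s ∈ S i, ∀ u ∈ U, s u ∈ U) → U = ⊥ ∨ U = ⊤ := by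
    intro U hU
    let U' : Subgroup G :=
      { carrier := e '' U
        mul_mem' := by
          rintro _ _ ⟨a, ha, rfl⟩ ⟨b, hb, rfl⟩
          exact ⟨a + b, U.add_mem ha hb, hadd a b⟩
        one_mem' := ⟨0, U.zero_mem, he0⟩
        inv_mem' := by
          rintro _ ⟨a, ha, rfl⟩
          exact ⟨-a, U.neg_mem ha, heneg a⟩ }
    have hinv : Inva Λ U' := by
      rintro i l hl _ ⟨u, hu, rfl⟩
      by_cases hi : i ∈ actv W Λ
      · exact ⟨E l u, hU ⟨i, hi⟩ _ ⟨l, hl, rfl⟩ u hu, hE l (hNΛ i l hl) u⟩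
      · have hb : ⁅W, Λ i⁆ = ⊥ := by
          by_contra hb
          exact hi hb
        have hcm := (comm_eq_bot_iff.1 hb (e u) (heW u) l hl).eq
        refine ⟨u, hu, ?_⟩
        rw [← hcm]
        group
    have hle : U' ≤ W := by
      rintro _ ⟨u, _, rfl⟩
      exact heW u
    rcases hW.2.2 U' hinv hle with h0 | h0
    · left
      refine (Submodule.eq_bot_iff _).2 fun u hu => hinj ?_
      have hm : e u ∈ U' := ⟨u, hu, rfl⟩
      rw [h0, Subgroup.mem_bot] at hm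
      rw [hm, he0]
    · right
      refine Submodule.eq_top_iff'.2 fun u => ?_
      have hm : e u ∈ U' := by
        rw [h0]
        exact heW u
      obtain ⟨u', hu', hee⟩ := hm
      rw [← hinj hee]
      exact hu'
  obtain ⟨q, x, hq, hcard, hx, hcent⟩ := mod_field S hc hn hirr
  rw [Nat.card_coe_set_eq] at hx
  refine ⟨q, x, hq, hcardA ▸ hcard, hx, fun w hw => ?_⟩
  have hpos : ∀ n : ℕ, 1 ≤ n ^ n := fun n => by
    rcases Nat.eq_zero_or_pos n with rfl | hn0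
    · simp
    · exact Nat.one_le_pow _ _ hn0
  by_cases hw1 : w = 1
  · subst hw1
    have hsub : {b | b ∈ (W : Set G) ∧ IsConj 1 b} ⊆ {1} := fun b hb => by
      have := hb.2
      rw [isConj_one_right] at this
      exact this
    refine (Set.ncard_le_ncard hsub (Set.toFinite _)).trans ?_
    rw [Set.ncard_singleton]
    exact Nat.one_le_iff_ne_zero.2 (Nat.mul_ne_zero (Nat.one_le_iff_ne_zero.1 (hpos _))
      (by omega))
  have : Finite (Module.End ℤ A) := Finite.of_injective _ DFunLike.coe_injective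
  let T : Set (Module.End ℤ A) := ⋃ i, S i
  have hS : ∀ i, (S i).ncard ≤ M := fun i => by
    refine le_trans (moda_image (Subgroup.centralizer (V : Set G)) (Λ i) E ?_) (h.idx i)
    intro a ha b hb hab
    rw [hEeq a b (hNΛ _ a ha) (hNΛ _ b hb)]
    intro u hu
    have := Subgroup.mem_centralizer_iff.1 hab u (hWV hu)
    calc a * u * a⁻¹ = a * (u * (a⁻¹ * b)) * b⁻¹ := by group
      _ = b * u * b⁻¹ := by rw [this]; group
  have hT : T.ncard ≤ (actv W Λ).ncard * M := by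
    have := moda_iUnion S M hS
    rwa [Nat.card_coe_set_eq] at this
  let Γ : Set (Module.End ℤ A) := E '' {g | cj g W = W}
  have hNcj : ∀ g, cj g W = W → Nm g := fun g hg u hu => by
    rw [← hg]
    exact conj_mem_cj g (hg ▸ hu)
  have hcjinv : ∀ g, cj g W = W → cj g⁻¹ W = W := fun g hg => by
    have := cj_mul g⁻¹ g W
    rw [inv_mul_cancel, cj_one, hg] at this
    exact this.symm
  have hΓ : Γ.ncard ≤ T.ncard ^ T.ncard * q := by
    refine moda_count T Γ q (le_trans (le_of_eq ?_) hcent) ?_ ?_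
    · congr 1
      ext f
      simp only [T, Set.mem_ofPred_eq, Set.mem_iUnion]
      exact ⟨fun hf i s hs => hf s ⟨i, hs⟩, fun hf t ⟨i, ht⟩ => hf i t ht⟩
    · rintro _ ⟨g, hg, rfl⟩
      have h1 := hNcj g hg
      have h2 := hNcj g⁻¹ (hcjinv g hg)
      exact ⟨⟨E g, E g⁻¹, by rw [← hEmul _ _ h1 h2, mul_inv_cancel, hEone],
        by rw [← hEmul _ _ h2 h1, inv_mul_cancel, hEone]⟩, rfl⟩
    · rintro _ ⟨g, hg, rfl⟩ t ht
      obtain ⟨i, l, hl, rfl⟩ := Set.mem_iUnion.1 ht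
      obtain ⟨π, hπ⟩ := h.perm g
      have hg' : cj g W = W := hg
      have hi : π i ∈ actv W Λ := by
        intro hb
        apply i.2
        rw [← cj_eq_bot (g := g), cj_commutator, hg', hπ]
        exact hb
      have hl' : g * l * g⁻¹ ∈ Λ (π i) := by
        rw [← hπ]
        exact conj_mem_cj g hl
      refine ⟨E (g * l * g⁻¹), Set.mem_iUnion.2 ⟨⟨π i, hi⟩, _, hl', rfl⟩, ?_⟩
      rw [← hEmul _ _ (hNcj g hg) (hNΛ _ l hl), ← hEmul _ _ (hNΛ _ _ hl') (hNcj g hg)]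
      congr 1
      group
  obtain ⟨a0, rfl⟩ := hsurj w hw
  have hsub : {b | b ∈ (W : Set G) ∧ IsConj (e a0) b} ⊆
      (fun γ : Module.End ℤ A => e (γ a0)) '' Γ := by
    rintro b ⟨hb, hcj⟩
    obtain ⟨g, rfl⟩ := isConj_iff.1 hcj
    have hg := moda_norm hW h.perm hw hw1 hb
    exact ⟨E g, ⟨g, hg, rfl⟩, hE g (hNcj g hg) a0⟩
  refine (Set.ncard_le_ncard hsub (Set.toFinite _)).trans
    ((Set.ncard_image_le (Set.toFinite _)).trans (hΓ.trans (Nat.mul_le_mul_right _ ?_)))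
  rcases Nat.eq_zero_or_pos T.ncard with h0 | h0
  · rw [h0]
    exact hpos _
  · exact (Nat.pow_le_pow_left hT _).trans (Nat.pow_le_pow_right (h0.trans_le hT) hT)

/-- `mod_lin`, `ncard_le_om_mul`, `mod_num`. As `σ ≥ 1` we have `x ≥ 2`; `p ∣ q ^ x` gives `p ≤ q`,
and `q ^ x = q * q * q ^ (x - 2) ≥ q * p * 2 ^ (x - 2)`. -/
theorem mod_A (M : ℕ) : ∃ C : ℕ, ∀ (G : Type) [Group G] [Finite G] (ι : Type) [Finite ι] (p : ℕ)
    (V W : Subgroup G) (Λ : ι → Subgroup G), p.Prime → IsPGroup p V → MS M V Λ → W ≤ V →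
    MinI Λ W → (actv W Λ).Nonempty → p * (actv W Λ).ncard ≤ C * om (W : Set G) := by
  obtain ⟨C, hC⟩ := mod_num M
  refine ⟨C, fun G _ _ ι _ p V W Λ hp hpV h hWV hW hne => ?_⟩
  obtain ⟨q, x, hq, hcard, hx, horb⟩ := mod_lin h hWV hW
  have hσ : 1 ≤ (actv W Λ).ncard := (Set.ncard_pos (Set.toFinite _)).2 hne
  have hx2 : 2 ≤ x := by
    by_contra hlt
    have h1 : x ^ 2 ≤ 1 := by
      have : x ≤ 1 := by omega
      calc x ^ 2 ≤ 1 ^ 2 := Nat.pow_le_pow_left this 2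
        _ = 1 := by norm_num
    have h2 : 2 ^ 1 ≤ 2 ^ (actv W Λ).ncard := Nat.pow_le_pow_right (by norm_num) hσ
    omega
  have : Fact p.Prime := ⟨hp⟩
  have hpq : p ≤ q := by
    have hpW : IsPGroup p W := hpV.to_le hWV
    have hdv : p ∣ Nat.card W := by
      rcases hpW.card_eq_or_dvd with h1 | h1
      · exact absurd (Subgroup.eq_bot_of_card_eq W h1) hW.2.1
      · exact h1
    rw [hcard] at hdv
    exact Nat.le_of_dvd (by omega) (hp.dvd_of_dvd_pow hdv)
  have h1 := ncard_le_om_mul (W : Set G) _ horb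
  have h2 : (W : Set G).ncard = q ^ x := by
    rw [← hcard, ← Nat.card_coe_set_eq]
    rfl
  rw [h2] at h1
  have h3 := hC _ x hx
  obtain ⟨y, rfl⟩ : ∃ y, x = y + 2 := ⟨x - 2, by omega⟩
  rw [Nat.add_sub_cancel] at h3
  generalize (actv W Λ).ncard = σ at h1 h3 ⊢
  generalize (σ * M) ^ (σ * M) = B at h1 h3
  generalize om (W : Set G) = ω at h1 ⊢
  have h4 : p * 2 ^ y * q ≤ ω * B * q := by
    calc p * 2 ^ y * q ≤ q * q ^ y * q :=
          Nat.mul_le_mul_right _ (Nat.mul_le_mul hpq (Nat.pow_le_pow_left hq y))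
      _ = q ^ (y + 2) := by ring
      _ ≤ ω * (B * q) := h1
      _ = ω * B * q := by ring
  have h5 : p * 2 ^ y ≤ ω * B := Nat.le_of_mul_le_mul_right h4 (by omega)
  have h6 : p * σ * 2 ^ y ≤ C * ω * 2 ^ y := by
    calc p * σ * 2 ^ y = σ * (p * 2 ^ y) := by ring
      _ ≤ σ * (ω * B) := Nat.mul_le_mul_left _ h5
      _ = ω * (σ * B) := by ring
      _ ≤ ω * (C * 2 ^ y) := Nat.mul_le_mul_left _ h3
      _ = C * ω * 2 ^ y := by ring
  exact Nat.le_of_mul_le_mul_right h6 (by positivity)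

/-- `mod_lin`, `lt_two_pow_of_sq`. -/
theorem ncard_actv_lt (h : MS M V Λ) (hWV : W ≤ V) (hW : MinI Λ W) :
    (actv W Λ).ncard < Nat.card W := by
  obtain ⟨q, x, hq, hcard, hx, -⟩ := mod_lin h hWV hW
  rw [hcard]
  exact (lt_two_pow_of_sq hx).trans_le (Nat.pow_le_pow_left hq x)

/-- `mod_lin`: `x ^ 2 ≤ 4 ^ x`. -/
theorem two_pow_actv_le (h : MS M V Λ) (hWV : W ≤ V) (hW : MinI Λ W) :
    2 ^ (actv W Λ).ncard ≤ Nat.card W ^ 2 := by
  obtain ⟨q, x, hq, hcard, hx, -⟩ := mod_lin h hWV hW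
  rw [hcard]
  exact hx.trans (Nat.pow_le_pow_left
    ((Nat.lt_two_pow_self (n := x)).le.trans (Nat.pow_le_pow_left hq x)) 2)

end Pool.Agent.Lib.MP_634dc6_al
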