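import Pool.Agent.Lib.MP_634dc6_al.Defs

/-!
Commuting noncommutative sets of endomorphisms of a simple module force a large dimension.
-/

namespace Pool.Agent.Lib.MP_634dc6_al

theorem modf_kill {F W : Type} [Field F] [AddCommGroup W] [Module F W] {ι : Type}
    (T : ι → Set (Module.End F W)) (hc : ∀ i j, i ≠ j → ∀ s ∈ T i, ∀ t ∈ T j, s * t = t * s)
    (hirr : ∀ U : Submodule F W, (∀ i, ∀ s ∈ T i, ∀ u ∈ U, s u ∈ U) → U = ⊥ ∨ U = ⊤) {i : ι}
    {a b β : Module.End F W} (ha : a ∈ T i) (hb : b ∈ T i) (hab : a * b ≠ b * a)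
    (hβ : ∀ s ∈ T i, β * s = s * β) (h0 : (a * b - b * a) * β = 0) : β = 0 := by
  have cl : ∀ {γ t : Module.End F W}, (∀ s ∈ T i, γ * s = s * γ) → t ∈ Submonoid.closure (T i) →
      γ * t = t * γ := by
    intro γ t hγ ht
    induction ht using Submonoid.closure_induction with
    | mem x hx => exact hγ x hx
    | one => simp
    | mul x y _ _ hx hy => rw [← mul_assoc, hx, mul_assoc, hy, mul_assoc]
  let U : Submodule F W := ⨅ t : Submonoid.closure (T i), LinearMap.ker ((a * b - b * a) * t.1)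
  have hU : ∀ w, w ∈ U ↔ ∀ t ∈ Submonoid.closure (T i), ((a * b - b * a) * t) w = 0 := fun w => by
    simp only [U, Submodule.mem_iInf, LinearMap.mem_ker, Subtype.forall]
  have hinv : ∀ j, ∀ s ∈ T j, ∀ u ∈ U, s u ∈ U := by
    refine fun j s hs u hu => (hU _).2 fun t ht => ?_
    rw [← Module.End.mul_apply]
    by_cases hj : j = i
    · rw [mul_assoc]
      exact (hU u).1 hu _ (mul_mem ht (Submonoid.subset_closure (hj ▸ hs)))
    · have h1 : ∀ r ∈ T i, Commute s r := fun r hr => hc j i hj s hs r hr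
      have h2 : Commute s ((a * b - b * a) * t) :=
        (((h1 a ha).mul_right (h1 b hb)).sub_right ((h1 b hb).mul_right (h1 a ha))).mul_right
          (cl h1 ht)
      rw [← h2.eq, Module.End.mul_apply, (hU u).1 hu t ht, map_zero]
  rcases hirr U hinv with h | h
  · ext w
    refine (Submodule.mem_bot F).1 (h ▸ (hU _).2 fun t ht => ?_)
    rw [← Module.End.mul_apply, mul_assoc, ← cl hβ ht, ← mul_assoc, h0, zero_mul,
      LinearMap.zero_apply]
  · refine absurd (sub_eq_zero.1 (LinearMap.ext fun w => ?_)) hab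
    simpa using (hU w).1 (h ▸ Submodule.mem_top) 1 (one_mem _)

theorem modf_dim {F W : Type} [Field F] [AddCommGroup W] [Module F W] [Module.Finite F W]
    [Nontrivial W] {ι : Type} [Finite ι] (T : ι → Set (Module.End F W))
    (hc : ∀ i j, i ≠ j → ∀ s ∈ T i, ∀ t ∈ T j, s * t = t * s)
    (hn : ∀ i, ∃ a ∈ T i, ∃ b ∈ T i, a * b ≠ b * a)
    (hirr : ∀ U : Submodule F W, (∀ i, ∀ s ∈ T i, ∀ u ∈ U, s u ∈ U) → U = ⊥ ∨ U = ⊤) :
    2 ^ Nat.card ι ≤ Module.finrank F W ^ 2 := by
  classical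
  have key : ∀ J : Finset ι, ∃ B : Submodule F (Module.End F W),
      Module.finrank F B = 2 ^ J.card ∧ ∀ β ∈ B, ∀ i ∉ J, ∀ s ∈ T i, β * s = s * β := by
    intro J
    induction J using Finset.induction_on with
    | empty =>
      refine ⟨Submodule.span F {1}, by rw [finrank_span_singleton one_ne_zero]; rfl,
        fun β hβ i _ s _ => ?_⟩
      obtain ⟨c, rfl⟩ := Submodule.mem_span_singleton.1 hβ
      simp
    | insert i J hi ih =>
      obtain ⟨B, hB, hB'⟩ := ih
      obtain ⟨a, ha, b, hb, hab⟩ := hn i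
      let φ : (B × B) →ₗ[F] Module.End F W :=
        B.subtype.coprod ((LinearMap.mulLeft F a).comp B.subtype)
      have hφ : ∀ p : B × B, φ p = p.1.1 + a * p.2.1 := fun p => rfl
      have inj : Function.Injective φ := by
        rw [injective_iff_map_eq_zero]
        intro p hp
        rw [hφ] at hp
        have h1 := hB' _ p.1.2 i hi b hb
        have h2 := hB' _ p.2.2 i hi b hb
        have h3 : p.2.1 = 0 := modf_kill T hc hirr ha hb hab (hB' _ p.2.2 i hi) (by
          rw [eq_neg_of_add_eq_zero_left hp, neg_mul, mul_neg, neg_inj] at h1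
          rw [sub_mul, mul_assoc, ← h2, ← mul_assoc, h1, mul_assoc, sub_self])
        rw [h3, mul_zero, add_zero] at hp
        exact Prod.ext (Subtype.ext hp) (Subtype.ext h3)
      refine ⟨LinearMap.range φ, ?_, ?_⟩
      · rw [LinearMap.finrank_range_of_inj inj, Module.finrank_prod, hB,
          Finset.card_insert_of_notMem hi, pow_succ, mul_two]
      · rintro _ ⟨p, rfl⟩ j hj s hs
        rw [Finset.mem_insert, not_or] at hj
        rw [hφ, add_mul, mul_add, hB' _ p.1.2 j hj.2 s hs, mul_assoc, hB' _ p.2.2 j hj.2 s hs,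
          ← mul_assoc, hc i j (Ne.symm hj.1) a ha s hs, mul_assoc]
  have := Fintype.ofFinite ι
  obtain ⟨B, hB, -⟩ := key Finset.univ
  rw [Nat.card_eq_fintype_card, ← Finset.card_univ, ← hB, sq, ← Module.finrank_linearMap]
  exact B.finrank_le

/-- Let `F = Subring.centralizer (⋃ i, S i)`. By Schur (kernel and range of `f ∈ F` are invariant)
`F` is a finite domain, hence a field (`Finite.isDomain_to_isField`, `IsField.toField`), `W` is an
`F`-module, `q = card F`, `x = finrank F W` (`Module.natCard_eq_pow_finrank`), and all `s ∈ S i` are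
`F`-linear. Show by induction on a finset `J` of indices that there is an `F`-submodule `B` of
`Module.End F W` of dimension `2 ^ card J` whose elements commute with `S i` for all `i ∉ J`. Step:
take `a b ∈ S i` with `lam = a b - b a ≠ 0` and pass to `B ⊔ a B`. If `α + a β = 0` then
`lam β = 0`; the range of `β` lies in `U = {w | ∀ t ∈ Submonoid.closure (S i), lam (t w) = 0}`,
which is invariant under all `S j` and not everything, so `U = ⊥` and `β = 0`. Finally
`finrank F (End F W) = x ^ 2`. -/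
theorem mod_field {W : Type} [AddCommGroup W] [Finite W] [Nontrivial W] {ι : Type} [Finite ι]
    (S : ι → Set (Module.End ℤ W))
    (hc : ∀ i j, i ≠ j → ∀ s ∈ S i, ∀ t ∈ S j, s * t = t * s)
    (hn : ∀ i, ∃ a ∈ S i, ∃ b ∈ S i, a * b ≠ b * a)
    (hirr : ∀ U : Submodule ℤ W, (∀ i, ∀ s ∈ S i, ∀ u ∈ U, s u ∈ U) → U = ⊥ ∨ U = ⊤) :
    ∃ q x : ℕ, 2 ≤ q ∧ Nat.card W = q ^ x ∧ 2 ^ Nat.card ι ≤ x ^ 2 ∧
      {f : Module.End ℤ W | ∀ i, ∀ s ∈ S i, f * s = s * f}.ncard ≤ q := by
  let F := Subring.centralizer (⋃ i, S i)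
  have hF : ∀ (f : F) i, ∀ s ∈ S i, s * f.1 = f.1 * s := fun f i s hs =>
    Subring.mem_centralizer_iff.1 f.2 s (Set.mem_iUnion.2 ⟨i, hs⟩)
  have : Finite (Module.End ℤ W) := DFunLike.finite _
  have : NoZeroDivisors F := ⟨fun {f g} h => by
    rcases hirr (LinearMap.ker f.1) (fun i s hs u hu => by
      rw [LinearMap.mem_ker] at hu ⊢
      rw [← Module.End.mul_apply, ← hF f i s hs, Module.End.mul_apply, hu, map_zero]) with h1 | h1
    · refine Or.inr (Subtype.ext (LinearMap.ext fun w => LinearMap.ker_eq_bot'.1 h1 _ ?_))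
      exact LinearMap.congr_fun (congrArg Subtype.val h) w
    · exact Or.inl (Subtype.ext (LinearMap.ker_eq_top.1 h1))⟩
  have : IsDomain F := NoZeroDivisors.to_isDomain F
  let _ : Field F := (Finite.isDomain_to_isField F).toField
  have : Module.Finite F W := Module.Finite.of_finite
  let T : ι → Set (Module.End F W) := fun i => {t | ∃ s ∈ S i, ∀ w, t w = s w}
  have lift : ∀ i, ∀ s ∈ S i, ∃ t : Module.End F W, ∀ w, t w = s w := fun i s hs =>
    ⟨⟨⟨s, s.map_add⟩, fun f w => LinearMap.congr_fun (hF f i s hs) w⟩, fun _ => rfl⟩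
  refine ⟨Nat.card F, Module.finrank F W, Finite.one_lt_card, Module.natCard_eq_pow_finrank,
    modf_dim T ?_ (fun i => ?_) fun U hU => ?_, le_of_eq ?_⟩
  · rintro i j hij _ ⟨s, hs, e⟩ _ ⟨t, ht, e'⟩
    ext w
    simp only [Module.End.mul_apply, e, e']
    exact LinearMap.congr_fun (hc i j hij s hs t ht) w
  · obtain ⟨a, ha, b, hb, hab⟩ := hn i
    obtain ⟨a', e⟩ := lift i a ha
    obtain ⟨b', e'⟩ := lift i b hb
    refine ⟨a', ⟨a, ha, e⟩, b', ⟨b, hb, e'⟩, fun h => hab (LinearMap.ext fun w => ?_)⟩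
    simpa only [Module.End.mul_apply, e, e'] using LinearMap.congr_fun h w
  · refine (hirr U.toAddSubgroup.toIntSubmodule fun i s hs u hu => ?_).imp (fun h => ?_) fun h => ?_
    · obtain ⟨t, e⟩ := lift i s hs
      exact e u ▸ hU i t ⟨s, hs, e⟩ u hu
    · exact eq_bot_iff.2 fun w hw => h.le hw
    · exact eq_top_iff.2 fun w hw => h.ge hw
  · rw [← Nat.card_coe_set_eq]
    refine Nat.card_congr (Equiv.subtypeEquivRight fun f => ?_)
    rw [Subring.mem_centralizer_iff]
    exact ⟨fun h g hg => (Set.mem_iUnion.1 hg).elim fun i hi => (h i g hi).symm,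
      fun h i s hs => (h s (Set.mem_iUnion.2 ⟨i, hs⟩)).symm⟩

/-- Since `2 ^ σ ≤ x ^ 2`, the right side grows doubly exponentially in `σ`. For instance
`σ * (σ * M) ^ (σ * M) ≤ 2 ^ (σ + (σ * M) ^ 2)` and `(σ + (σ * M) ^ 2 + 2) ^ 2 ≤ 2 ^ σ` for large
`σ`; the finitely many small `σ` go into `C`. -/
theorem mod_num (M : ℕ) : ∃ C : ℕ, ∀ σ x : ℕ, 2 ^ σ ≤ x ^ 2 →
    σ * (σ * M) ^ (σ * M) ≤ C * 2 ^ (x - 2) := by
  have h1 : ∀ σ : ℕ, σ * (σ * M) ^ (σ * M) ≤ 2 ^ (σ + (σ * M) ^ 2) := fun σ => by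
    rw [pow_add, sq, pow_mul 2 (σ * M)]
    exact Nat.mul_le_mul Nat.lt_two_pow_self.le (Nat.pow_le_pow_left Nat.lt_two_pow_self.le _)
  obtain ⟨N, hN⟩ := Filter.eventually_atTop.1
    ((tendsto_pow_const_div_const_pow_of_one_lt 4 (r := 2) one_lt_two).eventually
      (gt_mem_nhds (show (0 : ℝ) < 1 / ((M : ℝ) ^ 2 + 3) ^ 2 by positivity)))
  refine ⟨2 ^ (N + (N * M) ^ 2), fun σ x h => ?_⟩
  rcases le_or_gt σ N with hσ | hσ
  · refine (h1 σ).trans (le_trans ?_ (Nat.le_mul_of_pos_right _ (by positivity)))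
    gcongr
    norm_num
  · refine (h1 σ).trans (le_trans ?_ (Nat.le_mul_of_pos_left _ (by positivity)))
    have h2 := hN σ hσ.le
    rw [div_lt_div_iff₀ (by positivity) (by positivity), one_mul] at h2
    have h3 : σ ^ 4 * (M ^ 2 + 3) ^ 2 ≤ 2 ^ σ := by exact_mod_cast h2.le
    have h4 : σ ^ 2 * (M ^ 2 + 3) ≤ x := by
      refine (pow_le_pow_iff_left₀ (Nat.zero_le _) (Nat.zero_le _) two_ne_zero).1 ?_
      rw [mul_pow, ← pow_mul]
      exact h3.trans h
    have h5 : σ ≤ σ ^ 2 := Nat.le_self_pow two_ne_zero σ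
    refine Nat.pow_le_pow_right two_pos ?_
    rw [mul_add, ← mul_pow] at h4
    omega

theorem lt_two_pow_of_sq {σ x : ℕ} (h : 2 ^ σ ≤ x ^ 2) : σ < 2 ^ x := by
  have h1 : x ^ 2 < 2 ^ (2 * x) := by
    rw [mul_comm, pow_mul]
    exact Nat.pow_lt_pow_left Nat.lt_two_pow_self two_ne_zero
  exact ((Nat.pow_lt_pow_iff_right one_lt_two).1 (h.trans_lt h1)).trans_le
    (Nat.mul_le_pow (by norm_num) x)

end Pool.Agent.Lib.MP_634dc6_al
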