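import Pool.Agent.Lib.MP_634dc6_al.Defs

/-!
Irreducible linear groups: the centre is cyclic, and subgroups of class two have a small central
quotient.
-/

namespace Pool.Agent.Lib.MP_634dc6_al

/-- Elements of a group of units of an algebra with different commutator characters are linearly
independent: `a` is an eigenvector of the conjugation by every `b ∈ E`, with eigenvalue `χ a b`.
Take a shortest nontrivial relation, or `Module.End.eigenspaces_iSupIndep`, or Dedekind style
induction on the finset. -/
theorem linearIndependent_of_char {F A : Type} [Field F] [Ring A] [Nontrivial A] [Algebra F A]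
    {I E : Type} (a : I → Aˣ) (b : E → Aˣ) (χ : I → E → F)
    (h : ∀ i e, (b e : A) * a i = χ i e • ((a i : A) * b e)) (hχ : Function.Injective χ) :
    LinearIndependent F fun i => (a i : A) := by
  classical
  rw [linearIndependent_iff']
  intro s
  induction s using Finset.induction_on with
  | empty => simp
  | insert j s hj ih =>
    intro g hg
    have hs : ∀ i ∈ s, g i = 0 := by
      intro i hi
      have hij : χ i ≠ χ j := fun e => hj (hχ e ▸ hi)
      obtain ⟨e, he⟩ := Function.ne_iff.1 hij
      have h1 : (∑ k ∈ insert j s, (g k * χ k e) • (a k : A)) * b e = 0 := by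
        have := congrArg (fun x => (b e : A) * x) hg
        simp only [Finset.mul_sum, mul_smul_comm, h, mul_zero, smul_smul] at this
        rw [Finset.sum_mul, ← this]
        simp only [smul_mul_assoc]
      have h2 : ∑ k ∈ insert j s, (g k * χ k e) • (a k : A) = 0 :=
        (Units.mul_left_eq_zero _).1 h1
      have h3 : ∑ k ∈ insert j s, (g k * (χ k e - χ j e)) • (a k : A) = 0 := by
        have h4 := congrArg (fun x => χ j e • x) hg
        simp only [Finset.smul_sum, smul_smul, smul_zero] at h4
        simp only [mul_sub, sub_smul, Finset.sum_sub_distrib, h2, mul_comm (g _) (χ j e), h4,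
          sub_zero]
      rw [Finset.sum_insert hj, sub_self, mul_zero, zero_smul, zero_add] at h3
      exact (mul_eq_zero.1 (ih _ h3 i hi)).resolve_right (sub_ne_zero.2 he)
    intro i hi
    rcases Finset.mem_insert.1 hi with rfl | hi
    · rw [Finset.sum_insert hj, Finset.sum_eq_zero fun k hk => by rw [hs k hk, zero_smul],
        add_zero] at hg
      exact (smul_eq_zero.1 hg).resolve_right (a i).ne_zero
    · exact hs i hi

/-- The action on the additive group. -/
def modp_end {Γ W : Type} [Group Γ] [CommGroup W] (ρ : Γ →* MulAut W) :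
    Γ →* Module.End ℤ (Additive W) where
  toFun γ := (MulEquiv.toAdditive (ρ γ)).toAddMonoidHom.toIntLinearMap
  map_one' := by
    ext w
    simp
  map_mul' γ δ := by
    ext w
    simp

theorem modp_end_apply {Γ W : Type} [Group Γ] [CommGroup W] (ρ : Γ →* MulAut W) (γ : Γ)
    (w : Additive W) : modp_end ρ γ w = Additive.ofMul (ρ γ w.toMul) := rfl

open scoped commutatorElement in
theorem modp_main {Γ V : Type} [Group Γ] [Finite Γ] [AddCommGroup V] [Finite V] [Nontrivial V]
    (σ : Γ →* Module.End ℤ V) (hσ : Function.Injective σ)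
    (hirr : ∀ U : Submodule ℤ V, (∀ γ : Γ, ∀ u ∈ U, σ γ u ∈ U) → U = ⊥ ∨ U = ⊤) :
    ∃ x : ℕ, 2 ^ x ≤ Nat.card V ∧ IsCyclic (Subgroup.center Γ) ∧
      Nat.card (Subgroup.center Γ) ≤ Nat.card V ∧
      (∀ z ∈ Subgroup.center Γ, z ≠ 1 → ∀ w : V, σ z w = w → w = 0) ∧
      ∀ E : Subgroup Γ, ⁅E, E⁆ ≤ Subgroup.center Γ →
        (Subgroup.centralizer (E : Set Γ)).relIndex E ≤ x ^ 2 := by
  let F := Subring.centralizer (Set.range σ)
  have hF : ∀ (f : F) γ, σ γ * f.1 = f.1 * σ γ := fun f γ =>
    Subring.mem_centralizer_iff.1 f.2 _ ⟨γ, rfl⟩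
  have : Finite (Module.End ℤ V) := DFunLike.finite _
  have : NoZeroDivisors F := ⟨fun {f g} h => by
    rcases hirr (LinearMap.ker f.1) (fun γ u hu => by
      rw [LinearMap.mem_ker] at hu ⊢
      rw [← Module.End.mul_apply, ← hF f γ, Module.End.mul_apply, hu, map_zero]) with h1 | h1
    · refine Or.inr (Subtype.ext (LinearMap.ext fun w => LinearMap.ker_eq_bot'.1 h1 _ ?_))
      exact LinearMap.congr_fun (congrArg Subtype.val h) w
    · exact Or.inl (Subtype.ext (LinearMap.ker_eq_top.1 h1))⟩
  have : IsDomain F := NoZeroDivisors.to_isDomain F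
  let _ : Field F := (Finite.isDomain_to_isField F).toField
  have : Module.Finite F V := Module.Finite.of_finite
  let τ : Γ →* Module.End F V :=
    { toFun := fun γ => ⟨⟨σ γ, (σ γ).map_add⟩, fun f w => LinearMap.congr_fun (hF f γ) w⟩
      map_one' := LinearMap.ext fun w => LinearMap.congr_fun σ.map_one w
      map_mul' := fun γ δ => LinearMap.ext fun w => LinearMap.congr_fun (σ.map_mul γ δ) w }
  have hc : ∀ z ∈ Subgroup.center Γ, σ z ∈ F := by
    intro z hz
    rw [Subring.mem_centralizer_iff]
    rintro _ ⟨γ, rfl⟩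
    rw [← map_mul, ← map_mul, Subgroup.mem_center_iff.1 hz γ]
  let ζ : Subgroup.center Γ →* F :=
    { toFun := fun z => ⟨σ z, hc z z.2⟩
      map_one' := Subtype.ext σ.map_one
      map_mul' := fun z z' => Subtype.ext (σ.map_mul z z') }
  have hζ : Function.Injective ζ := fun z z' h => Subtype.ext (hσ (congrArg Subtype.val h))
  have hcard : Nat.card V = Nat.card F ^ Module.finrank F V := Module.natCard_eq_pow_finrank
  have hq : 2 ≤ Nat.card F := Finite.one_lt_card
  refine ⟨Module.finrank F V, ?_, isCyclic_of_injective_ringHom ζ hζ, ?_, ?_, ?_⟩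
  · rw [hcard]
    exact Nat.pow_le_pow_left hq _
  · refine (Nat.card_le_card_of_injective ζ hζ).trans ?_
    rw [hcard]
    exact Nat.le_self_pow Module.finrank_pos.ne' _
  · intro z hz h1 w hw
    have h2 : (ζ ⟨z, hz⟩ - 1) • w = 0 := by
      rw [sub_smul, one_smul, sub_eq_zero]
      exact hw
    refine (smul_eq_zero.1 h2).resolve_left fun h3 => h1 ?_
    have h4 : ζ ⟨z, hz⟩ = ζ 1 := by rw [map_one]; exact sub_eq_zero.1 h3
    exact congrArg Subtype.val (hζ h4)
  · intro E hE
    let I := E ⧸ (Subgroup.centralizer (E : Set Γ)).subgroupOf E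
    have hcm : ∀ a b : E, ⁅(a : Γ), (b : Γ)⁆ ∈ Subgroup.center Γ := fun a b =>
      hE (Subgroup.commutator_mem_commutator a.2 b.2)
    have hli := linearIndependent_of_char (F := F) (A := Module.End F V) (I := I) (E := E)
      (fun i => τ.toHomUnits (i.out : E)) (fun e => τ.toHomUnits e)
      (fun i e => ζ ⟨_, hcm e i.out⟩) (fun i e => by
        refine LinearMap.ext fun w => ?_
        have h1 : (e : Γ) * (i.out : E) = ⁅(e : Γ), ((i.out : E) : Γ)⁆ * ((i.out : E) * e) := by
          rw [commutatorElement_def]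
          group
        have h2 := congrArg (fun γ => σ γ w) h1
        simp only [map_mul, Module.End.mul_apply] at h2
        exact h2) (fun i j hij => by
        rw [← i.out_eq', ← j.out_eq', QuotientGroup.eq, Subgroup.mem_subgroupOf,
          Subgroup.mem_centralizer_iff]
        intro e he
        have h1 : ⁅e⁻¹, ((i.out : E) : Γ)⁆ = ⁅e⁻¹, ((j.out : E) : Γ)⁆ :=
          congrArg Subtype.val (hζ (congrFun hij ⟨e⁻¹, inv_mem he⟩))
        rw [commutatorElement_def, commutatorElement_def] at h1
        rw [Subgroup.coe_mul, Subgroup.coe_inv]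
        generalize ((i.out : E) : Γ) = a at h1 ⊢
        generalize ((j.out : E) : Γ) = b at h1 ⊢
        calc e * (a⁻¹ * b) = a⁻¹ * e * (e⁻¹ * a * e⁻¹⁻¹ * a⁻¹) * b := by group
          _ = a⁻¹ * b * e := by rw [h1]; group)
    have := Fintype.ofFinite I
    have h5 := hli.fintype_card_le_finrank
    rw [Module.finrank_linearMap, ← sq, ← Nat.card_eq_fintype_card] at h5
    exact h5

/-- View `Additive W` as a module over the finite field `F` of all endomorphisms that commute with
`ρ Γ` (Schur, `Finite.isDomain_to_isField`; compare `mod_field` in `ModF`), `x = finrank F W`. The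
centre of `Γ` embeds in `Fˣ`. For `E` with central commutators choose representatives `a i` of the
cosets of the centraliser in `E`; `ρ b * ρ a = χ • (ρ a * ρ b)` with `χ = ρ ⁅b, a⁆ ∈ F`, and
different cosets have different `χ`. So there are at most `finrank F (End F W) = x ^ 2` cosets. -/
theorem mod_proj {Γ W : Type} [Group Γ] [Finite Γ] [CommGroup W] [Finite W] [Nontrivial W]
    (ρ : Γ →* MulAut W) (hρ : Function.Injective ρ)
    (hirr : ∀ U : Subgroup W, (∀ γ : Γ, ∀ u ∈ U, ρ γ u ∈ U) → U = ⊥ ∨ U = ⊤) :
    ∃ x : ℕ, 2 ^ x ≤ Nat.card W ∧ IsCyclic (Subgroup.center Γ) ∧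
      Nat.card (Subgroup.center Γ) ≤ Nat.card W ∧
      (∀ z ∈ Subgroup.center Γ, z ≠ 1 → ∀ w : W, ρ z w = w → w = 1) ∧
      ∀ E : Subgroup Γ, ⁅E, E⁆ ≤ Subgroup.center Γ →
        (Subgroup.centralizer (E : Set Γ)).relIndex E ≤ x ^ 2 := by
  have hσ : Function.Injective (modp_end ρ) := by
    intro γ δ h
    apply hρ
    ext w
    exact congrArg Additive.toMul (LinearMap.congr_fun h (Additive.ofMul w))
  obtain ⟨x, h1, h2, h3, h4, h5⟩ := modp_main (modp_end ρ) hσ (fun U hU => by
    refine (hirr (AddSubgroup.toSubgroup U.toAddSubgroup) fun γ u hu => hU γ _ hu).imp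
      (fun h => ?_) fun h => ?_
    · exact eq_bot_iff.2 fun w hw => (h.le (show w.toMul ∈ _ from hw) :)
    · exact eq_top_iff.2 fun w _ => h.ge (Subgroup.mem_top w.toMul))
  exact ⟨x, h1, h2, h3, fun z hz hz1 w hw =>
    h4 z hz hz1 (Additive.ofMul w) (congrArg Additive.ofMul hw), h5⟩

end Pool.Agent.Lib.MP_634dc6_al
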