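import Mathlib

/-!
Lifting the exponent, the divisor bound and growth estimates.
-/

namespace Pool.Agent.Lib.MP_634dc6_al

theorem num_abs {x : ℕ} (hx : 2 ≤ x) (C a : ℕ) : C * x ^ a ≤ x ^ (C + a) := by
  rw [pow_add]
  exact Nat.mul_le_mul_right _ (Nat.lt_two_pow_self.le.trans (Nat.pow_le_pow_left hx C))

theorem num_poly (A k : ℕ) : ∃ C : ℕ, 0 < C ∧ ∀ X : ℕ, A * X ^ k ≤ C * 2 ^ X := by
  obtain ⟨N, hN⟩ := Filter.eventually_atTop.1
    ((tendsto_pow_const_div_const_pow_of_one_lt k (r := (2 : ℝ)) one_lt_two).eventually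
      (gt_mem_nhds one_pos))
  refine ⟨A * N ^ k + A + 1, Nat.succ_pos _, fun X => ?_⟩
  have h0 : 1 ≤ 2 ^ X := Nat.one_le_two_pow
  rcases le_total X N with h | h
  · calc A * X ^ k ≤ A * N ^ k := by gcongr
      _ ≤ (A * N ^ k + A + 1) * 1 := by omega
      _ ≤ _ := by gcongr
  · have h1 := hN X h
    rw [div_lt_one (by positivity)] at h1
    have h2 : X ^ k ≤ 2 ^ X := by exact_mod_cast h1.le
    exact Nat.mul_le_mul (by omega) h2

theorem lte_one {s r f : ℕ} (hs : s.Prime) (hr : 2 ≤ r) (hsr : ¬ s ∣ r) (hf : f ≠ 0) :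
    s ^ (r ^ f - 1).factorization s ≤ r ^ s * s ^ f.factorization s := by
  have := Fact.mk hs
  have hd : ∀ {a b : ℕ}, b ≠ 0 → a ∣ b → a.factorization s ≤ padicValNat s b := fun hb h => by
    rw [← Nat.factorization_def _ hs]
    exact (Nat.factorization_le_iff_dvd (fun h0 => hb (by simpa [h0] using h)) hb).2 h s
  have hp : ∀ {a : ℕ}, a ≠ 0 → s ^ padicValNat s a ≤ a := fun ha =>
    Nat.le_of_dvd (Nat.pos_of_ne_zero ha) pow_padicValNat_dvd
  have hne : ∀ {k : ℕ}, k ≠ 0 → r ^ k - 1 ≠ 0 := fun hk =>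
    Nat.sub_ne_zero_of_lt (Nat.one_lt_pow hk hr)
  have hdv : ∀ k : ℕ, r ^ f - 1 ∣ r ^ (f * k) - 1 := fun k => by
    simpa only [one_pow, pow_mul] using Nat.sub_dvd_pow_sub_pow (r ^ f) 1 k
  rw [Nat.factorization_def f hs]
  rcases hs.eq_two_or_odd' with rfl | ho
  · have h1 := padicValNat.pow_two_sub_one hr hsr (n := f * 2) (by omega) (by simp)
    rw [padicValNat.mul hf two_ne_zero, padicValNat_self] at h1
    have h2 := hd (hne (k := f * 2) (by omega)) (hdv 2)
    have h3 := hp (a := r + 1) (by omega)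
    have h4 := hp (a := r - 1) (by omega)
    calc 2 ^ (r ^ f - 1).factorization 2
        ≤ 2 ^ (padicValNat 2 (r + 1) + padicValNat 2 (r - 1) + padicValNat 2 f) :=
          Nat.pow_le_pow_right two_pos (by omega)
      _ = 2 ^ padicValNat 2 (r + 1) * 2 ^ padicValNat 2 (r - 1) * 2 ^ padicValNat 2 f := by
          rw [pow_add, pow_add]
      _ ≤ (r + 1) * (r - 1) * 2 ^ padicValNat 2 f := by gcongr
      _ ≤ _ := by
          rw [← Nat.sq_sub_sq r 1]
          exact Nat.mul_le_mul_right _ (Nat.sub_le _ _)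
  · have hk : s - 1 ≠ 0 := Nat.sub_ne_zero_of_lt hs.one_lt
    have h0 : r ^ (s - 1) ≡ 1 [MOD s] := by
      rw [← Nat.totient_prime hs]
      exact Nat.ModEq.pow_totient ((Nat.Prime.coprime_iff_not_dvd hs).2 hsr).symm
    have h1 := padicValNat.pow_sub_pow ho (Nat.one_lt_pow hk hr)
      ((Nat.modEq_iff_dvd' (Nat.one_lt_pow hk hr).le).1 h0.symm)
      (fun h => hsr (hs.dvd_of_dvd_pow h)) hf
    rw [one_pow, ← pow_mul, mul_comm] at h1
    have h2 := hd (hne (mul_ne_zero hf hk)) (hdv (s - 1))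
    calc s ^ (r ^ f - 1).factorization s
        ≤ s ^ (padicValNat s (r ^ (s - 1) - 1) + padicValNat s f) :=
          Nat.pow_le_pow_right hs.pos (h2.trans h1.le)
      _ ≤ _ := by
          rw [pow_add]
          refine Nat.mul_le_mul_right _ ((hp (hne hk)).trans ((Nat.sub_le _ _).trans ?_))
          exact Nat.pow_le_pow_right (by omega) (Nat.sub_le _ _)

theorem lte_prod (S : Finset ℕ) {f : ℕ} (hf : f ≠ 0) : ∏ s ∈ S, s ^ f.factorization s ≤ f := by
  have h1 : ∏ s ∈ S, s ^ f.factorization s = ∏ s ∈ S ∩ f.primeFactors, s ^ f.factorization s := by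
    refine (Finset.prod_subset Finset.inter_subset_left fun s h1 h2 => ?_).symm
    have h3 : f.factorization s = 0 := by
      by_contra h4
      exact h2 (Finset.mem_inter.2 ⟨h1, Finsupp.mem_support_iff.2 h4⟩)
    rw [h3, pow_zero]
  rw [h1]
  refine Nat.le_of_dvd (Nat.pos_of_ne_zero hf) ?_
  conv_rhs => rw [← Nat.prod_factorization_pow_eq_self hf]
  exact Finset.prod_dvd_prod_of_subset _ _ _ Finset.inter_subset_right

/-- The smooth divisors of `r ^ f - 1` are small. -/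
theorem lte (M : ℕ) : ∃ C : ℕ, ∀ r f n : ℕ, r.Prime → r ≤ M → 0 < f → n ∣ r ^ f - 1 →
    (∀ s : ℕ, s.Prime → s ∣ n → s ≤ M) → n ≤ C * f := by
  refine ⟨(M ^ M) ^ (M + 1), fun r f n hr hM hf hn hs => ?_⟩
  have h1 : 1 < r ^ f := Nat.one_lt_pow hf.ne' hr.one_lt
  have h0 : r ^ f - 1 ≠ 0 := Nat.sub_ne_zero_of_lt h1
  have hn0 : n ≠ 0 := fun h => h0 (by simpa [h] using hn)
  have hM0 : 0 < M := hr.pos.trans_le hM
  have h2 : ∀ s ∈ n.primeFactors, s ^ n.factorization s ≤ M ^ M * s ^ f.factorization s := by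
    intro s h
    have hp := Nat.prime_of_mem_primeFactors h
    have hd := Nat.dvd_of_mem_primeFactors h
    have h3 : ¬ s ∣ r := fun h4 => hp.not_dvd_one
      ((Nat.dvd_sub_iff_right h1.le (dvd_pow h4 hf.ne')).1 (hd.trans hn))
    refine (Nat.pow_le_pow_right hp.pos ((Nat.factorization_le_iff_dvd hn0 h0).2 hn s)).trans
      ((lte_one hp hr.two_le h3 hf.ne').trans (Nat.mul_le_mul_right _ ?_))
    exact (Nat.pow_le_pow_left hM s).trans (Nat.pow_le_pow_right hM0 (hs s hp hd))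
  have h3 : n.primeFactors.card ≤ M + 1 := by
    rw [← Finset.card_range (M + 1)]
    exact Finset.card_le_card fun s h => Finset.mem_range.2 (Nat.lt_succ_of_le
      (hs s (Nat.prime_of_mem_primeFactors h) (Nat.dvd_of_mem_primeFactors h)))
  calc n = ∏ s ∈ n.primeFactors, s ^ n.factorization s :=
        (Nat.prod_factorization_pow_eq_self hn0).symm
    _ ≤ ∏ s ∈ n.primeFactors, M ^ M * s ^ f.factorization s := Finset.prod_le_prod' h2
    _ = (M ^ M) ^ n.primeFactors.card * ∏ s ∈ n.primeFactors, s ^ f.factorization s := by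
        rw [Finset.prod_mul_distrib, Finset.prod_const]
    _ ≤ _ := Nat.mul_le_mul (Nat.pow_le_pow_right (by positivity) h3) (lte_prod _ hf.ne')

/-- The divisor bound. -/
theorem divb (t : ℕ) : ∃ C : ℕ, ∀ n : ℕ, 0 < n → n.divisors.card ^ t ≤ C * n := by
  obtain ⟨A, hA0, hA⟩ := num_poly 1 t
  refine ⟨(2 * A) ^ 2 ^ t, fun n hn => ?_⟩
  have h1 : ∀ p ∈ n.primeFactors, (n.factorization p + 1) ^ t ≤
      (if p < 2 ^ t then 2 * A else 1) * p ^ n.factorization p := by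
    intro p h
    have h2 := (Nat.prime_of_mem_primeFactors h).two_le
    split_ifs with h3
    · have h4 := hA (n.factorization p + 1)
      rw [one_mul, pow_succ, ← mul_assoc, mul_right_comm, mul_comm A] at h4
      exact h4.trans (Nat.mul_le_mul_left _ (Nat.pow_le_pow_left h2 _))
    · rw [one_mul]
      calc (n.factorization p + 1) ^ t ≤ (2 ^ n.factorization p) ^ t :=
            Nat.pow_le_pow_left Nat.lt_two_pow_self t
        _ = (2 ^ t) ^ n.factorization p := by rw [← pow_mul, ← pow_mul, mul_comm]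
        _ ≤ _ := Nat.pow_le_pow_left (not_lt.1 h3) _
  have h2 : (n.primeFactors.filter (· < 2 ^ t)).card ≤ 2 ^ t := by
    conv_rhs => rw [← Finset.card_range (2 ^ t)]
    exact Finset.card_le_card fun s h => Finset.mem_range.2 (Finset.mem_filter.1 h).2
  rw [Nat.card_divisors hn.ne', ← Finset.prod_pow]
  refine (Finset.prod_le_prod' h1).trans ?_
  rw [Finset.prod_mul_distrib, ← Finset.prod_filter, Finset.prod_const]
  exact Nat.mul_le_mul (Nat.pow_le_pow_right (by omega) h2) (lte_prod _ hn.ne')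

theorem num_G_sq (A : ℕ) : ∃ B : ℕ, ∀ L : ℕ, A * (2 * L + 3) ^ 2 ≤ B + 2 ^ L := by
  obtain ⟨N, hN⟩ := Filter.eventually_atTop.1
    ((tendsto_pow_const_div_const_pow_of_one_lt 2 (r := (2 : ℝ)) one_lt_two).eventually
      (gt_mem_nhds (show (0 : ℝ) < 1 / (25 * (A : ℝ) + 1) by positivity)))
  refine ⟨A * (2 * (N + 1) + 3) ^ 2, fun L => ?_⟩
  rcases le_total L (N + 1) with h | h
  · exact le_trans (by gcongr) (Nat.le_add_right _ _)
  · have h1 := hN L (by omega)
    rw [div_lt_div_iff₀ (by positivity) (by positivity), one_mul] at h1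
    have h2 : L ^ 2 * (25 * A + 1) ≤ 2 ^ L := by exact_mod_cast h1.le
    have h3 : (2 * L + 3) ^ 2 ≤ (5 * L) ^ 2 := Nat.pow_le_pow_left (by omega) 2
    have h4 := Nat.mul_le_mul_left A h3
    nlinarith [Nat.zero_le (L ^ 2), Nat.zero_le (A * (2 * (N + 1) + 3) ^ 2)]

/-- The number of automorphisms of the acting group is small compared with the module. -/
theorem num_G (M : ℕ) : ∃ C : ℕ, ∀ X y c : ℕ, y ≤ X ^ 2 → 2 ^ c ≤ X ^ 2 →
    (X * ((y ^ 2) ^ Nat.log 2 y * Nat.factorial (c * M))) ^ 4 ≤ C * 2 ^ X := by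
  obtain ⟨B, hB⟩ := num_G_sq (4 * (3 + M ^ 2))
  refine ⟨2 ^ B, fun X y c hy hc => ?_⟩
  rcases Nat.eq_zero_or_pos X with rfl | h0
  · simp
  have h1 := Nat.lt_pow_succ_log_self one_lt_two X
  have h2 := Nat.pow_log_le_self 2 h0.ne'
  have h3 := hB (Nat.log 2 X)
  generalize Nat.log 2 X = L at h1 h2 h3
  obtain ⟨l, hl⟩ : ∃ l, l = 2 * L + 3 := ⟨_, rfl⟩
  rw [← hl] at h3
  have h4 : X ^ 2 ≤ 2 ^ l := by
    refine (Nat.pow_le_pow_left h1.le 2).trans ?_
    rw [← pow_mul]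
    exact Nat.pow_le_pow_right two_pos (by omega)
  have h5 : c ≤ l := (Nat.pow_le_pow_iff_right one_lt_two).1 (hc.trans h4)
  have h6 : Nat.log 2 y ≤ l := by
    refine (Nat.log_mono_right (hy.trans h4)).trans ?_
    rw [Nat.log_pow one_lt_two]
  have h7 : X ≤ 2 ^ l ^ 2 := h1.le.trans (Nat.pow_le_pow_right two_pos (by nlinarith))
  have h8 : (y ^ 2) ^ Nat.log 2 y ≤ 2 ^ (2 * l ^ 2) :=
    calc (y ^ 2) ^ Nat.log 2 y ≤ ((2 ^ l) ^ 2) ^ Nat.log 2 y := by
          gcongr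
          exact hy.trans h4
      _ ≤ ((2 ^ l) ^ 2) ^ l := Nat.pow_le_pow_right (by positivity) h6
      _ = _ := by rw [← pow_mul, ← pow_mul]; congr 1; ring
  have h9 : Nat.factorial (c * M) ≤ 2 ^ (M ^ 2 * l ^ 2) :=
    calc Nat.factorial (c * M) ≤ Nat.factorial (l * M) := Nat.factorial_le (by gcongr)
      _ ≤ (l * M) ^ (l * M) := Nat.factorial_le_pow _
      _ ≤ (2 ^ (l * M)) ^ (l * M) := Nat.pow_le_pow_left Nat.lt_two_pow_self.le _
      _ = _ := by rw [← pow_mul]; congr 1; ring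
  calc _ ≤ (2 ^ l ^ 2 * (2 ^ (2 * l ^ 2) * 2 ^ (M ^ 2 * l ^ 2))) ^ 4 := by gcongr
    _ = 2 ^ (4 * (3 + M ^ 2) * l ^ 2) := by
        rw [← pow_add, ← pow_add, ← pow_mul]; congr 1; ring
    _ ≤ 2 ^ (B + X) := Nat.pow_le_pow_right two_pos (by omega)
    _ = _ := pow_add _ _ _

end Pool.Agent.Lib.MP_634dc6_al
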