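import Pool.Agent.Lib.MP_634dc6_al.MinN
import Pool.Agent.Lib.MP_634dc6_al.Cm

/-!
Largest normal `r`-subgroups, layers, and upper series relative to an acting subgroup.
-/

namespace Pool.Agent.Lib.MP_634dc6_al

variable {G : Type} [Group G]

/-- The largest normal `r`-subgroup of `G` inside `D`. -/
def opr (r : ℕ) (D : Subgroup G) : Subgroup G := sSup {P | P.Normal ∧ P ≤ D ∧ IsPGroup r P}

/-- `B / A` is a layer at the prime `r`. -/
def Lyr (r : ℕ) (D A B : Subgroup G) : Prop := Cv A B ∧ B ≤ opr r D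

/-- The number of conjugacy classes in `B / A`. -/
noncomputable def kap (A B : Subgroup G) [A.Normal] : ℕ :=
  om (B.map (QuotientGroup.mk' A) : Set (G ⧸ A))

/-- The upper series of `T` above `W`. -/
def up (T W : Subgroup G) : ℕ → Subgroup G
  | 0 => W
  | n + 1 => cm T (up T W n)

instance opr_normal (r : ℕ) (D : Subgroup G) : (opr r D).Normal :=
  Subgroup.sSup_normal _ fun _ h => h.1

variable {r : ℕ} {D P A B T W X Y L : Subgroup G}

theorem opr_le (r : ℕ) (D : Subgroup G) : opr r D ≤ D := sSup_le fun _ h => h.2.1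

theorem le_opr [hP : P.Normal] (h : P ≤ D) (hp : IsPGroup r P) : P ≤ opr r D :=
  le_sSup (show P ∈ {P : Subgroup G | P.Normal ∧ P ≤ D ∧ IsPGroup r P} from ⟨hP, h, hp⟩)

theorem opr_pgroup [Finite G] (r : ℕ) (D : Subgroup G) : IsPGroup r (opr r D) := by
  obtain ⟨Q, hQ, h⟩ := (wellFounded_gt (α := Subgroup G)).has_min
    {P : Subgroup G | P.Normal ∧ P ≤ D ∧ IsPGroup r P}
    ⟨⊥, inferInstance, bot_le, IsPGroup.of_bot⟩
  have h1 := hQ.1
  refine hQ.2.2.to_le (sSup_le fun P hP => ?_)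
  have h2 := hP.1
  have h3 := (le_sup_right : Q ≤ P ⊔ Q).eq_of_not_lt
    (h (P ⊔ Q) ⟨inferInstance, sup_le hP.2.1 hQ.2.1, hP.2.2.to_sup_of_normal_right hQ.2.2⟩)
  exact le_sup_left.trans h3.ge

theorem opr_mono [Finite G] (h : X ≤ D) : opr r X ≤ opr r D :=
  le_opr ((opr_le r X).trans h) (opr_pgroup r X)

theorem comm_sup_le [B.Normal] [W.Normal] (h1 : ⁅A, T⁆ ≤ W) (h2 : ⁅B, T⁆ ≤ W) : ⁅A ⊔ B, T⁆ ≤ W :=
  le_cm.1 (sup_le (le_cm.2 h1) (le_cm.2 h2))

theorem exists_cv_above [Finite G] [hA : A.Normal] [hB : B.Normal] (h : A < B) :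
    ∃ C, A ≤ C ∧ Cv C B := by
  obtain ⟨C, hC, h1⟩ := (wellFounded_gt (α := Subgroup G)).has_min
    {C : Subgroup G | C.Normal ∧ A ≤ C ∧ C < B} ⟨A, hA, le_rfl, h⟩
  refine ⟨C, hC.2.1, hC.1, hB, hC.2.2, fun U hU h2 h3 => or_iff_not_imp_right.2 fun h0 => ?_⟩
  exact (h2.eq_of_not_lt (h1 U ⟨hU, hC.2.1.trans h2, lt_of_le_of_ne h3 h0⟩)).symm

theorem Cv.sup_eq (h : Cv A B) [T.Normal] (h1 : T ≤ B) (h2 : ¬ T ≤ A) : T ⊔ A = B := by
  have := h.1
  exact (h.2.2.2 (T ⊔ A) inferInstance le_sup_right (sup_le h1 h.2.2.1.le)).resolve_left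
    fun e => h2 (le_sup_left.trans e.le)

theorem Cv.inf (h : Cv A B) [hT : T.Normal] (h1 : T ≤ B) (h2 : ¬ T ≤ A) : Cv (T ⊓ A) T := by
  have := h.1
  refine ⟨inferInstance, hT, lt_of_le_of_ne inf_le_left fun e => h2 (inf_eq_left.1 e),
    fun U hU h3 h4 => ?_⟩
  by_cases h5 : U ≤ A
  · exact Or.inl (le_antisymm (le_inf h4 h5) h3)
  · refine Or.inr (le_antisymm h4 fun t ht => ?_)
    have h6 : t ∈ U ⊔ A := by
      rw [h.sup_eq (h4.trans h1) h5]
      exact h1 ht
    obtain ⟨u, hu, a, ha, e⟩ := exists_mul_of_mem_sup h6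
    have h7 : a ∈ T := by
      have e' : a = u⁻¹ * t := by
        rw [e]
        group
      rw [e']
      exact T.mul_mem (T.inv_mem (h4 hu)) ht
    rw [e]
    exact U.mul_mem hu (h3 ⟨h7, ha⟩)

/-- A normal `r`-subgroup centralises every chief factor that is an `r`-group. -/
theorem Cv.comm_pgroup [Finite G] (hr : r.Prime) (h : Cv A B) (hB : IsPGroup r B) [hP : P.Normal]
    (hp : IsPGroup r P) : ⁅B, P⁆ ≤ A := by
  have := h.1
  have := hP.map _ (QuotientGroup.mk'_surjective A)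
  rw [← map_mk_eq_bot, Subgroup.map_commutator]
  exact h.minNor.comm_pgroup hr (hB.map _) (hp.map _)

instance up_normal (T W : Subgroup G) [T.Normal] [hW : W.Normal] (n : ℕ) : (up T W n).Normal := by
  induction n with
  | zero => exact hW
  | succ n ih => exact cm_normal T (up T W n)

section up

variable [T.Normal] [W.Normal]

theorem le_up_succ {n : ℕ} : A ≤ up T W (n + 1) ↔ ⁅A, T⁆ ≤ up T W n := le_cm

theorem up_mono {m n : ℕ} (h : m ≤ n) : up T W m ≤ up T W n := by
  induction h with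
  | refl => exact le_rfl
  | step _ ih => exact ih.trans (le_up_succ.2 (Subgroup.commutator_le_left _ _))

theorem up_trans [B.Normal] {m n : ℕ} (h1 : A ≤ up T B n) (h2 : B ≤ up T W m) :
    A ≤ up T W (m + n) := by
  induction n generalizing A with
  | zero => exact h1.trans h2
  | succ n ih => exact le_up_succ.2 (ih (le_up_succ.1 h1))

/-- The product rule. -/
theorem up_comm {A' B' : Subgroup G} [A'.Normal] [B'.Normal] (n : ℕ) :
    ∀ (p q : ℕ) (A B : Subgroup G), A.Normal → B.Normal → p + q = n → A ≤ up T A' p →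
      B ≤ up T B' q → ⁅A', B⁆ ≤ W → ⁅A, B'⁆ ≤ W → ⁅A, B⁆ ≤ up T W n := by
  induction n with
  | zero =>
    intro p q A B _ _ e h1 _ h3 _
    obtain rfl : p = 0 := by omega
    exact (Subgroup.commutator_mono h1 le_rfl).trans h3
  | succ n ih =>
    intro p q A B hA hB e h1 h2 h3 h4
    rcases p with _ | p
    · exact ((Subgroup.commutator_mono h1 le_rfl).trans h3).trans (up_mono (Nat.zero_le _))
    rcases q with _ | q
    · exact ((Subgroup.commutator_mono le_rfl h2).trans h4).trans (up_mono (Nat.zero_le _))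
    refine le_up_succ.2 (three_mod ?_ ?_)
    · rw [Subgroup.commutator_comm]
      exact ih (p + 1) q A ⁅B, T⁆ hA inferInstance (by omega) h1 (le_up_succ.1 h2)
        ((Subgroup.commutator_mono le_rfl (Subgroup.commutator_le_left _ _)).trans h3) h4
    · rw [Subgroup.commutator_comm T]
      exact ih p (q + 1) ⁅A, T⁆ B inferInstance hB (by omega) (le_up_succ.1 h1) h2 h3
        ((Subgroup.commutator_mono (Subgroup.commutator_le_left _ _) le_rfl).trans h4)

theorem lcs_le_of_up {H : Subgroup G} (hH : H ≤ T) {k m : ℕ}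
    (h : H.lowerCentralSeries k ≤ up T W m) : H.lowerCentralSeries (k + m) ≤ W := by
  induction m generalizing k with
  | zero => exact h
  | succ m ih =>
    rw [show k + (m + 1) = k + 1 + m by omega]
    refine ih ?_
    rw [Subgroup.lowerCentralSeries_succ]
    exact (Subgroup.commutator_mono le_rfl hH).trans (le_up_succ.1 h)

end up

/-- If `T` centralises all chief factors inside `P` then it acts nilpotently on `P`. -/
theorem le_up_card [Finite G] [T.Normal] [hP : P.Normal]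
    (h : ∀ A B : Subgroup G, Cv A B → B ≤ P → ⁅B, T⁆ ≤ A) : P ≤ up T ⊥ (Nat.card P) := by
  revert hP
  induction P using (wellFounded_lt (α := Subgroup G)).induction with
  | _ P ih =>
  intro hP
  by_cases h0 : P = ⊥
  · exact h0.le.trans bot_le
  obtain ⟨A, hA⟩ := exists_cv h0
  have h1 := @ih A hA.2.2.1 (fun A' B' h2 h3 => h A' B' h2 (h3.trans hA.2.2.1.le)) hA.1
  have h2 : Nat.card A < Nat.card P := by
    refine lt_of_le_of_ne (Subgroup.card_le_of_le hA.2.2.1.le) fun e => hA.2.2.1.ne ?_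
    exact Subgroup.eq_of_le_of_card_ge hA.2.2.1.le e.ge
  exact (le_up_succ.2 ((h A P hA le_rfl).trans h1)).trans (up_mono h2)

theorem mem_opr_of_nilp [Finite G] (hr : r.Prime) [X.Normal] (hX : Group.IsNilpotent X) {x : G}
    (hx : x ∈ X) (h : PE r x) : x ∈ opr r X := by
  have := Fact.mk hr
  have h1 : IsPGroup r (Subgroup.zpowers (⟨x, hx⟩ : X)) := by
    obtain ⟨k, hk⟩ := h
    rintro ⟨_, i, rfl⟩
    refine ⟨k, Subtype.ext (Subtype.ext ?_)⟩
    show (x ^ i) ^ r ^ k = 1
    rw [← zpow_natCast, ← zpow_mul, mul_comm, zpow_mul, zpow_natCast, hk, one_zpow]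
  obtain ⟨Q, hQ⟩ := h1.exists_le_sylow
  have h2 : (Q : Subgroup X).Characteristic := Q.characteristic_of_normal inferInstance
  exact le_opr (P := (Q : Subgroup X).map X.subtype) (Subgroup.map_subtype_le _)
    (Q.isPGroup'.map _) ⟨⟨x, hx⟩, hQ (Subgroup.mem_zpowers _), rfl⟩

theorem nilp_le [Finite G] [X.Normal] (hX : Group.IsNilpotent X)
    (h : ∀ q : ℕ, q.Prime → opr q X ≤ W) : X ≤ W := by
  intro x hx
  induction hn : orderOf x using Nat.strong_induction_on generalizing x with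
  | _ n ih =>
  by_cases h1 : orderOf x = 1
  · rw [orderOf_eq_one_iff.1 h1]
    exact W.one_mem
  have hq := Nat.minFac_prime h1
  obtain ⟨y, z, hd⟩ := dec_exists hq x
  obtain ⟨⟨i, hi⟩, j, hj⟩ := hd.mem_pow
  have h2 : orderOf y < n := by
    rw [← hn]
    refine lt_of_le_of_ne (Nat.le_of_dvd (orderOf_pos x) (hi ▸ orderOf_pow_dvd i)) fun e => ?_
    have h3 : (orderOf y).Coprime (orderOf x).minFac := hd.2.2.1
    rw [e] at h3
    exact hq.one_lt.ne' (Nat.Coprime.eq_one_of_dvd h3.symm (Nat.minFac_dvd _))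
  rw [hd.1]
  exact W.mul_mem (ih _ h2 (hi ▸ X.pow_mem hx i) rfl)
    (h _ hq (mem_opr_of_nilp hq hX (hj ▸ X.pow_mem hx j) hd.2.2.2))

theorem comm_lt_of_solv (hD : Group.IsSolvable D) (h : X ≤ D) (h0 : X ≠ ⊥) : ⁅X, X⁆ < X := by
  refine lt_of_le_of_ne (perf_self X) fun e => ?_
  have h1 : X.subgroupOf D ≠ ⊥ := fun h2 =>
    h0 (by rw [← Subgroup.map_subgroupOf_eq_of_le h, h2, Subgroup.map_bot])
  have h2 := Group.IsSolvable.commutator_lt_of_ne_bot h1
  rw [comm_subgroupOf h h, e] at h2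
  exact lt_irrefl _ h2

/-- A normal subgroup of the soluble group `D` that centralises all layers is nilpotent. -/
theorem nilp_of_lyr [Finite G] (hD : Group.IsSolvable D) [Y.Normal] (hY : Y ≤ D)
    (h : ∀ q : ℕ, q.Prime → ∀ A B : Subgroup G, Lyr q D A B → ⁅B, Y⁆ ≤ A) :
    Group.IsNilpotent Y := by
  have key : ∀ X : Subgroup G, X.Normal → X ≤ Y → Group.IsNilpotent X := by
    intro X
    induction X using (wellFounded_lt (α := Subgroup G)).induction with
    | _ X ih =>
    intro hX hXY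
    by_cases h0 : X = ⊥
    · rw [h0]
      infer_instance
    have h1 := ih ⁅X, X⁆ (comm_lt_of_solv hD (hXY.trans hY) h0) inferInstance
      ((perf_self X).trans hXY)
    have h2 : ⁅X, X⁆ ≤ up Y ⊥ (Nat.card G) := nilp_le h1 fun q hq =>
      (le_up_card fun A B h3 h4 => h q hq A B ⟨h3, h4.trans
        (opr_mono ((perf_self X).trans (hXY.trans hY)))⟩).trans
        (up_mono (Subgroup.card_le_card_group _))
    exact (Subgroup.isNilpotent_iff_lowerCentralSeries X).2
      ⟨1 + Nat.card G, le_bot_iff.1 (lcs_le_of_up hXY h2)⟩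
  exact key Y inferInstance le_rfl

end Pool.Agent.Lib.MP_634dc6_al
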