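import Pool.Agent.Lib.MP_634dc6_al.Defs

/-!
Counting conjugacy classes; the sets `cls`, `cos`; conjugates of subgroups.
-/

namespace Pool.Agent.Lib.MP_634dc6_al

variable {G G' : Type} [Group G] [Group G']

theorem om_aux {α β γ : Type} [Finite α] (S : Set α) (φ : α → β) (χ : α → γ)
    (h : ∀ a ∈ S, ∀ b ∈ S, χ a = χ b → φ a = φ b) : (φ '' S).ncard ≤ (χ '' S).ncard := by
  classical
  rcases S.eq_empty_or_nonempty with rfl | ⟨a₀, _⟩
  · simp
  have h1 : φ '' S ⊆ (fun c => if hc : ∃ a ∈ S, χ a = c then φ hc.choose else φ a₀) ''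
      (χ '' S) := by
    rintro _ ⟨a, ha, rfl⟩
    have hc : ∃ b ∈ S, χ b = χ a := ⟨a, ha, rfl⟩
    refine ⟨χ a, ⟨a, ha, rfl⟩, ?_⟩
    simp only [dif_pos hc]
    exact h _ hc.choose_spec.1 a ha hc.choose_spec.2
  exact (Set.ncard_le_ncard h1 (((Set.toFinite S).image _).image _)).trans
    (Set.ncard_image_le ((Set.toFinite S).image _))

theorem om_mono [Finite G] {S T : Set G} (h : S ⊆ T) : om S ≤ om T := by
  exact Set.ncard_le_ncard (Set.image_mono h) ((Set.toFinite T).image _)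

theorem om_pos [Finite G] {S : Set G} (h : S.Nonempty) : 1 ≤ om S := by
  exact (Set.ncard_pos ((Set.toFinite S).image _)).2 (h.image _)

theorem ncard_le_om [Finite G] {β : Type} (ψ : G → β) (S : Set G)
    (h : ∀ a ∈ S, ∀ b ∈ S, IsConj a b → ψ a = ψ b) : (ψ '' S).ncard ≤ om S := by
  exact om_aux S ψ ConjClasses.mk fun a ha b hb e =>
    h a ha b hb (ConjClasses.mk_eq_mk_iff_isConj.1 e)

/-- `k` pairwise non-conjugate elements. -/
theorem le_om [Finite G] {S : Set G} {k : ℕ} (f : ℕ → G) (hm : ∀ j < k, f j ∈ S)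
    (h : ∀ i < k, ∀ j < k, IsConj (f i) (f j) → i = j) : k ≤ om S := by
  have h1 : ((fun j => ConjClasses.mk (f j)) '' Set.Iio k).ncard = k := by
    have h2 : Set.InjOn (fun j => ConjClasses.mk (f j)) (Set.Iio k) := fun i hi j hj e =>
      h i hi j hj (ConjClasses.mk_eq_mk_iff_isConj.1 e)
    rw [h2.ncard_image]
    simp
  rw [← h1]
  refine Set.ncard_le_ncard ?_ ((Set.toFinite S).image _)
  rintro _ ⟨j, hj, rfl⟩
  exact ⟨f j, hm j hj, rfl⟩

theorem om_le_om [Finite G] [Finite G'] (f : G' → G) (S' : Set G') (S : Set G)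
    (hm : ∀ a ∈ S', f a ∈ S) (h : ∀ a ∈ S', ∀ b ∈ S', IsConj (f a) (f b) → IsConj a b) :
    om S' ≤ om S := by
  refine (om_aux S' ConjClasses.mk (fun a => ConjClasses.mk (f a)) fun a ha b hb e =>
    ConjClasses.mk_eq_mk_iff_isConj.2 (h a ha b hb (ConjClasses.mk_eq_mk_iff_isConj.1 e))).trans ?_
  refine Set.ncard_le_ncard ?_ ((Set.toFinite S).image _)
  rintro _ ⟨a, ha, rfl⟩
  exact ⟨f a, hm a ha, rfl⟩

theorem om_map_le [Finite G] (f : G →* G') (S : Set G) : om (f '' S) ≤ om S := by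
  unfold om
  rw [Set.image_image]
  exact ncard_le_om (fun a => ConjClasses.mk (f a)) S fun a _ b _ e =>
    ConjClasses.mk_eq_mk_iff_isConj.2 (f.map_isConj e)

theorem ncard_le_om_mul [Finite G] (S : Set G) (B : ℕ)
    (h : ∀ a ∈ S, {b | b ∈ S ∧ IsConj a b}.ncard ≤ B) : S.ncard ≤ om S * B := by
  classical
  have hS := Set.toFinite S
  have h1 := Finset.card_le_mul_card_image (f := ConjClasses.mk) hS.toFinset B (by
    intro c hc
    obtain ⟨a, ha, rfl⟩ := Finset.mem_image.1 hc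
    refine le_trans (le_of_eq ?_) (h a (hS.mem_toFinset.1 ha))
    rw [← Set.ncard_coe_finset]
    congr 1
    ext b
    simp only [Finset.coe_filter, Set.Finite.mem_toFinset, Set.mem_ofPred_eq,
      ConjClasses.mk_eq_mk_iff_isConj, isConj_comm])
  unfold om
  rw [Set.ncard_eq_toFinset_card S hS, mul_comm]
  refine h1.trans (le_of_eq ?_)
  rw [← Set.ncard_coe_finset, Finset.coe_image, hS.coe_toFinset]

theorem sum_om_le [Finite G] {β : Type} (T : Finset β) (S : β → Set G) (U : Set G)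
    (hs : ∀ t ∈ T, S t ⊆ U)
    (hd : ∀ s ∈ T, ∀ t ∈ T, ∀ a ∈ S s, ∀ b ∈ S t, IsConj a b → s = t) :
    ∑ t ∈ T, om (S t) ≤ om U := by
  classical
  induction T using Finset.induction_on generalizing U with
  | empty => simp
  | insert t T ht ih =>
    rw [Finset.sum_insert ht]
    have h1 := ih (⋃ s ∈ T, S s) (fun s hs' => Set.subset_biUnion_of_mem (u := S) hs')
      fun s hs' s' hs'' => hd s (Finset.mem_insert_of_mem hs') s' (Finset.mem_insert_of_mem hs'')
    have h2 : Disjoint (ConjClasses.mk '' S t) (ConjClasses.mk '' ⋃ s ∈ T, S s) := by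
      rw [Set.disjoint_left]
      rintro _ ⟨a, ha, rfl⟩ ⟨b, hb, e⟩
      obtain ⟨s, hs', hb'⟩ := Set.mem_iUnion₂.1 hb
      have := hd s (Finset.mem_insert_of_mem hs') t (Finset.mem_insert_self _ _) b hb' a ha
        (ConjClasses.mk_eq_mk_iff_isConj.1 e)
      exact ht (this ▸ hs')
    have h3 := Set.ncard_union_eq h2 ((Set.toFinite _).image _) ((Set.toFinite _).image _)
    have h4 : om (S t ∪ ⋃ s ∈ T, S s) ≤ om U := om_mono (Set.union_subset
      (hs t (Finset.mem_insert_self _ _))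
      (Set.iUnion₂_subset fun s hs' => hs s (Finset.mem_insert_of_mem hs')))
    unfold om at *
    rw [Set.image_union, h3] at h4
    omega

/-- Removing the identity removes exactly one class. -/
theorem om_diff_one [Finite G] {S : Set G} (h : (1 : G) ∈ S) : om (S \ {1}) + 1 = om S := by
  have h1 : ConjClasses.mk '' (S \ {1}) = (ConjClasses.mk '' S) \ {ConjClasses.mk 1} := by
    ext c
    constructor
    · rintro ⟨a, ⟨ha, ha'⟩, rfl⟩
      exact ⟨⟨a, ha, rfl⟩, fun e =>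
        ha' (isConj_one_left.1 (ConjClasses.mk_eq_mk_iff_isConj.1 e))⟩
    · rintro ⟨⟨a, ha, rfl⟩, ha'⟩
      exact ⟨a, ⟨ha, fun e => ha' (congrArg ConjClasses.mk e)⟩, rfl⟩
  unfold om
  rw [h1]
  exact Set.ncard_sdiff_singleton_add_one ⟨1, h, rfl⟩ ((Set.toFinite S).image _)

section cls

variable {D : Subgroup G} {ρ σ : G}

theorem mem_cls_self (D : Subgroup G) (ρ : G) : ρ ∈ cls D ρ := by
  exact ⟨1, 1, D.one_mem, by group⟩

theorem mul_mem_cls {d : G} (hd : d ∈ D) (ρ : G) : ρ * d ∈ cls D ρ := by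
  exact ⟨1, d, hd, by group⟩

theorem conj_mem_cls (D : Subgroup G) (g ρ : G) : g * ρ * g⁻¹ ∈ cls D ρ := by
  exact ⟨g, 1, D.one_mem, by group⟩

theorem mem_cls_of_mk [D.Normal] (h : QuotientGroup.mk' D σ = QuotientGroup.mk' D ρ) :
    σ ∈ cls D ρ := by
  exact ⟨1, ρ⁻¹ * σ, QuotientGroup.eq.1 h.symm, by group⟩

theorem mem_cls_iff [D.Normal] :
    σ ∈ cls D ρ ↔ IsConj (QuotientGroup.mk' D ρ) (QuotientGroup.mk' D σ) := by
  constructor
  · rintro ⟨g, d, hd, rfl⟩
    refine isConj_iff.2 ⟨QuotientGroup.mk' D g, ?_⟩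
    have h1 : QuotientGroup.mk' D d = 1 := (QuotientGroup.eq_one_iff d).2 hd
    rw [map_mul, map_mul, map_mul, map_inv, h1, mul_one]
  · intro h
    obtain ⟨c, hc⟩ := isConj_iff.1 h
    obtain ⟨g, rfl⟩ := QuotientGroup.mk'_surjective D c
    rw [← map_inv, ← map_mul, ← map_mul] at hc
    exact ⟨g, (g * ρ * g⁻¹)⁻¹ * σ, QuotientGroup.eq.1 hc, by group⟩

theorem cls_eq_of_mem [D.Normal] (h : σ ∈ cls D ρ) : cls D σ = cls D ρ := by
  ext τ
  rw [mem_cls_iff] at h
  rw [mem_cls_iff, mem_cls_iff]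
  exact ⟨h.trans, h.symm.trans⟩

theorem om_cls_eq [D.Normal] (ρ : G) : om (cls D ρ) = om (cos ρ D) := by
  unfold om
  congr 1
  ext c
  constructor
  · rintro ⟨_, ⟨g, d, hd, rfl⟩, rfl⟩
    refine ⟨ρ * (g⁻¹ * d * g), ⟨_, Subgroup.Normal.conj_mem' inferInstance d hd g, rfl⟩, ?_⟩
    exact ConjClasses.mk_eq_mk_iff_isConj.2 (isConj_iff.2 ⟨g, by group⟩)
  · rintro ⟨_, ⟨d, hd, rfl⟩, rfl⟩
    exact ⟨_, mul_mem_cls hd ρ, rfl⟩

theorem cls_map (f : G →* G') (hf : Function.Surjective f) (D : Subgroup G) (ρ : G) :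
    f '' cls D ρ = cls (D.map f) (f ρ) := by
  ext τ
  constructor
  · rintro ⟨_, ⟨g, d, hd, rfl⟩, rfl⟩
    exact ⟨f g, f d, Subgroup.mem_map_of_mem f hd, by simp⟩
  · rintro ⟨g, _, ⟨d, hd, rfl⟩, rfl⟩
    obtain ⟨g, rfl⟩ := hf g
    exact ⟨_, ⟨g, d, hd, rfl⟩, by simp⟩

theorem pow_mem_cls [D.Normal] (h : σ ∈ cls D ρ) (k : ℕ) : σ ^ k ∈ cls D (ρ ^ k) := by
  rw [mem_cls_iff] at h ⊢
  rw [map_pow, map_pow]
  exact h.pow k

theorem mem_of_mem_cls {E : Subgroup G} [E.Normal] (hD : D ≤ E) (hρ : ρ ∈ E)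
    (h : σ ∈ cls D ρ) : σ ∈ E := by
  obtain ⟨g, d, hd, rfl⟩ := h
  exact E.mul_mem (Subgroup.Normal.conj_mem inferInstance ρ hρ g) (hD hd)

end cls

section cj

theorem mem_cj {g x : G} {H : Subgroup G} : x ∈ cj g H ↔ g⁻¹ * x * g ∈ H := by
  unfold cj
  rw [Subgroup.mem_map_equiv, MulAut.conj_symm_apply]

theorem conj_mem_cj (g : G) {x : G} {H : Subgroup G} (hx : x ∈ H) : g * x * g⁻¹ ∈ cj g H := by
  rw [mem_cj]
  convert hx using 1
  group

theorem cj_one (H : Subgroup G) : cj 1 H = H := by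
  ext x
  simp [mem_cj]

theorem cj_mul (a b : G) (H : Subgroup G) : cj (a * b) H = cj a (cj b H) := by
  ext x
  simp [mem_cj, mul_assoc]

theorem cj_mono (g : G) {H K : Subgroup G} (h : H ≤ K) : cj g H ≤ cj g K := by
  exact Subgroup.map_mono h

theorem cj_inj (g : G) {H K : Subgroup G} (h : cj g H = cj g K) : H = K := by
  exact Subgroup.map_injective (MulAut.conj g).injective h

theorem cj_eq_bot {g : G} {H : Subgroup G} : cj g H = ⊥ ↔ H = ⊥ := by
  exact Subgroup.map_eq_bot_iff_of_injective H (MulAut.conj g).injective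

theorem cj_normal (g : G) (H : Subgroup G) [H.Normal] : cj g H = H := by
  ext x
  rw [mem_cj]
  refine ⟨fun h => ?_, fun h => Subgroup.Normal.conj_mem' inferInstance x h g⟩
  convert Subgroup.Normal.conj_mem inferInstance _ h g using 1
  group

theorem cj_commutator (g : G) (H K : Subgroup G) : cj g ⁅H, K⁆ = ⁅cj g H, cj g K⁆ := by
  exact Subgroup.map_commutator H K _

theorem cj_inf (g : G) (H K : Subgroup G) : cj g (H ⊓ K) = cj g H ⊓ cj g K := by
  ext x
  simp only [mem_cj, Subgroup.mem_inf]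

theorem cj_sup (g : G) (H K : Subgroup G) : cj g (H ⊔ K) = cj g H ⊔ cj g K := by
  exact Subgroup.map_sup H K _

theorem cj_centralizer (g y : G) :
    cj g (Subgroup.centralizer {y}) = Subgroup.centralizer {g * y * g⁻¹} := by
  ext x
  rw [mem_cj, Subgroup.mem_centralizer_singleton_iff, Subgroup.mem_centralizer_singleton_iff]
  constructor
  · intro h
    calc x * (g * y * g⁻¹) = g * (g⁻¹ * x * g * y) * g⁻¹ := by group
      _ = g * y * g⁻¹ * x := by rw [h]; group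
  · intro h
    calc g⁻¹ * x * g * y = g⁻¹ * (x * (g * y * g⁻¹)) * g := by group
      _ = y * (g⁻¹ * x * g) := by rw [h]; group

theorem cj_map (f : G →* G') (g : G) (H : Subgroup G) :
    (cj g H).map f = cj (f g) (H.map f) := by
  unfold cj
  rw [Subgroup.map_map, Subgroup.map_map]
  congr 1
  ext x
  simp

theorem cj_subgroupOf (E : Subgroup G) (g : E) (H : Subgroup G) :
    cj g (H.subgroupOf E) = (cj (g : G) H).subgroupOf E := by
  ext x
  simp [mem_cj, Subgroup.mem_subgroupOf]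

/-- If `⁅g, H⁆ ≤ H` elementwise then `g` normalises `H`. -/
theorem cj_eq_of_comm [Finite G] {g : G} {H : Subgroup G}
    (h : ∀ k ∈ H, g * k * g⁻¹ * k⁻¹ ∈ H) : cj g H = H := by
  have h1 : cj g H ≤ H := by
    rintro _ ⟨k, hk, rfl⟩
    have := H.mul_mem (h k hk) hk
    simpa using this
  refine Subgroup.eq_of_le_of_card_ge h1 (le_of_eq ?_)
  exact (Subgroup.card_map_of_injective (MulAut.conj g).injective).symm

theorem normal_of_cj {H : Subgroup G} (h : ∀ g : G, cj g H ≤ H) : H.Normal := by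
  exact ⟨fun x hx g => h g (conj_mem_cj g hx)⟩

end cj

end Pool.Agent.Lib.MP_634dc6_al
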