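import Pool.Agent.Lib.MP_634dc6_al.Defs

/-!
`p`-parts of elements of finite groups.
-/

namespace Pool.Agent.Lib.MP_634dc6_al

variable {G G' : Type} [Group G] [Group G'] {p : ℕ} {g y x : G}

theorem QE.pow (h : QE p y) (k : ℕ) : QE p (y ^ k) := by
  exact Nat.Coprime.coprime_dvd_left (orderOf_pow_dvd k) h

theorem PE.pow (h : PE p x) (k : ℕ) : PE p (x ^ k) := by
  obtain ⟨e, he⟩ := h
  exact ⟨e, by rw [← pow_mul, mul_comm, pow_mul, he, one_pow]⟩

theorem QE.map (f : G →* G') (h : QE p y) : QE p (f y) := by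
  exact Nat.Coprime.coprime_dvd_left (orderOf_map_dvd f y) h

theorem PE.map (f : G →* G') (h : PE p x) : PE p (f x) := by
  obtain ⟨e, he⟩ := h
  exact ⟨e, by rw [← map_pow, he, map_one]⟩

theorem QE.conj (h : QE p y) (a : G) : QE p (a * y * a⁻¹) := by
  exact h.map (MulAut.conj a).toMonoidHom

theorem PE.conj (h : PE p x) (a : G) : PE p (a * x * a⁻¹) := by
  exact h.map (MulAut.conj a).toMonoidHom

theorem QE.mul {a b : G} (hab : Commute a b) (ha : QE p a) (hb : QE p b) : QE p (a * b) := by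
  exact Nat.Coprime.coprime_dvd_left hab.orderOf_mul_dvd_mul_orderOf (Nat.Coprime.mul_left ha hb)

theorem PE.mul {a b : G} (hab : Commute a b) (ha : PE p a) (hb : PE p b) : PE p (a * b) := by
  obtain ⟨e, he⟩ := ha
  obtain ⟨e', he'⟩ := hb
  refine ⟨e + e', ?_⟩
  rw [hab.mul_pow, pow_add p, pow_mul a, he, one_pow, one_mul, mul_comm (p ^ e), pow_mul, he',
    one_pow]

theorem PE.of_mem {P : Subgroup G} (hP : IsPGroup p P) (hx : x ∈ P) : PE p x := by
  obtain ⟨k, hk⟩ := hP ⟨x, hx⟩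
  exact ⟨k, by simpa using congrArg Subtype.val hk⟩

/-- Modulo `P` the element is a `p`-element. -/
theorem PE.mul_mem {P : Subgroup G} [P.Normal] (hP : IsPGroup p P) (h : PE p x) {d : G}
    (hd : d ∈ P) : PE p (x * d) := by
  obtain ⟨e, he⟩ := h
  have h1 : (x * d) ^ p ^ e ∈ P := by
    rw [← QuotientGroup.eq_one_iff, QuotientGroup.mk_pow, QuotientGroup.mk_mul,
      (QuotientGroup.eq_one_iff d).2 hd, mul_one, ← QuotientGroup.mk_pow, he,
      QuotientGroup.mk_one]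
  obtain ⟨k, hk⟩ := PE.of_mem hP h1
  exact ⟨e + k, by rw [pow_add, pow_mul, hk]⟩

theorem QE.of_PE_ne {q : ℕ} (hp : p.Prime) (hq : q.Prime) (hne : q ≠ p) (h : PE q x) : QE p x := by
  obtain ⟨e, he⟩ := h
  exact Nat.Coprime.coprime_dvd_left (orderOf_dvd_of_pow_eq_one he)
    (Nat.Coprime.pow_left e ((Nat.coprime_primes hq hp).2 hne))

theorem QE.of_pow_eq_one {k : ℕ} (hk : k.Coprime p) (h : y ^ k = 1) : QE p y := by
  exact Nat.Coprime.coprime_dvd_left (orderOf_dvd_of_pow_eq_one h) hk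

theorem eq_one_of_PE_QE (h1 : PE p x) (h2 : QE p x) : x = 1 := by
  obtain ⟨e, he⟩ := h1
  have h3 : (orderOf x).Coprime (p ^ e) := Nat.Coprime.pow_right e h2
  exact orderOf_eq_one_iff.1 (Nat.Coprime.eq_one_of_dvd h3 (orderOf_dvd_of_pow_eq_one he))

/-- A `p`-element is a power of each of its `k`-th powers with `k` prime to `p`. -/
theorem PE.mem_of_pow (h : PE p x) {H : Subgroup G} {k : ℕ} (hk : k.Coprime p)
    (hx : x ^ k ∈ H) : x ∈ H := by
  obtain ⟨e, he⟩ := h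
  have h3 : k.Coprime (orderOf x) :=
    Nat.Coprime.coprime_dvd_right (orderOf_dvd_of_pow_eq_one he) (Nat.Coprime.pow_right e hk)
  obtain ⟨m, hm⟩ := exists_pow_eq_self_of_coprime h3
  rw [← hm]
  exact H.pow_mem hx m

/-- If `x ^ (a * p ^ e) = 1` for a `p`-element then only the `p`-part of `a` matters. -/
theorem PE.pow_eq_one (hp : p.Prime) (h : PE p x) {a e b : ℕ} (ha : a ≠ 0)
    (hb : a.factorization p ≤ b) (hx : (x ^ a) ^ p ^ e = 1) : x ^ p ^ (e + b) = 1 := by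
  obtain ⟨c, hc⟩ := h
  obtain ⟨j, -, hj⟩ := (Nat.dvd_prime_pow hp).1 (orderOf_dvd_of_pow_eq_one hc)
  rw [← pow_mul] at hx
  have h1 := orderOf_dvd_of_pow_eq_one hx
  rw [hj] at h1
  have h0 : a * p ^ e ≠ 0 := mul_ne_zero ha (pow_ne_zero _ hp.ne_zero)
  have h2 := (hp.pow_dvd_iff_le_factorization h0).1 h1
  rw [Nat.factorization_mul ha (pow_ne_zero _ hp.ne_zero), Finsupp.add_apply,
    hp.factorization_pow, Finsupp.single_eq_same] at h2
  apply orderOf_dvd_iff_pow_eq_one.1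
  rw [hj]
  exact pow_dvd_pow p (by omega)

/-- Write `orderOf g = p ^ a * n` and use Bezout (or the Chinese remainder theorem). -/
theorem dec_exists [Finite G] (hp : p.Prime) (g : G) : ∃ y x : G, Dec p g y x := by
  have h0 : orderOf g ≠ 0 := (orderOf_pos g).ne'
  obtain ⟨a, n, hn, hg⟩ := Nat.exists_eq_pow_mul_and_not_dvd h0 p hp.ne_one
  have hnp : n.Coprime p := ((Nat.Prime.coprime_iff_not_dvd hp).2 hn).symm
  have hco : (p ^ a).Coprime n := (Nat.Coprime.pow_right a hnp).symm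
  obtain ⟨i, hi1, hi2⟩ := Nat.chineseRemainder hco 0 1
  obtain ⟨j, hj1, hj2⟩ := Nat.chineseRemainder hco 1 0
  refine ⟨g ^ i, g ^ j, ?_, (Commute.refl g).pow_pow i j, ?_, a, ?_⟩
  · rw [← pow_add]
    have h1 : 1 ≡ i + j [MOD orderOf g] := by
      rw [hg]
      refine (Nat.modEq_and_modEq_iff_modEq_mul hco).1 ⟨?_, ?_⟩
      · simpa using (hi1.add hj1).symm
      · simpa using (hi2.add hj2).symm
    have h2 := pow_eq_pow_iff_modEq.2 h1
    rwa [pow_one] at h2
  · refine QE.of_pow_eq_one hnp ?_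
    rw [← pow_mul]
    apply orderOf_dvd_iff_pow_eq_one.1
    rw [hg]
    exact Nat.mul_dvd_mul_right ((Nat.modEq_zero_iff_dvd).1 hi1) n
  · rw [← pow_mul]
    apply orderOf_dvd_iff_pow_eq_one.1
    rw [hg, mul_comm j]
    exact Nat.mul_dvd_mul_left _ ((Nat.modEq_zero_iff_dvd).1 hj2)

theorem Dec.mem_pow [Finite G] (h : Dec p g y x) :
    (∃ i : ℕ, y = g ^ i) ∧ ∃ j : ℕ, x = g ^ j := by
  obtain ⟨hg, hc, hy, e, he⟩ := h
  constructor
  · have h1 : g ^ p ^ e = y ^ p ^ e := by rw [hg, hc.mul_pow, he, mul_one]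
    have h3 : (p ^ e).Coprime (orderOf y) := (Nat.Coprime.pow_right e hy).symm
    obtain ⟨m, hm⟩ := exists_pow_eq_self_of_coprime h3
    exact ⟨p ^ e * m, by rw [pow_mul, h1, hm]⟩
  · have h1 : g ^ orderOf y = x ^ orderOf y := by
      rw [hg, hc.mul_pow, pow_orderOf_eq_one, one_mul]
    have h3 : (orderOf y).Coprime (orderOf x) :=
      Nat.Coprime.coprime_dvd_right (orderOf_dvd_of_pow_eq_one he) (Nat.Coprime.pow_right e hy)
    obtain ⟨m, hm⟩ := exists_pow_eq_self_of_coprime h3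
    exact ⟨orderOf y * m, by rw [pow_mul, h1, hm]⟩

theorem Dec.unique [Finite G] {y' x' : G} (h : Dec p g y x) (h' : Dec p g y' x') :
    y = y' ∧ x = x' := by
  obtain ⟨⟨i, hi⟩, j, hj⟩ := h.mem_pow
  obtain ⟨⟨i', hi'⟩, j', hj'⟩ := h'.mem_pow
  have hyy : Commute y'⁻¹ y := by
    rw [hi, hi']
    exact ((Commute.refl g).pow_pow i' i).inv_left
  have hxx : Commute x' x⁻¹ := by
    rw [hj, hj']
    exact ((Commute.refl g).pow_pow j' j).inv_right
  have he : y'⁻¹ * y = x' * x⁻¹ := by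
    have h1 : y * x = y' * x' := by rw [← h.1, ← h'.1]
    calc y'⁻¹ * y = y'⁻¹ * (y * x) * x⁻¹ := by group
      _ = y'⁻¹ * (y' * x') * x⁻¹ := by rw [h1]
      _ = x' * x⁻¹ := by group
  have hq : QE p (y'⁻¹ * y) := by
    refine QE.mul hyy ?_ h.2.2.1
    unfold QE
    rw [orderOf_inv]
    exact h'.2.2.1
  have hp' : PE p (x' * x⁻¹) := by
    refine PE.mul hxx h'.2.2.2 ?_
    obtain ⟨e, he⟩ := h.2.2.2
    exact ⟨e, by rw [inv_pow, he, inv_one]⟩
  have h2 : x' * x⁻¹ = 1 := eq_one_of_PE_QE hp' (he ▸ hq)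
  have h3 : y'⁻¹ * y = 1 := he.trans h2
  exact ⟨(inv_mul_eq_one.1 h3).symm, (mul_inv_eq_one.1 h2).symm⟩

theorem Dec.map (f : G →* G') (h : Dec p g y x) : Dec p (f g) (f y) (f x) := by
  obtain ⟨hg, hc, hy, hx⟩ := h
  exact ⟨by rw [hg, map_mul], hc.map f, hy.map f, hx.map f⟩

theorem Dec.conj (h : Dec p g y x) (a : G) :
    Dec p (a * g * a⁻¹) (a * y * a⁻¹) (a * x * a⁻¹) := by
  exact h.map (MulAut.conj a).toMonoidHom

theorem Dec.pow (h : Dec p g y x) (k : ℕ) : Dec p (g ^ k) (y ^ k) (x ^ k) := by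
  obtain ⟨hg, hc, hy, hx⟩ := h
  exact ⟨by rw [hg, hc.mul_pow], hc.pow_pow k k, hy.pow k, hx.pow k⟩

theorem ord_vo (hp : p.Prime) (h : Dec p g y x) {a : ℕ} (ha : orderOf x = p ^ a) :
    vo p g = a := by
  obtain ⟨hg, hc, hy, -⟩ := h
  have hco : (orderOf y).Coprime (orderOf x) := by
    rw [ha]
    exact Nat.Coprime.pow_right a hy
  have hnd : ¬ p ∣ orderOf y := (Nat.Prime.coprime_iff_not_dvd hp).1 (Nat.Coprime.symm hy)
  have h0 : orderOf y ≠ 0 := fun h0 => hnd (h0 ▸ dvd_zero p)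
  unfold vo
  rw [hg, hc.orderOf_mul_eq_mul_orderOf_of_coprime hco, ha,
    Nat.factorization_mul h0 (pow_ne_zero _ hp.ne_zero), Finsupp.add_apply,
    Nat.factorization_eq_zero_of_not_dvd hnd, hp.factorization_pow, Finsupp.single_eq_same,
    zero_add]

theorem Dec.orderOf_eq [Finite G] (hp : p.Prime) (h : Dec p g y x) :
    orderOf x = p ^ vo p g := by
  obtain ⟨e, he⟩ := h.2.2.2
  obtain ⟨j, -, hj⟩ := (Nat.dvd_prime_pow hp).1 (orderOf_dvd_of_pow_eq_one he)
  rw [ord_vo hp h hj, hj]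

theorem vo_eq_of_dec [Finite G] (hp : p.Prime) (h : Dec p g y x) {a : ℕ}
    (ha : orderOf x = p ^ a) : vo p g = a := by
  exact ord_vo hp h ha

theorem vo_pow [Finite G] (g : G) {k : ℕ} (hk : k ≠ 0) :
    vo p (g ^ k) = vo p g - k.factorization p := by
  unfold vo
  have h0 : orderOf g ≠ 0 := (orderOf_pos g).ne'
  rw [orderOf_pow' g hk, Nat.factorization_div (Nat.gcd_dvd_left _ _),
    Nat.factorization_gcd h0 hk, Finsupp.tsub_apply, Finsupp.inf_apply]
  omega

theorem vo_conj (a g : G) : vo p (a * g * a⁻¹) = vo p g := by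
  have h : orderOf (a * g * a⁻¹) = orderOf g := by
    simpa using MulEquiv.orderOf_eq (MulAut.conj a) g
  unfold vo
  rw [h]

theorem vo_map_le [Finite G] (f : G →* G') (g : G) : vo p (f g) ≤ vo p g := by
  unfold vo
  have h0 : orderOf g ≠ 0 := (orderOf_pos g).ne'
  have hd := orderOf_map_dvd f g
  exact (Nat.factorization_le_iff_dvd (ne_zero_of_dvd_ne_zero h0 hd) h0).2 hd p

/-- The `p`-part `x` of `g` meets the kernel trivially, so `f x` has the order of `x`. -/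
theorem vo_map_of_ker [Finite G] (hp : p.Prime) (f : G →* G') (hk : ∀ n : G, f n = 1 → QE p n)
    (g : G) : vo p (f g) = vo p g := by
  obtain ⟨y, x, h⟩ := dec_exists hp g
  refine ord_vo hp (h.map f) ?_
  rw [← h.orderOf_eq hp]
  refine Nat.dvd_antisymm (orderOf_map_dvd f x) ?_
  apply orderOf_dvd_of_pow_eq_one
  refine eq_one_of_PE_QE (h.2.2.2.pow _) (hk _ ?_)
  rw [map_pow, pow_orderOf_eq_one]

theorem Dec.mem_of_vo [Finite G] (hp : p.Prime) (h : Dec p g y x) (D : Subgroup G) [D.Normal]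
    (h0 : vo p (QuotientGroup.mk' D g) = 0) : x ∈ D := by
  have h1 := (h.map (QuotientGroup.mk' D)).orderOf_eq hp
  rw [h0, pow_zero, orderOf_eq_one_iff] at h1
  exact (QuotientGroup.eq_one_iff x).1 h1

/-- Take `z = x ^ p ^ b` with `x` the `p`-part of `g` and `b = vo p (mk g)`. -/
theorem exists_deep [Finite G] (hp : p.Prime) (D : Subgroup G) [D.Normal] (g : G) :
    ∃ z ∈ D, (∃ j : ℕ, z = g ^ j) ∧
      orderOf z = p ^ (vo p g - vo p (QuotientGroup.mk' D g)) := by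
  obtain ⟨y, x, h⟩ := dec_exists hp g
  obtain ⟨j, hj⟩ := h.mem_pow.2
  have h1 := (h.map (QuotientGroup.mk' D)).orderOf_eq hp
  have h2 := h.orderOf_eq hp
  have h3 : vo p (QuotientGroup.mk' D g) ≤ vo p g := vo_map_le _ g
  refine ⟨x ^ p ^ vo p (QuotientGroup.mk' D g), ?_, ⟨j * p ^ vo p (QuotientGroup.mk' D g), ?_⟩, ?_⟩
  · apply (QuotientGroup.eq_one_iff _).1
    have h4 : (QuotientGroup.mk' D) (x ^ p ^ vo p (QuotientGroup.mk' D g)) = 1 := by
      rw [map_pow, ← h1, pow_orderOf_eq_one]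
    exact h4
  · rw [pow_mul, ← hj]
  · rw [orderOf_pow' x (pow_ne_zero _ hp.ne_zero), h2,
      Nat.gcd_eq_right (pow_dvd_pow p h3), Nat.pow_div h3 hp.pos]

theorem factorization_factorial_le (hp : p.Prime) (M : ℕ) :
    (Nat.factorial M).factorization p ≤ M := by
  exact (Nat.factorization_factorial_le_div_pred hp M).trans (Nat.div_le_self _ _)

theorem coprime_factorial (hp : p.Prime) {M : ℕ} (h : M < p) : (Nat.factorial M).Coprime p := by
  refine ((Nat.Prime.coprime_iff_not_dvd hp).2 ?_).symm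
  rw [hp.dvd_factorial]
  omega

/-- If a normal subgroup has relative index at most `M` then `M !`-th powers fall into it. -/
theorem pow_factorial_mem [Finite G] {D K : Subgroup G} [D.Normal] {M : ℕ}
    (h : D.relIndex K ≤ M) {k : G} (hk : k ∈ K) : k ^ Nat.factorial M ∈ D := by
  have h0 : (D.subgroupOf K).index ≠ 0 := Subgroup.index_ne_zero_of_finite
  have h1 : (D.subgroupOf K).index ∣ Nat.factorial M :=
    Nat.dvd_factorial (Nat.pos_of_ne_zero h0) h
  obtain ⟨c, hc⟩ := h1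
  have h2 := Subgroup.pow_index_mem (D.subgroupOf K) (⟨k, hk⟩ : K)
  rw [Subgroup.mem_subgroupOf] at h2
  rw [hc, pow_mul]
  exact D.pow_mem (by simpa using h2) c

end Pool.Agent.Lib.MP_634dc6_al
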