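import Pool.Agent.Lib.MP_634dc6_al.Om
import Pool.Agent.Lib.MP_634dc6_al.Ord

/-!
Perfect subgroups and commutators.
-/

namespace Pool.Agent.Lib.MP_634dc6_al

variable {G G' : Type} [Group G] [Group G']

theorem perf_self (H : Subgroup G) : ⁅H, H⁆ ≤ H :=
  (Subgroup.commutator_le_sup H H).trans (sup_idem H).le

theorem perf_le_sup {A B D : Subgroup G} [D.Normal] :
    A ≤ B ⊔ D ↔ A.map (QuotientGroup.mk' D) ≤ B.map (QuotientGroup.mk' D) := by
  rw [Subgroup.map_le_map_iff, QuotientGroup.ker_mk']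

theorem perf_map_bot {A N : Subgroup G} [N.Normal] :
    A.map (QuotientGroup.mk' N) = ⊥ ↔ A ≤ N := by
  rw [Subgroup.map_eq_bot_iff, QuotientGroup.ker_mk']

theorem sSup_perf {S : Set (Subgroup G)} (h : ∀ U ∈ S, ⁅U, U⁆ = U) :
    ⁅sSup S, sSup S⁆ = sSup S := by
  refine le_antisymm (perf_self _) (sSup_le fun U hU => ?_)
  rw [← h U hU]
  exact Subgroup.commutator_mono (le_sSup hU) (le_sSup hU)

theorem res_le (H : Subgroup G) : res H ≤ H := by
  exact sSup_le fun _ hU => hU.1

theorem res_perf (H : Subgroup G) : ⁅res H, res H⁆ = res H := by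
  exact sSup_perf fun _ hU => hU.2

theorem le_res {H U : Subgroup G} (h : U ≤ H) (hU : ⁅U, U⁆ = U) : U ≤ res H := by
  exact le_sSup (show U ∈ {U | U ≤ H ∧ ⁅U, U⁆ = U} from ⟨h, hU⟩)

theorem res_mono {H K : Subgroup G} (h : H ≤ K) : res H ≤ res K := by
  exact le_res ((res_le H).trans h) (res_perf H)

theorem map_res_equiv (e : G ≃* G') (H : Subgroup G) :
    (res H).map e.toMonoidHom = res (H.map e.toMonoidHom) := by
  have key : ∀ {A B : Type} [Group A] [Group B] (f : A →* B) (H : Subgroup A),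
      (res H).map f ≤ res (H.map f) := fun f H =>
    le_res (Subgroup.map_mono (res_le H)) (by rw [← Subgroup.map_commutator, res_perf])
  refine le_antisymm (key _ _) ?_
  have h1 := Subgroup.map_mono (f := e.toMonoidHom) (key e.symm.toMonoidHom (H.map e.toMonoidHom))
  have h2 : e.toMonoidHom.comp e.symm.toMonoidHom = MonoidHom.id _ := by
    ext x
    simp
  have h3 : e.symm.toMonoidHom.comp e.toMonoidHom = MonoidHom.id _ := by
    ext x
    simp
  rwa [Subgroup.map_map, Subgroup.map_map, h2, h3, Subgroup.map_id, Subgroup.map_id] at h1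

theorem cj_res (g : G) (H : Subgroup G) : cj g (res H) = res (cj g H) := by
  exact map_res_equiv (MulAut.conj g) H

/-- Iterate `C ↦ ⁅C, C⁆`: every term still covers `K` modulo `D`, and the sequence becomes
stationary at a perfect subgroup (strong induction on `Nat.card C`). -/
theorem res_cover [Finite G] {D K C : Subgroup G} [D.Normal] (hK : K ≤ ⁅K, K⁆ ⊔ D)
    (hC : K ≤ C ⊔ D) : K ≤ res C ⊔ D := by
  induction hn : Nat.card C using Nat.strong_induction_on generalizing C with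
  | _ n ih =>
    by_cases h : ⁅C, C⁆ = C
    · exact hC.trans (sup_le_sup_right (le_res le_rfl h) D)
    · have h1 : Nat.card (⁅C, C⁆ : Subgroup G) < n := by
        rw [← hn]
        by_contra h2
        exact h (Subgroup.eq_of_le_of_card_ge (perf_self C) (not_lt.1 h2))
      have h2 : K ≤ ⁅C, C⁆ ⊔ D := by
        rw [perf_le_sup] at hK hC ⊢
        rw [Subgroup.map_commutator] at hK ⊢
        exact hK.trans (Subgroup.commutator_mono hC hC)
      exact (ih _ h1 h2 rfl).trans (sup_le_sup_right (res_mono (perf_self C)) D)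

/-- Three subgroups lemma modulo a normal subgroup
(`Subgroup.commutator_commutator_eq_bot_of_rotate` in the quotient). -/
theorem three_mod {A B C N : Subgroup G} [N.Normal] (h1 : ⁅⁅B, C⁆, A⁆ ≤ N)
    (h2 : ⁅⁅C, A⁆, B⁆ ≤ N) : ⁅⁅A, B⁆, C⁆ ≤ N := by
  rw [← perf_map_bot, Subgroup.map_commutator, Subgroup.map_commutator] at h1 h2 ⊢
  exact Subgroup.commutator_commutator_eq_bot_of_rotate h1 h2

theorem perf_comm {X L N : Subgroup G} [N.Normal] (hL : ⁅L, L⁆ = L) (h : ⁅⁅X, L⁆, L⁆ ≤ N) :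
    ⁅X, L⁆ ≤ N := by
  have h1 : ⁅⁅L, X⁆, L⁆ ≤ N := by rwa [Subgroup.commutator_comm L X]
  have h2 := three_mod h1 h
  rwa [hL, Subgroup.commutator_comm] at h2

theorem comm_comm_eq {X L : Subgroup G} [X.Normal] [L.Normal] (hL : ⁅L, L⁆ = L) :
    ⁅⁅X, L⁆, L⁆ = ⁅X, L⁆ := by
  exact le_antisymm (Subgroup.commutator_le_left _ _) (perf_comm hL le_rfl)

/-- A perfect group that acts trivially on all factors of a chain acts trivially (induction on
`n`, `perf_comm`). -/
theorem chain_comm {L : Subgroup G} (hL : ⁅L, L⁆ = L) (A : ℕ → Subgroup G) [(A 0).Normal] (n : ℕ)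
    (h : ∀ k < n, ⁅A (k + 1), L⁆ ≤ A k) : ⁅A n, L⁆ ≤ A 0 := by
  induction n with
  | zero => exact Subgroup.commutator_le_left _ _
  | succ n ih =>
    exact perf_comm hL ((Subgroup.commutator_mono (h n (Nat.lt_succ_self n)) le_rfl).trans
      (ih fun k hk => h k (Nat.lt_succ_of_lt hk)))

theorem map_perf (f : G →* G') {L : Subgroup G} (hL : ⁅L, L⁆ = L) :
    ⁅L.map f, L.map f⁆ = L.map f := by
  rw [← Subgroup.map_commutator, hL]

theorem comm_subgroupOf {E A B : Subgroup G} (hA : A ≤ E) (hB : B ≤ E) :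
    ⁅A.subgroupOf E, B.subgroupOf E⁆ = ⁅A, B⁆.subgroupOf E := by
  refine Subgroup.map_injective E.subtype_injective ?_
  rw [Subgroup.map_commutator, Subgroup.map_subgroupOf_eq_of_le hA,
    Subgroup.map_subgroupOf_eq_of_le hB,
    Subgroup.map_subgroupOf_eq_of_le ((Subgroup.commutator_le_sup A B).trans (sup_le hA hB))]

theorem exists_mul_of_mem_sup {A D : Subgroup G} [D.Normal] {g : G} (h : g ∈ A ⊔ D) :
    ∃ a ∈ A, ∃ d ∈ D, g = a * d := by
  obtain ⟨a, ha, d, hd, rfl⟩ := Subgroup.mem_sup_of_normal_right.1 h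
  exact ⟨a, ha, d, hd, rfl⟩

theorem comm_le_iff {A B N : Subgroup G} :
    ⁅A, B⁆ ≤ N ↔ ∀ a ∈ A, ∀ b ∈ B, a * b * a⁻¹ * b⁻¹ ∈ N := by
  exact Subgroup.commutator_le

theorem comm_eq_bot_iff {A B : Subgroup G} : ⁅A, B⁆ = ⊥ ↔ ∀ a ∈ A, ∀ b ∈ B, Commute a b := by
  rw [eq_bot_iff, Subgroup.commutator_le]
  simp only [Subgroup.mem_bot, commutatorElement_eq_one_iff_commute]

theorem map_mk_eq_bot {A N : Subgroup G} [N.Normal] :
    A.map (QuotientGroup.mk' N) = ⊥ ↔ A ≤ N := by
  exact perf_map_bot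

theorem perf_top {L : Subgroup G} (hL : ⁅L, L⁆ = L) : _root_.commutator L = ⊤ := by
  have h := comm_subgroupOf (E := L) (A := L) (B := L) le_rfl le_rfl
  rwa [hL, Subgroup.subgroupOf_self] at h

theorem perf_center [Finite G] {L Z : Subgroup G} (hZ : ⁅Z ⊓ L, L⁆ = ⊥) :
    (Subgroup.center L).index ≤ Z.relIndex L := by
  have h1 : Z.subgroupOf L ≤ Subgroup.center L := by
    intro z hz
    rw [Subgroup.mem_center_iff]
    intro g
    exact Subtype.ext (comm_eq_bot_iff.1 hZ z ⟨hz, z.2⟩ g g.2).symm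
  exact Subgroup.index_antitone h1

open scoped commutatorElement in
theorem perf_card_set (A : Type) [Group A] [Finite A] :
    Nat.card (commutatorSet A) ≤ (Subgroup.center A).index * (Subgroup.center A).index := by
  rw [Subgroup.index, ← Nat.card_prod]
  refine Nat.card_le_card_of_surjective
    (fun q : (A ⧸ Subgroup.center A) × (A ⧸ Subgroup.center A) =>
      (⟨⁅q.1.out, q.2.out⁆, commutator_mem_commutatorSet _ _⟩ : commutatorSet A)) ?_
  rintro ⟨_, a, b, rfl⟩
  refine ⟨(QuotientGroup.mk a, QuotientGroup.mk b), Subtype.ext ?_⟩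
  obtain ⟨⟨z, hz⟩, ha⟩ := QuotientGroup.mk_out_eq_mul (Subgroup.center A) a
  obtain ⟨⟨w, hw⟩, hb⟩ := QuotientGroup.mk_out_eq_mul (Subgroup.center A) b
  simp only [ha, hb, commutatorElement_def]
  have hz' := Subgroup.mem_center_iff.1 hz
  have hw' := Subgroup.mem_center_iff.1 hw
  calc a * z * (b * w) * (a * z)⁻¹ * (b * w)⁻¹
      = a * (z * (b * w) * z⁻¹) * a⁻¹ * (b * w)⁻¹ := by group
    _ = a * (b * w) * a⁻¹ * (b * w)⁻¹ := by rw [← hz' (b * w), mul_inv_cancel_right]
    _ = a * b * (w * a⁻¹ * w⁻¹) * b⁻¹ := by group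
    _ = a * b * a⁻¹ * b⁻¹ := by rw [← hw' a⁻¹, mul_inv_cancel_right]

/-- A perfect group with a central subgroup of index at most `M` has exponent dividing `M !`:
`MonoidHom.transferCenterPow` is a homomorphism of `↥L` to a commutative group, hence trivial. -/
theorem perf_pow [Finite G] {L Z : Subgroup G} {M : ℕ} (hL : ⁅L, L⁆ = L)
    (hZ : ⁅Z ⊓ L, L⁆ = ⊥) (hM : Z.relIndex L ≤ M) {x : G} (hx : x ∈ L) :
    x ^ Nat.factorial M = 1 := by
  have h1 := perf_center hZ
  have h2 : (Subgroup.center L).index ∣ Nat.factorial M :=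
    Nat.dvd_factorial (Nat.pos_of_ne_zero Subgroup.FiniteIndex.index_ne_zero) (h1.trans hM)
  have h3 : (⊤ : Subgroup L) ≤ (MonoidHom.transferCenterPow L).ker := by
    rw [← perf_top hL, _root_.commutator, Subgroup.commutator_le]
    intro a _ b _
    rw [MonoidHom.mem_ker, map_commutatorElement, commutatorElement_eq_one_iff_mul_comm]
    exact Subtype.ext (Subgroup.mem_center_iff.1 (MonoidHom.transferCenterPow L b).2 _)
  have h4 : (⟨x, hx⟩ : L) ^ (Subgroup.center L).index = 1 := by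
    rw [← MonoidHom.transferCenterPow_apply, MonoidHom.mem_ker.1 (h3 (Subgroup.mem_top _))]
    rfl
  obtain ⟨c, hc⟩ := h2
  have h5 : x ^ (Subgroup.center L).index = 1 := by simpa using congrArg Subtype.val h4
  rw [hc, pow_mul, h5, one_pow]

/-- Schur: `Subgroup.card_commutator_le_of_finite_commutatorSet` for `↥L`; a commutator depends
only on the cosets of `Z ⊓ L`, so there are at most `M ^ 2` commutators. Take the supremum of
`Subgroup.cardCommutatorBound n` over `n ≤ M ^ 2`. -/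
theorem schur_bound (M : ℕ) : ∃ M' : ℕ, ∀ (G : Type) [Group G] [Finite G] (L Z : Subgroup G),
    ⁅L, L⁆ = L → ⁅Z ⊓ L, L⁆ = ⊥ → Z.relIndex L ≤ M → Nat.card L ≤ M' := by
  refine ⟨(Finset.range (M * M + 1)).sup Subgroup.cardCommutatorBound, fun G _ _ L Z hL hZ hM => ?_⟩
  have h1 := (perf_center hZ).trans hM
  have h2 := Subgroup.card_commutator_le_of_finite_commutatorSet L
  rw [perf_top hL, Subgroup.card_top] at h2
  refine h2.trans (Finset.le_sup (Finset.mem_range.2 (Nat.lt_succ_of_le ?_)))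
  exact (perf_card_set L).trans (Nat.mul_le_mul h1 h1)

end Pool.Agent.Lib.MP_634dc6_al
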