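import Pool.Agent.Lib.MP_634dc6_al.TopB
import Pool.Agent.Lib.MP_634dc6_al.Expn

/-!
Orbits of components are small, and then the number of components is small.
-/

namespace Pool.Agent.Lib.MP_634dc6_al

variable {G : Type} [Group G] [Finite G] {ι : Type} [Finite ι] {M M' : ℕ} {D R : Subgroup G}
  {K : ι → Subgroup G}

omit [Finite G] in
/-- The stabiliser of `H` under conjugation. -/
def topcSt (H : Subgroup G) : Subgroup G where
  carrier := {g | cj g H = H}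
  one_mem' := cj_one H
  mul_mem' := by
    intro a b ha hb
    change cj (a * b) H = H
    rw [cj_mul, show cj b H = H from hb, show cj a H = H from ha]
  inv_mem' := by
    intro a ha
    change cj a⁻¹ H = H
    have h1 := congrArg (cj a⁻¹) (show cj a H = H from ha)
    rw [← cj_mul, inv_mul_cancel, cj_one] at h1
    exact h1.symm

omit [Finite ι] in
theorem topc_period (h : AS M D R K) {J : Set ι} (hf : J.Finite) (hJ : AInv K J) (x : G) {i : ι}
    (hi : i ∈ J) : ∃ k : ℕ, 1 ≤ k ∧ k ≤ J.ncard ∧ cj (x ^ k) (K i) = K i := by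
  obtain ⟨π, hπ⟩ := h.gs.perm x
  obtain ⟨k, h1, h2, h3⟩ := exists_cj_period (g := x) (𝒮 := K '' J) (by
    rintro _ ⟨j, hj, rfl⟩
    exact ⟨π j, hJ (MulAut.conj x) j hj _ (hπ j), (hπ j).symm⟩) ⟨i, hi, rfl⟩
  exact ⟨k, h1, h2.trans (Set.ncard_image_le hf), h3⟩

theorem topc_vo {N : Subgroup G} [N.Normal] {s a : ℕ} (hs : s.Prime)
    (h : ∀ x : G, PE s x → QuotientGroup.mk' N x ^ s ^ a = 1) (g : G ⧸ N) : vo s g ≤ a := by
  obtain ⟨g, rfl⟩ := QuotientGroup.mk'_surjective N g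
  obtain ⟨y, x, hd⟩ := dec_exists hs g
  have h1 := orderOf_dvd_of_pow_eq_one (h x hd.2.2.2)
  rw [(hd.map (QuotientGroup.mk' N)).orderOf_eq hs] at h1
  exact (Nat.pow_dvd_pow_iff_le_right hs.one_lt).1 h1

omit [Finite G] in
theorem topc_index (h : AS M D R K) (i : ι) : (topcSt (K i)).index ≤ (orb K i).ncard := by
  have h1 : ∀ q : G ⧸ topcSt (K i), ∃ j : orb K i, cj q.out (K i) = K j := fun q => by
    obtain ⟨π, hπ⟩ := h.gs.perm q.out
    exact ⟨⟨π i, MulAut.conj q.out, hπ i⟩, hπ i⟩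
  choose f hf using h1
  rw [← Nat.card_coe_set_eq]
  refine Nat.card_le_card_of_injective f fun a b hab => ?_
  rw [← a.out_eq', ← b.out_eq']
  refine QuotientGroup.eq.2 ?_
  change cj (a.out⁻¹ * b.out) (K i) = K i
  rw [cj_mul, hf b, ← hab, ← hf a, ← cj_mul, inv_mul_cancel, cj_one]

theorem topc_poly (A k : ℕ) : ∃ L₀ : ℕ, ∀ L : ℕ, L₀ ≤ L → A * L ^ k < 2 ^ L := by
  have h1 := tendsto_pow_const_div_const_pow_of_one_lt k (r := (2 : ℝ)) one_lt_two
  have h2 : (0 : ℝ) < 1 / ((A : ℝ) + 1) := by positivity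
  obtain ⟨L₀, hL⟩ := Filter.eventually_atTop.1 (h1.eventually (gt_mem_nhds h2))
  refine ⟨L₀, fun L h => ?_⟩
  have h3 := hL L h
  rw [div_lt_div_iff₀ (by positivity) (by positivity), one_mul] at h3
  have h4 : (A : ℝ) * (L : ℝ) ^ k < 2 ^ L := by
    have : (0 : ℝ) ≤ (L : ℝ) ^ k := by positivity
    nlinarith
  exact_mod_cast h4

/-- Let `x` be the `s`-part of a preimage. It permutes the `K i`, `i ∈ J`, with periods at most
`J.ncard` (`exists_cj_period`), so `x ^ s ^ log₂ (J.ncard)` normalises them: if `x ^ k` normalises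
`K i` with `k = s ^ b * k'` then `x ^ s ^ b` does (`PE.mem_of_pow` for the normaliser). Then
`pow_factorial_mem_cm`, `mem_cm_jn`, `PE.pow_eq_one`. -/
theorem AS.vo_le (h : AS M D R K) {J : Set ι} (hJ : AInv K J) [(cm (jn K J) D).Normal] {s : ℕ}
    (hs : s.Prime) (g : G ⧸ cm (jn K J) D) : vo s g ≤ Nat.log 2 J.ncard + M := by
  have := h.gs.nD
  refine topc_vo hs (fun x hx => ?_) g
  have h1 : (x ^ s ^ Nat.log 2 J.ncard) ^ Nat.factorial M ∈ cm (jn K J) D := by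
    refine mem_cm_jn.2 fun i hi => pow_factorial_mem_cm ?_ (h.gs.idx i)
    obtain ⟨k, h1, h2, h3⟩ := topc_period h (Set.toFinite J) hJ x hi
    obtain ⟨b, k', hk, rfl⟩ := Nat.exists_eq_pow_mul_and_not_dvd (n := k) (by omega) s hs.ne_one
    have h4 : x ^ s ^ b ∈ topcSt (K i) :=
      (hx.pow _).mem_of_pow ((Nat.Prime.coprime_iff_not_dvd hs).2 hk).symm (by
        rw [← pow_mul]
        exact h3)
    refine cj_pow_of_dvd h4 (pow_dvd_pow s (Nat.le_log_of_pow_le one_lt_two ?_))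
    refine le_trans (Nat.pow_le_pow_left hs.two_le b) (le_trans ?_ h2)
    exact Nat.le_mul_of_pos_right _ (Nat.pos_of_ne_zero fun h0 => hk (h0 ▸ dvd_zero s))
  refine PE.pow_eq_one hs (hx.map _) (Nat.factorial_ne_zero M) (factorization_factorial_le hs M) ?_
  rw [← pow_mul, mul_comm, pow_mul, ← map_pow, ← map_pow]
  exact (QuotientGroup.eq_one_iff _).2 h1

/-- `exp_index` for the normaliser of `K i`, whose index is the number of conjugates of `K i`, at
most the size of the orbit. If `K j = (K i).map φ` and `x` is an `s`-element then `(φ⁻¹ x) ^ e`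
normalises `K i`, so `x ^ e` normalises `K j`; `Bg.mem_cm`. -/
theorem AS.vo_le_factorization (h : AS M' D R K) (hG : Sm M G) (i : ι)
    [(cm (jn K (orb K i)) D).Normal] : ∃ e : ℕ, e ≠ 0 ∧ e ≤ (orb K i).ncard ^ (8 * M + 44) ∧
      ∀ s : ℕ, s.Prime → M < s → M' < s → ∀ g : G ⧸ cm (jn K (orb K i)) D,
        vo s g ≤ e.factorization s := by
  have := h.gs.nD
  obtain ⟨e, h0, h1, h2⟩ := exp_index hG (topcSt (K i))
  refine ⟨e, h0.ne', h1.trans (Nat.pow_le_pow_left (topc_index h i) _), fun s hs hM hM' g => ?_⟩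
  refine topc_vo hs (fun x hx => ?_) g
  have h3 : x ^ e ∈ cm (jn K (orb K i)) D := by
    refine mem_cm_jn.2 ?_
    rintro j ⟨φ, hφ⟩
    refine Bg.mem_cm (M := M') ⟨s, hs, hM', hx.pow e⟩ ?_ (h.gs.idx j)
    have h4 : cj (φ.symm x ^ e) (K i) = K i :=
      h2 (φ.symm x) ⟨s, hs, hM, hx.map φ.symm.toMonoidHom⟩
    have h5 := cj_map φ.toMonoidHom (φ.symm x ^ e) (K i)
    rw [h4, hφ, map_pow] at h5
    simpa using h5.symm
  have h6 := PE.pow_eq_one (e := 0) hs (hx.map (QuotientGroup.mk' (cm (jn K (orb K i)) D))) h0.ne'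
    le_rfl (by
      rw [pow_zero, pow_one, ← map_pow]
      exact (QuotientGroup.eq_one_iff _).2 h3)
  rwa [zero_add] at h6

/-- The right side is at most a constant times `sqrt m` times a power of `log m`. -/
theorem bound_of_lt (C Q a b : ℕ) : ∃ n₁ : ℕ, ∀ m y : ℕ, y ^ (C * 2) ≤ m →
    m < C * (Q * ((Nat.log 2 m + a) ^ b * y) + 1) ^ C → m ≤ n₁ := by
  obtain ⟨L₀, hL⟩ := topc_poly (C ^ 2 * (Q * 2 ^ b + 1) ^ (C * 2)) (b * (C * 2))
  refine ⟨2 ^ (L₀ + a + 2), fun m y hy hm => ?_⟩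
  rcases Nat.eq_zero_or_pos m with rfl | h0
  · exact Nat.zero_le _
  by_contra hc
  have h1 : L₀ + a + 2 ≤ Nat.log 2 m := Nat.le_log_of_pow_le one_lt_two (not_le.1 hc).le
  have h2 := Nat.pow_log_le_self 2 h0.ne'
  generalize Nat.log 2 m = L at h1 h2 hm
  have h3 := hL L (by omega)
  have h4 : (L + a) ^ b ≤ 2 ^ b * L ^ b := by
    rw [← mul_pow]
    exact Nat.pow_le_pow_left (by omega) b
  have h5 : 1 ≤ L ^ b := Nat.one_le_pow _ _ (by omega)
  have h6 : Q * ((L + a) ^ b * y) + 1 ≤ (Q * 2 ^ b + 1) * L ^ b * max 1 y := by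
    have e1 : Q * ((L + a) ^ b * y) ≤ Q * (2 ^ b * L ^ b * max 1 y) :=
      Nat.mul_le_mul_left _ (Nat.mul_le_mul h4 (le_max_right _ _))
    have e2 : 1 ≤ L ^ b * max 1 y := Nat.mul_pos h5 (le_max_left 1 y)
    calc Q * ((L + a) ^ b * y) + 1 ≤ Q * (2 ^ b * L ^ b * max 1 y) + L ^ b * max 1 y :=
          Nat.add_le_add e1 e2
      _ = _ := by ring
  have h7 : max 1 y ^ (C * 2) ≤ m := by
    rcases le_total 1 y with e | e
    · rwa [max_eq_right e]
    · rw [max_eq_left e, one_pow]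
      exact h0
  have h8 : m ^ 2 ≤ C ^ 2 * (Q * 2 ^ b + 1) ^ (C * 2) * L ^ (b * (C * 2)) * m := by
    calc m ^ 2 ≤ (C * ((Q * 2 ^ b + 1) * L ^ b * max 1 y) ^ C) ^ 2 :=
          Nat.pow_le_pow_left (hm.le.trans (Nat.mul_le_mul_left _ (Nat.pow_le_pow_left h6 _))) 2
      _ = C ^ 2 * (Q * 2 ^ b + 1) ^ (C * 2) * L ^ (b * (C * 2)) * max 1 y ^ (C * 2) := by
          rw [mul_pow C, ← pow_mul, mul_pow, mul_pow, ← pow_mul L]
          simp only [mul_assoc]
      _ ≤ _ := Nat.mul_le_mul_left _ h7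
  rw [pow_two] at h8
  have h9 := Nat.le_of_mul_le_mul_right h8 h0
  omega

/-- `ncard_lt`, `nord_le_of_vo` with `t = 2 C (8 M + 44)` and `p₀ = 2 ^ t + M + M'`,
`bound_of_lt`. -/
theorem orb_le (M M' c Q : ℕ) : ∃ n₁ : ℕ, ∀ (G : Type) [Group G] [Finite G] (ι : Type) [Finite ι]
    (D R : Subgroup G) (K : ι → Subgroup G) (i : ι), AS M' D R K → Sm M G → Group.IsSolvable D →
    GoodAll M' c D →
    Nat.card (MulAction.orbitRel.Quotient (MulAut G) G) ≤ Q * nord (Set.univ : Set G) →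
    (orb K i).ncard ≤ n₁ := by
  obtain ⟨C, hC⟩ := ncard_lt M' c
  obtain ⟨n₁, hn⟩ := bound_of_lt C Q (M' + 1) (2 ^ (C * 2 * (8 * M + 44)) + M + M' + 1)
  refine ⟨n₁, fun G _ _ ι _ D R K i h hG hD hA hQ => ?_⟩
  have := (h.sub (aInv_orb K i)).gs.nR
  obtain ⟨e, h0, h1, h2⟩ := h.vo_le_factorization hG i
  obtain ⟨y, hy, hy'⟩ := nord_le_of_vo (G := G ⧸ cm (jn K (orb K i)) D)
    (t := C * 2 * (8 * M + 44)) (p₀ := 2 ^ (C * 2 * (8 * M + 44)) + M + M') h0
    (le_trans (Nat.le_add_right _ _) (Nat.le_add_right _ _))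
    (fun s hs g => h.vo_le (aInv_orb K i) hs g)
    fun s hs hp g => h2 s hs
      (lt_of_le_of_lt (le_trans (Nat.le_add_left _ _) (Nat.le_add_right _ _)) hp)
      (lt_of_le_of_lt (Nat.le_add_left _ _) hp) g
  refine hn _ y ?_ ((hC G ι D R K _ Q h hD hA (aInv_orb K i) hQ).trans_le ?_)
  · have h3 := hy.trans h1
    rw [pow_mul] at h3
    exact (Nat.pow_le_pow_iff_left (by omega)).1 h3
  · exact Nat.mul_le_mul_left _
      (Nat.pow_le_pow_left (Nat.add_le_add_right (Nat.mul_le_mul_left _ hy') 1) _)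

/-- `exists_cj_period` for the conjugates of `K i`, `cj_pow_of_dvd`, `pow_factorial_mem_cm`. -/
theorem AS.pow_mem_cm (h : AS M D R K) {n : ℕ} (hn : ∀ i, (orb K i).ncard ≤ n) (g : G) :
    g ^ (Nat.factorial n * Nat.factorial M) ∈ cm (jn K Set.univ) D := by
  have := h.gs.nD
  rw [pow_mul]
  refine mem_cm_jn.2 fun i _ => pow_factorial_mem_cm ?_ (h.gs.idx i)
  obtain ⟨k, h1, h2, h3⟩ := topc_period h (Set.toFinite _) (aInv_orb K i) g (i := i)
    ⟨1, Subgroup.map_id _⟩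
  exact cj_pow_of_dvd h3 (Nat.dvd_factorial h1 (h2.trans (hn i)))

/-- `orb_le`, `AS.pow_mem_cm`, `nord_le_of_pow`, `ncard_lt` with `J = univ`, `GS.index_cm_le`. -/
theorem index_le (M M' c Q : ℕ) : ∃ B : ℕ, ∀ (G : Type) [Group G] [Finite G] (ι : Type) [Finite ι]
    (D R : Subgroup G) (K : ι → Subgroup G), AS M' D R K → Sm M G → Group.IsSolvable D →
    GoodAll M' c D →
    Nat.card (MulAction.orbitRel.Quotient (MulAut G) G) ≤ Q * nord (Set.univ : Set G) →
    (cm (jn K Set.univ) D).index ≤ B := by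
  obtain ⟨C, hC⟩ := ncard_lt M' c
  obtain ⟨n, hn⟩ := orb_le M M' c Q
  refine ⟨Nat.factorial (C * (Q * (Nat.factorial n * Nat.factorial M') + 1) ^ C * M'),
    fun G _ _ ι _ D R K h hG hD hA hQ => ?_⟩
  have hJ : AInv K Set.univ := fun _ _ _ _ _ => Set.mem_univ _
  have := (h.sub hJ).gs.nR
  have h1 := hC G ι D R K _ Q h hD hA hJ hQ
  have h2 : nord (Set.univ : Set (G ⧸ cm (jn K Set.univ) D)) ≤
      Nat.factorial n * Nat.factorial M' := by
    refine nord_le_of_pow (mul_ne_zero (Nat.factorial_ne_zero _) (Nat.factorial_ne_zero _))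
      fun g => ?_
    obtain ⟨g, rfl⟩ := QuotientGroup.mk'_surjective _ g
    rw [← map_pow]
    exact (QuotientGroup.eq_one_iff _).2
      (h.pow_mem_cm (fun i => hn G ι D R K i h hG hD hA hQ) g)
  rw [Set.ncard_univ] at h1
  refine h.gs.index_cm_le.trans (Nat.factorial_le (Nat.mul_le_mul_right _ (h1.le.trans ?_)))
  exact Nat.mul_le_mul_left _
    (Nat.pow_le_pow_left (Nat.add_le_add_right (Nat.mul_le_mul_left _ h2) 1) _)

/-- `rad_as`, `index_le` with `⌈Q⌉₊`, `Rad.cm_le`. -/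
theorem final_of_good (M : ℕ) : ∃ M' : ℕ, ∀ (c : ℕ) (Q : ℝ), ∃ B : ℕ, ∀ (G : Type) [Group G]
    [Finite G] (R : Subgroup G), Rad R → Sm M G →
    GoodAll M' c (⁅R, res ⊤⁆ : Subgroup G) →
    (Nat.card (MulAction.orbitRel.Quotient (MulAut G) G) : ℝ) /
      (Nat.card (Set.range (orderOf : G → ℕ)) : ℝ) ≤ Q →
    R.index ≤ B := by
  obtain ⟨M', hM'⟩ := rad_as M
  refine ⟨M', fun c Q => ?_⟩
  obtain ⟨B, hB⟩ := index_le M M' c ⌈Q⌉₊
  refine ⟨B, fun G _ _ R hR hG h7 h8 => ?_⟩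
  have := hR.nR
  have := hR.sol
  have hD : Group.IsSolvable (⁅R, res ⊤⁆ : Subgroup G) :=
    Group.isSolvable_of_isSolvable_injective (Subgroup.inclusion_injective (Subgroup.commutator_le_left R (res ⊤)))
  refine (Subgroup.index_antitone hR.cm_le).trans (hB G _ _ R _ (hM' G R hR hG) hG hD h7 ?_)
  have e : Nat.card (Set.range (orderOf : G → ℕ)) = nord (Set.univ : Set G) := by
    rw [nord, Set.image_univ, Nat.card_coe_set_eq]
  have h9 : 0 < nord (Set.univ : Set G) := by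
    have := nord_pos (⊤ : Subgroup G)
    rwa [Subgroup.coe_top] at this
  rw [e, div_le_iff₀ (by exact_mod_cast h9)] at h8
  have h10 := h8.trans (mul_le_mul_of_nonneg_right (Nat.le_ceil Q) (Nat.cast_nonneg _))
  exact_mod_cast h10

end Pool.Agent.Lib.MP_634dc6_al
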