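import Pool.Agent.Lib.MP_634dc6_al.Coset
import Pool.Agent.Lib.MP_634dc6_al.Jn

/-!
From the global structure with a `p`-group `D` to the local structure in a centraliser.
-/

namespace Pool.Agent.Lib.MP_634dc6_al

variable {G : Type} [Group G] [Finite G] {ι : Type} {p M : ℕ} {D R : Subgroup G}
  {K : ι → Subgroup G}

omit [Finite G] in
theorem semi_cent_pow (y : G) (k : ℕ) :
    Subgroup.centralizer {y} ≤ Subgroup.centralizer {y ^ k} := fun _ hg =>
  Subgroup.mem_centralizer_singleton_iff.2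
    (Commute.pow_right (Subgroup.mem_centralizer_singleton_iff.1 hg) k)

omit [Finite G] in
theorem lam_le (K : ι → Subgroup G) (y : G) (i : ι) : lam K y i ≤ K i := by
  exact (res_le _).trans inf_le_left

omit [Finite G] in
theorem lam_le_cent (K : ι → Subgroup G) (y : G) (i : ι) :
    lam K y i ≤ Subgroup.centralizer {y} := by
  exact (res_le _).trans inf_le_right

omit [Finite G] in
theorem lam_le_pow (K : ι → Subgroup G) (y : G) (k : ℕ) (i : ι) : lam K y i ≤ lam K (y ^ k) i := by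
  exact res_mono (inf_le_inf_left _ (semi_cent_pow y k))

omit [Finite G] in
theorem cj_lam {g : G} (y : G) {i j : ι} (h : cj g (K i) = K j) :
    cj g (lam K y i) = lam K (g * y * g⁻¹) j := by
  unfold lam
  rw [cj_res, cj_inf, h, cj_centralizer]

omit [Finite G] in
theorem semi_cj {y : G} (g : Subgroup.centralizer {y}) {i j : ι} (h : cj (g : G) (K i) = K j) :
    cj g ((lam K y i).subgroupOf (Subgroup.centralizer {y})) =
      (lam K y j).subgroupOf (Subgroup.centralizer {y}) := by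
  rw [cj_subgroupOf, cj_lam y h,
    mul_inv_eq_iff_eq_mul.2 (Subgroup.mem_centralizer_singleton_iff.1 g.2)]

/-- `cover_cent`, `res_cover`. -/
theorem GS.cover (h : GS M D R K) (hD : IsPGroup p D) {y : G} (hy : QE p y) (hR : y ∈ R) (i : ι) :
    K i ≤ lam K y i ⊔ D := by
  have := h.nD
  exact res_cover (h.perf i) (cover_cent hD (h.DK i) hy (comm_le_iff.1 (h.cen i) y hR))

theorem GS.ls (h : GS M D R K) (hD : IsPGroup p D) (y : G) :
    LS p M (D.subgroupOf (Subgroup.centralizer {y}))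
      fun i => (lam K y i).subgroupOf (Subgroup.centralizer {y}) := by
  refine ⟨h.nD.subgroupOf _, hD.comap_subtype, fun i => ?_, fun i => ?_, fun i j hij => ?_,
    fun g => ?_⟩
  · rw [comm_subgroupOf (lam_le_cent K y i) (lam_le_cent K y i)]
    exact congrArg (fun U : Subgroup G => U.subgroupOf (Subgroup.centralizer {y})) (res_perf _)
  · rw [Subgroup.relIndex_subgroupOf (lam_le_cent K y i)]
    exact (Subgroup.relIndex_le_of_le_right (lam_le K y i) Subgroup.index_ne_zero_of_finite).trans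
      (h.idx i)
  · rw [comm_subgroupOf (lam_le_cent K y i) (lam_le_cent K y j)]
    exact Subgroup.comap_mono
      ((Subgroup.commutator_mono (lam_le K y i) (lam_le K y j)).trans (h.comm i j hij))
  · obtain ⟨π, hπ⟩ := h.perm g
    exact ⟨π, fun i => semi_cj g (hπ i)⟩

/-- If `y t` and `y t'` are conjugate by `g` then `g` centralises `y` (`Dec.conj`, `Dec.unique`);
`om_le_om`. -/
theorem om_cent_le {y : G} (hy : QE p y) (S : Set (Subgroup.centralizer {y})) (T : Set G)
    (hS : ∀ t ∈ S, PE p t ∧ y * (t : G) ∈ T) : om S ≤ om T := by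
  refine om_le_om (fun t : Subgroup.centralizer {y} => y * (t : G)) S T (fun a ha => (hS a ha).2)
    fun a ha b hb hab => ?_
  have hd : ∀ t ∈ S, Dec p (y * (t : G)) y t := fun t ht =>
    ⟨rfl, (Subgroup.mem_centralizer_singleton_iff.1 t.2).symm, hy,
      (hS t ht).1.map (Subgroup.centralizer {y}).subtype⟩
  obtain ⟨g, hg⟩ := isConj_iff.1 hab
  have h1 := (hd a ha).conj g
  rw [hg] at h1
  obtain ⟨h2, h3⟩ := h1.unique (hd b hb)
  exact isConj_iff.2 ⟨⟨g, Subgroup.mem_centralizer_singleton_iff.2 (mul_inv_eq_iff_eq_mul.1 h2)⟩,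
    Subtype.ext h3⟩

omit [Finite G] in
theorem Act.pow {c : G} (h : Act p D K c) (k : ℕ) : Act p D K (c ^ k) := by
  obtain ⟨y, x, hd, i, hi⟩ := h
  refine ⟨y ^ k, x ^ k, hd.pow k, i, fun h0 => hi (le_bot_iff.1 (le_trans ?_ h0.le))⟩
  exact Subgroup.commutator_mono (inf_le_inf_left _ (semi_cent_pow y k)) (lam_le_pow K y k i)

omit [Finite G] in
theorem ActC.pow [D.Normal] {c : G} (h : ActC p D K c) (k : ℕ) : ActC p D K (c ^ k) := by
  obtain ⟨c', hc, ha⟩ := h
  exact ⟨c' ^ k, pow_mem_cls hc k, ha.pow k⟩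

omit [Finite G] in
theorem actC_of_mem [D.Normal] {c c' : G} (h : c' ∈ cls D c) : ActC p D K c' ↔ ActC p D K c := by
  unfold ActC
  rw [cls_eq_of_mem h]

/-- Activity in terms of the local structure. -/
theorem act_local {y : G} {i : ι} (h : ⁅D ⊓ Subgroup.centralizer {y}, lam K y i⁆ ≠ ⊥) :
    ⁅D.subgroupOf (Subgroup.centralizer {y}),
      jn (fun i => (lam K y i).subgroupOf (Subgroup.centralizer {y})) Set.univ⁆ ≠ ⊥ := by
  refine fun h0 => h (comm_eq_bot_iff.2 fun a ha b hb => ?_)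
  have h1 := comm_eq_bot_iff.1 h0 ⟨a, ha.2⟩ ha.1 ⟨b, lam_le_cent K y i hb⟩
    (le_jn (Λ := fun i => (lam K y i).subgroupOf (Subgroup.centralizer {y})) (Set.mem_univ i) hb)
  exact h1.map (Subgroup.centralizer {y}).subtype

/-- The elements `y * z ^ p ^ j`, `j ≤ δ`, lie in `cls D c` and have different orders (`le_om`,
`vo_eq_of_dec`). -/
theorem semi_zero [D.Normal] (hp : p.Prime) {c y x z : G} (hc : Dec p c y x) (hx : x ∈ D)
    (hz : z ∈ D) (hyz : Commute y z) {δ : ℕ} (ho : orderOf z = p ^ δ) :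
    δ + 1 ≤ om (cls D c) := by
  have hz' : PE p z := ⟨δ, by rw [← ho, pow_orderOf_eq_one]⟩
  have hv : ∀ j < δ + 1, vo p (y * z ^ p ^ j) = δ - j := by
    intro j hj
    refine vo_eq_of_dec hp ⟨rfl, hyz.pow_right _, hc.2.2.1, hz'.pow _⟩ ?_
    have hj' : j ≤ δ := Nat.lt_succ_iff.1 hj
    rw [orderOf_pow' z (pow_ne_zero j hp.ne_zero), ho, Nat.gcd_eq_right (pow_dvd_pow p hj'),
      Nat.pow_div hj' hp.pos]
  refine le_om (fun j => y * z ^ p ^ j) (fun j _ => ?_) fun i hi j hj hij => ?_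
  · have h1 := mul_mem_cls (D.mul_mem (D.inv_mem hx) (D.pow_mem hz (p ^ j))) c
    rwa [hc.1, mul_assoc, mul_inv_cancel_left, ← hc.1] at h1
  · obtain ⟨g, hg⟩ := isConj_iff.1 hij
    have h1 := vo_conj (p := p) g (y * z ^ p ^ i)
    rw [hg, hv i hi, hv j hj] at h1
    omega

/-- A set closed under `Rel` is invariant in the centraliser of `y`: for `g` there,
`g c g⁻¹ c⁻¹ = y (g x g⁻¹ x⁻¹) y⁻¹ ∈ D`. -/
theorem GS.invS (h : GS M D R K) {c y x : G} (hc : Dec p c y x) (hx : x ∈ D) {J : Set ι}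
    (hJ : Cl (Rel D K c) J) :
    InvS (fun i => (lam K y i).subgroupOf (Subgroup.centralizer {y})) J := by
  intro g i hi
  obtain ⟨π, hπ⟩ := h.perm g
  refine ⟨π i, hJ i _ ⟨g, ?_, hπ i⟩ hi, semi_cj g (hπ i)⟩
  have hg : (g : G) * y = y * g := Subgroup.mem_centralizer_singleton_iff.1 g.2
  have e : (g : G) * c * (g : G)⁻¹ * c⁻¹ = y * (g * x * (g : G)⁻¹ * x⁻¹) * y⁻¹ := by
    rw [hc.1, ← mul_assoc, hg]
    group
  rw [e]
  exact h.nD.conj_mem _ (D.mul_mem (h.nD.conj_mem x hx g) (D.inv_mem hx)) y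

end Pool.Agent.Lib.MP_634dc6_al
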