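import Pool.Agent.Lib.MP_634dc6_al.Semi

/-!
Classes over `u * h` with `u ∈ R` and `h` in the join of the `K i`.
-/

namespace Pool.Agent.Lib.MP_634dc6_al

variable {G : Type} [Group G] [Finite G] {ι : Type} [Finite ι] {p M : ℕ} {D R : Subgroup G}
  {K : ι → Subgroup G}

/-- `jn_pow_mem`, `pow_factorial_mem`. -/
theorem GS.pow_mem (h : GS M D R K) {J : Set ι} {k : G} (hk : k ∈ jn K J) :
    k ^ Nat.factorial M ∈ D := by
  have := h.nD
  exact jn_pow_mem (fun i _ j _ hij => h.comm i j hij)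
    (fun i _ x hx => pow_factorial_mem (h.idx i) hx) hk

/-- Let `μ = M !`. Write `h = h' d` with `h' ∈ jn (lam K y) J` (`GS.cover`, `jn_cover`,
`exists_mul_of_mem_sup`); the elements `σ j = y * (h' * z ^ p ^ j)` lie in `cls D (u * h)`. With
`t = h' * z ^ p ^ j`, which commutes with `y`, one has `t ^ μ ∈ D`, so `Dec p (σ j ^ μ) (y ^ μ) (t ^ μ)`;
hence an element that conjugates `σ i` to `σ j` lies in `H = centralizer {y ^ μ}`. In `H` the
subgroup `L = jn (lam K (y ^ μ)) J` is normal (`GS.invS` for `Dec.pow`, `jn_normal`) and contains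
`h'` (`lam_le_pow`). Modulo `L` the element `σ j` becomes `y * z ^ p ^ j`, with `vo p = δ' - j` where
`p ^ δ'` is the order of `z` modulo `L`, and `δ ≤ δ' + e`. Use `le_om` with `k = δ' + 1`. -/
theorem semi_four (hp : p.Prime) (h : GS M D R K) (hD : IsPGroup p D) {u y x z k : G} (hu : u ∈ R)
    (hd : Dec p u y x) (hx : x ∈ D) (hz : z ∈ D) (hyz : Commute y z) {δ e : ℕ}
    (ho : orderOf z = p ^ δ) {J : Set ι} (hJ : Cl (Rel D K (u ^ Nat.factorial M)) J)
    (hk : k ∈ jn K J) (he : ∀ d ∈ D ⊓ jn (lam K (y ^ Nat.factorial M)) J, d ^ p ^ e = 1) :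
    δ + 1 ≤ om (cls D (u * k)) + e := by
  have := h.nD
  have hyR : y ∈ R := by
    obtain ⟨⟨i, hi⟩, -⟩ := hd.mem_pow
    rw [hi]
    exact R.pow_mem hu i
  obtain ⟨h', hh', d, hdD, rfl⟩ :=
    exists_mul_of_mem_sup (jn_cover (fun i _ => h.cover hD hd.2.2.1 hyR i) hk)
  have hyh : Commute y h' := by
    have := jn_le (fun i _ => lam_le_cent K y i) hh'
    exact (Subgroup.mem_centralizer_singleton_iff.1 this).symm
  have hmk : ∀ {a : G}, a ∈ D → QuotientGroup.mk' D a = 1 := fun ha =>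
    (QuotientGroup.eq_one_iff _).2 ha
  have hμ : h' ^ Nat.factorial M ∈ D := h.pow_mem (jn_mono le_rfl (fun i _ => lam_le K y i) hh')
  have hyt : ∀ j : ℕ, Commute y (h' * z ^ p ^ j) := fun j => hyh.mul_right (hyz.pow_right _)
  have hdec : ∀ j : ℕ, Dec p ((y * (h' * z ^ p ^ j)) ^ Nat.factorial M) (y ^ Nat.factorial M)
      ((h' * z ^ p ^ j) ^ Nat.factorial M) := by
    intro j
    refine ⟨(hyt j).mul_pow _, (hyt j).pow_pow _ _, hd.2.2.1.pow _, PE.of_mem hD ?_⟩
    rw [← QuotientGroup.eq_one_iff, ← QuotientGroup.mk'_apply, map_pow, map_mul,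
      hmk (D.pow_mem hz _), mul_one, ← map_pow, hmk hμ]
  set H : Subgroup G := Subgroup.centralizer {y ^ Nat.factorial M} with hH
  have hmemH : ∀ {a : G}, Commute y a → a ∈ H := fun ha =>
    Subgroup.mem_centralizer_singleton_iff.2 (ha.pow_left _).symm
  have hinv := h.invS (hd.pow (Nat.factorial M)) (D.pow_mem hx _) hJ
  set L : Subgroup H := jn (fun i => (lam K (y ^ Nat.factorial M) i).subgroupOf H) J with hL
  have hLn : L.Normal := jn_normal hinv
  have hLe : L = (jn (lam K (y ^ Nat.factorial M)) J).subgroupOf H :=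
    jn_subgroupOf (fun i => lam_le_cent K _ i) J
  set φ : H →* H ⧸ L := QuotientGroup.mk' L with hφ
  set y₀ : H := ⟨y, hmemH (Commute.refl y)⟩ with hy₀
  set z₀ : H := ⟨z, hmemH hyz⟩ with hz₀
  set h₀ : H := ⟨h', hmemH hyh⟩ with hh₀
  have hφh : φ h₀ = 1 := by
    refine (QuotientGroup.eq_one_iff _).2 ?_
    rw [hLe, Subgroup.mem_subgroupOf]
    exact jn_mono le_rfl (fun i _ => lam_le_pow K y _ i) hh'
  have hoz : orderOf z₀ = p ^ δ := by rw [hz₀, Subgroup.orderOf_mk, ho]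
  obtain ⟨δ', -, hδ'⟩ := (Nat.dvd_prime_pow hp).1 (hoz ▸ orderOf_map_dvd φ z₀)
  have hδe : δ ≤ δ' + e := by
    have h1 : z₀ ^ p ^ δ' ∈ L := by
      rw [← QuotientGroup.eq_one_iff, ← QuotientGroup.mk'_apply, map_pow, ← hδ']
      exact pow_orderOf_eq_one _
    rw [hLe, Subgroup.mem_subgroupOf] at h1
    have h2 := he (z ^ p ^ δ') ⟨D.pow_mem hz _, h1⟩
    rw [← pow_mul, ← pow_add, ← orderOf_dvd_iff_pow_eq_one, ho] at h2
    exact (Nat.pow_dvd_pow_iff_le_right hp.one_lt).1 h2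
  have hvo : ∀ j ≤ δ', vo p (φ (y₀ * (h₀ * z₀ ^ p ^ j))) = δ' - j := by
    intro j hj
    have hq : QE p y₀ := by
      unfold QE
      rw [hy₀, Subgroup.orderOf_mk]
      exact hd.2.2.1
    have hz1 : PE p z₀ := ⟨δ, by rw [← hoz]; exact pow_orderOf_eq_one _⟩
    have hc : Commute y₀ z₀ := Subtype.ext hyz.eq
    have hD' : Dec p (φ (y₀ * (h₀ * z₀ ^ p ^ j))) (φ y₀) (φ z₀ ^ p ^ j) :=
      ⟨by rw [map_mul, map_mul, hφh, one_mul, map_pow], (hc.map φ).pow_right _, hq.map φ,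
        (hz1.map φ).pow _⟩
    refine vo_eq_of_dec hp hD' ?_
    rw [orderOf_pow_of_dvd (pow_ne_zero _ hp.ne_zero) (by rw [hδ']; exact pow_dvd_pow p hj), hδ',
      Nat.pow_div hj hp.pos]
  have key : δ' + 1 ≤ om (cls D (u * (h' * d))) := by
    refine le_om (fun j => y * (h' * z ^ p ^ j)) (fun j _ => mem_cls_of_mk ?_) ?_
    · rw [hd.1]
      simp only [map_mul, hmk hx, hmk hdD, hmk (D.pow_mem hz _), mul_one]
    · intro i hi j hj hc
      obtain ⟨g, hg⟩ := isConj_iff.1 hc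
      have h1 := (hdec i).conj g
      rw [← conj_pow, hg] at h1
      have h2 := (h1.unique (hdec j)).1
      have hgH : g ∈ H := by
        rw [hH, Subgroup.mem_centralizer_singleton_iff]
        exact mul_inv_eq_iff_eq_mul.1 h2
      have h3 : (⟨g, hgH⟩ : H) * (y₀ * (h₀ * z₀ ^ p ^ i)) * (⟨g, hgH⟩ : H)⁻¹ =
          y₀ * (h₀ * z₀ ^ p ^ j) := Subtype.ext hg
      have h4 := hvo j (by omega)
      rw [← h3, map_mul, map_mul, map_inv, vo_conj, hvo i (by omega)] at h4
      omega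
  omega

/-- Let `u = y x` (`dec_exists`), `Λ = lam K y`, `P = D ⊓ centralizer {y}`; `P` commutes with all
`Λ i`. By `perf_pow` every `Λ i` has exponent dividing `μ = M !`, so `D ⊓ Λ i = ⊥`
(`eq_one_of_PE_QE`). The element `x ∈ R` normalises `K i` (`cj_eq_of_comm`) and commutes with `y`,
so it normalises `Λ i` (`cj_lam`), and its commutators with `Λ i` lie in `D ⊓ Λ i`. The `Λ i` commute
(`perf_comm` with `N = ⊥`), so `h' ^ μ = 1` on the join (`jn_pow_mem`). Write `k = h' d`; then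
`ρ = (y * h') * x` is a decomposition with the same `p`-part as `u`. -/
theorem semi_five (hp : p.Prime) (hM : M < p) (h : GS M D R K) (hD : IsPGroup p D) {u k : G}
    (hu : u ∈ R) (ha : ¬ Act p D K u) (hk : k ∈ jn K Set.univ) :
    ∃ ρ ∈ cls D (u * k), vo p ρ = vo p u := by
  have := h.nD
  obtain ⟨y, x, hd⟩ := dec_exists hp u
  obtain ⟨⟨a, hya⟩, b, hxb⟩ := hd.mem_pow
  have hyR : y ∈ R := by rw [hya]; exact R.pow_mem hu a
  have hxR : x ∈ R := by rw [hxb]; exact R.pow_mem hu b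
  have hP : ∀ i, ⁅D ⊓ Subgroup.centralizer {y}, lam K y i⁆ = ⊥ := by
    intro i
    by_contra hne
    exact ha ⟨y, x, hd, i, hne⟩
  have hperf : ∀ i, ⁅lam K y i, lam K y i⁆ = lam K y i := fun i => res_perf _
  have hexp : ∀ i, ∀ l ∈ lam K y i, l ^ Nat.factorial M = 1 := by
    intro i l hl
    refine perf_pow (Z := D) (hperf i) ?_ ?_ hl
    · rw [eq_bot_iff, ← hP i]
      exact Subgroup.commutator_mono (inf_le_inf_left D (lam_le_cent K y i)) le_rfl
    · exact (Subgroup.relIndex_le_of_le_right (lam_le K y i)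
        Subgroup.index_ne_zero_of_finite).trans (h.idx i)
  have hcop := coprime_factorial hp hM
  have hxl : ∀ i, lam K y i ≤ Subgroup.centralizer {x} := by
    intro i l hl
    have h1 : ∀ k ∈ K i, x * k * x⁻¹ * k⁻¹ ∈ D := fun k hk => comm_le_iff.1 (h.cen i) x hxR k hk
    have h2 := cj_lam y (cj_eq_of_comm fun k hk => h.DK i (h1 k hk))
    rw [← hd.2.1.eq, mul_inv_cancel_right] at h2
    have h3 : x * l * x⁻¹ * l⁻¹ ∈ lam K y i := by
      refine mul_mem ?_ (inv_mem hl)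
      rw [← h2]
      exact conj_mem_cj x hl
    have h4 := eq_one_of_PE_QE (PE.of_mem hD (h1 l (lam_le K y i hl)))
      (QE.of_pow_eq_one hcop (hexp i _ h3))
    rw [Subgroup.mem_centralizer_singleton_iff]
    rw [mul_inv_eq_one, mul_inv_eq_iff_eq_mul] at h4
    exact h4.symm
  have hcomm : ∀ i j, i ≠ j → ⁅lam K y i, lam K y j⁆ ≤ ⊥ := by
    intro i j hij
    refine perf_comm (hperf j) ?_
    rw [← hP j]
    refine Subgroup.commutator_mono (le_inf ?_ ?_) le_rfl
    · exact (Subgroup.commutator_mono (lam_le K y i) (lam_le K y j)).trans (h.comm i j hij)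
    · refine comm_le_iff.2 fun a ha b hb => ?_
      have ha' := lam_le_cent K y i ha
      have hb' := lam_le_cent K y j hb
      exact mul_mem (mul_mem (mul_mem ha' hb') (inv_mem ha')) (inv_mem hb')
  obtain ⟨h', hh', d, hdD, rfl⟩ :=
    exists_mul_of_mem_sup (jn_cover (fun i _ => h.cover hD hd.2.2.1 hyR i) hk)
  have hq : QE p h' := QE.of_pow_eq_one hcop (Subgroup.mem_bot.1 (jn_pow_mem
    (fun i _ j _ hij => hcomm i j hij) (fun i _ l hl => Subgroup.mem_bot.2 (hexp i l hl)) hh'))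
  have hyh : Commute y h' :=
    (Subgroup.mem_centralizer_singleton_iff.1 (jn_le (fun i _ => lam_le_cent K y i) hh')).symm
  have hhx : Commute h' x :=
    Subgroup.mem_centralizer_singleton_iff.1 (jn_le (fun i _ => hxl i) hh')
  refine ⟨y * h' * x, mem_cls_of_mk ?_, vo_eq_of_dec hp
    ⟨rfl, hd.2.1.mul_left hhx, QE.mul hyh hd.2.2.1 hq, hd.2.2.2⟩ (hd.orderOf_eq hp)⟩
  have hd1 : QuotientGroup.mk' D d = 1 := (QuotientGroup.eq_one_iff _).2 hdD
  rw [mul_assoc, hhx.eq, ← mul_assoc, ← hd.1, map_mul, map_mul, map_mul, hd1, mul_one]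

end Pool.Agent.Lib.MP_634dc6_al
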