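import Pool.Agent.Lib.MP_634dc6_al.SmL

/-!
The global structure attached to the soluble radical.
-/

namespace Pool.Agent.Lib.MP_634dc6_al

variable {G : Type} [Group G]

/-- `R` is the soluble radical. -/
structure Rad (R : Subgroup G) : Prop where
  nR : R.Normal
  sol : Group.IsSolvable R
  max : ∀ N : Subgroup G, N.Normal → Group.IsSolvable N → N ≤ R

/-- A global structure that is invariant under all automorphisms. -/
structure AS {ι : Type} (M : ℕ) (D R : Subgroup G) (K : ι → Subgroup G) : Prop where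
  gs : GS M D R K
  aD : ∀ φ : MulAut G, D.map φ.toMonoidHom = D
  aR : ∀ φ : MulAut G, R.map φ.toMonoidHom = R
  aK : ∀ φ : MulAut G, ∃ π : Equiv.Perm ι, ∀ i, (K i).map φ.toMonoidHom = K (π i)

variable {R : Subgroup G}

/-- The derived series becomes stationary at a perfect subgroup. -/
theorem res_top_eq [Finite G] : res (⊤ : Subgroup G) = ⨅ n, derivedSeries G n := by
  refine le_antisymm (le_iInf fun n => ?_) ?_
  · induction n with
    | zero => exact le_top
    | succ n ih =>
      rw [derivedSeries_succ, ← res_perf]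
      exact Subgroup.commutator_mono ih ih
  · obtain ⟨_, ⟨n, rfl⟩, h⟩ := (wellFounded_lt (α := Subgroup G)).has_min
      (Set.range (derivedSeries G)) ⟨_, 0, rfl⟩
    refine (iInf_le _ n).trans (le_res le_top ?_)
    exact (perf_self _).eq_of_not_lt (h _ ⟨n + 1, derivedSeries_succ G n⟩)

theorem Rad.map_eq [Finite G] (h : Rad R) (φ : MulAut G) : R.map φ.toMonoidHom = R := by
  have key : ∀ ψ : MulAut G, R.map ψ.toMonoidHom ≤ R := fun ψ => by
    have := h.sol
    exact h.max _ (h.nR.map _ ψ.surjective)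
      (Group.isSolvable_of_surjective (ψ.toMonoidHom.subgroupMap_surjective R))
  refine le_antisymm (key φ) fun x hx => ?_
  exact ⟨φ.symm x, key φ.symm ⟨x, hx, rfl⟩, by simp⟩

/-- The preimage of a commutative normal subgroup is soluble
(`Group.isSolvable_of_ker_le_range`). -/
theorem Rad.na [R.Normal] (h : Rad R) {N : Subgroup (G ⧸ R)} (hN : MinNor N) : NA N := by
  by_contra h0
  have hc := comm_eq_bot_iff.1 (not_NA_iff.1 h0)
  have h1 : Group.IsSolvable N :=
    Group.isSolvable_of_comm fun a b => Subtype.ext (hc a a.2 b b.2).eq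
  have := h.sol
  have hle : R ≤ N.comap (QuotientGroup.mk' R) := fun x hx => by
    have : QuotientGroup.mk' R x = 1 := (QuotientGroup.eq_one_iff x).2 hx
    rw [Subgroup.mem_comap, this]
    exact N.one_mem
  have h2 : Group.IsSolvable (N.comap (QuotientGroup.mk' R)) := by
    refine Group.isSolvable_of_ker_le_range (Subgroup.inclusion hle)
      ((QuotientGroup.mk' R).subgroupComap N) fun x hx => ?_
    have h3 : QuotientGroup.mk' R (x : G) = 1 := congrArg Subtype.val (MonoidHom.mem_ker.1 hx)
    exact ⟨⟨x, (QuotientGroup.eq_one_iff _).1 h3⟩, rfl⟩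
  have h3 := h.max _ (hN.1.comap _) h2
  refine hN.2.1 ?_
  rw [← Subgroup.map_comap_eq_self_of_surjective (QuotientGroup.mk'_surjective R) N]
  exact map_mk_eq_bot.2 h3

/-- The family of the lifted components. -/
def kf (R : Subgroup G) [R.Normal] (S : {S : Subgroup (G ⧸ R) // Comp ⊤ S}) : Subgroup G :=
  res (S.1.comap (QuotientGroup.mk' R)) ⊔ ⁅R, res ⊤⁆

/-- `res_cover`, `Comp.perf`. -/
theorem map_kf [Finite G] [R.Normal] (S : {S : Subgroup (G ⧸ R) // Comp ⊤ S}) :
    (kf R S).map (QuotientGroup.mk' R) = S.1 := by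
  have hs := QuotientGroup.mk'_surjective R
  have h0 := Subgroup.map_comap_eq_self_of_surjective hs S.1
  rw [kf, Subgroup.map_sup, map_mk_eq_bot.2 (Subgroup.commutator_le_left R _), sup_bot_eq]
  refine le_antisymm ((Subgroup.map_mono (res_le _)).trans h0.le) ?_
  refine h0.ge.trans (perf_le_sup.1 (res_cover ?_ le_sup_left))
  rw [perf_le_sup, Subgroup.map_commutator, h0, S.2.perf.1]

theorem topa_map_top {G' : Type} [Group G'] (e : G ≃* G') :
    (⊤ : Subgroup G).map e.toMonoidHom = ⊤ :=
  Subgroup.map_top_of_surjective _ e.surjective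

theorem topa_map_d [Finite G] (h : Rad R) (φ : MulAut G) :
    (⁅R, res ⊤⁆ : Subgroup G).map φ.toMonoidHom = ⁅R, res ⊤⁆ := by
  rw [Subgroup.map_commutator, h.map_eq, map_res_equiv, topa_map_top]

theorem topa_res_normal : (res (⊤ : Subgroup G)).Normal :=
  normal_of_cj fun g => by rw [cj_res, cj_normal]

/-- An automorphism induces an automorphism of `G ⧸ R` (`QuotientGroup.congr`) that permutes the
components (`Comp.map_equiv`, `map_res_equiv`). -/
theorem Rad.perm_kf [Finite G] [R.Normal] (h : Rad R) (φ : MulAut G) :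
    ∃ π : Equiv.Perm {S : Subgroup (G ⧸ R) // Comp ⊤ S},
      ∀ S, (kf R S).map φ.toMonoidHom = kf R (π S) := by
  let e : G ⧸ R ≃* G ⧸ R := QuotientGroup.congr R R φ (h.map_eq φ)
  have he : ∀ x : G, e (QuotientGroup.mk' R x) = QuotientGroup.mk' R (φ x) := fun x => rfl
  let f : {S : Subgroup (G ⧸ R) // Comp ⊤ S} → {S : Subgroup (G ⧸ R) // Comp ⊤ S} := fun S =>
    ⟨S.1.map e.toMonoidHom, by
      have h1 := S.2.map_equiv e
      rwa [topa_map_top] at h1⟩
  have hf : Function.Injective f := fun S T hST =>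
    Subtype.ext (Subgroup.map_injective e.injective (congrArg Subtype.val hST))
  refine ⟨Equiv.ofBijective f hf.bijective_of_finite, fun S => ?_⟩
  rw [kf, kf, Subgroup.map_sup, topa_map_d h, map_res_equiv]
  congr 2
  ext x
  constructor
  · rintro ⟨y, hy, rfl⟩
    exact ⟨_, hy, he y⟩
  · rintro ⟨s, hs, hx⟩
    refine ⟨φ.symm x, ?_, by simp⟩
    have h1 : QuotientGroup.mk' R (φ.symm x) = s := e.injective (by
      rw [he, MulEquiv.apply_symm_apply]
      exact hx.symm)
    exact (show QuotientGroup.mk' R (φ.symm x) ∈ S.1 from h1 ▸ hs)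

theorem topa_comm_sup {X E D : Subgroup G} [D.Normal] (h : ⁅X, E⁆ ≤ D) : ⁅X, E ⊔ D⁆ ≤ D := by
  rw [Subgroup.commutator_comm, ← le_cm]
  refine sup_le (le_cm.2 ?_) (le_cm.2 (Subgroup.commutator_le_left D X))
  rwa [Subgroup.commutator_comm]

/-- With `D = ⁅R, res ⊤⁆` and `E = res (comap S)`: the image of `E` in `G ⧸ D` is perfect and the
image of `R` is central in it and of index at most `M`, so `schur_bound` applies. For `comm` use
`perf_comm`; `perm` is `Rad.perm_kf` for `MulAut.conj g`. -/
theorem rad_as (M : ℕ) : ∃ M' : ℕ, ∀ (G : Type) [Group G] [Finite G] (R : Subgroup G) [R.Normal],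
    Rad R → Sm M G → AS M' ⁅R, res ⊤⁆ R (kf R) := by
  obtain ⟨M', hM'⟩ := schur_bound M
  refine ⟨M', fun G _ _ R _ h hG => ?_⟩
  have := topa_res_normal (G := G)
  have hE : ∀ S : Subgroup (G ⧸ R), res (S.comap (QuotientGroup.mk' R)) ≤ res ⊤ := fun S =>
    res_mono le_top
  refine ⟨⟨inferInstance, inferInstance, Subgroup.commutator_le_left R _, fun i => le_sup_right,
    fun i => ?_, fun i hi => ?_, fun i => ?_, fun i j hij => ?_, fun i => ?_,
    fun g => h.perm_kf (MulAut.conj g)⟩, topa_map_d h, h.map_eq, h.perm_kf⟩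
  · refine sup_le_sup_right ((res_perf _).ge.trans ?_) _
    exact Subgroup.commutator_mono le_sup_left le_sup_left
  · refine i.2.perf.2.1 ?_
    rw [← map_kf i]
    exact map_mk_eq_bot.2 (hi.trans (Subgroup.commutator_le_left R _))
  · rw [kf, Subgroup.relIndex_sup_right]
    have h1 := Subgroup.relIndex_ker (res (i.1.comap (QuotientGroup.mk' R)))
      (QuotientGroup.mk' ⁅R, res ⊤⁆)
    rw [QuotientGroup.ker_mk'] at h1
    rw [h1]
    refine hM' _ _ (R.map (QuotientGroup.mk' ⁅R, res ⊤⁆)) (map_perf _ (res_perf _)) ?_ ?_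
    · refine le_bot_iff.1 ((Subgroup.commutator_mono inf_le_left le_rfl).trans ?_)
      rw [← Subgroup.map_commutator]
      exact (map_mk_eq_bot.2 (Subgroup.commutator_mono le_rfl (hE _))).le
    · refine (jn_relIndex_map _ _ _).trans ?_
      have h2 := Subgroup.relIndex_ker (res (i.1.comap (QuotientGroup.mk' R)))
        (QuotientGroup.mk' R)
      rw [QuotientGroup.ker_mk'] at h2
      rw [h2]
      refine le_trans (Subgroup.card_le_of_le ?_)
        (i.2.card_le (hG.of_surjective _ (QuotientGroup.mk'_surjective R)))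
      exact (Subgroup.map_mono (res_le _)).trans (Subgroup.map_comap_le _ _)
  · have h1 : ⁅kf R i, kf R j⁆ ≤ R := by
      rw [← map_mk_eq_bot, Subgroup.map_commutator, map_kf, map_kf]
      exact i.2.comm_of_ne j.2 fun hh => hij (Subtype.ext hh)
    refine topa_comm_sup (perf_comm (res_perf _) (Subgroup.commutator_mono ?_ (hE _)))
    exact (Subgroup.commutator_mono le_rfl le_sup_left).trans h1
  · exact topa_comm_sup (Subgroup.commutator_mono le_rfl (hE _))

/-- The left side is normal. If its image in `G ⧸ R` were nontrivial it would contain a minimal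
normal subgroup `N`, all of whose elements commute with all components (`map_kf`), hence with `N`
(`comm_of_comp`), against `Rad.na`. -/
theorem Rad.cm_le [Finite G] [R.Normal] (h : Rad R) :
    cm (jn (kf R) Set.univ) ⁅R, res ⊤⁆ ≤ R := by
  have := topa_res_normal (G := G)
  have : (jn (kf R) Set.univ).Normal :=
    jn_normal (invS_univ fun g => h.perm_kf (MulAut.conj g))
  rw [← map_mk_eq_bot]
  by_contra h0
  have := (cm_normal (jn (kf R) Set.univ) ⁅R, res ⊤⁆).map _ (QuotientGroup.mk'_surjective R)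
  obtain ⟨N, hle, hN⟩ := exists_minNor h0
  obtain ⟨a, ha, b, hb, hab⟩ := h.na hN
  obtain ⟨c, hc, rfl⟩ := hle ha
  refine hab (comm_of_comp (L := ⊤) (fun S hS x hx => ?_) hN le_top (h.na hN) b hb).eq
  have hx' : x ∈ (kf R ⟨S, hS⟩).map (QuotientGroup.mk' R) := by
    rw [map_kf]
    exact hx
  obtain ⟨k, hk, rfl⟩ := hx'
  have h1 := Subgroup.commutator_le_left R _
    (mem_cm.1 hc k (le_jn (Λ := kf R) (Set.mem_univ _) hk))
  have h2 : QuotientGroup.mk' R (c * k * c⁻¹ * k⁻¹) = 1 := (QuotientGroup.eq_one_iff _).2 h1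
  simp only [map_mul, map_inv] at h2
  rw [mul_inv_eq_one, mul_inv_eq_iff_eq_mul] at h2
  exact h2

end Pool.Agent.Lib.MP_634dc6_al
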