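import Pool.Agent.Lib.MP_634dc6_al.TopA
import Pool.Agent.Lib.MP_634dc6_al.Hol

/-!
Invariant subfamilies and the numbers of element orders.
-/

namespace Pool.Agent.Lib.MP_634dc6_al

variable {G : Type} [Group G] [Finite G] {ι : Type} [Finite ι] {M : ℕ} {D R : Subgroup G}
  {K : ι → Subgroup G}

/-- `J` is invariant under all automorphisms. -/
def AInv (K : ι → Subgroup G) (J : Set ι) : Prop :=
  ∀ φ : MulAut G, ∀ i ∈ J, ∀ j, (K i).map φ.toMonoidHom = K j → j ∈ J

/-- The orbit of `i` under the automorphism group. -/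
def orb (K : ι → Subgroup G) (i : ι) : Set ι :=
  {j | ∃ φ : MulAut G, (K i).map φ.toMonoidHom = K j}

omit [Finite G] [Finite ι] in
theorem aInv_orb (K : ι → Subgroup G) (i : ι) : AInv K (orb K i) := by
  rintro φ j ⟨ψ, hψ⟩ l hl
  refine ⟨φ * ψ, ?_⟩
  rw [← hl, ← hψ, Subgroup.map_map]
  rfl

omit [Finite G] [Finite ι] in
theorem GS.injective (h : GS M D R K) : Function.Injective K := by
  intro i j hij
  by_contra hne
  have h1 := h.comm i j hne
  rw [← hij] at h1
  exact h.ne i ((h.perf i).trans (sup_le h1 le_rfl))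

omit [Finite G] in
/-- Restrict the permutations to `J` (`Equiv.Perm.subtypePerm`, use `φ⁻¹` and `GS.injective` for
the converse); `map_cm`, `jn_map`, `le_cm`. -/
theorem AS.sub (h : AS M D R K) {J : Set ι} (hJ : AInv K J) :
    AS M D (cm (jn K J) D) fun i : J => K i := by
  have := h.gs.nD
  have hperm : ∀ φ : MulAut G, ∃ π : Equiv.Perm J, ∀ i : J,
      (K i).map φ.toMonoidHom = K (π i) := by
    intro φ
    obtain ⟨π, hπ⟩ := h.aK φ
    refine ⟨π.subtypePerm fun i => ⟨fun hi => hJ φ⁻¹ (π i) hi i ?_, fun hi => hJ φ i hi _ (hπ i)⟩,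
      fun i => hπ i⟩
    rw [← hπ i, Subgroup.map_map]
    convert Subgroup.map_id (K i)
    ext x
    simp
  have hjn : ∀ φ : MulAut G, (jn K J).map φ.toMonoidHom = jn K J := by
    intro φ
    obtain ⟨π, hπ⟩ := hperm φ
    rw [jn_map]
    refine le_antisymm (jn_le fun i hi => ?_) (jn_le fun j hj => ?_)
    · exact (hπ ⟨i, hi⟩).le.trans (le_jn (π ⟨i, hi⟩).2)
    · have h1 := hπ (π.symm ⟨j, hj⟩)
      rw [Equiv.apply_symm_apply] at h1
      exact h1.ge.trans (le_jn (Λ := fun i => (K i).map φ.toMonoidHom) (π.symm ⟨j, hj⟩).2)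
  have hR : ∀ φ : MulAut G, (cm (jn K J) D).map φ.toMonoidHom = cm (jn K J) D := fun φ => by
    rw [map_cm, hjn, h.aD]
  exact ⟨⟨h.gs.nD, normal_of_cj fun g => (hR (MulAut.conj g)).le,
    le_cm.2 (Subgroup.commutator_le_left _ _), fun i => h.gs.DK i, fun i => h.gs.perf i,
    fun i => h.gs.ne i, fun i => h.gs.idx i,
    fun i j hij => h.gs.comm i j fun e => hij (Subtype.ext e),
    fun i => (Subgroup.commutator_mono le_rfl (le_jn i.2)).trans (le_cm.1 le_rfl),
    fun g => hperm (MulAut.conj g)⟩, h.aD, hR, hperm⟩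

/-- `G` acts by conjugation on the union `X` of the images of the `K i` in `G ⧸ D`, which has at
most `n M` elements, and the kernel of `G →* Equiv.Perm X` is the subgroup in question. -/
theorem GS.index_cm_le (h : GS M D R K) :
    (cm (jn K Set.univ) D).index ≤ Nat.factorial (Nat.card ι * M) := by
  have := h.nD
  have := Fintype.ofFinite ι
  let f := QuotientGroup.mk' D
  let X : Set (G ⧸ D) := ⋃ i, ((K i).map f : Set (G ⧸ D))
  have hX : ∀ g : G, ∀ x ∈ X, f g * x * (f g)⁻¹ ∈ X := by
    intro g x hx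
    obtain ⟨i, b, hb, rfl⟩ := Set.mem_iUnion.1 hx
    obtain ⟨π, hπ⟩ := h.perm g
    exact Set.mem_iUnion.2 ⟨π i, g * b * g⁻¹, hπ i ▸ conj_mem_cj g hb, by simp⟩
  let act : MulAction G X :=
    { smul := fun g x => ⟨f g * x * (f g)⁻¹, hX g x x.2⟩
      one_smul := fun x => Subtype.ext (by
        change f 1 * x * (f 1)⁻¹ = x
        simp)
      mul_smul := fun a b x => Subtype.ext (by
        change f (a * b) * x * (f (a * b))⁻¹ = f a * (f b * x * (f b)⁻¹) * (f a)⁻¹
        simp [mul_assoc]) }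
  let ψ : G →* Equiv.Perm X := MulAction.toPermHom G X
  have hker : ψ.ker ≤ cm (jn K Set.univ) D := by
    intro g hg
    refine mem_cm_jn.2 fun i _ => mem_cm.2 fun b hb => ?_
    have h1 : f g * f b * (f g)⁻¹ = f b := congrArg Subtype.val
      (Equiv.congr_fun (MonoidHom.mem_ker.1 hg) ⟨f b, Set.mem_iUnion.2 ⟨i, b, hb, rfl⟩⟩)
    rw [← QuotientGroup.eq_one_iff]
    change f (g * b * g⁻¹ * b⁻¹) = 1
    rw [map_mul, map_mul, map_mul, map_inv, map_inv, h1, mul_inv_cancel]
  have hc : Nat.card X ≤ Nat.card ι * M := by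
    rw [Nat.card_coe_set_eq]
    refine (Set.ncard_iUnion_le_of_fintype _).trans ?_
    refine (Finset.sum_le_card_nsmul _ _ M fun i _ => ?_).trans ?_
    · have h2 := Subgroup.relIndex_ker (K := K i) f
      rw [QuotientGroup.ker_mk'] at h2
      rw [← Nat.card_coe_set_eq]
      exact h2.ge.trans (h.idx i)
    · simp
  calc _ ≤ ψ.ker.index := Subgroup.index_antitone hker
    _ = Nat.card ψ.range := Subgroup.index_ker ψ
    _ ≤ Nat.card (Equiv.Perm X) := Subgroup.card_le_card_group _
    _ = Nat.factorial (Nat.card X) := Nat.card_perm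
    _ ≤ _ := Nat.factorial_le hc

/-- `orderOf g = orderOf (mk g) * orderOf (g ^ orderOf (mk g))`. -/
theorem nord_le_mul (N : Subgroup G) [N.Normal] :
    nord (Set.univ : Set G) ≤ nord (Set.univ : Set (G ⧸ N)) * nord (N : Set G) := by
  have hs : orderOf '' (Set.univ : Set G) ⊆ Set.image2 (· * ·)
      (orderOf '' (Set.univ : Set (G ⧸ N))) (orderOf '' (N : Set G)) := by
    rintro _ ⟨g, -, rfl⟩
    have h1 : orderOf (g : G ⧸ N) ∣ orderOf g := orderOf_map_dvd (QuotientGroup.mk' N) g
    refine ⟨_, ⟨(g : G ⧸ N), trivial, rfl⟩, _, ⟨g ^ orderOf (g : G ⧸ N), ?_, rfl⟩, ?_⟩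
    · rw [SetLike.mem_coe, ← QuotientGroup.eq_one_iff, QuotientGroup.mk_pow, pow_orderOf_eq_one]
    · rw [orderOf_pow_of_dvd (orderOf_pos _).ne' h1]
      exact Nat.mul_div_cancel' h1
  refine (Set.ncard_le_ncard hs
    (((Set.toFinite _).image _).image2 _ ((Set.toFinite _).image _))).trans ?_
  rw [nord, nord, ← Set.ncard_prod, ← Set.image_uncurry_prod]
  exact Set.ncard_image_le (((Set.toFinite _).image _).prod ((Set.toFinite _).image _))

theorem nord_pos (N : Subgroup G) : 0 < nord (N : Set G) := by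
  exact (Set.ncard_pos ((Set.toFinite _).image _)).2 ⟨_, 1, N.one_mem, rfl⟩

omit [Finite G] in
theorem nord_le_of_pow {n : ℕ} (hn : n ≠ 0) (h : ∀ g : G, g ^ n = 1) :
    nord (Set.univ : Set G) ≤ n := by
  have hs : orderOf '' (Set.univ : Set G) ⊆ (n.divisors : Set ℕ) := by
    rintro _ ⟨g, -, rfl⟩
    exact Nat.mem_divisors.2 ⟨orderOf_dvd_of_pow_eq_one (h g), hn⟩
  refine (Set.ncard_le_ncard hs (Finset.finite_toSet _)).trans ?_
  rw [Set.ncard_coe_finset]
  exact Nat.card_divisors_le_self n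

/-- An order is determined by its valuations at the primes `s ≤ p₀` (at most `a` each) and at the
primes `s > p₀` that divide `e`. Take `y = ∏ (e.factorization s + 1)` over the latter; then
`(v + 1) ^ t ≤ 2 ^ (v t) ≤ s ^ v`. -/
theorem nord_le_of_vo {a e t p₀ : ℕ} (he : e ≠ 0) (ht : 2 ^ t ≤ p₀)
    (h1 : ∀ s : ℕ, s.Prime → ∀ g : G, vo s g ≤ a)
    (h2 : ∀ s : ℕ, s.Prime → p₀ < s → ∀ g : G, vo s g ≤ e.factorization s) :
    ∃ y : ℕ, y ^ t ≤ e ∧ nord (Set.univ : Set G) ≤ (a + 1) ^ (p₀ + 1) * y := by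
  classical
  set P := e.primeFactors.filter fun s => p₀ < s with hP
  refine ⟨∏ s ∈ P, (e.factorization s + 1), ?_, ?_⟩
  · calc _ = ∏ s ∈ P, (e.factorization s + 1) ^ t := (Finset.prod_pow _ _ _).symm
      _ ≤ ∏ s ∈ P, s ^ e.factorization s := by
          refine Finset.prod_le_prod' fun s hs => ?_
          calc _ ≤ (2 ^ e.factorization s) ^ t := Nat.pow_le_pow_left Nat.lt_two_pow_self _
            _ = (2 ^ t) ^ e.factorization s := by rw [← pow_mul, ← pow_mul, mul_comm]
            _ ≤ _ := Nat.pow_le_pow_left (ht.trans (Finset.mem_filter.1 hs).2.le) _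
      _ ≤ ∏ s ∈ e.primeFactors, s ^ e.factorization s :=
          Finset.prod_le_prod_of_subset_of_one_le' (Finset.filter_subset _ _) fun s hs _ =>
            Nat.one_le_pow _ _ (Nat.prime_of_mem_primeFactors hs).pos
      _ = e := Nat.prod_factorization_pow_eq_self he
  · let b : ℕ → ℕ := fun s => if s ≤ p₀ then a else e.factorization s
    have hd : Disjoint (Finset.range (p₀ + 1)) P := Finset.disjoint_left.2 fun s hs hs' => by
      have := (Finset.mem_filter.1 hs').2
      have := Finset.mem_range.1 hs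
      omega
    have hc : ((Finset.range (p₀ + 1) ∪ P).finsupp fun s => Finset.range (b s + 1)).card =
        (a + 1) ^ (p₀ + 1) * ∏ s ∈ P, (e.factorization s + 1) := by
      rw [Finset.card_finsupp, Finset.prod_union hd]
      congr 1
      · rw [Finset.prod_congr rfl (g := fun _ => a + 1) fun s hs => by
          simp only [b, Finset.card_range, if_pos (Nat.lt_succ_iff.1 (Finset.mem_range.1 hs))]]
        simp
      · exact Finset.prod_congr rfl fun s hs => by
          simp only [b, Finset.card_range, if_neg (Finset.mem_filter.1 hs).2.not_ge]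
    rw [← hc, ← Set.ncard_coe_finset]
    refine Set.ncard_le_ncard_of_injOn Nat.factorization ?_ ?_ (Finset.finite_toSet _)
    · rintro _ ⟨g, -, rfl⟩
      have hpr : ∀ s, (orderOf g).factorization s ≠ 0 → s.Prime := fun s hs => by
        by_contra hp
        exact hs (Nat.factorization_eq_zero_of_not_prime _ hp)
      refine Finset.mem_coe.2 (Finset.mem_finsupp_iff.2 ⟨fun s hs => ?_, fun s _ => ?_⟩)
      · have h3 := Finsupp.mem_support_iff.1 hs
        rcases le_or_gt s p₀ with h4 | h4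
        · exact Finset.mem_union_left _ (Finset.mem_range.2 (Nat.lt_succ_of_le h4))
        · have h5 : (orderOf g).factorization s ≤ _ := h2 s (hpr s h3) h4 g
          refine Finset.mem_union_right _ (Finset.mem_filter.2 ⟨?_, h4⟩)
          rw [← Nat.support_factorization, Finsupp.mem_support_iff]
          omega
      · refine Finset.mem_range.2 (Nat.lt_succ_of_le ?_)
        by_cases h3 : (orderOf g).factorization s = 0
        · rw [h3]
          exact Nat.zero_le _
        · simp only [b]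
          split_ifs with h4
          · exact h1 s (hpr s h3) g
          · exact h2 s (hpr s h3) (not_le.1 h4) g
    · rintro _ ⟨g, -, rfl⟩ _ ⟨g', -, rfl⟩ h3
      exact Nat.factorization_inj (orderOf_pos g).ne' (orderOf_pos g').ne' h3

/-- All invariant global structures over `D` have good layers in the holomorph. -/
def GoodAll (M c : ℕ) (D : Subgroup G) : Prop :=
  ∀ (ι : Type) [Finite ι] (R : Subgroup G) (K : ι → Subgroup G), AS M D R K →
    Good c (D.map (SemidirectProduct.inl : G →* Hol G)) (R.map SemidirectProduct.inl)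
      fun i => (K i).map SemidirectProduct.inl

/-- With `o = nord univ` of the quotient by `R' = cm (jn K J) D` and `k = Q o + 1`: otherwise
`main_aut` for `AS.sub` gives `k * nord R' ≤ Q * (o * nord R')`. -/
theorem ncard_lt (M c : ℕ) : ∃ C : ℕ, ∀ (G : Type) [Group G] [Finite G] (ι : Type) [Finite ι]
    (D R : Subgroup G) (K : ι → Subgroup G) (J : Set ι) (Q : ℕ) [(cm (jn K J) D).Normal],
    AS M D R K → Group.IsSolvable D → GoodAll M c D → AInv K J →
    Nat.card (MulAction.orbitRel.Quotient (MulAut G) G) ≤ Q * nord (Set.univ : Set G) →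
    J.ncard < C * (Q * nord (Set.univ : Set (G ⧸ cm (jn K J) D)) + 1) ^ C := by
  obtain ⟨C, hC⟩ := main_aut M c
  refine ⟨C, fun G _ _ ι _ D R K J Q _ h hn hG hJ hQ => ?_⟩
  by_contra hc
  have h1 := h.sub hJ
  have h2 := hC G J D _ _ _ h1.gs hn (hG J _ _ h1) h1.aD h1.aR h1.aK
    ((not_lt.1 hc).trans (Nat.card_coe_set_eq J).ge)
  have h3 := (h2.trans hQ).trans (Nat.mul_le_mul_left Q (nord_le_mul (cm (jn K J) D)))
  have h4 := nord_pos (cm (jn K J) D)
  rw [add_mul, mul_assoc] at h3
  omega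

end Pool.Agent.Lib.MP_634dc6_al
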